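import Pool.Agent.Work.MP_54f573_pr.Cases

set_option autoImplicit false
open Classical

namespace Pool.MP_54f573_pr.RGO

/-- few chains: maps placing chains high -/
theorem RevN.high {α : Type*} [PartialOrder α] (S : Finset α) :
    RevN (W S) (fun v w => ¬ v ≤ w ∧ v ∈ S) := by
  obtain ⟨c, hc1, hc2⟩ := W_chain S
  have h := RevN.biUnion (k := 1) (W S)
    (fun i v w => ¬ v ≤ w ∧ (v ∈ S.filter (fun v => c v = i) ∨ w ∈ (∅ : Finset α))) (by
      intro i _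
      refine RevN.two_chain _ ∅ ?_ (fun a ha => absurd ha (Finset.notMem_empty a))
        (fun x _ g hg => absurd hg (Finset.notMem_empty g))
      intro a ha b hb
      rw [Finset.mem_filter] at ha hb
      rcases hc2 a ha.1 b hb.1 (by rw [ha.2, hb.2]) with h | h | h
      · exact Or.inl h.le
      · exact Or.inl h.le
      · exact Or.inr h.le)
  rw [Nat.mul_one] at h
  refine h.mono ?_
  rintro v w ⟨hvw, hv⟩
  exact ⟨c v, hc1 v hv, hvw, Or.inl (Finset.mem_filter.2 ⟨hv, rfl⟩)⟩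

theorem sel_card_supermod (k : ℕ) (p q pq : ℕ → Prop) (h : ∀ i, pq i ↔ p i ∧ q i) :
    (sel (Finset.range k) p).card + (sel (Finset.range k) q).card ≤
      k + (sel (Finset.range k) pq).card := by
  have h1 := Finset.card_union_add_card_inter (sel (Finset.range k) p) (sel (Finset.range k) q)
  have h2 : (sel (Finset.range k) p ∪ sel (Finset.range k) q).card ≤ k := by
    have := Finset.card_le_card (Finset.union_subset (sel_subset (Finset.range k) p)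
      (sel_subset (Finset.range k) q))
    rwa [Finset.card_range] at this
  have h3 : sel (Finset.range k) p ∩ sel (Finset.range k) q = sel (Finset.range k) pq := by
    ext i
    rw [Finset.mem_inter, mem_sel, mem_sel, mem_sel, h i]
    tauto
  rw [h3] at h1
  omega

theorem W_supermod_down {α : Type*} [PartialOrder α] {I J B C : Finset α}
    (h1 : ∀ x ∈ I, ∀ y ∈ J, x < y → x ∈ J) (h2 : ∀ y ∈ J, ∀ x ∈ I, y < x → y ∈ I)
    (hB : I ∪ J ⊆ B) (hC : I ∩ J ⊆ C) : W I + W J ≤ W B + W C := by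
  have h := wd_supermod (r := fun a b : α => a < b) (fun _ _ _ a b => lt_trans a b) h1 h2
  exact h.trans (Nat.add_le_add (W_mono hB) (W_mono hC))

theorem W_supermod_up {α : Type*} [PartialOrder α] {I J B C : Finset α}
    (h1 : ∀ x ∈ I, ∀ y ∈ J, y < x → x ∈ J) (h2 : ∀ y ∈ J, ∀ x ∈ I, x < y → y ∈ I)
    (hB : I ∪ J ⊆ B) (hC : I ∩ J ⊆ C) : W I + W J ≤ W B + W C := by
  have h := wd_supermod (r := fun a b : α => b < a) (fun _ _ _ a b => lt_trans b a) h1 h2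
  rw [wd_flip (fun a b : α => a < b), wd_flip (fun a b : α => a < b),
    wd_flip (fun a b : α => a < b), wd_flip (fun a b : α => a < b)] at h
  exact h.trans (Nat.add_le_add (W_mono hB) (W_mono hC))

theorem core (hS : IneqS) (hI : IneqI) (hF : IneqF) : CoreStatement := by
  intro h m N₀ r t M hAl hm hr ht hM α _ S hSh hcost
  have hsm : Small α t := small_of_cost (r := r) (M := M) ht (by omega) hcost
  obtain ⟨A, hAS, hA, hAc⟩ := exists_W S
  by_cases hwt : W S ≤ t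
  · refine ((RevN.high S).le (by omega)).mono ?_
    rintro v w ⟨hvw, hv, -⟩
    exact ⟨hvw, hv⟩
  push Not at hwt
  have htA : t < A.card := by omega
  obtain ⟨x₀, hx₀⟩ : A.Nonempty := Finset.card_pos.1 (by omega)
  set D := sel S (fun v => ∃ a ∈ A, v < a) with hDdef
  set U := sel S (fun v => ∃ a ∈ A, a < v) with hUdef
  have hDA : ∀ v ∈ D, ∃ a ∈ A, v < a := fun v hv => (mem_sel.1 hv).2
  have hUA : ∀ v ∈ U, ∃ a ∈ A, a < v := fun v hv => (mem_sel.1 hv).2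
  have hSAU : ∀ v ∈ S, v ∈ A ∨ v ∈ D ∨ v ∈ U := by
    intro v hv
    by_cases hvA : v ∈ A
    · exact Or.inl hvA
    right
    rcases max_antichain_comparable hAS hA hAc v hv with ⟨a, ha, hva⟩ | ⟨a, ha, hav⟩
    · left
      refine mem_sel.2 ⟨hv, a, ha, lt_of_le_of_ne hva ?_⟩
      rintro rfl
      exact hvA ha
    · exact Or.inr (mem_sel.2 ⟨hv, a, ha, hav⟩)
  have hdis : Disjoint D U := by
    rw [Finset.disjoint_left]
    intro v hv hv'
    obtain ⟨a, ha, hva⟩ := hDA v hv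
    obtain ⟨b, hb, hbv⟩ := hUA v hv'
    exact hA b hb a ha (hbv.trans hva)
  have hDh : ∀ C ⊆ D, Ch C → C.card ≤ h := fun C hC => hSh C (hC.trans (sel_subset _ _))
  have hUh : ∀ C ⊆ U, Ch C → C.card ≤ h := fun C hC => hSh C (hC.trans (sel_subset _ _))
  have ht' : (0 : ℝ) < t := by exact_mod_cast ht
  have hW0 : W (∅ : Finset α) = 0 := wd_empty _
  have hne : ∀ v : α, v ∉ (∅ : Finset α) := fun v => Finset.notMem_empty v
  rcases St.exists hdis t r hr x₀ (t / r) (Nat.div_mul_le_self t r) with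
    ⟨J, -, D', U', x, u, F0, hs, hMF⟩ | ⟨D', U', x, u, F0, hs⟩
  swap
  · -- ran to the end: too expensive
    exfalso
    have hC := cost_T hA hDA hUA hs hr hcost hM
    have hac : ACh (∅ : Finset α) := fun a ha => absurd ha (hne a)
    have h1 := hC ∅ ∅ ∅ ∅ ∅ 0 0 (fun e he => absurd he (Finset.notMem_empty _))
      (fun e he => absurd he (Finset.notMem_empty _)) (Cov.empty _) (Cov.empty _) (by omega)
      (Finset.empty_subset _) (Finset.empty_subset _) hac (fun v hv => absurd hv (hne v))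
      (Finset.empty_subset _) hac (fun v hv => absurd hv (hne v))
    simp only [Finset.card_empty, Nat.cast_zero, mul_zero, zero_mul, add_zero] at h1
    have h2 : t - t / r * r < r := by
      have := Nat.div_add_mod t r
      have h3 := Nat.mod_lt t hr
      have h4 : t / r * r = r * (t / r) := Nat.mul_comm _ _
      omega
    have h3 : ((t - t / r * r : ℕ) : ℝ) ≤ r := by exact_mod_cast h2.le
    have h4 : ((t - t / r * r : ℕ) : ℝ) ≤ t := by exact_mod_cast Nat.sub_le _ _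
    have h5 : (0 : ℝ) ≤ ((t - t / r * r : ℕ) : ℝ) := Nat.cast_nonneg _
    have h6 : ((t - t / r * r : ℕ) : ℝ) ^ 2 ≤ r * t := by nlinarith
    have h7 : (t : ℝ) + 1 ≤ A.card := by exact_mod_cast htA
    nlinarith
  set k := J * r with hk
  set τ := t - k with hτ
  have hkt : k ≤ t := hs.Jr
  have hτk : τ + k = t := by omega
  have hC : CostH A D' U' x u t τ r k := cost_T hA hDA hUA hs hr hcost hM
  obtain ⟨hWD', hWU'⟩ := case_W hC hsm ht htA.le hA
  have hx : ∀ i < k, ∃ a ∈ A, x i < a := fun i hi => hDA _ (hs.xD i hi).1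
  have hu : ∀ i < k, ∃ a ∈ A, a < u i := fun i hi => hUA _ (hs.uU i hi).1
  obtain ⟨X, hX, hXa, hXc⟩ := exists_W D'
  obtain ⟨X', hX', hXa', hXc'⟩ := exists_W U'
  have hor : W (Q1 U' ∅ X') + W D' ≤ τ ∨ W (P2 D' ∅ X) + W U' ≤ τ := by
    by_contra hcon
    push Not at hcon
    exact case_G hC hsm ht htA.le hA (by omega) D' U' D' U' ∅ ∅ X X' ∅ (Finset.Subset.refl _)
      (Finset.Subset.refl _) (Finset.Subset.refl _) (Finset.Subset.refl _) (Finset.empty_subset _)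
      (Finset.empty_subset _) hX hXa hXc hX' hXa' hXc' (Finset.empty_subset _)
      (fun v hv => absurd hv (hne v)) (fun v hv => absurd hv (hne v)) (Or.inr ⟨rfl, rfl⟩) hWD' hWU'
      hcon.2 hcon.1
  obtain ⟨P0, Q0, Del1, -, hP0, hP0up, -, hQ0, hQ0dn, hP0τ, hQ0τ, hDel1, hcov1⟩ :=
    peel (h := h) hMF (N := D') (N' := U') (FD := ∅) (FU := ∅) (X := X) (X' := X')
      (Finset.Subset.refl _) (fun v _ w hw _ => hw) (Finset.Subset.refl _) (fun v _ w hw _ => hw)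
      (Finset.empty_subset _) (fun v hv => absurd hv (hne v)) (Finset.empty_subset _)
      (fun v hv => absurd hv (hne v)) (fun v hv w hw _ => Or.inl ⟨hv, hw⟩) hX hXa hXc hX' hXa' hXc'
      (fun C hC => hDh C (hC.trans hs.subD)) (fun C hC => hUh C (hC.trans hs.subU))
      (by rw [hW0]; omega) (by rw [hW0]; omega) hor
  set D₁ := D' \ Del1 with hD₁
  set U₁ := U' \ Del1 with hU₁
  set VD := P0 \ Del1 with hVD
  set VU := Q0 \ Del1 with hVU
  have sD₁ : D₁ ⊆ D' := Finset.sdiff_subset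
  have sU₁ : U₁ ⊆ U' := Finset.sdiff_subset
  have sVD : VD ⊆ D₁ := Finset.sdiff_subset_sdiff hP0 (Finset.Subset.refl _)
  have sVU : VU ⊆ U₁ := Finset.sdiff_subset_sdiff hQ0 (Finset.Subset.refl _)
  have hVDup : ∀ v ∈ VD, ∀ w ∈ D₁, v < w → w ∈ VD := by
    intro v hv w hw hvw
    rw [hVD, Finset.mem_sdiff] at hv ⊢
    rw [hD₁, Finset.mem_sdiff] at hw
    exact ⟨hP0up v hv.1 w hw.1 hvw, hw.2⟩
  have hVUdn : ∀ v ∈ VU, ∀ w ∈ U₁, w < v → w ∈ VU := by
    intro v hv w hw hvw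
    rw [hVU, Finset.mem_sdiff] at hv ⊢
    rw [hU₁, Finset.mem_sdiff] at hw
    exact ⟨hQ0dn v hv.1 w hw.1 hvw, hw.2⟩
  have hWU₁ : W U₁ ≤ W U' := W_mono sU₁
  have hWD₁ : W D₁ ≤ W D' := W_mono sD₁
  have hVDτ : W VD + W U₁ ≤ τ := by
    have h1 : W VD ≤ W P0 := W_mono Finset.sdiff_subset
    omega
  have hVUτ : W VU + W D₁ ≤ τ := by
    have h1 : W VU ≤ W Q0 := W_mono Finset.sdiff_subset
    omega
  have hK1 : ∀ v ∈ D₁, ∀ w ∈ U₁, ¬ v ≤ w → v ∈ VD ∨ w ∈ VU := by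
    intro v hv w hw hvw
    rw [hD₁, Finset.mem_sdiff] at hv
    rw [hU₁, Finset.mem_sdiff] at hw
    rcases hcov1 v hv.1 w hw.1 hv.2 hw.2 hvw with h1 | h1
    · exact Or.inl (Finset.mem_sdiff.2 ⟨h1, hv.2⟩)
    · exact Or.inr (Finset.mem_sdiff.2 ⟨h1, hw.2⟩)
  have hDA₁ : ∀ v ∈ D₁, ∃ a ∈ A, v < a := fun v hv => hDA v (hs.subD (sD₁ hv))
  have hUA₁ : ∀ v ∈ U₁, ∃ a ∈ A, a < v := fun v hv => hUA v (hs.subU (sU₁ hv))
  have hDh₁ : ∀ C ⊆ D₁, Ch C → C.card ≤ h := fun C hC => hDh C ((hC.trans sD₁).trans hs.subD)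
  have hUh₁ : ∀ C ⊆ U₁, Ch C → C.card ≤ h := fun C hC => hUh C ((hC.trans sU₁).trans hs.subU)
  have hSmem : ∀ v ∈ S, v ∉ Del1 → v ∈ A ∨ v ∈ D₁ ∨ v ∈ U₁ ∨ (∃ i < k, v = x i) ∨
      (∃ i < k, v = u i) := by
    intro v hv hvD
    rcases hSAU v hv with h1 | h1 | h1
    · exact Or.inl h1
    · rcases hs.covD v h1 with h2 | h2
      · exact Or.inr (Or.inl (Finset.mem_sdiff.2 ⟨h2, hvD⟩))
      · exact Or.inr (Or.inr (Or.inr (Or.inl h2)))
    · rcases hs.covU v h1 with h2 | h2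
      · exact Or.inr (Or.inr (Or.inl (Finset.mem_sdiff.2 ⟨h2, hvD⟩)))
      · exact Or.inr (Or.inr (Or.inr (Or.inr h2)))
  have hthin : (τ / m + N₀) * 2 ≤ (t / m + N₀) * 2 :=
    Nat.mul_le_mul_right 2 (Nat.add_le_add_right (Nat.div_le_div_right (by omega)) _)
  -- the function g
  let g : Finset α → ℕ := fun Z => Z.card + W (sel D₁ (fun v => ∀ a ∈ Z, v < a)) +
      W (sel U₁ (fun v => ∀ a ∈ Z, a < v)) + W (sel VD (fun v => ∀ a ∈ Z, ¬ v < a)) +
      W (sel VU (fun v => ∀ a ∈ Z, ¬ a < v)) +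
      (sel (Finset.range k) (fun i => ∀ a ∈ Z, ¬ a < u i)).card +
      (sel (Finset.range k) (fun i => ∀ a ∈ Z, ¬ x i < a)).card
  have hg : ∀ Z, g Z = Z.card + W (sel D₁ (fun v => ∀ a ∈ Z, v < a)) +
      W (sel U₁ (fun v => ∀ a ∈ Z, a < v)) + W (sel VD (fun v => ∀ a ∈ Z, ¬ v < a)) +
      W (sel VU (fun v => ∀ a ∈ Z, ¬ a < v)) +
      (sel (Finset.range k) (fun i => ∀ a ∈ Z, ¬ a < u i)).card +
      (sel (Finset.range k) (fun i => ∀ a ∈ Z, ¬ x i < a)).card := fun Z => rfl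
  clear_value g
  obtain ⟨Y, hYA, hYmax⟩ := Finset.exists_max_image A.powerset g ⟨∅, Finset.empty_mem_powerset _⟩
  rw [Finset.mem_powerset] at hYA
  by_cases hgY : g Y ≤ 2 * t
  · -- T2 works
    have hfc := final_construction h m N₀ hAl A D₁ U₁ A ∅ hA hDA₁ hUA₁ (fun a ha => Or.inl ha)
      (Finset.Subset.refl _) (Finset.empty_subset _) (fun a _ => hne a) k x u hx hu hs.xu VD VD VU VU
      (Finset.Subset.refl _) sVD (Finset.Subset.refl _) sVU hVDup hVDup hVUdn hVUdn hK1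
      (fun v _ y hy => absurd hy (hne y)) (fun v _ y hy => absurd hy (hne y)) τ hVDτ hVUτ
      (by have := W_mono sVU; omega) hDh₁ hUh₁ (by
        intro Z hZ _
        have h1 := hYmax Z (Finset.mem_powerset.2 hZ)
        rw [hg Z] at h1
        omega)
    refine ((hfc.or (RevN.width Del1)).le ?_).mono ?_
    · have h1 : wd (fun a b : α => a < b) Del1 * 2 ≤ 4 * r * h := by
        have : wd (fun a b : α => a < b) Del1 ≤ 2 * r * h := hDel1
        calc wd (fun a b : α => a < b) Del1 * 2 ≤ (2 * r * h) * 2 := Nat.mul_le_mul_right 2 this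
          _ = 4 * r * h := by ring
      have h2 : 8 * r * h = 4 * r * h + 4 * r * h := by ring
      omega
    · rintro v w ⟨hvw, hv, hw⟩
      by_cases h1 : v ∈ Del1 ∨ w ∈ Del1
      · exact Or.inr ⟨hvw, h1⟩
      · rw [not_or] at h1
        exact Or.inl ⟨hvw, hSmem v hv h1.1, hSmem w hw h1.2⟩
  push Not at hgY
  -- Y is nonempty
  have hYne : Y.Nonempty := by
    rw [Finset.nonempty_iff_ne_empty]
    intro hYe
    rw [hg Y, hYe, Finset.card_empty] at hgY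
    have h1 : W (sel D₁ (fun v => ∀ a ∈ (∅ : Finset α), v < a)) ≤ W D₁ := W_mono (sel_subset _ _)
    have h2 : W (sel U₁ (fun v => ∀ a ∈ (∅ : Finset α), a < v)) ≤ W U₁ := W_mono (sel_subset _ _)
    have h3 : W (sel VD (fun v => ∀ a ∈ (∅ : Finset α), ¬ v < a)) ≤ W VD := W_mono (sel_subset _ _)
    have h4 : W (sel VU (fun v => ∀ a ∈ (∅ : Finset α), ¬ a < v)) ≤ W VU := W_mono (sel_subset _ _)
    have h5 := Finset.card_le_card (sel_subset (Finset.range k)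
      (fun i => ∀ a ∈ (∅ : Finset α), ¬ a < u i))
    have h6 := Finset.card_le_card (sel_subset (Finset.range k)
      (fun i => ∀ a ∈ (∅ : Finset α), ¬ x i < a))
    rw [Finset.card_range] at h5 h6
    omega
  obtain ⟨a₀, ha₀⟩ := hYne
  have hYne : Y.Nonempty := ⟨a₀, ha₀⟩
  have hgY' := hgY
  rw [hg Y] at hgY'
  obtain ⟨hmt, hnn⟩ := case_SI hS hI hC hsm ht htA.le hA hτk D₁ U₁ VD VU Y sD₁ sU₁ sVD sVU hYA hYne
    hVDτ hVUτ hgY'
  set FD := sel D₁ (fun v => (∃ w ∈ U₁, (∀ a ∈ Y, a < w) ∧ ¬ v ≤ w) ∨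
    (v ∈ VD ∧ ∀ a ∈ Y, ¬ v < a)) with hFDdef
  set FU := sel U₁ (fun w => (∃ v ∈ D₁, (∀ a ∈ Y, v < a) ∧ ¬ v ≤ w) ∨
    (w ∈ VU ∧ ∀ a ∈ Y, ¬ a < w)) with hFUdef
  set N := sel D₁ (fun v => ∃ a ∈ Y, ¬ v < a) with hNdef
  set N' := sel U₁ (fun v => ∃ a ∈ Y, ¬ a < v) with hN'def
  have sFD : FD ⊆ D₁ := sel_subset _ _
  have sFU : FU ⊆ U₁ := sel_subset _ _
  have sN : N ⊆ D₁ := sel_subset _ _
  have sN' : N' ⊆ U₁ := sel_subset _ _
  have hFDY : ∀ v ∈ FD, ∀ a ∈ Y, ¬ v < a := by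
    intro v hv a ha hva
    rcases (mem_sel.1 hv).2 with ⟨w, -, hw, hvw⟩ | h1
    · exact hvw (hva.le.trans (hw a ha).le)
    · exact h1.2 a ha hva
  have hFUY : ∀ v ∈ FU, ∀ a ∈ Y, ¬ a < v := by
    intro v hv a ha hva
    rcases (mem_sel.1 hv).2 with ⟨w, -, hw, hvw⟩ | h1
    · exact hvw ((hw a ha).le.trans hva.le)
    · exact h1.2 a ha hva
  have hFDN : FD ⊆ N := fun v hv => mem_sel.2 ⟨sFD hv, a₀, ha₀, hFDY v hv a₀ ha₀⟩
  have hFUN : FU ⊆ N' := fun v hv => mem_sel.2 ⟨sFU hv, a₀, ha₀, hFUY v hv a₀ ha₀⟩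
  have hNup : ∀ v ∈ N, ∀ w ∈ D₁, v < w → w ∈ N := by
    intro v hv w hw hvw
    obtain ⟨a, ha, hva⟩ := (mem_sel.1 hv).2
    exact mem_sel.2 ⟨hw, a, ha, fun hwa => hva (hvw.trans hwa)⟩
  have hN'dn : ∀ v ∈ N', ∀ w ∈ U₁, w < v → w ∈ N' := by
    intro v hv w hw hvw
    obtain ⟨a, ha, hva⟩ := (mem_sel.1 hv).2
    exact mem_sel.2 ⟨hw, a, ha, fun hwa => hva (hwa.trans hvw)⟩
  have hFDup : ∀ v ∈ FD, ∀ w ∈ D₁, v < w → w ∈ FD := by
    intro v hv w hw hvw
    rcases (mem_sel.1 hv).2 with ⟨b, hb, hb2, hvb⟩ | h1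
    · exact mem_sel.2 ⟨hw, Or.inl ⟨b, hb, hb2, fun h1 => hvb (hvw.le.trans h1)⟩⟩
    · exact mem_sel.2 ⟨hw, Or.inr ⟨hVDup v h1.1 w hw hvw, fun a ha hwa => h1.2 a ha (hvw.trans hwa)⟩⟩
  have hFUdn : ∀ v ∈ FU, ∀ w ∈ U₁, w < v → w ∈ FU := by
    intro v hv w hw hvw
    rcases (mem_sel.1 hv).2 with ⟨b, hb, hb2, hvb⟩ | h1
    · exact mem_sel.2 ⟨hw, Or.inl ⟨b, hb, hb2, fun h1 => hvb (h1.trans hvw.le)⟩⟩
    · exact mem_sel.2 ⟨hw, Or.inr ⟨hVUdn v h1.1 w hw hvw, fun a ha hwa => h1.2 a ha (hwa.trans hvw)⟩⟩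
  have hK2 : ∀ v ∈ D₁, ∀ w ∈ U₁, ¬ v ≤ w → (v ∈ N ∧ w ∈ N') ∨ v ∈ FD ∨ w ∈ FU := by
    intro v hv w hw hvw
    by_cases h1 : v ∈ N
    · by_cases h2 : w ∈ N'
      · exact Or.inl ⟨h1, h2⟩
      · right; left
        refine mem_sel.2 ⟨hv, Or.inl ⟨w, hw, fun a ha => ?_, hvw⟩⟩
        by_contra hcon
        exact h2 (mem_sel.2 ⟨hw, a, ha, hcon⟩)
    · right; right
      refine mem_sel.2 ⟨hw, Or.inl ⟨v, hv, fun a ha => ?_, hvw⟩⟩
      by_contra hcon
      exact h1 (mem_sel.2 ⟨hv, a, ha, hcon⟩)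
  have hFUτ : W FU + W D₁ ≤ τ := case_F hF hC hsm ht htA.le hA hτk D₁ U₁ VD VU FU Y sD₁ sU₁ sVD sFU
    hFUY hYA hYne hVUτ hmt hgY'
  have hFDτ : W FD + W U₁ ≤ τ := case_F' hF hC hsm ht htA.le hA hτk D₁ U₁ VD VU FD Y sD₁ sU₁ sVU
    sFD hFDY hYA hYne hVDτ hmt hgY'
  obtain ⟨X₁, hX₁, hX₁a, hX₁c⟩ := exists_W D₁
  obtain ⟨X₁', hX₁', hX₁a', hX₁c'⟩ := exists_W U₁
  have hor2 : W (Q1 N' FU X₁') + W D₁ ≤ τ ∨ W (P2 N FD X₁) + W U₁ ≤ τ := by
    by_contra hcon
    push Not at hcon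
    exact case_G hC hsm ht htA.le hA (by omega) D₁ U₁ N N' FD FU X₁ X₁' Y sD₁ sU₁ sN sN' sFD sFU
      hX₁ hX₁a hX₁c hX₁' hX₁a' hX₁c' hYA hFDY hFUY (Or.inl hmt) (by omega) (by omega)
      hcon.2 hcon.1
  obtain ⟨P, Q, Del2, hFDP, hPN, hPup, hFUQ, hQN, hQdn, hPτ, hQτ, hDel2, hcov2⟩ :=
    peel (h := h) (hMF.subset sD₁ sU₁) sN hNup sN' hN'dn hFDN hFDup hFUN hFUdn hK2 hX₁ hX₁a hX₁c
      hX₁' hX₁a' hX₁c' hDh₁ hUh₁ hFDτ hFUτ hor2
  set D₂ := D₁ \ Del2 with hD₂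
  set U₂ := U₁ \ Del2 with hU₂
  have sD₂ : D₂ ⊆ D₁ := Finset.sdiff_subset
  have sU₂ : U₂ ⊆ U₁ := Finset.sdiff_subset
  have upsd : ∀ B : Finset α, (∀ v ∈ B, ∀ w ∈ D₁, v < w → w ∈ B) →
      ∀ v ∈ B \ Del2, ∀ w ∈ D₂, v < w → w ∈ B \ Del2 := by
    intro B hB v hv w hw hvw
    rw [Finset.mem_sdiff] at hv ⊢
    rw [hD₂, Finset.mem_sdiff] at hw
    exact ⟨hB v hv.1 w hw.1 hvw, hw.2⟩
  have dnsd : ∀ B : Finset α, (∀ v ∈ B, ∀ w ∈ U₁, w < v → w ∈ B) →
      ∀ v ∈ B \ Del2, ∀ w ∈ U₂, w < v → w ∈ B \ Del2 := by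
    intro B hB v hv w hw hvw
    rw [Finset.mem_sdiff] at hv ⊢
    rw [hU₂, Finset.mem_sdiff] at hw
    exact ⟨hB v hv.1 w hw.1 hvw, hw.2⟩
  have wsd : ∀ B : Finset α, W (B \ Del2) ≤ W B := fun B => W_mono Finset.sdiff_subset
  have hfc := final_construction h m N₀ hAl A D₂ U₂ (A \ Y) Y hA (fun v hv => hDA₁ v (sD₂ hv))
    (fun v hv => hUA₁ v (sU₂ hv))
    (fun a ha => by
      by_cases h1 : a ∈ Y
      · exact Or.inr h1
      · exact Or.inl (Finset.mem_sdiff.2 ⟨ha, h1⟩))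
    Finset.sdiff_subset hYA (fun a ha => (Finset.mem_sdiff.1 ha).2) k x u hx hu hs.xu
    (P \ Del2) (N \ Del2) (Q \ Del2) (N' \ Del2)
    (Finset.sdiff_subset_sdiff hPN (Finset.Subset.refl _))
    (Finset.sdiff_subset_sdiff sN (Finset.Subset.refl _))
    (Finset.sdiff_subset_sdiff hQN (Finset.Subset.refl _))
    (Finset.sdiff_subset_sdiff sN' (Finset.Subset.refl _))
    (upsd P hPup) (upsd N hNup) (dnsd Q hQdn) (dnsd N' hN'dn)
    (by
      intro v hv w hw hvw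
      rw [hD₂, Finset.mem_sdiff] at hv
      rw [hU₂, Finset.mem_sdiff] at hw
      rcases hcov2 v hv.1 w hw.1 hv.2 hw.2 hvw with h1 | h1
      · exact Or.inl (Finset.mem_sdiff.2 ⟨h1, hv.2⟩)
      · exact Or.inr (Finset.mem_sdiff.2 ⟨h1, hw.2⟩))
    (by
      intro v hv y hy hvy
      rw [hD₂, Finset.mem_sdiff] at hv
      exact Finset.mem_sdiff.2 ⟨mem_sel.2 ⟨hv.1, y, hy, fun h1 => hvy h1.le⟩, hv.2⟩)
    (by
      intro v hv y hy hvy
      rw [hU₂, Finset.mem_sdiff] at hv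
      exact Finset.mem_sdiff.2 ⟨mem_sel.2 ⟨hv.1, y, hy, fun h1 => hvy h1.le⟩, hv.2⟩)
    τ
    (by have := wsd P; have := W_mono sU₂; omega)
    (by have := wsd Q; have := W_mono sD₂; omega)
    (by have := wsd N; have := wsd N'; omega)
    (fun C hC => hDh₁ C (hC.trans sD₂)) (fun C hC => hUh₁ C (hC.trans sU₂))
    (by
      intro Z hZ hZne
      have hZA : Z ⊆ A := fun a ha => (Finset.mem_sdiff.1 (hZ ha)).1
      have hdYZ : Disjoint Y Z := by
        rw [Finset.disjoint_left]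
        exact fun a ha ha' => (Finset.mem_sdiff.1 (hZ ha')).2 ha
      have hmax := hYmax (Y ∪ Z) (Finset.mem_powerset.2 (Finset.union_subset hYA hZA))
      rw [hg (Y ∪ Z), hg Y, Finset.card_union_of_disjoint hdYZ] at hmax
      -- the six supermodular inequalities
      have s1 : W (sel D₁ (fun v => ∀ a ∈ Y, v < a)) + W (sel D₁ (fun v => ∀ a ∈ Z, v < a)) ≤
          W D₁ + W (sel D₁ (fun v => ∀ a ∈ Y ∪ Z, v < a)) := by
        refine W_supermod_down ?_ ?_ (Finset.union_subset (sel_subset _ _) (sel_subset _ _)) ?_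
        · intro v hv w hw hvw
          exact mem_sel.2 ⟨(mem_sel.1 hv).1, fun a ha => hvw.trans ((mem_sel.1 hw).2 a ha)⟩
        · intro v hv w hw hvw
          exact mem_sel.2 ⟨(mem_sel.1 hv).1, fun a ha => hvw.trans ((mem_sel.1 hw).2 a ha)⟩
        · intro v hv
          rw [Finset.mem_inter, mem_sel, mem_sel] at hv
          refine mem_sel.2 ⟨hv.1.1, fun a ha => ?_⟩
          rcases Finset.mem_union.1 ha with ha | ha
          · exact hv.1.2 a ha
          · exact hv.2.2 a ha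
      have s2 : W (sel U₁ (fun v => ∀ a ∈ Y, a < v)) + W (sel U₁ (fun v => ∀ a ∈ Z, a < v)) ≤
          W U₁ + W (sel U₁ (fun v => ∀ a ∈ Y ∪ Z, a < v)) := by
        refine W_supermod_up ?_ ?_ (Finset.union_subset (sel_subset _ _) (sel_subset _ _)) ?_
        · intro v hv w hw hvw
          exact mem_sel.2 ⟨(mem_sel.1 hv).1, fun a ha => ((mem_sel.1 hw).2 a ha).trans hvw⟩
        · intro v hv w hw hvw
          exact mem_sel.2 ⟨(mem_sel.1 hv).1, fun a ha => ((mem_sel.1 hw).2 a ha).trans hvw⟩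
        · intro v hv
          rw [Finset.mem_inter, mem_sel, mem_sel] at hv
          refine mem_sel.2 ⟨hv.1.1, fun a ha => ?_⟩
          rcases Finset.mem_union.1 ha with ha | ha
          · exact hv.1.2 a ha
          · exact hv.2.2 a ha
      have s3 : W (sel VD (fun v => ∀ a ∈ Y, ¬ v < a)) + W (sel P (fun v => ∀ a ∈ Z, ¬ v < a)) ≤
          W P + W (sel VD (fun v => ∀ a ∈ Y ∪ Z, ¬ v < a)) := by
        have hWP : sel VD (fun v => ∀ a ∈ Y, ¬ v < a) ⊆ P := by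
          intro v hv
          exact hFDP (mem_sel.2 ⟨sVD (mem_sel.1 hv).1, Or.inr (mem_sel.1 hv)⟩)
        refine W_supermod_up ?_ ?_ (Finset.union_subset hWP (sel_subset _ _)) ?_
        · intro v hv w hw hvw
          exact mem_sel.2 ⟨hWP hv, fun a ha h1 => (mem_sel.1 hw).2 a ha (hvw.trans h1)⟩
        · intro v hv w hw hvw
          have hvD : v ∈ D₁ := sN (hPN (mem_sel.1 hv).1)
          exact mem_sel.2 ⟨hVDup w (mem_sel.1 hw).1 v hvD hvw,
            fun a ha h1 => (mem_sel.1 hw).2 a ha (hvw.trans h1)⟩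
        · intro v hv
          rw [Finset.mem_inter, mem_sel, mem_sel] at hv
          refine mem_sel.2 ⟨hv.1.1, fun a ha => ?_⟩
          rcases Finset.mem_union.1 ha with ha | ha
          · exact hv.1.2 a ha
          · exact hv.2.2 a ha
      have s4 : W (sel VU (fun v => ∀ a ∈ Y, ¬ a < v)) + W (sel Q (fun v => ∀ a ∈ Z, ¬ a < v)) ≤
          W Q + W (sel VU (fun v => ∀ a ∈ Y ∪ Z, ¬ a < v)) := by
        have hWP : sel VU (fun v => ∀ a ∈ Y, ¬ a < v) ⊆ Q := by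
          intro v hv
          exact hFUQ (mem_sel.2 ⟨sVU (mem_sel.1 hv).1, Or.inr (mem_sel.1 hv)⟩)
        refine W_supermod_down ?_ ?_ (Finset.union_subset hWP (sel_subset _ _)) ?_
        · intro v hv w hw hvw
          exact mem_sel.2 ⟨hWP hv, fun a ha h1 => (mem_sel.1 hw).2 a ha (h1.trans hvw)⟩
        · intro v hv w hw hvw
          have hvD : v ∈ U₁ := sN' (hQN (mem_sel.1 hv).1)
          exact mem_sel.2 ⟨hVUdn w (mem_sel.1 hw).1 v hvD hvw,
            fun a ha h1 => (mem_sel.1 hw).2 a ha (h1.trans hvw)⟩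
        · intro v hv
          rw [Finset.mem_inter, mem_sel, mem_sel] at hv
          refine mem_sel.2 ⟨hv.1.1, fun a ha => ?_⟩
          rcases Finset.mem_union.1 ha with ha | ha
          · exact hv.1.2 a ha
          · exact hv.2.2 a ha
      have s5 := sel_card_supermod k (fun i => ∀ a ∈ Y, ¬ a < u i) (fun i => ∀ a ∈ Z, ¬ a < u i)
        (fun i => ∀ a ∈ Y ∪ Z, ¬ a < u i) (by
          intro i
          constructor
          · exact fun h1 => ⟨fun a ha => h1 a (Finset.mem_union_left _ ha),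
              fun a ha => h1 a (Finset.mem_union_right _ ha)⟩
          · rintro ⟨h1, h2⟩ a ha
            rcases Finset.mem_union.1 ha with ha | ha
            · exact h1 a ha
            · exact h2 a ha)
      have s6 := sel_card_supermod k (fun i => ∀ a ∈ Y, ¬ x i < a) (fun i => ∀ a ∈ Z, ¬ x i < a)
        (fun i => ∀ a ∈ Y ∪ Z, ¬ x i < a) (by
          intro i
          constructor
          · exact fun h1 => ⟨fun a ha => h1 a (Finset.mem_union_left _ ha),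
              fun a ha => h1 a (Finset.mem_union_right _ ha)⟩
          · rintro ⟨h1, h2⟩ a ha
            rcases Finset.mem_union.1 ha with ha | ha
            · exact h1 a ha
            · exact h2 a ha)
      -- monotonicity
      have selmono : ∀ (B C : Finset α) (p : α → Prop), B ⊆ C → W (sel B p) ≤ W (sel C p) := by
        intro B C p hBC
        exact W_mono fun v hv => mem_sel.2 ⟨hBC (mem_sel.1 hv).1, (mem_sel.1 hv).2⟩
      have m1 := selmono D₂ D₁ (fun v => ∀ a ∈ Z, v < a) sD₂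
      have m2 := selmono U₂ U₁ (fun v => ∀ a ∈ Z, a < v) sU₂
      have m3 := selmono (P \ Del2) P (fun v => ∀ a ∈ Z, ¬ v < a) Finset.sdiff_subset
      have m4 := selmono (Q \ Del2) Q (fun v => ∀ a ∈ Z, ¬ a < v) Finset.sdiff_subset
      omega)
  refine (((hfc.or (RevN.width Del1)).or (RevN.width Del2)).le ?_).mono ?_
  · have h1 : wd (fun a b : α => a < b) Del1 * 2 ≤ 4 * r * h := by
      have : wd (fun a b : α => a < b) Del1 ≤ 2 * r * h := hDel1
      calc wd (fun a b : α => a < b) Del1 * 2 ≤ (2 * r * h) * 2 := Nat.mul_le_mul_right 2 this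
        _ = 4 * r * h := by ring
    have h3 : wd (fun a b : α => a < b) Del2 * 2 ≤ 4 * r * h := by
      have : wd (fun a b : α => a < b) Del2 ≤ 2 * r * h := hDel2
      calc wd (fun a b : α => a < b) Del2 * 2 ≤ (2 * r * h) * 2 := Nat.mul_le_mul_right 2 this
        _ = 4 * r * h := by ring
    have h2 : 8 * r * h = 4 * r * h + 4 * r * h := by ring
    omega
  · rintro v w ⟨hvw, hv, hw⟩
    by_cases h1 : v ∈ Del1 ∨ w ∈ Del1
    · exact Or.inl (Or.inr ⟨hvw, h1⟩)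
    by_cases h2 : v ∈ Del2 ∨ w ∈ Del2
    · exact Or.inr ⟨hvw, h2⟩
    rw [not_or] at h1 h2
    left; left
    have key : ∀ v, v ∉ Del2 → (v ∈ A ∨ v ∈ D₁ ∨ v ∈ U₁ ∨ (∃ i < k, v = x i) ∨
        (∃ i < k, v = u i)) → (v ∈ A ∨ v ∈ D₂ ∨ v ∈ U₂ ∨ (∃ i < k, v = x i) ∨
        (∃ i < k, v = u i)) := by
      intro v hv2 hv
      rcases hv with hv | hv | hv | hv | hv
      · exact Or.inl hv
      · exact Or.inr (Or.inl (Finset.mem_sdiff.2 ⟨hv, hv2⟩))
      · exact Or.inr (Or.inr (Or.inl (Finset.mem_sdiff.2 ⟨hv, hv2⟩)))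
      · exact Or.inr (Or.inr (Or.inr (Or.inl hv)))
      · exact Or.inr (Or.inr (Or.inr (Or.inr hv)))
    exact ⟨hvw, key v h2.1 (hSmem v hv h1.1), key w h2.2 (hSmem w hw h1.2)⟩

end Pool.MP_54f573_pr.RGO
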