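import Mathlib

set_option autoImplicit false
open Classical

namespace Pool.MP_54f573_pr.RGO

/-- A large coloured complete bipartite graph has a monochromatic `K_{m,m}`. -/
theorem mono_bip (c m : ℕ) (hm : 0 < m) : ∃ N₀ : ℕ, 0 < N₀ ∧ ∀ (X Y : Finset ℕ) (col : ℕ → ℕ → ℕ),
    (∀ i ∈ X, ∀ j ∈ Y, col i j < c) → N₀ ≤ X.card → N₀ ≤ Y.card →
    ∃ X' ⊆ X, ∃ Y' ⊆ Y, X'.card = m ∧ Y'.card = m ∧
      ∃ κ, ∀ i ∈ X', ∀ j ∈ Y', col i j = κ := by
  refine ⟨c * m + 2 ^ (c * m) * c * m + 1, by omega, ?_⟩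
  intro X Y col hcol hX hY
  have hcpos : 0 < c := by
    have hXne : X.Nonempty := Finset.card_pos.1 (by omega)
    have hYne : Y.Nonempty := Finset.card_pos.1 (by omega)
    obtain ⟨i, hi⟩ := hXne
    obtain ⟨j, hj⟩ := hYne
    have := hcol i hi j hj
    omega
  obtain ⟨X₀, hX₀, hX₀c⟩ := Finset.exists_subset_card_eq (s := X) (n := c * m) (by omega)
  -- for each j a colour and m-subset
  have hj : ∀ j ∈ Y, ∃ S : Finset ℕ, ∃ κ : ℕ, S ⊆ X₀ ∧ S.card = m ∧ κ < c ∧ ∀ i ∈ S, col i j = κ := by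
    intro j hjY
    have hmap : ∀ i ∈ X₀, col i j ∈ Finset.range c := fun i hi =>
      Finset.mem_range.2 (hcol i (hX₀ hi) j hjY)
    obtain ⟨κ, hκ, hk⟩ := Finset.exists_le_card_fiber_of_mul_le_card_of_maps_to (n := m) hmap
      ⟨0, Finset.mem_range.2 hcpos⟩ (by rw [Finset.card_range, hX₀c])
    obtain ⟨S, hS, hSc⟩ := Finset.exists_subset_card_eq hk
    refine ⟨S, κ, hS.trans (Finset.filter_subset _ _), hSc, Finset.mem_range.1 hκ, fun i hi => ?_⟩
    exact (Finset.mem_filter.1 (hS hi)).2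
  choose! S κ hSX hSc hκ hSκ using hj
  have hmap : ∀ j ∈ Y, (S j, κ j) ∈ X₀.powerset ×ˢ Finset.range c := fun j hjY =>
    Finset.mem_product.2 ⟨Finset.mem_powerset.2 (hSX j hjY), Finset.mem_range.2 (hκ j hjY)⟩
  obtain ⟨⟨S', κ'⟩, hmem, hk⟩ := Finset.exists_le_card_fiber_of_mul_le_card_of_maps_to (n := m) hmap
    ⟨(∅, 0), Finset.mem_product.2 ⟨by simp, Finset.mem_range.2 hcpos⟩⟩ (by
      rw [Finset.card_product, Finset.card_powerset, hX₀c, Finset.card_range]
      omega)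
  obtain ⟨Y', hY', hYc⟩ := Finset.exists_subset_card_eq hk
  have hY'mem : ∀ j ∈ Y', j ∈ Y ∧ S j = S' ∧ κ j = κ' := by
    intro j hj
    have := Finset.mem_filter.1 (hY' hj)
    exact ⟨this.1, (Prod.mk.injEq _ _ _ _ ▸ this.2).1, (Prod.mk.injEq _ _ _ _ ▸ this.2).2⟩
  obtain ⟨j₀, hj₀⟩ : Y'.Nonempty := Finset.card_pos.1 (by omega)
  refine ⟨S', ?_, Y', ?_, ?_, hYc, κ', ?_⟩
  · rw [← (hY'mem j₀ hj₀).2.1]
    exact (hSX j₀ (hY'mem j₀ hj₀).1).trans hX₀
  · exact fun j hj => (hY'mem j hj).1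
  · rw [← (hY'mem j₀ hj₀).2.1]
    exact hSc j₀ (hY'mem j₀ hj₀).1
  · intro i hi j hj
    obtain ⟨h1, h2, h3⟩ := hY'mem j hj
    rw [← h3]
    exact hSκ j h1 i (h2 ▸ hi)

/-- Alignment lemma: rows and columns can be paired and split into few groups which are
monochromatic. -/
theorem align (c m : ℕ) (hm : 0 < m) : ∃ N₀ : ℕ, ∀ (n : ℕ) (X Y : Finset ℕ) (col : ℕ → ℕ → ℕ),
    X.card = n → Y.card = n → (∀ i ∈ X, ∀ j ∈ Y, col i j < c) →
    ∃ π g : ℕ → ℕ, Set.BijOn π (X : Set ℕ) (Y : Set ℕ) ∧ (∀ i ∈ X, g i < n / m + N₀) ∧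
      ∀ i ∈ X, ∀ j ∈ X, g i = g j → col i (π j) = col i (π i) ∧ col i (π j) = col j (π j) := by
  obtain ⟨N₀, hN₀, hmono⟩ := mono_bip c m hm
  refine ⟨N₀, ?_⟩
  intro n
  induction n using Nat.strong_induction_on with
  | _ n ih =>
  intro X Y col hX hY hcol
  by_cases hn : n < N₀
  · -- all singletons
    have e : X ≃ Y := (Finset.equivFinOfCardEq hX).trans (Finset.equivFinOfCardEq hY).symm
    have e2 : X ≃ Fin n := (Finset.equivFinOfCardEq hX)
    refine ⟨fun i => if h : i ∈ X then (e ⟨i, h⟩ : ℕ) else 0,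
      fun i => if h : i ∈ X then (e2 ⟨i, h⟩ : ℕ) else 0, ⟨?_, ?_, ?_⟩, ?_, ?_⟩
    · intro i hi
      have hi' : i ∈ X := hi
      simp only [hi', dif_pos]
      exact (e ⟨i, hi'⟩).2
    · intro i hi j hj hij
      have hi' : i ∈ X := hi
      have hj' : j ∈ X := hj
      simp only [hi', hj', dif_pos] at hij
      have := e.injective (Subtype.ext hij)
      exact congrArg Subtype.val this
    · intro j hj
      refine ⟨(e.symm ⟨j, hj⟩ : ℕ), (e.symm ⟨j, hj⟩).2, ?_⟩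
      simp
    · intro i hi
      simp only [hi, dif_pos]
      have := (e2 ⟨i, hi⟩).2
      exact lt_of_lt_of_le (this.trans hn) (Nat.le_add_left _ _)
    · intro i hi j hj hij
      simp only [hi, hj, dif_pos] at hij
      have : (⟨i, hi⟩ : X) = ⟨j, hj⟩ := e2.injective (Fin.ext hij)
      have hij' : i = j := congrArg Subtype.val this
      subst hij'
      exact ⟨rfl, rfl⟩
  · push Not at hn
    obtain ⟨X', hX', Y', hY', hXc, hYc, κ, hκ⟩ := hmono X Y col hcol (by omega) (by omega)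
    have hmn : m ≤ n := by
      rw [← hX, ← hXc]; exact Finset.card_le_card hX'
    obtain ⟨π, g, hπ, hg, hgood⟩ := ih (n - m) (by omega) (X \ X') (Y \ Y') col
      (by rw [Finset.card_sdiff_of_subset hX', hX, hXc])
      (by rw [Finset.card_sdiff_of_subset hY', hY, hYc])
      (fun i hi j hj => hcol i (Finset.mem_sdiff.1 hi).1 j (Finset.mem_sdiff.1 hj).1)
    have e : X' ≃ Y' := (Finset.equivFinOfCardEq hXc).trans (Finset.equivFinOfCardEq hYc).symm
    have hdiv : (n - m) / m + 1 = n / m := by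
      have : n = (n - m) + m := by omega
      conv_rhs => rw [this]
      rw [Nat.add_div_right _ hm]
    refine ⟨fun i => if h : i ∈ X' then (e ⟨i, h⟩ : ℕ) else π i,
      fun i => if i ∈ X' then (n - m) / m + N₀ else g i, ⟨?_, ?_, ?_⟩, ?_, ?_⟩
    · intro i hi
      have hi' : i ∈ X := hi
      by_cases h : i ∈ X'
      · simp only [h, dif_pos]
        exact hY' (e ⟨i, h⟩).2
      · simp only [h, dif_neg, not_false_eq_true]
        have := hπ.mapsTo (Finset.mem_coe.2 (Finset.mem_sdiff.2 ⟨hi', h⟩))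
        exact (Finset.mem_sdiff.1 (Finset.mem_coe.1 this)).1
    · intro i hi j hj hij
      have hi' : i ∈ X := hi
      have hj' : j ∈ X := hj
      by_cases h : i ∈ X' <;> by_cases h' : j ∈ X' <;>
        simp only [h, h', dif_pos, dif_neg, not_false_eq_true] at hij
      · have := e.injective (Subtype.ext hij)
        exact congrArg Subtype.val this
      · have h1 := (e ⟨i, h⟩).2
        have h2 := hπ.mapsTo (Finset.mem_coe.2 (Finset.mem_sdiff.2 ⟨hj', h'⟩))
        rw [hij] at h1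
        exact absurd h1 (Finset.mem_sdiff.1 (Finset.mem_coe.1 h2)).2
      · have h1 := (e ⟨j, h'⟩).2
        have h2 := hπ.mapsTo (Finset.mem_coe.2 (Finset.mem_sdiff.2 ⟨hi', h⟩))
        rw [← hij] at h1
        exact absurd h1 (Finset.mem_sdiff.1 (Finset.mem_coe.1 h2)).2
      · exact hπ.injOn (Finset.mem_coe.2 (Finset.mem_sdiff.2 ⟨hi', h⟩))
          (Finset.mem_coe.2 (Finset.mem_sdiff.2 ⟨hj', h'⟩)) hij
    · intro j hj
      have hj' : j ∈ Y := hj
      by_cases h : j ∈ Y'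
      · refine ⟨(e.symm ⟨j, h⟩ : ℕ), hX' (e.symm ⟨j, h⟩).2, ?_⟩
        simp
      · obtain ⟨i, hi, hij⟩ := hπ.surjOn (Finset.mem_coe.2 (Finset.mem_sdiff.2 ⟨hj', h⟩))
        have hi2 := Finset.mem_sdiff.1 (Finset.mem_coe.1 hi)
        refine ⟨i, hi2.1, ?_⟩
        simp only [hi2.2, dif_neg, not_false_eq_true]
        exact hij
    · intro i hi
      by_cases h : i ∈ X'
      · simp only [h, if_true]
        omega
      · simp only [h, if_false]
        have := hg i (Finset.mem_sdiff.2 ⟨hi, h⟩)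
        omega
    · intro i hi j hj hij
      by_cases h : i ∈ X' <;> by_cases h' : j ∈ X' <;>
        simp only [h, h', if_true, if_false, dif_pos, dif_neg, not_false_eq_true] at hij ⊢
      · rw [hκ i h _ (e ⟨j, h'⟩).2, hκ i h _ (e ⟨i, h⟩).2, hκ j h' _ (e ⟨j, h'⟩).2]
        exact ⟨rfl, rfl⟩
      · have := hg j (Finset.mem_sdiff.2 ⟨hj, h'⟩)
        omega
      · have := hg i (Finset.mem_sdiff.2 ⟨hi, h⟩)
        omega
      · exact hgood i (Finset.mem_sdiff.2 ⟨hi, h⟩) j (Finset.mem_sdiff.2 ⟨hj, h'⟩) hij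

end Pool.MP_54f573_pr.RGO
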