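import Pool.Agent.Work.MP_54f573_pr.Core
import Pool.Agent.Work.MP_54f573_pr.Align

set_option autoImplicit false
open Classical

namespace Pool.MP_54f573_pr.RGO

variable {α : Type*} [PartialOrder α]

/-- `j` pairwise disjoint antichains of size `s`. -/
def DisjAC (α : Type*) [PartialOrder α] (s j : ℕ) : Prop :=
  ∃ B : ℕ → Finset α, (∀ i < j, ACh (B i)) ∧ (∀ i < j, (B i).card = s) ∧
    ∀ i < j, ∀ i' < j, i ≠ i' → Disjoint (B i) (B i')

theorem greedy [Fintype α] (s h : ℕ) (hno : ¬ DisjAC α s h) :
    ∃ S : Finset α, (∀ C ⊆ S, Ch C → C.card ≤ h) ∧ W (Finset.univ \ S) < s := by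
  have h0 : DisjAC α s 0 := ⟨fun _ => ∅, by simp, by simp, by simp⟩
  have hex : ∃ j, ¬ DisjAC α s j := ⟨h, hno⟩
  set j := Nat.find hex with hj
  have hj1 : ¬ DisjAC α s j := Nat.find_spec hex
  have hjh : j ≤ h := Nat.find_min' hex hno
  have hjpos : j ≠ 0 := by
    intro h1
    rw [h1] at hj1
    exact hj1 h0
  obtain ⟨i, hi⟩ := Nat.exists_eq_succ_of_ne_zero hjpos
  have hi1 : DisjAC α s i := by
    by_contra hcon
    have := Nat.find_min' hex hcon
    omega
  obtain ⟨B, hB1, hB2, hB3⟩ := hi1
  set S : Finset α := (Finset.range i).biUnion B with hS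
  refine ⟨S, ?_, ?_⟩
  · intro C hC hCh
    have h1 : C ⊆ (Finset.range i).biUnion (fun l => C ∩ B l) := by
      intro x hx
      have hx1 := hC hx
      rw [hS, Finset.mem_biUnion] at hx1
      obtain ⟨l, hl, hxl⟩ := hx1
      exact Finset.mem_biUnion.2 ⟨l, hl, Finset.mem_inter.2 ⟨hx, hxl⟩⟩
    have h2 : ∀ l ∈ Finset.range i, (C ∩ B l).card ≤ 1 := by
      intro l hl
      rw [Finset.card_le_one]
      intro a ha b hb
      rw [Finset.mem_inter] at ha hb
      by_contra hab
      rcases hCh a ha.1 b hb.1 with hle | hle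
      · exact hB1 l (Finset.mem_range.1 hl) a ha.2 b hb.2 (lt_of_le_of_ne hle hab)
      · exact hB1 l (Finset.mem_range.1 hl) b hb.2 a ha.2 (lt_of_le_of_ne hle (Ne.symm hab))
    calc C.card ≤ ((Finset.range i).biUnion (fun l => C ∩ B l)).card := Finset.card_le_card h1
      _ ≤ (Finset.range i).card * 1 := Finset.card_biUnion_le_card_mul _ _ _ h2
      _ ≤ h := by rw [Finset.card_range]; omega
  · by_contra hcon
    push Not at hcon
    obtain ⟨X, hX, hXa, hXc⟩ := exists_W (Finset.univ \ S)
    obtain ⟨X', hX', hX'c⟩ := Finset.exists_subset_card_eq (s := X) (n := s) (by omega)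
    apply hj1
    rw [hi]
    have hdisj : ∀ l < i, Disjoint (B l) X' := by
      intro l hl
      rw [Finset.disjoint_left]
      intro x hx hx'
      have h1 := hX (hX' hx')
      rw [Finset.mem_sdiff] at h1
      exact h1.2 (Finset.mem_biUnion.2 ⟨l, Finset.mem_range.2 hl, hx⟩)
    refine ⟨fun l => if l < i then B l else X', ?_, ?_, ?_⟩
    · intro l hl
      by_cases hli : l < i
      · simp only [hli, if_true]; exact hB1 l hli
      · simp only [hli, if_false]; exact hXa.subset hX'
    · intro l hl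
      by_cases hli : l < i
      · simp only [hli, if_true]; exact hB2 l hli
      · simp only [hli, if_false]; exact hX'c
    · intro l hl l' hl' hne
      by_cases hli : l < i <;> by_cases hli' : l' < i
      · simp only [hli, hli', if_true]; exact hB3 l hli l' hli' hne
      · simp only [hli, hli', if_true, if_false]; exact hdisj l hli
      · simp only [hli, hli', if_true, if_false]; exact (hdisj l' hli').symm
      · exfalso; omega

theorem antichain_iff (X : Finset α) : IsAntichain (· ≤ ·) (X : Set α) ↔ ACh X := by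
  constructor
  · intro h a ha b hb hab
    exact h (Finset.mem_coe.2 ha) (Finset.mem_coe.2 hb) hab.ne hab.le
  · intro h a ha b hb hne hab
    exact h a (Finset.mem_coe.1 ha) b (Finset.mem_coe.1 hb) (lt_of_le_of_ne hab hne)

/-- The reduction of the deterministic theorem to the core statement. -/
theorem det_of_core (hcore : CoreStatement) : DetStatement := by
  intro ε hε
  obtain ⟨δ, hδ0, hδ1, hδε⟩ : ∃ δ : ℝ, 0 < δ ∧ δ ≤ 1 / 8 ∧ 8 * δ ≤ ε := by
    refine ⟨min ε 1 / 8, by positivity, ?_, ?_⟩
    · have := min_le_right ε 1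
      linarith
    · have := min_le_left ε 1
      linarith
  obtain ⟨h, hh⟩ := exists_nat_gt (64 / δ ^ 2)
  obtain ⟨m, hm⟩ := exists_nat_gt (12 / δ)
  have hhpos : (0 : ℝ) < h := lt_trans (by positivity) hh
  have hmpos : (0 : ℝ) < m := lt_trans (by positivity) hm
  have hh0 : 0 < h := by exact_mod_cast hhpos
  have hm0 : 0 < m := by exact_mod_cast hmpos
  obtain ⟨N₀, hN₀⟩ := align ((h + 1) * (h + 1)) m hm0
  obtain ⟨M₁, hM₁⟩ := exists_nat_gt (48 * h / δ)
  refine ⟨max h (4 * M₁ + 12), (100 + 16 * h + 4 * N₀) / δ, ?_⟩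
  intro T hT α _ hdec _ hcost
  obtain rfl : hdec = (fun a b => Classical.propDecidable (a = b)) := Subsingleton.elim _ _
  have hδT : 100 + 16 * (h : ℝ) + 4 * N₀ ≤ δ * T := by
    rw [div_le_iff₀ hδ0] at hT
    linarith
  have hTpos : 0 < T := by
    by_contra hcon
    push Not at hcon
    have h1 : δ * T ≤ 0 := mul_nonpos_of_nonneg_of_nonpos hδ0.le hcon
    have h2 : (0 : ℝ) ≤ N₀ := Nat.cast_nonneg _
    linarith
  have hN₀0 : (0 : ℝ) ≤ N₀ := Nat.cast_nonneg _
  have hT800 : 800 ≤ T := by
    have h1 : δ * T ≤ 1 / 8 * T := mul_le_mul_of_nonneg_right hδ1 hTpos.le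
    linarith
  set s := ⌈δ * T / 4⌉₊ with hs
  set r := ⌊δ * T / (8 * h)⌋₊ with hr
  set t := ⌈(1 + δ) * T⌉₊ with ht
  have hs1 : δ * T / 4 ≤ s := Nat.le_ceil _
  have hs2 : (s : ℝ) < δ * T / 4 + 1 := Nat.ceil_lt_add_one (by positivity)
  have ht1 : (1 + δ) * T ≤ t := Nat.le_ceil _
  have ht2 : (t : ℝ) < (1 + δ) * T + 1 := Nat.ceil_lt_add_one (by positivity)
  have hr1 : (r : ℝ) ≤ δ * T / (8 * h) := Nat.floor_le (by positivity)
  have hr2 : δ * T / (8 * h) < r + 1 := Nat.lt_floor_add_one _
  have h16 : 2 ≤ δ * T / (8 * h) := by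
    rw [le_div_iff₀ (by positivity)]
    linarith
  have hr3 : δ * T / (16 * h) ≤ r := by
    have h1 : δ * T / (16 * h) = δ * T / (8 * h) / 2 := by
      field_simp; ring
    rw [h1]
    linarith
  have hrpos : 0 < r := by
    have : (0 : ℝ) < r := by linarith
    exact_mod_cast this
  have htpos : 0 < t := by
    have h1 : (0 : ℝ) < t := lt_of_lt_of_le (by positivity) ht1
    exact_mod_cast h1
  -- t / r ≤ M₁
  have htT : (t : ℝ) ≤ 2 * T := by
    have h1 : δ * T ≤ 1 / 8 * T := mul_le_mul_of_nonneg_right hδ1 hTpos.le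
    nlinarith
  have htr : t / r ≤ M₁ := by
    apply Nat.div_le_of_le_mul
    have h1 : (t : ℝ) ≤ (r : ℝ) * M₁ := by
      have h2 : δ * T / (16 * h) * (48 * h / δ) = 3 * T := by
        field_simp; ring
      have h3 : δ * T / (16 * h) * (48 * h / δ) ≤ (r : ℝ) * M₁ :=
        mul_le_mul hr3 hM₁.le (by positivity) (by positivity)
      linarith
    exact_mod_cast h1
  -- no h disjoint antichains
  have hcov : ∀ F : Finset (α × α), Cov (max h (4 * M₁ + 12)) F → (F.card : ℝ) ≤ 2 * T ^ 2 := by
    rintro F ⟨B, hB, hF⟩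
    have h1 := hcost B (fun i => (antichain_iff _).2 (hB i))
    refine le_trans ?_ h1
    have h2 : F.card ≤ (Finset.univ.biUnion fun i => (B i).offDiag).card := by
      refine Finset.card_le_card ?_
      convert hF
    exact_mod_cast h2
  have hno : ¬ DisjAC α s h := by
    rintro ⟨B, hB1, hB2, hB3⟩
    have h1 := hcov ((Finset.range h).biUnion (fun i => (B i).offDiag))
      ⟨fun i => if (i : ℕ) < h then B i else ∅, ?_, ?_⟩
    · have h2 : ((Finset.range h).biUnion (fun i => (B i).offDiag)).card = h * (s * s - s) := by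
        rw [Finset.card_biUnion]
        · rw [Finset.sum_congr rfl (g := fun _ => s * s - s)]
          · simp
          · intro i hi
            rw [Finset.offDiag_card, hB2 i (Finset.mem_range.1 hi)]
        · intro i hi i' hi' hne
          have hd := hB3 i (Finset.mem_range.1 hi) i' (Finset.mem_range.1 hi') hne
          rw [Finset.disjoint_left] at hd
          refine Finset.disjoint_left.2 ?_
          intro p hp hp'
          rw [Finset.mem_offDiag] at hp hp'
          exact hd hp.1 hp'.1
      rw [h2] at h1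
      have h3 : ((h * (s * s - s) : ℕ) : ℝ) = h * ((s : ℝ) * (s - 1)) := by
        have : s ≤ s * s := Nat.le_mul_self s
        push_cast [Nat.cast_sub this]
        ring
      rw [h3] at h1
      have h4 : (δ * T / 4) * (δ * T / 8) ≤ (s : ℝ) * (s - 1) := by
        apply mul_le_mul hs1 _ (by positivity) (by positivity)
        linarith
      have h5 : (h : ℝ) * ((δ * T / 4) * (δ * T / 8)) ≤ 2 * T ^ 2 :=
        (mul_le_mul_of_nonneg_left h4 hhpos.le).trans h1
      have h6 : 64 < (h : ℝ) * δ ^ 2 := by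
        rw [div_lt_iff₀ (by positivity)] at hh
        exact hh
      have h7 : (h : ℝ) * ((δ * T / 4) * (δ * T / 8)) = (h : ℝ) * δ ^ 2 * T ^ 2 / 32 := by ring
      rw [h7] at h5
      have h8 : 64 * T ^ 2 < (h : ℝ) * δ ^ 2 * T ^ 2 := by
        apply mul_lt_mul_of_pos_right h6 (by positivity)
      linarith
    · intro i
      by_cases hi : (i : ℕ) < h
      · simp only [hi, if_true]; exact hB1 i hi
      · simp only [hi, if_false]
        intro a ha
        exact absurd ha (Finset.notMem_empty a)
    · intro p hp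
      rw [Finset.mem_biUnion] at hp
      obtain ⟨i, hi, hp⟩ := hp
      have hi' := Finset.mem_range.1 hi
      refine Finset.mem_biUnion.2
        ⟨⟨i, lt_of_lt_of_le hi' (le_max_left _ _)⟩, Finset.mem_univ _, ?_⟩
      simp only [hi', if_true]
      rw [Finset.mem_offDiag] at hp ⊢
      exact hp
  obtain ⟨S, hS1, hS2⟩ := greedy s h hno
  have hmain := hcore h m N₀ r t (max h (4 * M₁ + 12)) (fun n X Y col => hN₀ n X Y col) hm0 hrpos
    htpos (by
      have : 4 * (t / r) ≤ 4 * M₁ := Nat.mul_le_mul_left 4 htr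
      exact le_trans (Nat.add_le_add_right this 12) (le_max_right _ _)) α S hS1 (by
      intro F hF
      have h1 := hcov F hF
      have h2 : (F.card : ℝ) + (2 * r + 30) * t ≤ 2 * (t : ℝ) ^ 2 := by
        have h3 : 2 * (r : ℝ) ≤ δ * T / 4 := by
          have h4 : δ * T / (8 * h) ≤ δ * T / 8 := by
            apply div_le_div_of_nonneg_left (by positivity) (by positivity)
            have : (1 : ℝ) ≤ h := by exact_mod_cast hh0
            linarith
          linarith
        have h5 : 2 * (r : ℝ) + 30 ≤ 2 * (δ * T) := by linarith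
        have h6 : (2 * (r : ℝ) + 30) * t ≤ 2 * (δ * T) * t :=
          mul_le_mul_of_nonneg_right h5 (by positivity)
        have h7 : δ * T * t ≤ (t - T) * (t + T) := by
          apply mul_le_mul _ _ (by positivity) _
          · linarith
          · linarith
          · nlinarith
        nlinarith
      exact_mod_cast h2)
  have hW := RevN.width (Finset.univ \ S : Finset α)
  have hall := (hW.or hmain)
  refine ⟨_, ?_, hall.mono ?_⟩
  · have e1 : ((t / m : ℕ) : ℝ) ≤ t / m := Nat.cast_div_le
    have e2 : (t : ℝ) / m ≤ δ * T / 6 := by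
      rw [div_le_iff₀ hmpos]
      have e3 : 12 < m * δ := by
        rwa [div_lt_iff₀ hδ0] at hm
      have e4 : δ * T / 6 * m = (m * δ) * (T / 6) := by ring
      rw [e4]
      have e5 : 12 * (T / 6) ≤ (m * δ) * (T / 6) := mul_le_mul_of_nonneg_right e3.le (by positivity)
      linarith
    have e6 : ((8 * r * h : ℕ) : ℝ) ≤ δ * T := by
      push_cast
      have e7 : (r : ℝ) * (8 * h) ≤ δ * T := by
        rwa [le_div_iff₀ (by positivity)] at hr1
      linarith
    have e8 : ((wd (fun a b : α => a < b) (Finset.univ \ S) : ℕ) : ℝ) ≤ s := by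
      have : W (Finset.univ \ S) ≤ s := hS2.le
      unfold W at this
      exact_mod_cast this
    push_cast at e6 ⊢
    have e9 : 8 * (δ * T) ≤ ε * T := by
      have := mul_le_mul_of_nonneg_right hδε hTpos.le
      linarith
    nlinarith
  · intro x y hxy
    by_cases hx : x ∈ S
    · by_cases hy : y ∈ S
      · exact Or.inr ⟨hxy, hx, hy⟩
      · exact Or.inl ⟨hxy, Or.inr (by simp [hy])⟩
    · exact Or.inl ⟨hxy, Or.inl (by simp [hx])⟩

end Pool.MP_54f573_pr.RGO
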