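import Pool.Agent.Work.MP_54f573_pr.Core

set_option autoImplicit false
open Classical

namespace Pool.MP_54f573_pr.RGO

theorem ineqS : IneqS := by
  intro t τ w m x x' φ φ' κ h0 h1 h2 h3 h4 hx hx' hp hp' hk h5 h6 h7 h8
  -- reduce
  have hw : t ^ 2 ≤ w ^ 2 := by nlinarith
  obtain ⟨X, hX⟩ : ∃ X, X = x + x' := ⟨_, rfl⟩
  obtain ⟨s, hs⟩ : ∃ s, s = φ + φ' := ⟨_, rfl⟩
  have e1 : X ^ 2 / 2 ≤ x ^ 2 + x' ^ 2 := by rw [hX]; nlinarith [sq_nonneg (x - x')]
  have e2 : s ^ 2 / 2 ≤ φ ^ 2 + φ' ^ 2 := by rw [hs]; nlinarith [sq_nonneg (φ - φ')]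
  have hX0 : 0 ≤ X := by rw [hX]; linarith
  have hs0 : 0 ≤ s := by rw [hs]; linarith
  have e3 : X + s ≤ 2 * τ := by rw [hX, hs]; linarith
  have e4 : 2 * t - m - X ≤ κ + s := by rw [hX, hs]; linarith
  have e5 : 2 * τ - m - X ≤ s := by linarith
  have e6 : 2 * m * (2 * t - m - X) ≤ 2 * m * (κ + s) :=
    mul_le_mul_of_nonneg_left e4 (by linarith)
  have key : τ ^ 2 ≤ 2 * m * (2 * t - m - X) + X ^ 2 / 2 + s ^ 2 / 2 := by
    rcases le_total 0 (2 * τ - m - X) with hA | hA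
    · obtain ⟨A, hAd⟩ : ∃ A, A = 2 * τ - m - X := ⟨_, rfl⟩
      rw [← hAd] at hA e5
      have hXA : X = 2 * τ - m - A := by linarith
      have hsA : A ^ 2 ≤ s ^ 2 := by nlinarith
      subst hXA
      rcases le_total 0 (2 * τ - 3 * m) with hc | hc
      · nlinarith [sq_nonneg (2 * A - (2 * τ - 3 * m)), mul_nonneg h3 (sub_nonneg.2 h1),
          mul_nonneg h3 (sub_nonneg.2 h4)]
      · have : 0 ≤ A * (3 * m - 2 * τ) := mul_nonneg hA (by linarith)
        nlinarith [sq_nonneg (3 * τ - m), mul_nonneg h3 (sub_nonneg.2 h1),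
          mul_nonneg h3 (sub_nonneg.2 h4), sq_nonneg A]
    · rcases le_total X (2 * m) with hc | hc
      · nlinarith [mul_nonneg h3 (sub_nonneg.2 h1), mul_nonneg h3 (sub_nonneg.2 h4), sq_nonneg s,
          sq_nonneg (X - 2 * m), mul_nonneg h3 h0]
      · nlinarith [mul_nonneg h3 (sub_nonneg.2 h1), mul_nonneg h3 (sub_nonneg.2 h4), sq_nonneg s,
          sq_nonneg (X - 2 * m), mul_nonneg h3 h0]
  have e7 : 2 * m * (κ + φ + φ') = 2 * m * (κ + s) := by rw [hs]; ring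
  rw [e7]
  linarith

theorem ineqI : IneqI := by
  intro t τ w m x x' n n' κ h0 h1 h2 h3 h4 hx hx' hn hn' hk h5 h6
  have hm : 0 ≤ m := by linarith
  obtain ⟨X, hX⟩ : ∃ X, X = x + x' := ⟨_, rfl⟩
  have e1 : X ^ 2 / 2 ≤ x ^ 2 + x' ^ 2 := by rw [hX]; nlinarith [sq_nonneg (x - x')]
  have hX0 : 0 ≤ X := by rw [hX]; linarith
  have e2 : τ ^ 2 / 2 ≤ n ^ 2 + n' ^ 2 := by nlinarith [sq_nonneg (n - n')]
  have e3 : τ ^ 2 ≤ t ^ 2 := by nlinarith
  have e4 : 2 * t - m - κ ≤ X := by rw [hX]; linarith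
  have key : 3 / 2 * t ^ 2 ≤ w ^ 2 + 2 * m * κ + X ^ 2 / 2 := by
    rcases le_total (2 * t - m - κ) 0 with hu | hu
    · have a1 : 2 * m * (2 * t - m) ≤ 2 * m * κ :=
        mul_le_mul_of_nonneg_left (by linarith) (by linarith)
      rcases le_total m t with hmt | hmt
      · nlinarith [sq_nonneg X]
      · have : m ^ 2 ≤ w ^ 2 := by nlinarith
        rcases le_total m (2 * t) with hc | hc
        · nlinarith [sq_nonneg X]
        · nlinarith [sq_nonneg X, mul_nonneg hm hk]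
    · have a2 : (2 * t - m - κ) ^ 2 ≤ X ^ 2 := by nlinarith
      rcases le_total m t with hmt | hmt
      · have a3 : t ^ 2 ≤ w ^ 2 := by nlinarith
        rcases le_total (2 * t) (3 * m) with hc | hc
        · nlinarith [mul_nonneg hk (sub_nonneg.2 hc), sq_nonneg κ]
        · nlinarith [sq_nonneg (κ - (2 * t - 3 * m)), mul_nonneg hm (sub_nonneg.2 hc)]
      · have a3 : m ^ 2 ≤ w ^ 2 := by nlinarith
        nlinarith [mul_nonneg hk (sub_nonneg.2 hmt), sq_nonneg κ, mul_nonneg hk hm]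
  linarith

theorem ineqF : IneqF := by
  intro t τ w m x x' φ' κ z f h0 h1 h2 h3 h4 hx hx' hp hk hf h5 h6 h7 h8
  have hm : 0 ≤ m := by linarith
  have hw : t ^ 2 ≤ w ^ 2 := by nlinarith
  have hz : 0 ≤ z := by linarith
  have hzt : z ≤ τ := by linarith
  have e1 : 2 * t - m - τ ≤ x' + κ := by linarith
  have e2 : 2 * m * (τ - z) + (τ - z) ^ 2 ≤ 2 * m * f + f ^ 2 := by
    have : τ - z ≤ f := by linarith
    nlinarith [mul_nonneg hm (sub_nonneg.2 this)]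
  have key : τ ^ 2 ≤ 2 * m * κ + x' ^ 2 + (2 * m * (τ - z) + (τ - z) ^ 2 + z ^ 2) := by
    rcases le_total τ m with hc | hc
    · nlinarith [mul_nonneg hm hk, sq_nonneg x', mul_nonneg (sub_nonneg.2 hzt) (sub_nonneg.2 hc),
        mul_nonneg (sub_nonneg.2 hzt) hz]
    · have b1 : τ ^ 2 / 2 + m * τ - m ^ 2 / 2 ≤ 2 * m * (τ - z) + (τ - z) ^ 2 + z ^ 2 := by
        nlinarith [sq_nonneg (2 * z - (m + τ))]
      have b2 : (τ - m) ^ 2 ≤ 2 * m * κ + x' ^ 2 := by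
        have c1 : τ - m ≤ x' + κ := by linarith
        have c2 : τ - m ≤ m := by linarith
        rcases le_total κ (τ - m) with hd | hd
        · have : (τ - m - κ) ^ 2 ≤ x' ^ 2 := by nlinarith
          nlinarith [mul_nonneg hk (sub_nonneg.2 c2), sq_nonneg κ]
        · nlinarith [sq_nonneg x', mul_nonneg hm (sub_nonneg.2 hd),
            mul_nonneg (sub_nonneg.2 hc) (sub_nonneg.2 c2)]
      nlinarith [sq_nonneg (τ - m)]
  nlinarith

end Pool.MP_54f573_pr.RGO
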