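import Mathlib

set_option autoImplicit false

/-! Elementary product measure on the subsets of a finite set: every element is kept with
probability `p`, independently. -/

namespace Pool.MP_54f573_pr.RGO

open Finset

/-- Expectation of `g` over a random subset of `S`. -/
noncomputable def Ex {ι : Type*} [DecidableEq ι] (p : ℝ) (S : Finset ι) (g : Finset ι → ℝ) : ℝ :=
  ∑ E ∈ S.powerset, p ^ E.card * (1 - p) ^ (S.card - E.card) * g E

section basic

variable {ι : Type*} [DecidableEq ι] {p : ℝ}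

theorem Ex_empty (g : Finset ι → ℝ) : Ex p ∅ g = g ∅ := by
  simp [Ex]

theorem Ex_one (S : Finset ι) : Ex p S (fun _ => 1) = 1 := by
  unfold Ex
  simp only [mul_one]
  rw [Finset.sum_pow_mul_eq_add_pow]
  simp

theorem Ex_congr {S : Finset ι} {g h : Finset ι → ℝ} (H : ∀ E, E ⊆ S → g E = h E) :
    Ex p S g = Ex p S h := by
  unfold Ex
  refine Finset.sum_congr rfl fun E hE => ?_
  rw [H E (Finset.mem_powerset.mp hE)]

theorem Ex_mul_left (S : Finset ι) (c : ℝ) (g : Finset ι → ℝ) :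
    Ex p S (fun E => c * g E) = c * Ex p S g := by
  unfold Ex
  rw [Finset.mul_sum]
  refine Finset.sum_congr rfl fun E _ => ?_
  ring

theorem Ex_mul_right (S : Finset ι) (c : ℝ) (g : Finset ι → ℝ) :
    Ex p S (fun E => g E * c) = Ex p S g * c := by
  unfold Ex
  rw [Finset.sum_mul]
  refine Finset.sum_congr rfl fun E _ => ?_
  ring

theorem Ex_add (S : Finset ι) (g h : Finset ι → ℝ) :
    Ex p S (fun E => g E + h E) = Ex p S g + Ex p S h := by
  unfold Ex
  rw [← Finset.sum_add_distrib]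
  refine Finset.sum_congr rfl fun E _ => ?_
  ring

theorem Ex_sub (S : Finset ι) (g h : Finset ι → ℝ) :
    Ex p S (fun E => g E - h E) = Ex p S g - Ex p S h := by
  unfold Ex
  rw [← Finset.sum_sub_distrib]
  refine Finset.sum_congr rfl fun E _ => ?_
  ring

theorem Ex_sum {κ : Type*} (S : Finset ι) (I : Finset κ) (g : κ → Finset ι → ℝ) :
    Ex p S (fun E => ∑ k ∈ I, g k E) = ∑ k ∈ I, Ex p S (g k) := by
  unfold Ex
  rw [Finset.sum_comm]
  refine Finset.sum_congr rfl fun E _ => ?_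
  rw [Finset.mul_sum]

theorem Ex_mono (h0 : 0 ≤ p) (h1 : p ≤ 1) {S : Finset ι} {g h : Finset ι → ℝ}
    (H : ∀ E, E ⊆ S → g E ≤ h E) : Ex p S g ≤ Ex p S h := by
  unfold Ex
  refine Finset.sum_le_sum fun E hE => ?_
  exact mul_le_mul_of_nonneg_left (H E (Finset.mem_powerset.mp hE))
    (mul_nonneg (pow_nonneg h0 _) (pow_nonneg (sub_nonneg.mpr h1) _))

theorem Ex_nonneg (h0 : 0 ≤ p) (h1 : p ≤ 1) {S : Finset ι} {g : Finset ι → ℝ}
    (H : ∀ E, E ⊆ S → 0 ≤ g E) : 0 ≤ Ex p S g := by
  unfold Ex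
  refine Finset.sum_nonneg fun E hE => ?_
  exact mul_nonneg (mul_nonneg (pow_nonneg h0 _) (pow_nonneg (sub_nonneg.mpr h1) _))
    (H E (Finset.mem_powerset.mp hE))

theorem Ex_insert {a : ι} {S : Finset ι} (ha : a ∉ S) (g : Finset ι → ℝ) :
    Ex p (insert a S) g = (1 - p) * Ex p S g + p * Ex p S (fun E => g (insert a E)) := by
  unfold Ex
  rw [Finset.sum_powerset_insert ha, Finset.mul_sum, Finset.mul_sum]
  congr 1
  · refine Finset.sum_congr rfl fun E hE => ?_
    have h1 : E.card ≤ S.card := Finset.card_le_card (Finset.mem_powerset.mp hE)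
    rw [Finset.card_insert_of_notMem ha]
    have h2 : S.card + 1 - E.card = (S.card - E.card) + 1 := by omega
    rw [h2, pow_succ]
    ring
  · refine Finset.sum_congr rfl fun E hE => ?_
    have h0 : a ∉ E := fun h => ha (Finset.mem_powerset.mp hE h)
    rw [Finset.card_insert_of_notMem ha, Finset.card_insert_of_notMem h0]
    have h2 : S.card + 1 - (E.card + 1) = S.card - E.card := by omega
    rw [h2, pow_succ]
    ring

theorem Ex_union {S₁ S₂ : Finset ι} (hd : Disjoint S₁ S₂) (g : Finset ι → ℝ) :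
    Ex p (S₁ ∪ S₂) g = Ex p S₁ (fun E₁ => Ex p S₂ (fun E₂ => g (E₁ ∪ E₂))) := by
  induction S₁ using Finset.induction_on generalizing g with
  | empty => simp [Ex_empty]
  | insert a S ha ih =>
    rw [Finset.disjoint_insert_left] at hd
    have h1 : a ∉ S ∪ S₂ := by
      simp [ha, hd.1]
    rw [Finset.insert_union, Ex_insert h1, Ex_insert ha, ih hd.2, ih hd.2]
    simp only [Finset.insert_union]

/-- The expectation of a function of `E ∩ T`. -/
theorem Ex_inter {S T : Finset ι} (hT : T ⊆ S) (g : Finset ι → ℝ) :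
    Ex p S (fun E => g (E ∩ T)) = Ex p T g := by
  have h : S = T ∪ (S \ T) := by
    rw [Finset.union_sdiff_of_subset hT]
  have hd : Disjoint T (S \ T) := Finset.disjoint_sdiff
  rw [h, Ex_union hd]
  refine Ex_congr fun E₁ hE₁ => ?_
  have : Ex p (S \ T) (fun E₂ => g ((E₁ ∪ E₂) ∩ T)) = Ex p (S \ T) (fun _ => g E₁ * 1) := by
    refine Ex_congr fun E₂ hE₂ => ?_
    rw [mul_one]
    congr 1
    ext x
    simp only [Finset.mem_inter, Finset.mem_union]
    constructor
    · rintro ⟨h1 | h1, h2⟩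
      · exact h1
      · exact absurd h2 (Finset.mem_sdiff.mp (hE₂ h1)).2
    · intro h1
      exact ⟨Or.inl h1, hE₁ h1⟩
  rw [this, Ex_mul_left, Ex_one, mul_one]

/-- Independence for disjoint sets of coordinates. -/
theorem Ex_prod {κ : Type*} [DecidableEq κ] (I : Finset κ) (T : κ → Finset ι)
    (g : κ → Finset ι → ℝ) :
    ∀ S : Finset ι, (∀ k ∈ I, T k ⊆ S) →
      (∀ k ∈ I, ∀ l ∈ I, k ≠ l → Disjoint (T k) (T l)) →
      Ex p S (fun E => ∏ k ∈ I, g k (E ∩ T k)) = ∏ k ∈ I, Ex p (T k) (g k) := by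
  induction I using Finset.induction_on with
  | empty => intro S _ _; simp [Ex_one]
  | insert a I ha ih =>
    intro S hS hd
    have hTa : T a ⊆ S := hS a (Finset.mem_insert_self _ _)
    have h : S = T a ∪ (S \ T a) := by
      rw [Finset.union_sdiff_of_subset hTa]
    have hdis : Disjoint (T a) (S \ T a) := Finset.disjoint_sdiff
    have hsub : ∀ k ∈ I, T k ⊆ S \ T a := by
      intro k hk x hx
      rw [Finset.mem_sdiff]
      refine ⟨hS k (Finset.mem_insert_of_mem hk) hx, fun hxa => ?_⟩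
      have := hd k (Finset.mem_insert_of_mem hk) a (Finset.mem_insert_self _ _)
        (by rintro rfl; exact ha hk)
      exact (Finset.disjoint_left.mp this) hx hxa
    have ih' := ih (S \ T a) hsub (fun k hk l hl hkl =>
      hd k (Finset.mem_insert_of_mem hk) l (Finset.mem_insert_of_mem hl) hkl)
    rw [Finset.prod_insert ha, ← ih']
    conv_lhs => rw [h]
    rw [Ex_union hdis, ← Ex_mul_right]
    refine Ex_congr fun E₁ hE₁ => ?_
    rw [← Ex_mul_left]
    refine Ex_congr fun E₂ hE₂ => ?_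
    rw [Finset.prod_insert ha]
    congr 1
    · congr 1
      ext x
      simp only [Finset.mem_inter, Finset.mem_union]
      constructor
      · rintro ⟨h1 | h1, h2⟩
        · exact h1
        · exact absurd h2 (Finset.mem_sdiff.mp (hE₂ h1)).2
      · intro h1
        exact ⟨Or.inl h1, hE₁ h1⟩
    · refine Finset.prod_congr rfl fun k hk => ?_
      congr 1
      ext x
      simp only [Finset.mem_inter, Finset.mem_union]
      constructor
      · rintro ⟨h1 | h1, h2⟩
        · exact absurd (hE₁ h1) (Finset.mem_sdiff.mp (hsub k hk h2)).2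
        · exact ⟨h1, h2⟩
      · rintro ⟨h1, h2⟩
        exact ⟨Or.inr h1, h2⟩

end basic

/-! Probabilities. -/

open Classical in
/-- Indicator of a proposition. -/
noncomputable def ind (P : Prop) : ℝ := if P then 1 else 0

theorem ind_pos {P : Prop} (h : P) : ind P = 1 := by unfold ind; exact if_pos h

theorem ind_neg {P : Prop} (h : ¬ P) : ind P = 0 := by unfold ind; exact if_neg h

theorem ind_nonneg (P : Prop) : 0 ≤ ind P := by
  by_cases h : P
  · rw [ind_pos h]; exact zero_le_one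
  · rw [ind_neg h]

theorem ind_le_one (P : Prop) : ind P ≤ 1 := by
  by_cases h : P
  · rw [ind_pos h]
  · rw [ind_neg h]; exact zero_le_one

theorem ind_mono {P Q : Prop} (h : P → Q) : ind P ≤ ind Q := by
  by_cases hP : P
  · rw [ind_pos hP, ind_pos (h hP)]
  · rw [ind_neg hP]; exact ind_nonneg Q

/-- Probability of the event `A`. -/
noncomputable def Pr {ι : Type*} [DecidableEq ι] (p : ℝ) (S : Finset ι) (A : Finset ι → Prop) : ℝ :=
  Ex p S (fun E => ind (A E))

section prob

variable {ι : Type*} [DecidableEq ι] {p : ℝ}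

theorem Pr_mono (h0 : 0 ≤ p) (h1 : p ≤ 1) {S : Finset ι} {A B : Finset ι → Prop}
    (H : ∀ E, E ⊆ S → A E → B E) : Pr p S A ≤ Pr p S B :=
  Ex_mono h0 h1 fun E hE => ind_mono (H E hE)

theorem Pr_congr {S : Finset ι} {A B : Finset ι → Prop}
    (H : ∀ E, E ⊆ S → (A E ↔ B E)) : Pr p S A = Pr p S B := by
  unfold Pr
  refine Ex_congr fun E hE => ?_
  rw [propext (H E hE)]

theorem Pr_nonneg (h0 : 0 ≤ p) (h1 : p ≤ 1) {S : Finset ι} (A : Finset ι → Prop) :
    0 ≤ Pr p S A :=
  Ex_nonneg h0 h1 fun E _ => ind_nonneg _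

theorem Pr_le_one (h0 : 0 ≤ p) (h1 : p ≤ 1) {S : Finset ι} (A : Finset ι → Prop) :
    Pr p S A ≤ 1 := by
  have h := Ex_mono (p := p) h0 h1 (S := S) (g := fun E => ind (A E)) (h := fun _ => 1)
    (fun E _ => ind_le_one _)
  rw [Ex_one] at h
  exact h

theorem Pr_not (S : Finset ι) (A : Finset ι → Prop) :
    Pr p S (fun E => ¬ A E) = 1 - Pr p S A := by
  have h := Ex_sub (p := p) S (fun _ => 1) (fun E => ind (A E))
  rw [Ex_one] at h
  unfold Pr
  rw [← h]
  refine Ex_congr fun E hE => ?_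
  by_cases hA : A E
  · rw [ind_pos hA, ind_neg (not_not.mpr hA), sub_self]
  · rw [ind_neg hA, ind_pos hA, sub_zero]

theorem Pr_or_le (h0 : 0 ≤ p) (h1 : p ≤ 1) (S : Finset ι) (A B : Finset ι → Prop) :
    Pr p S (fun E => A E ∨ B E) ≤ Pr p S A + Pr p S B := by
  unfold Pr
  rw [← Ex_add]
  refine Ex_mono h0 h1 fun E hE => ?_
  by_cases hA : A E
  · rw [ind_pos hA]
    linarith [ind_nonneg (B E), ind_le_one (A E ∨ B E)]
  · by_cases hB : B E
    · rw [ind_pos hB]
      linarith [ind_nonneg (A E), ind_le_one (A E ∨ B E)]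
    · rw [ind_neg (by tauto)]
      linarith [ind_nonneg (A E), ind_nonneg (B E)]

theorem Pr_exists_le {κ : Type*} (h0 : 0 ≤ p) (h1 : p ≤ 1) (S : Finset ι) (I : Finset κ)
    (A : κ → Finset ι → Prop) :
    Pr p S (fun E => ∃ k ∈ I, A k E) ≤ ∑ k ∈ I, Pr p S (A k) := by
  unfold Pr
  rw [← Ex_sum]
  refine Ex_mono h0 h1 fun E hE => ?_
  by_cases h : ∃ k ∈ I, A k E
  · rw [ind_pos h]
    obtain ⟨k, hk, hA⟩ := h
    have h2 := Finset.single_le_sum (f := fun k => ind (A k E))
      (fun l _ => ind_nonneg _) hk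
    rw [ind_pos hA] at h2
    exact h2
  · rw [ind_neg h]
    exact Finset.sum_nonneg fun l _ => ind_nonneg _

theorem Pr_inter {S T : Finset ι} (hT : T ⊆ S) (A : Finset ι → Prop) :
    Pr p S (fun E => A (E ∩ T)) = Pr p T A := by
  unfold Pr
  exact Ex_inter hT (fun E => ind (A E))

/-- Probability that no element of `T` is present. -/
theorem Pr_disjoint {S T : Finset ι} (hT : T ⊆ S) :
    Pr p S (fun E => ∀ e ∈ T, e ∉ E) = (1 - p) ^ T.card := by
  have h1 : Pr p S (fun E => ∀ e ∈ T, e ∉ E) = Pr p T (fun E => E = ∅) := by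
    rw [← Pr_inter hT]
    refine Pr_congr fun E hE => ?_
    rw [Finset.eq_empty_iff_forall_notMem]
    simp only [Finset.mem_inter, not_and]
    exact ⟨fun h x hx hxT => h x hxT hx, fun h x hxT hx => h x hx hxT⟩
  rw [h1]
  unfold Pr Ex
  rw [Finset.sum_eq_single ∅]
  · simp only [ind_pos]
    simp
  · intro E _ hE
    simp only [ind_neg hE, mul_zero]
  · intro h
    simp at h

/-- Probability that all elements of `T` are present. -/
theorem Pr_subset {S T : Finset ι} (hT : T ⊆ S) :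
    Pr p S (fun E => T ⊆ E) = p ^ T.card := by
  have h1 : Pr p S (fun E => T ⊆ E) = Pr p T (fun E => E = T) := by
    rw [← Pr_inter hT]
    refine Pr_congr fun E hE => ?_
    rw [Finset.inter_eq_right]
  rw [h1]
  unfold Pr Ex
  rw [Finset.sum_eq_single T]
  · simp only [ind_pos]
    simp
  · intro E _ hE
    simp only [ind_neg hE, mul_zero]
  · intro h
    simp at h

/-- Independence of events. -/
theorem Pr_forall {κ : Type*} [DecidableEq κ] (I : Finset κ) (T : κ → Finset ι)
    (A : κ → Finset ι → Prop) (S : Finset ι) (hS : ∀ k ∈ I, T k ⊆ S)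
    (hd : ∀ k ∈ I, ∀ l ∈ I, k ≠ l → Disjoint (T k) (T l)) :
    Pr p S (fun E => ∀ k ∈ I, A k (E ∩ T k)) = ∏ k ∈ I, Pr p (T k) (A k) := by
  unfold Pr
  rw [← Ex_prod I T (fun k E => ind (A k E)) S hS hd]
  refine Ex_congr fun E hE => ?_
  by_cases h : ∀ k ∈ I, A k (E ∩ T k)
  · rw [ind_pos h]
    rw [Finset.prod_eq_one]
    intro k hk
    rw [ind_pos (h k hk)]
  · rw [ind_neg h]
    push Not at h
    obtain ⟨k, hk, hA⟩ := h
    rw [Finset.prod_eq_zero hk]
    rw [ind_neg hA]

end prob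

end Pool.MP_54f573_pr.RGO
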