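import Mathlib

set_option autoImplicit false

namespace Pool.MP_54f573_pr.RGO

/-- `RevN k R`: there are `k` monotone maps to `ℤ` such that every pair `x, y` with `R x y`
is strictly reversed (`f i y < f i x`) by one of them. -/
def RevN {α : Type*} [PartialOrder α] (k : ℕ) (R : α → α → Prop) : Prop :=
  ∃ f : Fin k → α → ℤ, (∀ i, Monotone (f i)) ∧ ∀ x y, R x y → ∃ i, f i y < f i x

/-- The deterministic theorem. If no `M` antichains cover more than `2 T ^ 2` ordered pairs, then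
there are at most `(1 + ε) T` monotone maps reversing every pair `x, y` with `¬ x ≤ y`. -/
def DetStatement : Prop :=
  ∀ ε : ℝ, 0 < ε → ∃ M : ℕ, ∃ T₀ : ℝ, ∀ T : ℝ, T₀ ≤ T →
    ∀ (α : Type) [Fintype α] [DecidableEq α] [PartialOrder α],
      (∀ B : Fin M → Finset α, (∀ i, IsAntichain (· ≤ ·) (B i : Set α)) →
        (((Finset.univ.biUnion fun i => (B i).offDiag).card : ℕ) : ℝ) ≤ 2 * T ^ 2) →
      ∃ k : ℕ, (k : ℝ) ≤ (1 + ε) * T ∧ RevN k (fun x y : α => ¬ x ≤ y)

end Pool.MP_54f573_pr.RGO
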