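import Mathlib
import Pool.Agent.Work.MP_54f573_pr.Defs

set_option autoImplicit false

/-! Deterministic part of the random half: posts, blocks, gluing of the maps of the blocks. -/

namespace Pool.MP_54f573_pr.RGO

open Finset

/-- Reachability. -/
def Reach (E : Finset (ℕ × ℕ)) (x y : ℕ) : Prop :=
  Relation.ReflTransGen (fun a b => (a, b) ∈ E) x y

/-- All possible edges on `{0, …, n-1}`. -/
def edges (n : ℕ) : Finset (ℕ × ℕ) := (range n ×ˢ range n).filter (fun e => e.1 < e.2)

theorem mem_edges {n : ℕ} {e : ℕ × ℕ} : e ∈ edges n ↔ e.1 < e.2 ∧ e.2 < n := by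
  unfold edges
  rw [Finset.mem_filter, Finset.mem_product, Finset.mem_range, Finset.mem_range]
  constructor
  · rintro ⟨⟨h1, h2⟩, h3⟩
    exact ⟨h3, h2⟩
  · rintro ⟨h1, h2⟩
    exact ⟨⟨lt_trans h1 h2, h2⟩, h1⟩

theorem Reach.le {n : ℕ} {E : Finset (ℕ × ℕ)} (hE : E ⊆ edges n) {x y : ℕ} (h : Reach E x y) :
    x ≤ y := by
  induction h with
  | refl => exact le_rfl
  | tail _ h ih => exact ih.trans (mem_edges.mp (hE h)).1.le

theorem Reach.trans' {E : Finset (ℕ × ℕ)} {x y z : ℕ} (h : Reach E x y) (h' : Reach E y z) :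
    Reach E x z := Relation.ReflTransGen.trans h h'

theorem Reach.edge {E : Finset (ℕ × ℕ)} {x y : ℕ} (h : (x, y) ∈ E) : Reach E x y :=
  Relation.ReflTransGen.single h

/-- Far away vertices are comparable. -/
def Far (n m : ℕ) (E : Finset (ℕ × ℕ)) : Prop := ∀ i j, i + m < j → j < n → Reach E i j

/-- `v` is comparable with all vertices. -/
def Post (n : ℕ) (E : Finset (ℕ × ℕ)) (v : ℕ) : Prop :=
  (∀ x, x ≤ v → Reach E x v) ∧ ∀ x, v ≤ x → x < n → Reach E v x

/-- Local condition which makes `v` comparable with all vertices at distance at most `m`. -/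
def LocalPost (m : ℕ) (E : Finset (ℕ × ℕ)) (v : ℕ) : Prop :=
  (∀ j, 1 ≤ j → j ≤ m → ∃ u, v - j < u ∧ u ≤ v ∧ (v - j, u) ∈ E) ∧
    ∀ j, 1 ≤ j → j ≤ m → ∃ u, v ≤ u ∧ u < v + j ∧ (u, v + j) ∈ E

theorem LocalPost.post {n m : ℕ} {E : Finset (ℕ × ℕ)} {v : ℕ} (hv : v < n)
    (hF : Far n m E) (h : LocalPost m E v) : Post n E v := by
  constructor
  · intro x hx
    by_cases hxm : x + m < v
    · exact hF x v hxm hv
    · have key : ∀ j, j ≤ m → j ≤ v → Reach E (v - j) v := by
        intro j
        induction j using Nat.strong_induction_on with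
        | _ j ih =>
          intro hj hjv
          rcases Nat.eq_zero_or_pos j with rfl | hj0
          · exact Relation.ReflTransGen.refl
          · obtain ⟨u, hu1, hu2, hu3⟩ := h.1 j hj0 hj
            have h1 := ih (v - u) (by omega) (by omega) (by omega)
            have h2 : v - (v - u) = u := by omega
            rw [h2] at h1
            exact (Reach.edge hu3).trans' h1
      have := key (v - x) (by omega) (by omega)
      have h2 : v - (v - x) = x := by omega
      rwa [h2] at this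
  · intro x hx hxn
    by_cases hxm : v + m < x
    · exact hF v x hxm hxn
    · have key : ∀ j, j ≤ m → Reach E v (v + j) := by
        intro j
        induction j using Nat.strong_induction_on with
        | _ j ih =>
          intro hj
          rcases Nat.eq_zero_or_pos j with rfl | hj0
          · exact Relation.ReflTransGen.refl
          · obtain ⟨u, hu1, hu2, hu3⟩ := h.2 j hj0 hj
            have h1 := ih (u - v) (by omega) (by omega)
            have h2 : v + (u - v) = u := by omega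
            rw [h2] at h1
            exact h1.trans' (Reach.edge hu3)
      have := key (x - v) (by omega)
      have h2 : v + (x - v) = x := by omega
      rwa [h2] at this

/-- Every window of length `L` contains a post. -/
def GoodPosts (n L : ℕ) (E : Finset (ℕ × ℕ)) : Prop :=
  ∀ a, a + L ≤ n → ∃ v, a ≤ v ∧ v < a + L ∧ Post n E v

/-- The set described by a row of a tuple. -/
def row {s L : ℕ} (a : ℕ) (g : Fin s → Fin L) : Finset ℕ := univ.image fun j => a + (g j : ℕ)

/-- The number of ordered pairs covered by the sets of a tuple. -/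
def cost {M s L : ℕ} (a : ℕ) (g : Fin M → Fin s → Fin L) : ℕ :=
  (univ.biUnion fun i => (row a (g i)).offDiag).card

/-- No expensive tuple is edge-free. -/
def NoBad (n L s M : ℕ) (T : ℝ) (E : Finset (ℕ × ℕ)) : Prop :=
  ∀ a, a < n → ∀ g : Fin M → Fin s → Fin L, (∀ i j, a + (g i j : ℕ) < n) →
    2 * T ^ 2 < (cost a g : ℝ) → ∃ i, ∃ x ∈ row a (g i), ∃ y ∈ row a (g i), (x, y) ∈ E

theorem revN_mono_rnd {α : Type*} [PartialOrder α] {k k' : ℕ} {R : α → α → Prop} (h : RevN k R)
    (hk : k ≤ k') : RevN k' R := by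
  obtain ⟨f, hf, hR⟩ := h
  refine ⟨fun i => if h : (i : ℕ) < k then f ⟨i, h⟩ else fun _ => 0, ?_, ?_⟩
  · intro i
    by_cases h : (i : ℕ) < k
    · simp only [h, dif_pos]
      exact hf _
    · simp only [h, dif_neg, not_false_iff]
      exact monotone_const
  · intro x y hxy
    obtain ⟨i, hi⟩ := hR x y hxy
    refine ⟨⟨i, lt_of_lt_of_le i.2 hk⟩, ?_⟩
    simp only [i.2, dif_pos]
    exact hi

/-- Enumeration of a nonempty finite set of size at most `s`. -/
theorem exists_enum {s : ℕ} {C : Finset ℕ} (hC : C.Nonempty) (hs : C.card ≤ s) :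
    ∃ h : Fin s → ℕ, univ.image h = C := by
  obtain ⟨x0, hx0⟩ := hC
  refine ⟨fun j => if hj : (j : ℕ) < C.card then (C.equivFin.symm ⟨j, hj⟩ : ℕ) else x0, ?_⟩
  ext x
  simp only [Finset.mem_image, Finset.mem_univ, true_and]
  constructor
  · rintro ⟨j, rfl⟩
    split_ifs with hj
    · exact (C.equivFin.symm ⟨j, hj⟩).2
    · exact hx0
  · intro hx
    refine ⟨⟨C.equivFin ⟨x, hx⟩, lt_of_lt_of_le (C.equivFin ⟨x, hx⟩).2 hs⟩, ?_⟩
    simp

/-- An expensive family of antichains in an interval contradicts `NoBad`. -/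
theorem NoBad.card_le {n L s M : ℕ} {T : ℝ} {E : Finset (ℕ × ℕ)} (h : NoBad n L s M T E)
    (hs1 : 1 ≤ s) (hs : 2 * T ^ 2 < (s : ℝ) * s - s)
    {a : ℕ} (B : Fin M → Finset ℕ)
    (hB : ∀ i, ∀ x ∈ B i, a ≤ x ∧ x < a + L ∧ x < n)
    (hE : ∀ i, ∀ x ∈ B i, ∀ y ∈ B i, (x, y) ∉ E) :
    (((univ.biUnion fun i => (B i).offDiag).card : ℕ) : ℝ) ≤ 2 * T ^ 2 := by
  by_contra hcon
  push Not at hcon
  -- there is a pair
  have hne : (univ.biUnion fun i => (B i).offDiag).Nonempty := by
    rw [← Finset.card_pos]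
    have : (0 : ℝ) < ((univ.biUnion fun i => (B i).offDiag).card : ℕ) :=
      lt_of_le_of_lt (by positivity) hcon
    exact_mod_cast this
  obtain ⟨⟨x0, y0⟩, hxy0⟩ := hne
  rw [Finset.mem_biUnion] at hxy0
  obtain ⟨i1, -, hi1⟩ := hxy0
  rw [Finset.mem_offDiag] at hi1
  have hx0 := hi1.1
  -- good family
  obtain ⟨C, hC1, hC2, hC3, hC4, hC5⟩ : ∃ C : Fin M → Finset ℕ, (∀ i, (C i).Nonempty) ∧
      (∀ i, (C i).card ≤ s) ∧ (∀ i, ∀ x ∈ C i, a ≤ x ∧ x < a + L ∧ x < n) ∧
      (∀ i, ∀ x ∈ C i, ∀ y ∈ C i, (x, y) ∉ E) ∧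
      2 * T ^ 2 < (((univ.biUnion fun i => (C i).offDiag).card : ℕ) : ℝ) := by
    by_cases hsm : ∀ i, (B i).card ≤ s
    · refine ⟨fun i => if B i = ∅ then {x0} else B i, ?_, ?_, ?_, ?_, ?_⟩
      · intro i
        by_cases hi : B i = ∅
        · simp [hi]
        · simp only [hi, if_false]
          exact Finset.nonempty_iff_ne_empty.mpr hi
      · intro i
        by_cases hi : B i = ∅
        · simp [hi, hs1]
        · simp only [hi, if_false]
          exact hsm i
      · intro i x hx
        by_cases hi : B i = ∅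
        · simp only [hi, if_true, Finset.mem_singleton] at hx
          subst hx
          exact hB i1 _ hx0
        · simp only [hi, if_false] at hx
          exact hB i _ hx
      · intro i x hx y hy
        by_cases hi : B i = ∅
        · simp only [hi, if_true, Finset.mem_singleton] at hx hy
          subst hx
          subst hy
          exact hE i1 _ hx0 _ hx0
        · simp only [hi, if_false] at hx hy
          exact hE i _ hx _ hy
      · have : (univ.biUnion fun i => (if B i = ∅ then ({x0} : Finset ℕ) else B i).offDiag) =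
            univ.biUnion fun i => (B i).offDiag := by
          refine Finset.biUnion_congr rfl fun i _ => ?_
          by_cases hi : B i = ∅
          · simp [hi]
          · simp [hi]
        rw [this]
        exact hcon
    · push Not at hsm
      obtain ⟨i0, hi0⟩ := hsm
      obtain ⟨C0, hC0, hC0c⟩ := Finset.exists_subset_card_eq hi0.le
      refine ⟨fun _ => C0, ?_, ?_, ?_, ?_, ?_⟩
      · intro i
        exact Finset.card_pos.mp (by rw [hC0c]; omega)
      · intro i
        exact hC0c.le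
      · intro i x hx
        exact hB i0 x (hC0 hx)
      · intro i x hx y hy
        exact hE i0 x (hC0 hx) y (hC0 hy)
      · have h1 : C0.offDiag ⊆ univ.biUnion fun _ : Fin M => C0.offDiag := by
          intro e he
          rw [Finset.mem_biUnion]
          exact ⟨i0, Finset.mem_univ _, he⟩
        have h2 := Finset.card_le_card h1
        rw [Finset.offDiag_card, hC0c] at h2
        have h3 : ((s * s - s : ℕ) : ℝ) = (s : ℝ) * s - s := by
          rw [Nat.cast_sub (Nat.le_mul_self s)]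
          push_cast
          ring
        calc 2 * T ^ 2 < (s : ℝ) * s - s := hs
          _ = ((s * s - s : ℕ) : ℝ) := h3.symm
          _ ≤ _ := by exact_mod_cast h2
  -- enumerate
  choose e he using fun i => exists_enum (hC1 i) (hC2 i)
  have hmem : ∀ i j, e i j ∈ C i := by
    intro i j
    rw [← he i]
    exact Finset.mem_image_of_mem _ (Finset.mem_univ _)
  have hL : ∀ i j, e i j - a < L := by
    intro i j
    have := hC3 i _ (hmem i j)
    omega
  have hsum : ∀ i j, a + (e i j - a) = e i j := by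
    intro i j
    have := hC3 i _ (hmem i j)
    omega
  have hrow : ∀ i, row a (fun j => (⟨e i j - a, hL i j⟩ : Fin L)) = C i := by
    intro i
    unfold row
    rw [← he i]
    refine Finset.image_congr ?_
    intro j _
    exact hsum i j
  have hx0' := hB i1 _ hx0
  obtain ⟨i, x, hx, y, hy, hxy⟩ := h a (by omega)
    (fun i j => (⟨e i j - a, hL i j⟩ : Fin L)) (by
      intro i j
      change a + (e i j - a) < n
      rw [hsum]
      exact (hC3 i _ (hmem i j)).2.2) (by
      unfold cost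
      simp only [hrow]
      exact hC5)
  simp only [hrow] at hx hy
  exact hC4 i x hx y hy hxy

/-- Rank function of an injective key. -/
theorem exists_rank {κ : Type*} [LinearOrder κ] (n : ℕ) (key : ℕ → κ) :
    ∃ f : ℕ → ℕ, ∀ x < n, ∀ y < n, (f x ≤ f y ↔ key x ≤ key y) := by
  refine ⟨fun x => ((range n).filter fun z => key z < key x).card, ?_⟩
  intro x hx y hy
  constructor
  · intro h
    by_contra hlt
    push Not at hlt
    have : ((range n).filter fun z => key z < key y).card <
        ((range n).filter fun z => key z < key x).card := by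
      apply Finset.card_lt_card
      rw [Finset.ssubset_iff_of_subset]
      · refine ⟨y, ?_, ?_⟩
        · rw [Finset.mem_filter, Finset.mem_range]
          exact ⟨hy, hlt⟩
        · rw [Finset.mem_filter]
          rintro ⟨-, h'⟩
          exact lt_irrefl _ h'
      · intro z hz
        rw [Finset.mem_filter] at hz ⊢
        exact ⟨hz.1, hz.2.trans hlt⟩
    exact absurd h (not_le.mpr this)
  · intro h
    apply Finset.card_le_card
    intro z hz
    rw [Finset.mem_filter] at hz ⊢
    exact ⟨hz.1, lt_of_lt_of_le hz.2 h⟩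

open Classical in
/-- The posts up to `x`. -/
noncomputable def posts (n : ℕ) (E : Finset (ℕ × ℕ)) (x : ℕ) : Finset ℕ :=
  (range (x + 1)).filter fun v => Post n E v

theorem mem_posts {n : ℕ} {E : Finset (ℕ × ℕ)} {x v : ℕ} :
    v ∈ posts n E x ↔ v ≤ x ∧ Post n E v := by
  classical
  unfold posts
  rw [Finset.mem_filter, Finset.mem_range]
  constructor
  · rintro ⟨h1, h2⟩
    exact ⟨by omega, h2⟩
  · rintro ⟨h1, h2⟩
    exact ⟨by omega, h2⟩

/-- The number of posts up to `x`. -/
noncomputable def blk (n : ℕ) (E : Finset (ℕ × ℕ)) (x : ℕ) : ℕ := (posts n E x).card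

theorem blk_mono {n : ℕ} {E : Finset (ℕ × ℕ)} {x y : ℕ} (h : x ≤ y) : blk n E x ≤ blk n E y := by
  unfold blk
  apply Finset.card_le_card
  intro z hz
  rw [mem_posts] at hz ⊢
  exact ⟨by omega, hz.2⟩

theorem blk_lt_of_post {n : ℕ} {E : Finset (ℕ × ℕ)} {x y v : ℕ} (hxv : x < v) (hvy : v ≤ y)
    (hv : Post n E v) : blk n E x < blk n E y := by
  unfold blk
  apply Finset.card_lt_card
  rw [Finset.ssubset_iff_of_subset]
  · refine ⟨v, ?_, ?_⟩
    · rw [mem_posts]
      exact ⟨hvy, hv⟩
    · rw [mem_posts]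
      rintro ⟨h, -⟩
      omega
  · intro z hz
    rw [mem_posts] at hz ⊢
    exact ⟨by omega, hz.2⟩

theorem exists_post_of_blk_lt {n : ℕ} {E : Finset (ℕ × ℕ)} {x y : ℕ}
    (h : blk n E x < blk n E y) : ∃ v, x < v ∧ v ≤ y ∧ Post n E v := by
  by_contra hcon
  push Not at hcon
  have : blk n E y ≤ blk n E x := by
    unfold blk
    apply Finset.card_le_card
    intro z hz
    rw [mem_posts] at hz ⊢
    refine ⟨?_, hz.2⟩
    by_contra hzx
    exact hcon z (by omega) (by omega) hz.2
  omega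

theorem reach_of_blk_lt {n : ℕ} {E : Finset (ℕ × ℕ)} {x y : ℕ} (hy : y < n)
    (h : blk n E x < blk n E y) : Reach E x y := by
  obtain ⟨v, h1, h2, h3⟩ := exists_post_of_blk_lt h
  exact (h3.1 x h1.le).trans' (h3.2 y h2 hy)

/-- The order on a block. -/
def RBlk (n : ℕ) (E : Finset (ℕ × ℕ)) (b : ℕ) : Type := {x : ℕ // x < n ∧ blk n E x = b}

/-- The inclusion of a block. -/
def RBlk.emb (n : ℕ) (E : Finset (ℕ × ℕ)) (b : ℕ) : RBlk n E b ↪ ℕ :=
  ⟨fun x => x.1, fun _ _ h => Subtype.ext h⟩

noncomputable instance (n : ℕ) (E : Finset (ℕ × ℕ)) (b : ℕ) : Fintype (RBlk n E b) :=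
  Set.Finite.fintype (s := {x : ℕ | x < n ∧ blk n E x = b})
    ((Set.finite_lt_nat n).subset fun _ h => h.1)

theorem blk_interval {n L : ℕ} {E : Finset (ℕ × ℕ)} (hP : GoodPosts n L E) {a x : ℕ}
    (hx : x < n) (h : blk n E a = blk n E x) : x < a + L := by
  by_contra hcon
  push Not at hcon
  obtain ⟨v, h1, h2, h3⟩ := hP (a + 1) (by omega)
  have := blk_lt_of_post (n := n) (E := E) (x := a) (y := x) (by omega) (by omega) h3
  omega

/-- Every block has few maps. -/
theorem block_revN {n L s M : ℕ} {T X : ℝ} {E : Finset (ℕ × ℕ)} (hE : E ⊆ edges n)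
    (hdet : ∀ (α : Type) [Fintype α] [DecidableEq α] [PartialOrder α],
      (∀ B : Fin M → Finset α, (∀ i, IsAntichain (· ≤ ·) (B i : Set α)) →
        (((Finset.univ.biUnion fun i => (B i).offDiag).card : ℕ) : ℝ) ≤ 2 * T ^ 2) →
      ∃ k : ℕ, (k : ℝ) ≤ X ∧ RevN k (fun x y : α => ¬ x ≤ y))
    (hP : GoodPosts n L E) (hN : NoBad n L s M T E)
    (hs1 : 1 ≤ s) (hs : 2 * T ^ 2 < (s : ℝ) * s - s) (b : ℕ) :
    ∃ f : Fin ⌊X⌋₊ → ℕ → ℤ,
      (∀ i x y, x < n → y < n → blk n E x = b → blk n E y = b → Reach E x y → f i x ≤ f i y) ∧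
      ∀ x y, x < n → y < n → blk n E x = b → blk n E y = b → ¬ Reach E x y →
        ∃ i, f i y < f i x := by
  let _ : DecidableEq (RBlk n E b) := Classical.decEq _
  let _ : PartialOrder (RBlk n E b) :=
    { le := fun x y => Reach E x.1 y.1
      le_refl := fun x => Relation.ReflTransGen.refl
      le_trans := fun x y z h1 h2 => Reach.trans' h1 h2
      le_antisymm := fun x y h1 h2 => Subtype.ext (le_antisymm (h1.le hE) (h2.le hE)) }
  have key : ∀ B : Fin M → Finset (RBlk n E b),
      (∀ i, IsAntichain (· ≤ ·) (B i : Set (RBlk n E b))) →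
      (((Finset.univ.biUnion fun i => (B i).offDiag).card : ℕ) : ℝ) ≤ 2 * T ^ 2 := by
    intro B hB
    by_cases hne : Nonempty (RBlk n E b)
    · -- smallest element
      have hex : ∃ a, a < n ∧ blk n E a = b := ⟨hne.some.1, hne.some.2⟩
      obtain ⟨a, ⟨ha1, ha2⟩, hmin⟩ : ∃ a, (a < n ∧ blk n E a = b) ∧
          ∀ x, x < n → blk n E x = b → a ≤ x := by
        classical
        exact ⟨Nat.find hex, Nat.find_spec hex, fun x hx hxb => Nat.find_min' hex ⟨hx, hxb⟩⟩
      have h1 := hN.card_le hs1 hs (a := a)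
        (fun i => (B i).map (RBlk.emb n E b)) (by
          intro i x hx
          rw [Finset.mem_map] at hx
          obtain ⟨y, hy, rfl⟩ := hx
          have hy2 := y.2
          refine ⟨hmin _ hy2.1 hy2.2, ?_, hy2.1⟩
          exact blk_interval hP hy2.1 (by rw [ha2]; exact hy2.2.symm)) (by
          intro i x hx y hy hxy
          rw [Finset.mem_map] at hx hy
          obtain ⟨x', hx', rfl⟩ := hx
          obtain ⟨y', hy', rfl⟩ := hy
          have hlt := (mem_edges.mp (hE hxy)).1
          have hne' : x' ≠ y' := by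
            rintro rfl
            exact lt_irrefl _ hlt
          exact hB i hx' hy' hne' (Reach.edge hxy))
      have h2 : (univ.biUnion fun i => ((B i).map (RBlk.emb n E b)).offDiag) =
          (univ.biUnion fun i => (B i).offDiag).map
            ⟨fun e : RBlk n E b × RBlk n E b => (e.1.1, e.2.1), by
              rintro ⟨x, y⟩ ⟨x', y'⟩ h
              simp only [Prod.mk.injEq] at h
              exact Prod.ext (Subtype.ext h.1) (Subtype.ext h.2)⟩ := by
        ext ⟨x, y⟩
        simp only [Finset.mem_biUnion, Finset.mem_univ, true_and, Finset.mem_offDiag,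
          Finset.mem_map, Function.Embedding.coeFn_mk, Prod.mk.injEq, Prod.exists, RBlk.emb]
        constructor
        · rintro ⟨i, ⟨x', hx', rfl⟩, ⟨y', hy', rfl⟩, hne'⟩
          exact ⟨x', y', ⟨i, hx', hy', fun h => hne' (by rw [h])⟩, rfl, rfl⟩
        · rintro ⟨x', y', ⟨i, hx', hy', hne'⟩, rfl, rfl⟩
          exact ⟨i, ⟨x', hx', rfl⟩, ⟨y', hy', rfl⟩, fun h => hne' (Subtype.ext h)⟩
      rw [h2, Finset.card_map] at h1
      exact h1
    · have : (univ.biUnion fun i => (B i).offDiag) = ∅ := by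
        rw [Finset.eq_empty_iff_forall_notMem]
        intro e _
        exact hne ⟨e.1⟩
      rw [this]
      simp only [Finset.card_empty, Nat.cast_zero]
      positivity
  obtain ⟨k, hk, hrev⟩ := hdet (RBlk n E b) key
  have hk' : k ≤ ⌊X⌋₊ := Nat.le_floor hk
  obtain ⟨f, hf1, hf2⟩ := revN_mono_rnd hrev hk'
  refine ⟨fun i x => if h : x < n ∧ blk n E x = b then f i ⟨x, h⟩ else 0, ?_, ?_⟩
  · intro i x y hx hy hxb hyb hxy
    have h1 : x < n ∧ blk n E x = b := ⟨hx, hxb⟩
    have h2 : y < n ∧ blk n E y = b := ⟨hy, hyb⟩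
    simp only [h1, h2, and_self, dif_pos]
    exact hf1 i (a := (⟨x, h1⟩ : RBlk n E b)) (b := (⟨y, h2⟩ : RBlk n E b)) hxy
  · intro x y hx hy hxb hyb hxy
    have h1 : x < n ∧ blk n E x = b := ⟨hx, hxb⟩
    have h2 : y < n ∧ blk n E y = b := ⟨hy, hyb⟩
    obtain ⟨i, hi⟩ := hf2 ⟨x, h1⟩ ⟨y, h2⟩ hxy
    refine ⟨i, ?_⟩
    simp only [h1, h2, and_self, dif_pos]
    exact hi

/-- Gluing of the blocks. -/
theorem realizer_of_good {n L s M : ℕ} {T X : ℝ} {E : Finset (ℕ × ℕ)} (hE : E ⊆ edges n)
    (hdet : ∀ (α : Type) [Fintype α] [DecidableEq α] [PartialOrder α],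
      (∀ B : Fin M → Finset α, (∀ i, IsAntichain (· ≤ ·) (B i : Set α)) →
        (((Finset.univ.biUnion fun i => (B i).offDiag).card : ℕ) : ℝ) ≤ 2 * T ^ 2) →
      ∃ k : ℕ, (k : ℝ) ≤ X ∧ RevN k (fun x y : α => ¬ x ≤ y))
    (hP : GoodPosts n L E) (hN : NoBad n L s M T E)
    (hs1 : 1 ≤ s) (hs : 2 * T ^ 2 < (s : ℝ) * s - s) (hX : 1 ≤ X) :
    ∃ f : Fin ⌊X⌋₊ → ℕ → ℕ, ∀ x < n, ∀ y < n,
      ((Reach E x y ↔ ∀ i, f i x ≤ f i y) ∧ ∀ i, f i x = f i y → x = y) := by
  choose F hF1 hF2 using fun b => block_revN hE hdet hP hN hs1 hs b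
  have hinj : ∀ i : Fin ⌊X⌋₊, ∀ x < n, ∀ y < n,
      (toLex (blk n E x, toLex (F (blk n E x) i x, x)) : ℕ ×ₗ (ℤ ×ₗ ℕ)) =
        toLex (blk n E y, toLex (F (blk n E y) i y, y)) → x = y := by
    intro i x _ y _ h
    have h1 := congrArg (fun z => (ofLex (ofLex z).2).2) h
    exact h1
  choose f hf using fun i : Fin ⌊X⌋₊ => exists_rank n
    (fun x => (toLex (blk n E x, toLex (F (blk n E x) i x, x)) : ℕ ×ₗ (ℤ ×ₗ ℕ)))
  refine ⟨f, fun x hx y hy => ⟨⟨?_, ?_⟩, ?_⟩⟩
  · intro hxy i
    rw [hf i x hx y hy, Prod.Lex.toLex_le_toLex]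
    have hle := hxy.le hE
    rcases lt_or_eq_of_le (blk_mono (n := n) (E := E) hle) with h | h
    · exact Or.inl h
    · refine Or.inr ⟨h, ?_⟩
      rw [Prod.Lex.toLex_le_toLex]
      have h2 := hF1 (blk n E y) i x y hx hy h rfl hxy
      simp only [h]
      rcases lt_or_eq_of_le h2 with h3 | h3
      · exact Or.inl h3
      · exact Or.inr ⟨h3, hle⟩
  · intro h
    by_contra hxy
    have h0 : 0 < ⌊X⌋₊ := Nat.floor_pos.mpr hX
    rcases lt_trichotomy (blk n E x) (blk n E y) with hb | hb | hb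
    · exact hxy (reach_of_blk_lt hy hb)
    · obtain ⟨i, hi⟩ := hF2 (blk n E y) x y hx hy hb rfl hxy
      have h1 := (hf i x hx y hy).mp (h i)
      rw [Prod.Lex.toLex_le_toLex] at h1
      rcases h1 with h1 | ⟨-, h1⟩
      · exact absurd hb (ne_of_lt h1)
      · rw [Prod.Lex.toLex_le_toLex] at h1
        simp only [hb] at h1
        rcases h1 with h1 | ⟨h1, -⟩
        · exact absurd hi (not_lt.mpr h1.le)
        · exact absurd hi (not_lt.mpr h1.le)
    · have h1 := (hf ⟨0, h0⟩ x hx y hy).mp (h ⟨0, h0⟩)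
      rw [Prod.Lex.toLex_le_toLex] at h1
      rcases h1 with h1 | ⟨h1, -⟩
      · exact absurd hb (not_lt.mpr h1.le)
      · exact absurd hb (not_lt.mpr h1.le)
  · intro i h
    have h1 := (hf i x hx y hy).mp h.le
    have h2 := (hf i y hy x hx).mp h.ge
    exact hinj i x hx y hy (le_antisymm h1 h2)

end Pool.MP_54f573_pr.RGO
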