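import Mathlib
import Pool.Agent.Work.MP_54f573_pr.Random1
import Pool.Agent.Work.MP_54f573_pr.Random2

set_option autoImplicit false

/-! Probability estimates. -/

namespace Pool.MP_54f573_pr.RGO

open Finset

variable {p : ℝ}

/-! ### Far pairs -/

theorem Pr_not_reach (h0 : 0 ≤ p) (h1 : p ≤ 1) {n m i j : ℕ} (hij : i + m < j) (hj : j < n) :
    Pr p (edges n) (fun E => ¬ Reach E i j) ≤ (1 - p ^ 2) ^ m := by
  have hcardT : ∀ v ∈ Ioo i j, ({(i, v), (v, j)} : Finset (ℕ × ℕ)).card = 2 := by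
    intro v hv
    rw [Finset.mem_Ioo] at hv
    rw [Finset.card_pair]
    intro h
    rw [Prod.mk.injEq] at h
    omega
  have hS : ∀ v ∈ Ioo i j, ({(i, v), (v, j)} : Finset (ℕ × ℕ)) ⊆ edges n := by
    intro v hv e he
    rw [Finset.mem_Ioo] at hv
    rw [mem_edges]
    simp only [Finset.mem_insert, Finset.mem_singleton] at he
    rcases he with rfl | rfl
    · simp only
      omega
    · simp only
      omega
  have hd : ∀ v ∈ Ioo i j, ∀ w ∈ Ioo i j, v ≠ w →
      Disjoint ({(i, v), (v, j)} : Finset (ℕ × ℕ)) {(i, w), (w, j)} := by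
    intro v hv w hw hvw
    rw [Finset.mem_Ioo] at hv hw
    rw [Finset.disjoint_left]
    intro e he he'
    simp only [Finset.mem_insert, Finset.mem_singleton] at he he'
    rcases he with rfl | rfl <;> rcases he' with he' | he' <;> rw [Prod.mk.injEq] at he' <;> omega
  have h2 := Pr_forall (p := p) (Ioo i j) (fun v => ({(i, v), (v, j)} : Finset (ℕ × ℕ)))
    (fun v E => ¬ (({(i, v), (v, j)} : Finset (ℕ × ℕ)) ⊆ E)) (edges n) hS hd
  have h3 : ∏ v ∈ Ioo i j, Pr p ({(i, v), (v, j)} : Finset (ℕ × ℕ))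
      (fun E => ¬ (({(i, v), (v, j)} : Finset (ℕ × ℕ)) ⊆ E)) = (1 - p ^ 2) ^ (j - i - 1) := by
    rw [Finset.prod_congr rfl (g := fun _ => 1 - p ^ 2)]
    · rw [Finset.prod_const, Nat.card_Ioo]
    · intro v hv
      rw [Pr_not, Pr_subset (Finset.Subset.refl _), hcardT v hv]
  rw [h3] at h2
  have h4 : Pr p (edges n) (fun E => ¬ Reach E i j) ≤ (1 - p ^ 2) ^ (j - i - 1) := by
    rw [← h2]
    refine Pr_mono h0 h1 fun E _ hE v hv hsub => hE ?_
    have hsub' : ({(i, v), (v, j)} : Finset (ℕ × ℕ)) ⊆ E := fun e he =>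
      (Finset.mem_inter.mp (hsub he)).1
    have e1 : (i, v) ∈ E := hsub' (by simp)
    have e2 : (v, j) ∈ E := hsub' (by simp)
    exact (Reach.edge e1).trans' (Reach.edge e2)
  refine h4.trans ?_
  have hp2 : p ^ 2 ≤ 1 := pow_le_one₀ h0 h1
  refine pow_le_pow_of_le_one (by linarith) (by linarith [sq_nonneg p]) (by omega)

theorem Pr_not_far (h0 : 0 ≤ p) (h1 : p ≤ 1) (n m : ℕ) :
    Pr p (edges n) (fun E => ¬ Far n m E) ≤ (n : ℝ) ^ 2 * (1 - p ^ 2) ^ m := by
  have h2 : Pr p (edges n) (fun E => ¬ Far n m E) ≤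
      Pr p (edges n) (fun E => ∃ e ∈ (range n ×ˢ range n).filter (fun e => e.1 + m < e.2),
        ¬ Reach E e.1 e.2) := by
    refine Pr_mono h0 h1 fun E _ hE => ?_
    unfold Far at hE
    push Not at hE
    obtain ⟨i, j, hij, hj, hr⟩ := hE
    refine ⟨(i, j), ?_, hr⟩
    rw [Finset.mem_filter, Finset.mem_product, Finset.mem_range, Finset.mem_range]
    refine ⟨⟨?_, hj⟩, hij⟩
    simp only
    omega
  refine h2.trans ((Pr_exists_le h0 h1 _ _ _).trans ?_)
  have hp2 : p ^ 2 ≤ 1 := pow_le_one₀ h0 h1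
  calc ∑ e ∈ (range n ×ˢ range n).filter (fun e => e.1 + m < e.2),
        Pr p (edges n) (fun E => ¬ Reach E e.1 e.2)
      ≤ ∑ e ∈ (range n ×ˢ range n).filter (fun e => e.1 + m < e.2), (1 - p ^ 2) ^ m := by
        refine Finset.sum_le_sum fun e he => ?_
        rw [Finset.mem_filter, Finset.mem_product, Finset.mem_range, Finset.mem_range] at he
        exact Pr_not_reach h0 h1 he.2 he.1.2
    _ = (((range n ×ˢ range n).filter (fun e => e.1 + m < e.2)).card : ℝ) * (1 - p ^ 2) ^ m := by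
        rw [Finset.sum_const, nsmul_eq_mul]
    _ ≤ (n : ℝ) ^ 2 * (1 - p ^ 2) ^ m := by
        refine mul_le_mul_of_nonneg_right ?_ (pow_nonneg (by linarith) _)
        have h3 := Finset.card_filter_le (range n ×ˢ range n) (fun e => e.1 + m < e.2)
        rw [Finset.card_product, Finset.card_range] at h3
        calc (((range n ×ˢ range n).filter (fun e => e.1 + m < e.2)).card : ℝ)
            ≤ ((n * n : ℕ) : ℝ) := by exact_mod_cast h3
          _ = (n : ℝ) ^ 2 := by push_cast; ring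

/-! ### Local posts -/

/-- The edges inside `[v-m, v+m]`. -/
def win (n m v : ℕ) : Finset (ℕ × ℕ) := (edges n).filter fun e => v ≤ e.1 + m ∧ e.2 ≤ v + m

/-- The edges tested by a local post. -/
def star (v : ℕ) : ℕ ⊕ ℕ → Finset (ℕ × ℕ)
  | Sum.inl j => (Ioc (v - j) v).image fun u => (v - j, u)
  | Sum.inr j => (Ico v (v + j)).image fun u => (u, v + j)

theorem card_star_inl {v j : ℕ} (h : j ≤ v) : (star v (Sum.inl j)).card = j := by
  unfold star
  rw [Finset.card_image_of_injective, Nat.card_Ioc]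
  · omega
  · intro a b hab
    exact (Prod.mk.inj hab).2

theorem card_star_inr {v j : ℕ} : (star v (Sum.inr j)).card = j := by
  unfold star
  rw [Finset.card_image_of_injective, Nat.card_Ico]
  · omega
  · intro a b hab
    exact (Prod.mk.inj hab).1

/-- Indices of the tests. -/
def idx (m : ℕ) : Finset (ℕ ⊕ ℕ) := (Icc 1 m).disjSum (Icc 1 m)

theorem localPost_iff {m v : ℕ} {E : Finset (ℕ × ℕ)} :
    LocalPost m E v ↔ ∀ k ∈ idx m, ∃ e ∈ star v k, e ∈ E := by
  unfold LocalPost idx star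
  constructor
  · rintro ⟨h1, h2⟩ k hk
    rcases k with j | j
    · rw [Finset.inl_mem_disjSum, Finset.mem_Icc] at hk
      obtain ⟨u, hu1, hu2, hu3⟩ := h1 j hk.1 hk.2
      exact ⟨_, Finset.mem_image_of_mem _ (Finset.mem_Ioc.mpr ⟨hu1, hu2⟩), hu3⟩
    · rw [Finset.inr_mem_disjSum, Finset.mem_Icc] at hk
      obtain ⟨u, hu1, hu2, hu3⟩ := h2 j hk.1 hk.2
      exact ⟨_, Finset.mem_image_of_mem _ (Finset.mem_Ico.mpr ⟨hu1, hu2⟩), hu3⟩
  · intro h
    constructor
    · intro j hj1 hj2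
      obtain ⟨e, he1, he2⟩ := h (Sum.inl j) (by
        rw [Finset.inl_mem_disjSum, Finset.mem_Icc]; exact ⟨hj1, hj2⟩)
      simp only [Finset.mem_image, Finset.mem_Ioc] at he1
      obtain ⟨u, hu, rfl⟩ := he1
      exact ⟨u, hu.1, hu.2, he2⟩
    · intro j hj1 hj2
      obtain ⟨e, he1, he2⟩ := h (Sum.inr j) (by
        rw [Finset.inr_mem_disjSum, Finset.mem_Icc]; exact ⟨hj1, hj2⟩)
      simp only [Finset.mem_image, Finset.mem_Ico] at he1
      obtain ⟨u, hu, rfl⟩ := he1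
      exact ⟨u, hu.1, hu.2, he2⟩

theorem star_subset_win {n m v : ℕ} (hm : m ≤ v) (hv : v + m < n) {k : ℕ ⊕ ℕ} (hk : k ∈ idx m) :
    star v k ⊆ win n m v := by
  intro e he
  unfold win
  unfold idx at hk
  rw [Finset.mem_filter, mem_edges]
  rcases k with j | j
  · rw [Finset.inl_mem_disjSum, Finset.mem_Icc] at hk
    simp only [star, Finset.mem_image, Finset.mem_Ioc] at he
    obtain ⟨u, hu, rfl⟩ := he
    simp only
    omega
  · rw [Finset.inr_mem_disjSum, Finset.mem_Icc] at hk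
    simp only [star, Finset.mem_image, Finset.mem_Ico] at he
    obtain ⟨u, hu, rfl⟩ := he
    simp only
    omega

theorem star_disjoint {m v : ℕ} (hm : m ≤ v) {k l : ℕ ⊕ ℕ} (hk : k ∈ idx m) (hl : l ∈ idx m)
    (hkl : k ≠ l) : Disjoint (star v k) (star v l) := by
  rw [Finset.disjoint_left]
  intro e he he'
  unfold idx at hk hl
  rcases k with j | j <;> rcases l with i | i
  · rw [Finset.inl_mem_disjSum, Finset.mem_Icc] at hk hl
    simp only [star, Finset.mem_image, Finset.mem_Ioc] at he he'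
    obtain ⟨u, hu, rfl⟩ := he
    obtain ⟨u', hu', h⟩ := he'
    rw [Prod.mk.injEq] at h
    exact hkl (by congr 1; omega)
  · rw [Finset.inl_mem_disjSum, Finset.mem_Icc] at hk
    rw [Finset.inr_mem_disjSum, Finset.mem_Icc] at hl
    simp only [star, Finset.mem_image, Finset.mem_Ioc, Finset.mem_Ico] at he he'
    obtain ⟨u, hu, rfl⟩ := he
    obtain ⟨u', hu', h⟩ := he'
    rw [Prod.mk.injEq] at h
    omega
  · rw [Finset.inr_mem_disjSum, Finset.mem_Icc] at hk
    rw [Finset.inl_mem_disjSum, Finset.mem_Icc] at hl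
    simp only [star, Finset.mem_image, Finset.mem_Ioc, Finset.mem_Ico] at he he'
    obtain ⟨u, hu, rfl⟩ := he
    obtain ⟨u', hu', h⟩ := he'
    rw [Prod.mk.injEq] at h
    omega
  · rw [Finset.inr_mem_disjSum, Finset.mem_Icc] at hk hl
    simp only [star, Finset.mem_image, Finset.mem_Ico] at he he'
    obtain ⟨u, hu, rfl⟩ := he
    obtain ⟨u', hu', h⟩ := he'
    rw [Prod.mk.injEq] at h
    exact hkl (by congr 1; omega)

theorem exp_neg_le {x : ℝ} (hp : 0 < p) (hx0 : 0 ≤ x) (hx : x ≤ 1 - p) :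
    Real.exp (-(x / p)) ≤ 1 - x := by
  have h1 : 0 < 1 - x := by linarith
  have h2 := Real.one_sub_inv_le_log_of_pos h1
  rw [← Real.le_log_iff_exp_le h1]
  refine le_trans ?_ h2
  have h3 : x / (1 - x) ≤ x / p := by
    apply div_le_div_of_nonneg_left hx0 hp
    linarith
  have h4 : 1 - (1 - x)⁻¹ = -(x / (1 - x)) := by
    field_simp
    ring
  rw [h4]
  linarith

theorem prod_ge (hp : 0 < p) (h1 : p ≤ 1) (m : ℕ) :
    Real.exp (-(1 / p ^ 2)) ≤ ∏ j ∈ Icc 1 m, (1 - (1 - p) ^ j) := by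
  have hq0 : 0 ≤ 1 - p := by linarith
  have hq1 : 1 - p < 1 := by linarith
  have h2 : ∀ j ∈ Icc 1 m, Real.exp (-((1 - p) ^ j / p)) ≤ 1 - (1 - p) ^ j := by
    intro j hj
    rw [Finset.mem_Icc] at hj
    refine exp_neg_le hp (pow_nonneg hq0 _) ?_
    calc (1 - p) ^ j ≤ (1 - p) ^ 1 := pow_le_pow_of_le_one hq0 hq1.le hj.1
      _ = 1 - p := pow_one _
  calc Real.exp (-(1 / p ^ 2)) ≤ Real.exp (∑ j ∈ Icc 1 m, -((1 - p) ^ j / p)) := by
        rw [Real.exp_le_exp, Finset.sum_neg_distrib, neg_le_neg_iff, ← Finset.sum_div]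
        rw [div_le_div_iff₀ hp (by positivity)]
        have h3 : ∑ j ∈ Icc 1 m, (1 - p) ^ j ≤ ∑ j ∈ range (m + 1), (1 - p) ^ j := by
          refine Finset.sum_le_sum_of_subset_of_nonneg ?_ fun j _ _ => pow_nonneg hq0 _
          intro j hj
          rw [Finset.mem_Icc] at hj
          rw [Finset.mem_range]
          omega
        have h4 : p * ∑ j ∈ range (m + 1), (1 - p) ^ j = 1 - (1 - p) ^ (m + 1) := by
          have := mul_neg_geom_sum (1 - p) (m + 1)
          rw [← this]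
          ring
        have h5 : p * ∑ j ∈ range (m + 1), (1 - p) ^ j ≤ 1 := by
          rw [h4]
          linarith [pow_nonneg hq0 (m + 1)]
        have h6 : p * ∑ j ∈ Icc 1 m, (1 - p) ^ j ≤ 1 :=
          (mul_le_mul_of_nonneg_left h3 hp.le).trans h5
        calc (∑ j ∈ Icc 1 m, (1 - p) ^ j) * p ^ 2
            = (p * ∑ j ∈ Icc 1 m, (1 - p) ^ j) * p := by ring
          _ ≤ 1 * p := mul_le_mul_of_nonneg_right h6 hp.le
    _ = ∏ j ∈ Icc 1 m, Real.exp (-((1 - p) ^ j / p)) := Real.exp_sum _ _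
    _ ≤ ∏ j ∈ Icc 1 m, (1 - (1 - p) ^ j) :=
        Finset.prod_le_prod (fun j _ => (Real.exp_pos _).le) h2

/-- Lower bound for the probability of a local post. -/
theorem Pr_localPost (hp : 0 < p) (h1 : p ≤ 1) {n m v : ℕ} (hm : m ≤ v) (hv : v + m < n) :
    Real.exp (-(1 / p ^ 2)) ^ 2 ≤ Pr p (win n m v) (fun E => LocalPost m E v) := by
  have h2 := Pr_forall (p := p) (idx m) (star v) (fun k E => ∃ e ∈ star v k, e ∈ E) (win n m v)
    (fun k hk => star_subset_win hm hv hk) (fun k hk l hl hkl => star_disjoint hm hk hl hkl)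
  have h3 : Pr p (win n m v) (fun E => LocalPost m E v) =
      Pr p (win n m v) (fun E => ∀ k ∈ idx m, ∃ e ∈ star v k, e ∈ E ∩ star v k) := by
    refine Pr_congr fun E _ => ?_
    rw [localPost_iff]
    refine forall_congr' fun k => forall_congr' fun _ => exists_congr fun e => ?_
    rw [Finset.mem_inter]
    tauto
  rw [h3, h2]
  have h4 : ∀ k, Pr p (star v k) (fun E => ∃ e ∈ star v k, e ∈ E) =
      1 - (1 - p) ^ (star v k).card := by
    intro k
    have h5 := Pr_not (p := p) (star v k) (fun E => ∀ e ∈ star v k, e ∉ E)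
    rw [Pr_disjoint (Finset.Subset.refl _)] at h5
    rw [← h5]
    refine Pr_congr fun E _ => ?_
    push Not
    rfl
  simp only [h4]
  unfold idx
  rw [Finset.prod_disjSum]
  have h5 : ∏ j ∈ Icc 1 m, (1 - (1 - p) ^ (star v (Sum.inl j)).card) =
      ∏ j ∈ Icc 1 m, (1 - (1 - p) ^ j) := by
    refine Finset.prod_congr rfl fun j hj => ?_
    rw [Finset.mem_Icc] at hj
    rw [card_star_inl (by omega)]
  have h6 : ∏ j ∈ Icc 1 m, (1 - (1 - p) ^ (star v (Sum.inr j)).card) =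
      ∏ j ∈ Icc 1 m, (1 - (1 - p) ^ j) := by
    refine Finset.prod_congr rfl fun j hj => ?_
    rw [card_star_inr]
  rw [h5, h6, sq]
  have h7 := prod_ge hp h1 m
  exact mul_le_mul h7 h7 (Real.exp_pos _).le ((Real.exp_pos _).le.trans h7)

/-- The centres of the windows. -/
def ctr (m a k : ℕ) : ℕ := a + k * (2 * m + 1) + m

theorem localPost_inter {n m v : ℕ} (hm : m ≤ v) (hv : v + m < n) {E : Finset (ℕ × ℕ)} :
    LocalPost m (E ∩ win n m v) v ↔ LocalPost m E v := by
  rw [localPost_iff, localPost_iff]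
  refine forall_congr' fun k => forall_congr' fun hk => exists_congr fun e => ?_
  rw [Finset.mem_inter]
  constructor
  · rintro ⟨h1, h2, -⟩
    exact ⟨h1, h2⟩
  · rintro ⟨h1, h2⟩
    exact ⟨h1, h2, star_subset_win hm hv hk h1⟩

theorem Pr_no_localPost (hp : 0 < p) (h1 : p ≤ 1) {n m K a : ℕ} (ha : a + K * (2 * m + 1) ≤ n) :
    Pr p (edges n) (fun E => ∀ k ∈ range K, ¬ LocalPost m E (ctr m a k)) ≤
      (1 - Real.exp (-(1 / p ^ 2)) ^ 2) ^ K := by
  have hk1 : ∀ k ∈ range K, m ≤ ctr m a k ∧ ctr m a k + m < n := by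
    intro k hk
    rw [Finset.mem_range] at hk
    unfold ctr
    have : (k + 1) * (2 * m + 1) ≤ K * (2 * m + 1) := Nat.mul_le_mul_right _ hk
    have h2 : (k + 1) * (2 * m + 1) = k * (2 * m + 1) + (2 * m + 1) := by ring
    omega
  have h2 := Pr_forall (p := p) (range K) (fun k => win n m (ctr m a k))
    (fun k E => ¬ LocalPost m E (ctr m a k)) (edges n)
    (fun k _ => Finset.filter_subset _ _) (by
      intro k _ l _ hkl
      rw [Finset.disjoint_left]
      intro e he he'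
      unfold win ctr at he he'
      rw [Finset.mem_filter, mem_edges] at he he'
      rcases Nat.lt_or_gt_of_ne hkl with h | h
      · have h3 : (k + 1) * (2 * m + 1) ≤ l * (2 * m + 1) := Nat.mul_le_mul_right _ h
        have h4 : (k + 1) * (2 * m + 1) = k * (2 * m + 1) + (2 * m + 1) := by ring
        omega
      · have h3 : (l + 1) * (2 * m + 1) ≤ k * (2 * m + 1) := Nat.mul_le_mul_right _ h
        have h4 : (l + 1) * (2 * m + 1) = l * (2 * m + 1) + (2 * m + 1) := by ring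
        omega)
  have h3 : Pr p (edges n) (fun E => ∀ k ∈ range K, ¬ LocalPost m E (ctr m a k)) =
      Pr p (edges n) (fun E => ∀ k ∈ range K,
        ¬ LocalPost m (E ∩ win n m (ctr m a k)) (ctr m a k)) := by
    refine Pr_congr fun E _ => ?_
    refine forall_congr' fun k => forall_congr' fun hk => not_congr ?_
    exact (localPost_inter (hk1 k hk).1 (hk1 k hk).2).symm
  rw [h3, h2]
  calc ∏ k ∈ range K, Pr p (win n m (ctr m a k)) (fun E => ¬ LocalPost m E (ctr m a k))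
      ≤ ∏ k ∈ range K, (1 - Real.exp (-(1 / p ^ 2)) ^ 2) := by
        refine Finset.prod_le_prod (fun k _ => Pr_nonneg hp.le h1 _) fun k hk => ?_
        rw [Pr_not]
        linarith [Pr_localPost hp h1 (hk1 k hk).1 (hk1 k hk).2]
    _ = (1 - Real.exp (-(1 / p ^ 2)) ^ 2) ^ K := by
        rw [Finset.prod_const, Finset.card_range]

theorem Pr_not_goodPosts (hp : 0 < p) (h1 : p ≤ 1) (n m K : ℕ) :
    Pr p (edges n) (fun E => Far n m E ∧ ¬ GoodPosts n (K * (2 * m + 1)) E) ≤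
      n * (1 - Real.exp (-(1 / p ^ 2)) ^ 2) ^ K + (1 - Real.exp (-(1 / p ^ 2)) ^ 2) ^ K := by
  have hc : 0 ≤ 1 - Real.exp (-(1 / p ^ 2)) ^ 2 := by
    have : Real.exp (-(1 / p ^ 2)) ≤ 1 := by
      rw [Real.exp_le_one_iff]
      simp only [Left.neg_nonpos_iff]
      positivity
    have h2 : Real.exp (-(1 / p ^ 2)) ^ 2 ≤ 1 := pow_le_one₀ (Real.exp_pos _).le this
    linarith
  have h2 : Pr p (edges n) (fun E => Far n m E ∧ ¬ GoodPosts n (K * (2 * m + 1)) E) ≤
      Pr p (edges n) (fun E => ∃ a ∈ (range (n + 1)).filter (fun a => a + K * (2 * m + 1) ≤ n),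
        ∀ k ∈ range K, ¬ LocalPost m E (ctr m a k)) := by
    refine Pr_mono hp.le h1 fun E _ hE => ?_
    obtain ⟨hF, hE⟩ := hE
    unfold GoodPosts at hE
    push Not at hE
    obtain ⟨a, ha, hv⟩ := hE
    refine ⟨a, ?_, ?_⟩
    · rw [Finset.mem_filter, Finset.mem_range]
      exact ⟨by omega, ha⟩
    · intro k hk hL
      rw [Finset.mem_range] at hk
      have h3 : (k + 1) * (2 * m + 1) ≤ K * (2 * m + 1) := Nat.mul_le_mul_right _ hk
      have h4 : (k + 1) * (2 * m + 1) = k * (2 * m + 1) + (2 * m + 1) := by ring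
      have h5 : ctr m a k < a + K * (2 * m + 1) := by unfold ctr; omega
      exact hv (ctr m a k) (by unfold ctr; omega) h5 (hL.post (by omega) hF)
  refine h2.trans ((Pr_exists_le hp.le h1 _ _ _).trans ?_)
  calc ∑ a ∈ (range (n + 1)).filter (fun a => a + K * (2 * m + 1) ≤ n),
        Pr p (edges n) (fun E => ∀ k ∈ range K, ¬ LocalPost m E (ctr m a k))
      ≤ ∑ a ∈ (range (n + 1)).filter (fun a => a + K * (2 * m + 1) ≤ n),
          (1 - Real.exp (-(1 / p ^ 2)) ^ 2) ^ K := by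
        refine Finset.sum_le_sum fun a ha => ?_
        rw [Finset.mem_filter] at ha
        exact Pr_no_localPost hp h1 ha.2
    _ = (((range (n + 1)).filter (fun a => a + K * (2 * m + 1) ≤ n)).card : ℝ) *
          (1 - Real.exp (-(1 / p ^ 2)) ^ 2) ^ K := by
        rw [Finset.sum_const, nsmul_eq_mul]
    _ ≤ (n + 1 : ℝ) * (1 - Real.exp (-(1 / p ^ 2)) ^ 2) ^ K := by
        refine mul_le_mul_of_nonneg_right ?_ (pow_nonneg hc _)
        have h3 := Finset.card_filter_le (range (n + 1)) (fun a => a + K * (2 * m + 1) ≤ n)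
        rw [Finset.card_range] at h3
        exact_mod_cast h3
    _ = _ := by ring

/-! ### Expensive tuples -/

theorem cost_le {M s L : ℕ} (a : ℕ) (g : Fin M → Fin s → Fin L) :
    cost a g ≤ 2 * ((univ.biUnion fun i => (row a (g i)).offDiag).filter
      fun e => e.1 < e.2).card := by
  unfold cost
  set D := univ.biUnion fun i => (row a (g i)).offDiag with hD
  have h1 := Finset.card_filter_add_card_filter_not (s := D) (fun e : ℕ × ℕ => e.1 < e.2)
  have h2 : (D.filter fun e => ¬ e.1 < e.2).card ≤ (D.filter fun e => e.1 < e.2).card := by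
    refine Finset.card_le_card_of_injOn Prod.swap ?_ (Prod.swap_injective.injOn)
    intro e he
    rw [Finset.mem_coe, Finset.mem_filter] at he
    rw [Finset.mem_coe, Finset.mem_filter]
    obtain ⟨he1, he2⟩ := he
    rw [hD, Finset.mem_biUnion] at he1
    obtain ⟨i, -, hi⟩ := he1
    rw [Finset.mem_offDiag] at hi
    refine ⟨?_, ?_⟩
    · rw [hD, Finset.mem_biUnion]
      refine ⟨i, Finset.mem_univ _, ?_⟩
      rw [Finset.mem_offDiag]
      exact ⟨hi.2.1, hi.1, hi.2.2.symm⟩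
    · have := hi.2.2
      simp only [Prod.fst_swap, Prod.snd_swap]
      omega
  omega

theorem Pr_tuple (h0 : 0 ≤ p) (h1 : p < 1) {n M s L : ℕ} {T : ℝ} {a : ℕ}
    {g : Fin M → Fin s → Fin L} (hg : ∀ i j, a + (g i j : ℕ) < n)
    (hc : 2 * T ^ 2 < (cost a g : ℝ)) :
    Pr p (edges n) (fun E => ¬ ∃ i, ∃ x ∈ row a (g i), ∃ y ∈ row a (g i), (x, y) ∈ E) ≤
      (1 - p) ^ (T ^ 2) := by
  set F := (univ.biUnion fun i => (row a (g i)).offDiag).filter (fun e => e.1 < e.2) with hF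
  have hFn : F ⊆ edges n := by
    intro e he
    rw [hF, Finset.mem_filter, Finset.mem_biUnion] at he
    obtain ⟨⟨i, -, hi⟩, hlt⟩ := he
    rw [Finset.mem_offDiag] at hi
    rw [mem_edges]
    refine ⟨hlt, ?_⟩
    have h2 := hi.2.1
    unfold row at h2
    rw [Finset.mem_image] at h2
    obtain ⟨j, -, hj⟩ := h2
    rw [← hj]
    exact hg i j
  have h2 : Pr p (edges n) (fun E => ¬ ∃ i, ∃ x ∈ row a (g i), ∃ y ∈ row a (g i), (x, y) ∈ E) ≤
      Pr p (edges n) (fun E => ∀ e ∈ F, e ∉ E) := by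
    refine Pr_mono h0 h1.le fun E _ hE e he heE => hE ?_
    rw [hF, Finset.mem_filter, Finset.mem_biUnion] at he
    obtain ⟨⟨i, -, hi⟩, hlt⟩ := he
    rw [Finset.mem_offDiag] at hi
    exact ⟨i, e.1, hi.1, e.2, hi.2.1, heE⟩
  refine h2.trans ?_
  rw [Pr_disjoint hFn, ← Real.rpow_natCast]
  have h3 := cost_le a g
  rw [← hF] at h3
  have h4 : (cost a g : ℝ) ≤ 2 * (F.card : ℝ) := by exact_mod_cast h3
  exact Real.rpow_le_rpow_of_exponent_ge (by linarith) (by linarith) (by linarith)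

theorem Pr_not_noBad (h0 : 0 ≤ p) (h1 : p < 1) (n L s M : ℕ) (T : ℝ) :
    Pr p (edges n) (fun E => ¬ NoBad n L s M T E) ≤
      n * ((L : ℝ) ^ s) ^ M * (1 - p) ^ (T ^ 2) := by
  classical
  have h2 : Pr p (edges n) (fun E => ¬ NoBad n L s M T E) ≤
      Pr p (edges n) (fun E => ∃ t ∈ (range n ×ˢ (univ : Finset (Fin M → Fin s → Fin L))).filter
        (fun t => (∀ i j, t.1 + (t.2 i j : ℕ) < n) ∧ 2 * T ^ 2 < (cost t.1 t.2 : ℝ)),
        ¬ ∃ i, ∃ x ∈ row t.1 (t.2 i), ∃ y ∈ row t.1 (t.2 i), (x, y) ∈ E) := by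
    refine Pr_mono h0 h1.le fun E _ hE => ?_
    unfold NoBad at hE
    rw [not_forall] at hE
    obtain ⟨a, ha⟩ := hE
    rw [Classical.not_imp] at ha
    obtain ⟨ha, hg⟩ := ha
    rw [not_forall] at hg
    obtain ⟨g, hg⟩ := hg
    rw [Classical.not_imp] at hg
    obtain ⟨hg1, hg⟩ := hg
    rw [Classical.not_imp] at hg
    obtain ⟨hg2, hg3⟩ := hg
    refine ⟨(a, g), ?_, hg3⟩
    rw [Finset.mem_filter, Finset.mem_product, Finset.mem_range]
    exact ⟨⟨ha, Finset.mem_univ _⟩, hg1, hg2⟩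
  refine h2.trans ((Pr_exists_le h0 h1.le _ _ _).trans ?_)
  have hq : 0 ≤ (1 - p) ^ (T ^ 2) := Real.rpow_nonneg (by linarith) _
  calc ∑ t ∈ (range n ×ˢ (univ : Finset (Fin M → Fin s → Fin L))).filter
        (fun t => (∀ i j, t.1 + (t.2 i j : ℕ) < n) ∧ 2 * T ^ 2 < (cost t.1 t.2 : ℝ)),
        Pr p (edges n) (fun E => ¬ ∃ i, ∃ x ∈ row t.1 (t.2 i), ∃ y ∈ row t.1 (t.2 i), (x, y) ∈ E)
      ≤ ∑ t ∈ (range n ×ˢ (univ : Finset (Fin M → Fin s → Fin L))).filter
        (fun t => (∀ i j, t.1 + (t.2 i j : ℕ) < n) ∧ 2 * T ^ 2 < (cost t.1 t.2 : ℝ)),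
          (1 - p) ^ (T ^ 2) := by
        refine Finset.sum_le_sum fun t ht => ?_
        rw [Finset.mem_filter] at ht
        exact Pr_tuple h0 h1 ht.2.1 ht.2.2
    _ = (((range n ×ˢ (univ : Finset (Fin M → Fin s → Fin L))).filter
        (fun t => (∀ i j, t.1 + (t.2 i j : ℕ) < n) ∧ 2 * T ^ 2 < (cost t.1 t.2 : ℝ))).card : ℝ) *
          (1 - p) ^ (T ^ 2) := by
        rw [Finset.sum_const, nsmul_eq_mul]
    _ ≤ n * ((L : ℝ) ^ s) ^ M * (1 - p) ^ (T ^ 2) := by
        refine mul_le_mul_of_nonneg_right ?_ hq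
        have h3 := Finset.card_filter_le (range n ×ˢ (univ : Finset (Fin M → Fin s → Fin L)))
          (fun t => (∀ i j, t.1 + (t.2 i j : ℕ) < n) ∧ 2 * T ^ 2 < (cost t.1 t.2 : ℝ))
        rw [Finset.card_product, Finset.card_range, Finset.card_univ, Fintype.card_fun,
          Fintype.card_fun, Fintype.card_fin, Fintype.card_fin, Fintype.card_fin] at h3
        calc _ ≤ ((n * (L ^ s) ^ M : ℕ) : ℝ) := by exact_mod_cast h3
          _ = _ := by push_cast; ring

end Pool.MP_54f573_pr.RGO
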