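import Mathlib
import Pool.Agent.Work.MP_54f573_pr.Random3

set_option autoImplicit false

/-! Asymptotics and the final assembly of the random half. -/

namespace Pool.MP_54f573_pr.RGO

open Finset Filter Topology

/-! ### Transfer between `Fin n` and `ℕ` -/

theorem Ex_map {ι κ : Type*} [DecidableEq ι] [DecidableEq κ] {p : ℝ} (f : ι ↪ κ) (S : Finset ι)
    (g : Finset κ → ℝ) : Ex p (S.map f) g = Ex p S (fun E => g (E.map f)) := by
  induction S using Finset.induction_on generalizing g with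
  | empty => simp [Ex_empty]
  | insert a S ha ih =>
    have h1 : f a ∉ S.map f := by
      rw [Finset.mem_map' f]
      exact ha
    rw [Finset.map_insert, Ex_insert h1, Ex_insert ha, ih, ih]
    simp only [Finset.map_insert]

/-- The inclusion of pairs. -/
def pairEmb (n : ℕ) : Fin n × Fin n ↪ ℕ × ℕ :=
  ⟨fun e => ((e.1 : ℕ), (e.2 : ℕ)), by
    rintro ⟨a, b⟩ ⟨c, d⟩ h
    rw [Prod.mk.injEq] at h
    exact Prod.ext (Fin.ext h.1) (Fin.ext h.2)⟩

theorem mem_map_pairEmb {n : ℕ} {E : Finset (Fin n × Fin n)} {x y : Fin n} :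
    ((x : ℕ), (y : ℕ)) ∈ E.map (pairEmb n) ↔ (x, y) ∈ E := by
  have := Finset.mem_map' (pairEmb n) (a := (x, y)) (s := E)
  exact this

theorem map_edges (n : ℕ) :
    ((Finset.univ : Finset (Fin n × Fin n)).filter (fun e => e.1 < e.2)).map (pairEmb n) =
      edges n := by
  ext ⟨a, b⟩
  rw [mem_edges, Finset.mem_map]
  constructor
  · rintro ⟨⟨x, y⟩, hxy, h⟩
    rw [Finset.mem_filter] at hxy
    have h1 : (x : ℕ) = a := congrArg Prod.fst h
    have h2 : (y : ℕ) = b := congrArg Prod.snd h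
    have h3 : (x : ℕ) < y := hxy.2
    simp only
    refine ⟨by omega, ?_⟩
    rw [← h2]
    exact y.2
  · rintro ⟨h1, h2⟩
    simp only at h1 h2
    refine ⟨(⟨a, by omega⟩, ⟨b, h2⟩), ?_, rfl⟩
    rw [Finset.mem_filter]
    exact ⟨Finset.mem_univ _, h1⟩

theorem reach_iff {n : ℕ} {E : Finset (Fin n × Fin n)} {x y : Fin n} :
    Relation.ReflTransGen (fun a b => (a, b) ∈ E) x y ↔ Reach (E.map (pairEmb n)) x y := by
  constructor
  · intro h
    induction h with
    | refl => exact Relation.ReflTransGen.refl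
    | tail _ h ih => exact ih.trans' (Reach.edge (mem_map_pairEmb.mpr h))
  · intro h
    have key : ∀ b : ℕ, Reach (E.map (pairEmb n)) x b → ∃ z : Fin n, (z : ℕ) = b ∧
        Relation.ReflTransGen (fun a b => (a, b) ∈ E) x z := by
      intro b hb
      unfold Reach at hb
      induction hb with
      | refl => exact ⟨x, rfl, Relation.ReflTransGen.refl⟩
      | tail _ h ih =>
        obtain ⟨z, hz, hr⟩ := ih
        rw [Finset.mem_map] at h
        obtain ⟨⟨u, w⟩, huw, h⟩ := h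
        have h1 : (u : ℕ) = _ := congrArg Prod.fst h
        have h2 : (w : ℕ) = _ := congrArg Prod.snd h
        refine ⟨w, h2, hr.tail ?_⟩
        have h3 : z = u := Fin.ext (hz.trans h1.symm)
        rw [h3]
        exact huw
    obtain ⟨z, hz, hr⟩ := key y h
    have : z = y := Fin.ext hz
    rwa [this] at hr

/-! ### Asymptotics -/

theorem asym (A B C D : ℝ) {δ : ℝ} (hδ : 0 < δ) :
    ∀ᶠ l : ℝ in atTop, (A * Real.sqrt l + B) * (C + D * Real.log l) ≤ δ * l := by
  have hs : Tendsto (fun l : ℝ => Real.sqrt l) atTop atTop := Real.tendsto_sqrt_atTop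
  have hc : ∀ c : ℝ, (fun _ : ℝ => c) =o[atTop] fun l : ℝ => Real.sqrt l := by
    intro c
    rw [Asymptotics.isLittleO_const_left]
    right
    exact (tendsto_norm_atTop_atTop.comp hs)
  have h1 : (fun l : ℝ => A * Real.sqrt l + B) =O[atTop] fun l : ℝ => Real.sqrt l :=
    ((Asymptotics.isBigO_refl _ _).const_mul_left A).add (hc B).isBigO
  have h2 : (fun l : ℝ => C + D * Real.log l) =o[atTop] fun l : ℝ => Real.sqrt l := by
    refine (hc C).add (Asymptotics.IsLittleO.const_mul_left ?_ D)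
    have := isLittleO_log_rpow_atTop (r := 1 / 2) (by norm_num)
    simpa [Real.sqrt_eq_rpow] using this
  have h3 := h1.mul_isLittleO h2
  have h4 := h3.def hδ
  filter_upwards [h4, eventually_ge_atTop 0] with l hl hl0
  rw [Real.mul_self_sqrt hl0, Real.norm_eq_abs, Real.norm_eq_abs, abs_of_nonneg hl0] at hl
  exact (le_abs_self _).trans hl

/-- The estimate of the number of tuples against the cost. -/
theorem tuples_small {p : ℝ} (hp : 0 < p) (hp1 : p < 1) {δ : ℝ} (hδ : 0 < δ) (M : ℕ)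
    {c : ℝ} (hc : 0 < c) :
    ∀ᶠ l : ℝ in atTop,
      (((⌊2 * ((1 + δ) * Real.sqrt (l / Real.log (1 / (1 - p))))⌋₊ + 2 : ℕ) : ℝ) * M) *
        Real.log ((⌈2 * l / c⌉₊ * (2 * ⌈3 * l / p ^ 2⌉₊ + 1) : ℕ) : ℝ) ≤ δ * l := by
  set lam := Real.log (1 / (1 - p)) with hlam
  have hlam0 : 0 < lam := by
    rw [hlam]
    apply Real.log_pos
    rw [lt_div_iff₀ (by linarith)]
    linarith
  have h := asym (2 * ((1 + δ) / Real.sqrt lam) * M) (2 * M)
    (Real.log ((2 / c + 1) * (2 * (3 / p ^ 2 + 1) + 1))) 2 hδ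
  filter_upwards [h, eventually_ge_atTop 1] with l hl hl1
  refine le_trans ?_ hl
  have hl0 : 0 < l := by linarith
  have hs : (((⌊2 * ((1 + δ) * Real.sqrt (l / lam))⌋₊ + 2 : ℕ) : ℝ) * M) ≤
      2 * ((1 + δ) / Real.sqrt lam) * M * Real.sqrt l + 2 * M := by
    have h1 : (⌊2 * ((1 + δ) * Real.sqrt (l / lam))⌋₊ : ℝ) ≤
        2 * ((1 + δ) * Real.sqrt (l / lam)) :=
      Nat.floor_le (by positivity)
    have h2 : Real.sqrt (l / lam) = Real.sqrt l / Real.sqrt lam := Real.sqrt_div hl0.le _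
    push_cast
    calc ((⌊2 * ((1 + δ) * Real.sqrt (l / lam))⌋₊ : ℝ) + 2) * M
        ≤ (2 * ((1 + δ) * Real.sqrt (l / lam)) + 2) * M := by gcongr
      _ = 2 * ((1 + δ) / Real.sqrt lam) * M * Real.sqrt l + 2 * M := by
          rw [h2]; ring
  have hK : (⌈2 * l / c⌉₊ : ℝ) ≤ (2 / c + 1) * l := by
    have := (Nat.ceil_lt_add_one (show 0 ≤ 2 * l / c by positivity)).le
    calc (⌈2 * l / c⌉₊ : ℝ) ≤ 2 * l / c + 1 := this
      _ ≤ 2 * l / c + l := by linarith
      _ = (2 / c + 1) * l := by ring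
  have hm : (⌈3 * l / p ^ 2⌉₊ : ℝ) ≤ (3 / p ^ 2 + 1) * l := by
    have := (Nat.ceil_lt_add_one (show 0 ≤ 3 * l / p ^ 2 by positivity)).le
    calc (⌈3 * l / p ^ 2⌉₊ : ℝ) ≤ 3 * l / p ^ 2 + 1 := this
      _ ≤ 3 * l / p ^ 2 + l := by linarith
      _ = (3 / p ^ 2 + 1) * l := by ring
  have hK1 : 1 ≤ ⌈2 * l / c⌉₊ := Nat.one_le_ceil_iff.mpr (by positivity)
  have hL1 : (1 : ℝ) ≤ ((⌈2 * l / c⌉₊ * (2 * ⌈3 * l / p ^ 2⌉₊ + 1) : ℕ) : ℝ) := by
    have : 1 ≤ ⌈2 * l / c⌉₊ * (2 * ⌈3 * l / p ^ 2⌉₊ + 1) :=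
      Nat.mul_pos hK1 (by omega)
    exact_mod_cast this
  have hL : ((⌈2 * l / c⌉₊ * (2 * ⌈3 * l / p ^ 2⌉₊ + 1) : ℕ) : ℝ) ≤
      ((2 / c + 1) * (2 * (3 / p ^ 2 + 1) + 1)) * l ^ 2 := by
    push_cast
    calc (⌈2 * l / c⌉₊ : ℝ) * (2 * (⌈3 * l / p ^ 2⌉₊ : ℝ) + 1)
        ≤ ((2 / c + 1) * l) * (2 * ((3 / p ^ 2 + 1) * l) + l) := by gcongr
      _ = ((2 / c + 1) * (2 * (3 / p ^ 2 + 1) + 1)) * l ^ 2 := by ring
  have hlog : Real.log ((⌈2 * l / c⌉₊ * (2 * ⌈3 * l / p ^ 2⌉₊ + 1) : ℕ) : ℝ) ≤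
      Real.log ((2 / c + 1) * (2 * (3 / p ^ 2 + 1) + 1)) + 2 * Real.log l := by
    calc _ ≤ Real.log (((2 / c + 1) * (2 * (3 / p ^ 2 + 1) + 1)) * l ^ 2) :=
          Real.log_le_log (by linarith) hL
      _ = _ := by
          rw [Real.log_mul (by positivity) (by positivity), Real.log_pow]
          norm_num
  exact mul_le_mul hs hlog (Real.log_nonneg hL1) (by positivity)

/-- The three bad events have small probability. -/
theorem Pr_good {p : ℝ} (hp : 0 < p) (hp1 : p < 1) {δ : ℝ} (hδ : 0 < δ) (M : ℕ) :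
    ∀ᶠ n : ℕ in atTop, ∃ L : ℕ,
      1 - (3 / (n : ℝ) + Real.exp (-(δ * Real.log n))) ≤
        Pr p (edges n) (fun E => GoodPosts n L E ∧
          NoBad n L (⌊2 * ((1 + δ) * Real.sqrt (Real.log n / Real.log (1 / (1 - p))))⌋₊ + 2) M
            ((1 + δ) * Real.sqrt (Real.log n / Real.log (1 / (1 - p)))) E) := by
  set c := Real.exp (-(1 / p ^ 2)) ^ 2 with hc
  have hc0 : 0 < c := by positivity
  have hc1 : c ≤ 1 := by
    rw [hc]
    refine pow_le_one₀ (Real.exp_pos _).le ?_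
    rw [Real.exp_le_one_iff]
    simp only [Left.neg_nonpos_iff]
    positivity
  have hlog : Tendsto (fun n : ℕ => Real.log (n : ℝ)) atTop atTop :=
    Real.tendsto_log_atTop.comp tendsto_natCast_atTop_atTop
  filter_upwards [hlog.eventually (tuples_small hp hp1 hδ M hc0), eventually_ge_atTop 3]
    with n hn hn3
  set l := Real.log (n : ℝ) with hl
  set lam := Real.log (1 / (1 - p)) with hlam
  have hlam0 : 0 < lam := by
    rw [hlam]
    apply Real.log_pos
    rw [lt_div_iff₀ (by linarith)]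
    linarith
  have hn0 : (0 : ℝ) < n := by
    have : 0 < n := by omega
    exact_mod_cast this
  have hl0 : 0 < l := by
    rw [hl]
    apply Real.log_pos
    have : 1 < n := by omega
    exact_mod_cast this
  have hexp : Real.exp l = n := Real.exp_log hn0
  set m := ⌈3 * l / p ^ 2⌉₊ with hm
  set K := ⌈2 * l / c⌉₊ with hK
  set T := (1 + δ) * Real.sqrt (l / lam) with hT
  set s := ⌊2 * T⌋₊ + 2 with hs
  set L := K * (2 * m + 1) with hL
  refine ⟨L, ?_⟩
  -- first event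
  have h1 : Pr p (edges n) (fun E => ¬ Far n m E) ≤ 1 / n := by
    refine (Pr_not_far hp.le hp1.le n m).trans ?_
    have hp2 : p ^ 2 ≤ 1 := pow_le_one₀ hp.le hp1.le
    have h2 : (1 - p ^ 2) ^ m ≤ Real.exp (-(3 * l)) := by
      have h3 : 1 - p ^ 2 ≤ Real.exp (-(p ^ 2)) := by
        have := Real.add_one_le_exp (-(p ^ 2))
        linarith
      calc (1 - p ^ 2) ^ m ≤ Real.exp (-(p ^ 2)) ^ m := pow_le_pow_left₀ (by linarith) h3 m
        _ = Real.exp (m * (-(p ^ 2))) := (Real.exp_nat_mul _ _).symm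
        _ ≤ Real.exp (-(3 * l)) := by
          rw [Real.exp_le_exp]
          have h4 : 3 * l / p ^ 2 ≤ m := Nat.le_ceil _
          rw [div_le_iff₀ (by positivity)] at h4
          linarith
    calc (n : ℝ) ^ 2 * (1 - p ^ 2) ^ m ≤ (n : ℝ) ^ 2 * Real.exp (-(3 * l)) := by gcongr
      _ = 1 / (n : ℝ) := by
        rw [← hexp, ← Real.exp_nat_mul, ← Real.exp_add, one_div, ← Real.exp_neg]
        congr 1
        push_cast
        ring
  -- second event
  have h2 : Pr p (edges n) (fun E => Far n m E ∧ ¬ GoodPosts n L E) ≤ 2 / n := by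
    refine (Pr_not_goodPosts hp hp1.le n m K).trans ?_
    rw [← hc]
    have h2 : (1 - c) ^ K ≤ Real.exp (-(2 * l)) := by
      have h3 : 1 - c ≤ Real.exp (-c) := by
        have := Real.add_one_le_exp (-c)
        linarith
      calc (1 - c) ^ K ≤ Real.exp (-c) ^ K := pow_le_pow_left₀ (by linarith) h3 K
        _ = Real.exp (K * (-c)) := (Real.exp_nat_mul _ _).symm
        _ ≤ Real.exp (-(2 * l)) := by
          rw [Real.exp_le_exp]
          have h4 : 2 * l / c ≤ K := Nat.le_ceil _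
          rw [div_le_iff₀ hc0] at h4
          linarith
    have h3 : Real.exp (-(2 * l)) = 1 / (n : ℝ) ^ 2 := by
      rw [← hexp, ← Real.exp_nat_mul, one_div, ← Real.exp_neg]
      congr 1
    rw [h3] at h2
    have hn1 : (1 : ℝ) ≤ n := by
      have : 1 ≤ n := by omega
      exact_mod_cast this
    calc (n : ℝ) * (1 - c) ^ K + (1 - c) ^ K ≤ n * (1 / (n : ℝ) ^ 2) + 1 / (n : ℝ) ^ 2 := by
          gcongr
      _ = 1 / n + 1 / (n : ℝ) ^ 2 := by field_simp
      _ ≤ 1 / n + 1 / n := by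
          have : 1 / (n : ℝ) ^ 2 ≤ 1 / n := by
            apply one_div_le_one_div_of_le hn0
            nlinarith
          linarith
      _ = 2 / n := by ring
  -- third event
  have h3 : Pr p (edges n) (fun E => ¬ NoBad n L s M T E) ≤ Real.exp (-(δ * l)) := by
    refine (Pr_not_noBad hp.le hp1 n L s M T).trans ?_
    have hK1 : 1 ≤ K := Nat.one_le_ceil_iff.mpr (by positivity)
    have hL1 : 1 ≤ L := Nat.mul_pos hK1 (by omega)
    have hL0 : (0 : ℝ) < L := by exact_mod_cast hL1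
    have hq : (1 - p) ^ (T ^ 2) = Real.exp (-((1 + δ) ^ 2 * l)) := by
      rw [Real.rpow_def_of_pos (by linarith)]
      congr 1
      have h4 : Real.log (1 - p) = -lam := by
        rw [hlam, one_div, Real.log_inv, neg_neg]
      rw [h4, hT, mul_pow, Real.sq_sqrt (by positivity)]
      field_simp
    have hpow : ((L : ℝ) ^ s) ^ M = Real.exp ((s : ℝ) * M * Real.log L) := by
      rw [← pow_mul]
      rw [← Real.exp_log hL0, ← Real.exp_nat_mul, Real.log_exp]
      congr 1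
      push_cast
      ring
    rw [hq, hpow, ← hexp, ← Real.exp_add, ← Real.exp_add, Real.exp_le_exp]
    have h5 : (s : ℝ) * M * Real.log L ≤ δ * l := hn
    nlinarith [sq_nonneg δ]
  -- union
  have h4 : Pr p (edges n) (fun E => ¬ (GoodPosts n L E ∧ NoBad n L s M T E)) ≤
      3 / n + Real.exp (-(δ * l)) := by
    have h5 : Pr p (edges n) (fun E => ¬ (GoodPosts n L E ∧ NoBad n L s M T E)) ≤
        Pr p (edges n) (fun E => (¬ Far n m E ∨ (Far n m E ∧ ¬ GoodPosts n L E)) ∨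
          ¬ NoBad n L s M T E) := by
      refine Pr_mono hp.le hp1.le fun E _ hE => ?_
      tauto
    have h6 := Pr_or_le hp.le hp1.le (edges n)
      (fun E => ¬ Far n m E ∨ (Far n m E ∧ ¬ GoodPosts n L E)) (fun E => ¬ NoBad n L s M T E)
    have h7 := Pr_or_le hp.le hp1.le (edges n)
      (fun E => ¬ Far n m E) (fun E => Far n m E ∧ ¬ GoodPosts n L E)
    calc _ ≤ _ := h5
      _ ≤ _ := h6
      _ ≤ (1 / n + 2 / n) + Real.exp (-(δ * l)) := by linarith
      _ = _ := by ring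
  rw [Pr_not] at h4
  linarith

theorem main_of_det (hdet : DetStatement) :
    open Classical in
    ∀ p : ℝ, 0 < p → p < 1 → ∀ ε : ℝ, 0 < ε →
    Tendsto (fun n : ℕ =>
      ∑ E ∈ (((Finset.univ : Finset (Fin n × Fin n)).filter (fun e => e.1 < e.2)).powerset.filter
          (fun E => ∃ k : ℕ,
            (k : ℝ) ≤ (1 + ε) * Real.sqrt (Real.log (n : ℝ) / Real.log (1 / (1 - p))) ∧
            ∃ f : Fin k → Fin n → ℕ, (∀ i, Function.Injective (f i)) ∧
              ∀ x y : Fin n,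
                (Relation.ReflTransGen (fun a b => (a, b) ∈ E) x y ↔ ∀ i, f i x ≤ f i y))),
        p ^ E.card * (1 - p) ^
          (((Finset.univ : Finset (Fin n × Fin n)).filter (fun e => e.1 < e.2)).card - E.card))
      atTop (𝓝 1) := by
  intro p hp hp1 ε hε
  set δ := min 1 ε / 3 with hδ
  have hδ0 : 0 < δ := by
    rw [hδ]
    have : 0 < min 1 ε := lt_min one_pos hε
    positivity
  have hδ1 : δ ≤ 1 := by
    rw [hδ]
    have : min 1 ε ≤ 1 := min_le_left _ _
    linarith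
  have hδε : 3 * δ ≤ ε := by
    rw [hδ]
    have : min 1 ε ≤ ε := min_le_right _ _
    linarith
  obtain ⟨M, T₀, hM⟩ := hdet δ hδ0
  set lam := Real.log (1 / (1 - p)) with hlam
  have hlam0 : 0 < lam := by
    rw [hlam]
    apply Real.log_pos
    rw [lt_div_iff₀ (by linarith)]
    linarith
  have hlog : Tendsto (fun n : ℕ => Real.log (n : ℝ)) atTop atTop :=
    Real.tendsto_log_atTop.comp tendsto_natCast_atTop_atTop
  have hTt : Tendsto (fun n : ℕ => Real.sqrt (Real.log n / lam)) atTop atTop :=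
    Real.tendsto_sqrt_atTop.comp (hlog.atTop_div_const hlam0)
  have hg : Tendsto (fun n : ℕ => 1 - (3 / (n : ℝ) + Real.exp (-(δ * Real.log n)))) atTop
      (𝓝 1) := by
    have h1 : Tendsto (fun n : ℕ => 3 / (n : ℝ)) atTop (𝓝 0) :=
      tendsto_const_div_atTop_nhds_zero_nat 3
    have h2 : Tendsto (fun n : ℕ => Real.exp (-(δ * Real.log n))) atTop (𝓝 0) :=
      Real.tendsto_exp_neg_atTop_nhds_zero.comp (hlog.const_mul_atTop hδ0)
    have h3 := (tendsto_const_nhds (x := (1 : ℝ)) (f := (atTop : Filter ℕ))).sub (h1.add h2)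
    simpa using h3
  have hrw : ∀ (n : ℕ) (Q : Finset (Fin n × Fin n) → Prop) (dQ : DecidablePred Q),
      ∑ E ∈ (((Finset.univ : Finset (Fin n × Fin n)).filter (fun e => e.1 < e.2)).powerset.filter Q),
        p ^ E.card * (1 - p) ^
          (((Finset.univ : Finset (Fin n × Fin n)).filter (fun e => e.1 < e.2)).card - E.card) =
      Pr p ((Finset.univ : Finset (Fin n × Fin n)).filter (fun e => e.1 < e.2)) Q := by
    intro n Q dQ
    unfold Pr Ex
    rw [Finset.sum_filter]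
    refine Finset.sum_congr rfl fun E _ => ?_
    by_cases hQ : Q E
    · simp only [if_pos hQ, ind_pos hQ, mul_one]
    · simp only [if_neg hQ, ind_neg hQ, mul_zero]
  refine tendsto_of_tendsto_of_tendsto_of_le_of_le' hg tendsto_const_nhds ?_ ?_
  · filter_upwards [Pr_good hp hp1 hδ0 M, hTt.eventually_ge_atTop (max T₀ 1)] with n hn hnT
    obtain ⟨L, hL⟩ := hn
    rw [hrw]
    refine hL.trans ?_
    rw [← map_edges n]
    unfold Pr
    rw [Ex_map]
    refine Ex_mono hp.le hp1.le fun E hE => ind_mono ?_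
    rintro ⟨hP, hN⟩
    set T := (1 + δ) * Real.sqrt (Real.log n / lam) with hT
    have hr1 : 1 ≤ Real.sqrt (Real.log n / lam) := (le_max_right _ _).trans hnT
    have hr2 : T₀ ≤ Real.sqrt (Real.log n / lam) := (le_max_left _ _).trans hnT
    have hT1 : Real.sqrt (Real.log n / lam) ≤ T := by
      rw [hT]
      nlinarith
    have hTT : T₀ ≤ T := hr2.trans hT1
    have hT0 : 1 ≤ T := hr1.trans hT1
    have hsub : E.map (pairEmb n) ⊆ edges n := by
      rw [← map_edges n]
      exact Finset.map_subset_map.mpr hE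
    have hs : 2 * T ^ 2 < ((⌊2 * T⌋₊ + 2 : ℕ) : ℝ) * ((⌊2 * T⌋₊ + 2 : ℕ) : ℝ) -
        ((⌊2 * T⌋₊ + 2 : ℕ) : ℝ) := by
      have h1 := Nat.lt_floor_add_one (2 * T)
      have h2 : 2 * T + 1 < ((⌊2 * T⌋₊ + 2 : ℕ) : ℝ) := by
        push_cast
        linarith
      set S := ((⌊2 * T⌋₊ + 2 : ℕ) : ℝ) with hS
      nlinarith
    obtain ⟨f, hf⟩ := realizer_of_good hsub (M := M) (T := T) (X := (1 + δ) * T)
      (s := ⌊2 * T⌋₊ + 2) (L := L) (hM T hTT) hP hN (by omega) hs (by nlinarith)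
    refine ⟨⌊(1 + δ) * T⌋₊, ?_, fun i x => f i x, ?_, ?_⟩
    · calc (⌊(1 + δ) * T⌋₊ : ℝ) ≤ (1 + δ) * T := Nat.floor_le (by nlinarith)
        _ = (1 + δ) * (1 + δ) * Real.sqrt (Real.log n / lam) := by rw [hT]; ring
        _ ≤ (1 + ε) * Real.sqrt (Real.log n / lam) := by
          refine mul_le_mul_of_nonneg_right ?_ (Real.sqrt_nonneg _)
          nlinarith
    · intro i x y hxy
      exact Fin.ext ((hf x x.2 y y.2).2 i hxy)
    · intro x y
      rw [reach_iff]
      exact (hf x x.2 y y.2).1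
  · refine Eventually.of_forall fun n => ?_
    rw [hrw]
    exact Pr_le_one hp.le hp1.le _

end Pool.MP_54f573_pr.RGO
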