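import Pool.Agent.Work.MP_54f573_pr.CostT

set_option autoImplicit false
open Classical

namespace Pool.MP_54f573_pr.RGO

variable {α : Type*} [PartialOrder α]

/-- basic numeric context: every antichain has at most `2 t` elements -/
def Small (α : Type*) [PartialOrder α] (t : ℕ) : Prop := ∀ X : Finset α, ACh X → (X.card : ℝ) ≤ 2 * t

theorem small_of_cost {t r M : ℕ} (ht : 0 < t) (hM : 1 ≤ M)
    (hcost : ∀ F : Finset (α × α), Cov M F → F.card + (2 * r + 30) * t ≤ 2 * t ^ 2) :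
    Small α t := by
  intro X hX
  have h1 := hcost X.offDiag ((Cov.single hX (Finset.Subset.refl _)).mono hM)
  have h2 : ((X.offDiag.card : ℕ) : ℝ) + (2 * r + 30) * t ≤ 2 * (t : ℝ) ^ 2 := by exact_mod_cast h1
  rw [cast_offDiag] at h2
  have ht' : (0 : ℝ) < t := by exact_mod_cast ht
  by_contra hcon
  push Not at hcon
  have hr : (0 : ℝ) ≤ r := Nat.cast_nonneg r
  have ht1 : (1 : ℝ) ≤ t := by exact_mod_cast ht
  have hrt : 0 ≤ (r : ℝ) * t := mul_nonneg hr ht'.le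
  nlinarith [mul_pos (sub_pos.2 hcon) (by linarith : (0 : ℝ) < X.card + 2 * t - 1)]

/-- the widths of `D'` and `U'` are at most `τ` -/
theorem case_W {A D' U' : Finset α} {x u : ℕ → α} {t τ r k : ℕ}
    (hC : CostH A D' U' x u t τ r k) (hsm : Small α t) (ht : 0 < t) (htw : t ≤ A.card)
    (hA : ACh A) : W D' ≤ τ ∧ W U' ≤ τ := by
  have ht' : (0 : ℝ) < t := by exact_mod_cast ht
  have hw : (t : ℝ) ≤ A.card := by exact_mod_cast htw
  have hw2 := hsm A hA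
  have e0 : ∀ S : Finset α, (∅ : Finset α) ⊆ S := fun S => Finset.empty_subset S
  have hac : ACh (∅ : Finset α) := fun a ha => absurd ha (Finset.notMem_empty a)
  constructor
  · by_contra hcon
    push Not at hcon
    obtain ⟨X, hX, hXa, hXc⟩ := exists_W D'
    obtain ⟨G, hG1, hG2, hG3⟩ := one_pairs hX hXa
    have h := hC G ∅ ∅ ∅ ∅ 1 0 hG1 (fun e he => absurd he (Finset.notMem_empty _)) hG2 (Cov.empty _)
      (by omega) (e0 _) (e0 _) hac (fun v hv => absurd hv (Finset.notMem_empty _)) (e0 _) hac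
      (fun v hv => absurd hv (Finset.notMem_empty _))
    rw [hG3] at h
    simp only [Finset.card_empty, Nat.cast_zero, mul_zero, zero_mul, add_zero] at h
    have hX2 := hsm X hXa
    have hXτ : (τ : ℝ) ≤ X.card := by
      rw [hXc]; exact_mod_cast hcon.le
    have hτ0 : (0 : ℝ) ≤ τ := Nat.cast_nonneg _
    have hr : (0 : ℝ) ≤ r := Nat.cast_nonneg r
    nlinarith
  · by_contra hcon
    push Not at hcon
    obtain ⟨X, hX, hXa, hXc⟩ := exists_W U'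
    obtain ⟨G, hG1, hG2, hG3⟩ := one_pairs hX hXa
    have h := hC ∅ G ∅ ∅ ∅ 0 1 (fun e he => absurd he (Finset.notMem_empty _)) hG1 (Cov.empty _) hG2
      (by omega) (e0 _) (e0 _) hac (fun v hv => absurd hv (Finset.notMem_empty _)) (e0 _) hac
      (fun v hv => absurd hv (Finset.notMem_empty _))
    rw [hG3] at h
    simp only [Finset.card_empty, Nat.cast_zero, mul_zero, zero_mul, add_zero] at h
    have hX2 := hsm X hXa
    have hXτ : (τ : ℝ) ≤ X.card := by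
      rw [hXc]; exact_mod_cast hcon.le
    have hτ0 : (0 : ℝ) ≤ τ := Nat.cast_nonneg _
    have hr : (0 : ℝ) ≤ r := Nat.cast_nonneg r
    nlinarith

/-- Case G. -/
theorem case_G {A D' U' : Finset α} {x u : ℕ → α} {t τ r k : ℕ}
    (hC : CostH A D' U' x u t τ r k) (hsm : Small α t) (ht : 0 < t) (htw : t ≤ A.card)
    (hA : ACh A) (hτt : τ ≤ t)
    (D₁ U₁ N N' FD FU X X' Y : Finset α) (hD : D₁ ⊆ D') (hU : U₁ ⊆ U') (hN : N ⊆ D₁) (hN' : N' ⊆ U₁)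
    (hFD : FD ⊆ D₁) (hFU : FU ⊆ U₁) (hX : X ⊆ D₁) (hXa : ACh X) (hXc : X.card = W D₁)
    (hX' : X' ⊆ U₁) (hXa' : ACh X') (hXc' : X'.card = W U₁) (hY : Y ⊆ A)
    (hFDY : ∀ v ∈ FD, ∀ a ∈ Y, ¬ v < a) (hFUY : ∀ v ∈ FU, ∀ a ∈ Y, ¬ a < v)
    (hm : t ≤ 2 * Y.card ∨ (FD = ∅ ∧ FU = ∅)) (hWD : W D₁ ≤ τ) (hWU : W U₁ ≤ τ)
    (h1 : τ < W (P2 N FD X) + W U₁) (h2 : τ < W (Q1 N' FU X') + W D₁) : False := by
  obtain ⟨Ξ, hΞ, hΞa, hΞc⟩ := exists_W (P2 N FD X)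
  obtain ⟨Ξ', hΞ', hΞa', hΞc'⟩ := exists_W (Q1 N' FU X')
  have hP2 : P2 N FD X ⊆ D₁ := Finset.union_subset hFD ((sel_subset _ _).trans hN)
  have hQ1 : Q1 N' FU X' ⊆ U₁ := Finset.union_subset hFU ((sel_subset _ _).trans hN')
  obtain ⟨GD, g1, g2, g3⟩ := two_pairs' (hX.trans hD) hXa ((hΞ.trans hP2).trans hD) hΞa
  obtain ⟨GU, g1', g2', g3'⟩ := two_pairs' (hX'.trans hU) hXa' ((hΞ'.trans hQ1).trans hU) hΞa'
  have hin : X ∩ Ξ ⊆ FD := by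
    intro v hv
    rw [Finset.mem_inter] at hv
    have := hΞ hv.2
    rw [P2, Finset.mem_union, mem_sel] at this
    rcases this with h | h
    · exact h
    · exact absurd le_rfl (h.2 v hv.1)
  have hin' : X' ∩ Ξ' ⊆ FU := by
    intro v hv
    rw [Finset.mem_inter] at hv
    have := hΞ' hv.2
    rw [Q1, Finset.mem_union, mem_sel] at this
    rcases this with h | h
    · exact h
    · exact absurd le_rfl (h.2 v hv.1)
  have h := hC GD GU Y (X ∩ Ξ) (X' ∩ Ξ') 2 2 g1 g1' g2 g2' (by omega) hY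
    ((hin.trans hFD).trans hD) (hXa.subset Finset.inter_subset_left)
    (fun v hv => hFDY v (hin hv)) ((hin'.trans hFU).trans hU)
    (hXa'.subset Finset.inter_subset_left) (fun v hv => hFUY v (hin' hv))
  rw [g3, g3'] at h
  have ht' : (0 : ℝ) < t := by exact_mod_cast ht
  have hw : (t : ℝ) ≤ A.card := by exact_mod_cast htw
  have b1 := hsm A hA
  have b2 := hsm X hXa
  have b3 := hsm X' hXa'
  have b4 := hsm Ξ hΞa
  have b5 := hsm Ξ' hΞa'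
  have hr : (0 : ℝ) ≤ r := Nat.cast_nonneg r
  have c1 : ((X ∩ Ξ).card : ℝ) * (2 * Y.card - (X ∩ Ξ).card) ≥ 0 := by
    rcases hm with hm | ⟨hm, -⟩
    · have e1 : (X ∩ Ξ).card ≤ τ := by
        calc (X ∩ Ξ).card ≤ X.card := Finset.card_le_card Finset.inter_subset_left
          _ = W D₁ := hXc
          _ ≤ τ := hWD
      have e2 : ((X ∩ Ξ).card : ℝ) ≤ 2 * Y.card := by
        have : (X ∩ Ξ).card ≤ 2 * Y.card := by omega
        exact_mod_cast this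
      exact mul_nonneg (Nat.cast_nonneg _) (by linarith)
    · rw [hm] at hin
      have : X ∩ Ξ = ∅ := Finset.subset_empty.1 hin
      rw [this]; simp
  have c2 : ((X' ∩ Ξ').card : ℝ) * (2 * Y.card - (X' ∩ Ξ').card) ≥ 0 := by
    rcases hm with hm | ⟨-, hm⟩
    · have e1 : (X' ∩ Ξ').card ≤ τ := by
        calc (X' ∩ Ξ').card ≤ X'.card := Finset.card_le_card Finset.inter_subset_left
          _ = W U₁ := hXc'
          _ ≤ τ := hWU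
      have e2 : ((X' ∩ Ξ').card : ℝ) ≤ 2 * Y.card := by
        have : (X' ∩ Ξ').card ≤ 2 * Y.card := by omega
        exact_mod_cast this
      exact mul_nonneg (Nat.cast_nonneg _) (by linarith)
    · rw [hm] at hin'
      have : X' ∩ Ξ' = ∅ := Finset.subset_empty.1 hin'
      rw [this]; simp
  have hYk : (0 : ℝ) ≤ 2 * (Y.card : ℝ) *
      ((sel (Finset.range k) (fun i => ∀ a ∈ Y, ¬ a < u i)).card +
        (sel (Finset.range k) (fun i => ∀ a ∈ Y, ¬ x i < a)).card) := by positivity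
  have hw1 : (τ : ℝ) ≤ Ξ.card + X'.card := by
    rw [hΞc, hXc']; exact_mod_cast h1.le
  have hw2 : (τ : ℝ) ≤ Ξ'.card + X.card := by
    rw [hΞc', hXc]; exact_mod_cast h2.le
  have hn1 : (0 : ℝ) ≤ (X ∩ Ξ).card := Nat.cast_nonneg _
  have hn2 : (0 : ℝ) ≤ (X' ∩ Ξ').card := Nat.cast_nonneg _
  have hτ0 : (0 : ℝ) ≤ τ := Nat.cast_nonneg _
  have hsq : (τ : ℝ) ^ 2 ≤ (X.card : ℝ) ^ 2 + (Ξ.card : ℝ) ^ 2 + ((X'.card : ℝ) ^ 2 +
      (Ξ'.card : ℝ) ^ 2) := by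
    have e1 : (τ : ℝ) ^ 2 ≤ (Ξ.card + X'.card : ℝ) ^ 2 := by
      apply pow_le_pow_left₀ hτ0 hw1
    have e2 : (τ : ℝ) ^ 2 ≤ (Ξ'.card + X.card : ℝ) ^ 2 := by
      apply pow_le_pow_left₀ hτ0 hw2
    nlinarith [sq_nonneg ((Ξ.card : ℝ) - X'.card), sq_nonneg ((Ξ'.card : ℝ) - X.card)]
  have hwsq : (t : ℝ) ^ 2 ≤ (A.card : ℝ) ^ 2 := pow_le_pow_left₀ ht'.le hw 2
  nlinarith

/-- Cases S and I share this. -/
theorem case_SI (hS : IneqS) (hI : IneqI) {A D' U' : Finset α} {x u : ℕ → α} {t τ r k : ℕ}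
    (hC : CostH A D' U' x u t τ r k) (hsm : Small α t) (ht : 0 < t) (htw : t ≤ A.card)
    (hA : ACh A) (hτt : τ + k = t)
    (D₁ U₁ VD VU Y : Finset α) (hD : D₁ ⊆ D') (hU : U₁ ⊆ U') (hVD : VD ⊆ D₁) (hVU : VU ⊆ U₁)
    (hY : Y ⊆ A) (hYne : Y.Nonempty)
    (hP : W VD + W U₁ ≤ τ) (hQ : W VU + W D₁ ≤ τ)
    (hg : 2 * t < Y.card + W (sel D₁ (fun v => ∀ a ∈ Y, v < a)) +
      W (sel U₁ (fun v => ∀ a ∈ Y, a < v)) + W (sel VD (fun v => ∀ a ∈ Y, ¬ v < a)) +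
      W (sel VU (fun v => ∀ a ∈ Y, ¬ a < v)) +
      (sel (Finset.range k) (fun i => ∀ a ∈ Y, ¬ a < u i)).card +
      (sel (Finset.range k) (fun i => ∀ a ∈ Y, ¬ x i < a)).card) :
    t ≤ 2 * Y.card ∧ W (sel D₁ (fun v => ∃ a ∈ Y, ¬ v < a)) +
      W (sel U₁ (fun v => ∃ a ∈ Y, ¬ a < v)) ≤ τ := by
  obtain ⟨a₀, ha₀⟩ := hYne
  obtain ⟨Xb, hXb, hXba, hXbc⟩ := exists_W (sel D₁ (fun v => ∀ a ∈ Y, v < a))
  obtain ⟨Xb', hXb', hXba', hXbc'⟩ := exists_W (sel U₁ (fun v => ∀ a ∈ Y, a < v))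
  obtain ⟨Φ, hΦ, hΦa, hΦc⟩ := exists_W (sel VD (fun v => ∀ a ∈ Y, ¬ v < a))
  obtain ⟨Φ', hΦ', hΦa', hΦc'⟩ := exists_W (sel VU (fun v => ∀ a ∈ Y, ¬ a < v))
  obtain ⟨Z, hZ, hZa, hZc⟩ := exists_W (sel D₁ (fun v => ∃ a ∈ Y, ¬ v < a))
  obtain ⟨Z', hZ', hZa', hZc'⟩ := exists_W (sel U₁ (fun v => ∃ a ∈ Y, ¬ a < v))
  rw [← hXbc, ← hXbc', ← hΦc, ← hΦc'] at hg
  rw [← hZc, ← hZc']
  set κ : ℕ := (sel (Finset.range k) (fun i => ∀ a ∈ Y, ¬ a < u i)).card +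
      (sel (Finset.range k) (fun i => ∀ a ∈ Y, ¬ x i < a)).card with hκ
  have ht' : (0 : ℝ) < t := by exact_mod_cast ht
  have hw : (t : ℝ) ≤ A.card := by exact_mod_cast htw
  have hmw : (Y.card : ℝ) ≤ A.card := by exact_mod_cast Finset.card_le_card hY
  have hr : (0 : ℝ) ≤ r := Nat.cast_nonneg r
  have b1 := hsm A hA
  have b2 := hsm Xb hXba
  have b3 := hsm Xb' hXba'
  have b4 := hsm Φ hΦa
  have b5 := hsm Φ' hΦa'
  have b6 := hsm Z hZa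
  have b7 := hsm Z' hZa'
  have sXb : Xb ⊆ D₁ := hXb.trans (sel_subset _ _)
  have sXb' : Xb' ⊆ U₁ := hXb'.trans (sel_subset _ _)
  have sΦ : Φ ⊆ VD := hΦ.trans (sel_subset _ _)
  have sΦ' : Φ' ⊆ VU := hΦ'.trans (sel_subset _ _)
  have sZ : Z ⊆ D₁ := hZ.trans (sel_subset _ _)
  have sZ' : Z' ⊆ U₁ := hZ'.trans (sel_subset _ _)
  have hgR : 2 * (t : ℝ) ≤ Y.card + Xb.card + Xb'.card + Φ.card + Φ'.card + κ := by
    have : 2 * t ≤ Y.card + Xb.card + Xb'.card + Φ.card + Φ'.card + κ := by omega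
    exact_mod_cast this
  have hτR : (τ : ℝ) + k = t := by exact_mod_cast hτt
  have hτ0 : (0 : ℝ) ≤ τ := Nat.cast_nonneg _
  have hk0 : (0 : ℝ) ≤ k := Nat.cast_nonneg _
  have hκk : (κ : ℝ) ≤ 2 * (t - τ) := by
    have e1 : κ ≤ 2 * k := by
      have h1 := Finset.card_le_card (sel_subset (Finset.range k) (fun i => ∀ a ∈ Y, ¬ a < u i))
      have h2 := Finset.card_le_card (sel_subset (Finset.range k) (fun i => ∀ a ∈ Y, ¬ x i < a))
      rw [Finset.card_range] at h1 h2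
      omega
    have e2 : (κ : ℝ) ≤ 2 * k := by exact_mod_cast e1
    linarith
  have q1 : (Xb.card : ℝ) + Φ'.card ≤ τ := by
    have e1 : Xb.card ≤ W D₁ := card_le_W sXb hXba
    have e2 : Φ'.card ≤ W VU := card_le_W sΦ' hΦa'
    have : Xb.card + Φ'.card ≤ τ := by omega
    exact_mod_cast this
  have q2 : (Xb'.card : ℝ) + Φ.card ≤ τ := by
    have e1 : Xb'.card ≤ W U₁ := card_le_W sXb' hXba'
    have e2 : Φ.card ≤ W VD := card_le_W sΦ hΦa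
    have : Xb'.card + Φ.card ≤ τ := by omega
    exact_mod_cast this
  -- the cost with two D-antichains (Xb and another one) etc.
  have hcostT : ∀ (Z₁ Z₂ : Finset α), Z₁ ⊆ D₁ → ACh Z₁ → Disjoint Xb Z₁ → Z₂ ⊆ U₁ → ACh Z₂ →
      Disjoint Xb' Z₂ →
      (A.card : ℝ) ^ 2 - A.card + ((t : ℝ) ^ 2 - (τ : ℝ) ^ 2) +
        ((Xb.card : ℝ) ^ 2 - Xb.card + ((Z₁.card : ℝ) ^ 2 - Z₁.card)) +
        ((Xb'.card : ℝ) ^ 2 - Xb'.card + ((Z₂.card : ℝ) ^ 2 - Z₂.card)) +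
        2 * (Y.card : ℝ) * (κ + Φ.card + Φ'.card) + (r + 28) * t ≤ 2 * (t : ℝ) ^ 2 := by
    intro Z₁ Z₂ h1 h2 h3 h4 h5 h6
    obtain ⟨GD, g1, g2, g3⟩ := two_pairs (sXb.trans hD) hXba (h1.trans hD) h2 h3
    obtain ⟨GU, g1', g2', g3'⟩ := two_pairs (sXb'.trans hU) hXba' (h4.trans hU) h5 h6
    have h := hC GD GU Y Φ Φ' 2 2 g1 g1' g2 g2' (by omega) hY ((sΦ.trans hVD).trans hD) hΦa
      (fun v hv => (mem_sel.1 (hΦ hv)).2) ((sΦ'.trans hVU).trans hU) hΦa'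
      (fun v hv => (mem_sel.1 (hΦ' hv)).2)
    rw [g3, g3'] at h
    rw [hκ]
    push_cast
    linarith
  have dΦ : Disjoint Xb Φ := by
    rw [Finset.disjoint_left]
    intro v hv hv'
    exact (mem_sel.1 (hΦ hv')).2 a₀ ha₀ ((mem_sel.1 (hXb hv)).2 a₀ ha₀)
  have dΦ' : Disjoint Xb' Φ' := by
    rw [Finset.disjoint_left]
    intro v hv hv'
    exact (mem_sel.1 (hΦ' hv')).2 a₀ ha₀ ((mem_sel.1 (hXb' hv)).2 a₀ ha₀)
  have dZ : Disjoint Xb Z := by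
    rw [Finset.disjoint_left]
    intro v hv hv'
    obtain ⟨a, ha, hva⟩ := (mem_sel.1 (hZ hv')).2
    exact hva ((mem_sel.1 (hXb hv)).2 a ha)
  have dZ' : Disjoint Xb' Z' := by
    rw [Finset.disjoint_left]
    intro v hv hv'
    obtain ⟨a, ha, hva⟩ := (mem_sel.1 (hZ' hv')).2
    exact hva ((mem_sel.1 (hXb' hv)).2 a ha)
  have hm : t ≤ 2 * Y.card := by
    by_contra hcon
    push Not at hcon
    have hm' : 2 * (Y.card : ℝ) ≤ t := by exact_mod_cast hcon.le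
    have h := hcostT Φ Φ' (sΦ.trans hVD) hΦa dΦ (sΦ'.trans hVU) hΦa' dΦ'
    have h2 := hS t τ A.card Y.card Xb.card Xb'.card Φ.card Φ'.card κ hτ0 (by linarith) hw
      (Nat.cast_nonneg _) hm' (Nat.cast_nonneg _) (Nat.cast_nonneg _) (Nat.cast_nonneg _)
      (Nat.cast_nonneg _) (Nat.cast_nonneg _) hgR q1 q2 hκk
    nlinarith
  refine ⟨hm, ?_⟩
  by_contra hcon
  push Not at hcon
  have hm' : (t : ℝ) ≤ 2 * Y.card := by exact_mod_cast hm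
  have hcon' : (τ : ℝ) ≤ Z.card + Z'.card := by exact_mod_cast hcon.le
  have h := hcostT Z Z' sZ hZa dZ sZ' hZa' dZ'
  have h2 := hI t τ A.card Y.card Xb.card Xb'.card Z.card Z'.card (κ + Φ.card + Φ'.card) hτ0
    (by linarith) hw hmw hm' (Nat.cast_nonneg _) (Nat.cast_nonneg _) (Nat.cast_nonneg _)
    (Nat.cast_nonneg _) (by positivity) (by linarith) hcon'
  nlinarith

/-- Case F (upper side). -/
theorem case_F (hF : IneqF) {A D' U' : Finset α} {x u : ℕ → α} {t τ r k : ℕ}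
    (hC : CostH A D' U' x u t τ r k) (hsm : Small α t) (ht : 0 < t) (htw : t ≤ A.card)
    (hA : ACh A) (hτt : τ + k = t)
    (D₁ U₁ VD VU FU Y : Finset α) (hD : D₁ ⊆ D') (hU : U₁ ⊆ U') (hVD : VD ⊆ D₁)
    (hFU : FU ⊆ U₁) (hFUY : ∀ v ∈ FU, ∀ a ∈ Y, ¬ a < v)
    (hY : Y ⊆ A) (hYne : Y.Nonempty)
    (hQ : W VU + W D₁ ≤ τ) (hm : t ≤ 2 * Y.card)
    (hg : 2 * t < Y.card + W (sel D₁ (fun v => ∀ a ∈ Y, v < a)) +
      W (sel U₁ (fun v => ∀ a ∈ Y, a < v)) + W (sel VD (fun v => ∀ a ∈ Y, ¬ v < a)) +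
      W (sel VU (fun v => ∀ a ∈ Y, ¬ a < v)) +
      (sel (Finset.range k) (fun i => ∀ a ∈ Y, ¬ a < u i)).card +
      (sel (Finset.range k) (fun i => ∀ a ∈ Y, ¬ x i < a)).card) :
    W FU + W D₁ ≤ τ := by
  by_contra hcon
  push Not at hcon
  obtain ⟨a₀, ha₀⟩ := hYne
  obtain ⟨Xb, hXb, hXba, hXbc⟩ := exists_W (sel D₁ (fun v => ∀ a ∈ Y, v < a))
  obtain ⟨Xb', hXb', hXba', hXbc'⟩ := exists_W (sel U₁ (fun v => ∀ a ∈ Y, a < v))
  obtain ⟨Φ, hΦ, hΦa, hΦc⟩ := exists_W (sel VD (fun v => ∀ a ∈ Y, ¬ v < a))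
  obtain ⟨Θ, hΘ, hΘa, hΘc⟩ := exists_W FU
  obtain ⟨Z, hZ, hZa, hZc⟩ := exists_W D₁
  have hφ' : W (sel VU (fun v => ∀ a ∈ Y, ¬ a < v)) ≤ W VU := W_mono (sel_subset _ _)
  set φ' := W (sel VU (fun v => ∀ a ∈ Y, ¬ a < v)) with hφ'def
  rw [← hXbc, ← hXbc', ← hΦc] at hg
  set κ : ℕ := (sel (Finset.range k) (fun i => ∀ a ∈ Y, ¬ a < u i)).card +
      (sel (Finset.range k) (fun i => ∀ a ∈ Y, ¬ x i < a)).card with hκ
  have ht' : (0 : ℝ) < t := by exact_mod_cast ht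
  have hw : (t : ℝ) ≤ A.card := by exact_mod_cast htw
  have hmw : (Y.card : ℝ) ≤ A.card := by exact_mod_cast Finset.card_le_card hY
  have hr : (0 : ℝ) ≤ r := Nat.cast_nonneg r
  have b1 := hsm A hA
  have b3 := hsm Xb' hXba'
  have b4 := hsm Φ hΦa
  have b5 := hsm Θ hΘa
  have b6 := hsm Z hZa
  have sXb : Xb ⊆ D₁ := hXb.trans (sel_subset _ _)
  have sXb' : Xb' ⊆ U₁ := hXb'.trans (sel_subset _ _)
  have sΦ : Φ ⊆ VD := hΦ.trans (sel_subset _ _)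
  have dΘ : Disjoint Θ Xb' := by
    rw [Finset.disjoint_left]
    intro v hv hv'
    exact hFUY v (hΘ hv) a₀ ha₀ ((mem_sel.1 (hXb' hv')).2 a₀ ha₀)
  obtain ⟨GD, g1, g2, g3⟩ := one_pairs (hZ.trans hD) hZa
  obtain ⟨GU, g1', g2', g3'⟩ := two_pairs ((hΘ.trans hFU).trans hU) hΘa (sXb'.trans hU) hXba' dΘ
  have h := hC GD GU Y Φ Θ 1 2 g1 g1' g2 g2' (by omega) hY ((sΦ.trans hVD).trans hD) hΦa
    (fun v hv => (mem_sel.1 (hΦ hv)).2) ((hΘ.trans hFU).trans hU) hΘa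
    (fun v hv => hFUY v (hΘ hv))
  rw [g3, g3'] at h
  have hgR : 2 * (t : ℝ) ≤ Y.card + Xb.card + Xb'.card + φ' + (κ + Φ.card) := by
    have : 2 * t ≤ Y.card + Xb.card + Xb'.card + φ' + (κ + Φ.card) := by omega
    exact_mod_cast this
  have hτR : (τ : ℝ) + k = t := by exact_mod_cast hτt
  have hτ0 : (0 : ℝ) ≤ τ := Nat.cast_nonneg _
  have hk0 : (0 : ℝ) ≤ k := Nat.cast_nonneg _
  have hm' : (t : ℝ) ≤ 2 * Y.card := by exact_mod_cast hm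
  have e1 : (Xb.card : ℝ) ≤ Z.card := by
    rw [hZc]; exact_mod_cast card_le_W sXb hXba
  have e2 : (Z.card : ℝ) + φ' ≤ τ := by
    rw [hZc]
    have : W D₁ + φ' ≤ τ := by omega
    exact_mod_cast this
  have e3 : (τ : ℝ) ≤ Θ.card + Z.card := by
    rw [hZc, hΘc]; exact_mod_cast hcon.le
  have h2 := hF t τ A.card Y.card Xb.card Xb'.card φ' (κ + Φ.card) Z.card Θ.card hτ0 (by linarith) hw
    hmw hm' (Nat.cast_nonneg _) (Nat.cast_nonneg _) (Nat.cast_nonneg _) (by positivity)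
    (Nat.cast_nonneg _) hgR e1 e2 e3
  rw [hκ] at h2
  push_cast at h2
  nlinarith

/-- Case F (lower side). -/
theorem case_F' (hF : IneqF) {A D' U' : Finset α} {x u : ℕ → α} {t τ r k : ℕ}
    (hC : CostH A D' U' x u t τ r k) (hsm : Small α t) (ht : 0 < t) (htw : t ≤ A.card)
    (hA : ACh A) (hτt : τ + k = t)
    (D₁ U₁ VD VU FD Y : Finset α) (hD : D₁ ⊆ D') (hU : U₁ ⊆ U') (hVU : VU ⊆ U₁)
    (hFD : FD ⊆ D₁) (hFDY : ∀ v ∈ FD, ∀ a ∈ Y, ¬ v < a)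
    (hY : Y ⊆ A) (hYne : Y.Nonempty)
    (hP : W VD + W U₁ ≤ τ) (hm : t ≤ 2 * Y.card)
    (hg : 2 * t < Y.card + W (sel D₁ (fun v => ∀ a ∈ Y, v < a)) +
      W (sel U₁ (fun v => ∀ a ∈ Y, a < v)) + W (sel VD (fun v => ∀ a ∈ Y, ¬ v < a)) +
      W (sel VU (fun v => ∀ a ∈ Y, ¬ a < v)) +
      (sel (Finset.range k) (fun i => ∀ a ∈ Y, ¬ a < u i)).card +
      (sel (Finset.range k) (fun i => ∀ a ∈ Y, ¬ x i < a)).card) :
    W FD + W U₁ ≤ τ := by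
  by_contra hcon
  push Not at hcon
  obtain ⟨a₀, ha₀⟩ := hYne
  obtain ⟨Xb, hXb, hXba, hXbc⟩ := exists_W (sel D₁ (fun v => ∀ a ∈ Y, v < a))
  obtain ⟨Xb', hXb', hXba', hXbc'⟩ := exists_W (sel U₁ (fun v => ∀ a ∈ Y, a < v))
  obtain ⟨Φ, hΦ, hΦa, hΦc⟩ := exists_W (sel VU (fun v => ∀ a ∈ Y, ¬ a < v))
  obtain ⟨Θ, hΘ, hΘa, hΘc⟩ := exists_W FD
  obtain ⟨Z, hZ, hZa, hZc⟩ := exists_W U₁
  have hφ' : W (sel VD (fun v => ∀ a ∈ Y, ¬ v < a)) ≤ W VD := W_mono (sel_subset _ _)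
  set φ' := W (sel VD (fun v => ∀ a ∈ Y, ¬ v < a)) with hφ'def
  rw [← hXbc, ← hXbc', ← hΦc] at hg
  set κ : ℕ := (sel (Finset.range k) (fun i => ∀ a ∈ Y, ¬ a < u i)).card +
      (sel (Finset.range k) (fun i => ∀ a ∈ Y, ¬ x i < a)).card with hκ
  have ht' : (0 : ℝ) < t := by exact_mod_cast ht
  have hw : (t : ℝ) ≤ A.card := by exact_mod_cast htw
  have hmw : (Y.card : ℝ) ≤ A.card := by exact_mod_cast Finset.card_le_card hY
  have hr : (0 : ℝ) ≤ r := Nat.cast_nonneg r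
  have b1 := hsm A hA
  have b3 := hsm Xb hXba
  have b4 := hsm Φ hΦa
  have b5 := hsm Θ hΘa
  have b6 := hsm Z hZa
  have sXb : Xb ⊆ D₁ := hXb.trans (sel_subset _ _)
  have sXb' : Xb' ⊆ U₁ := hXb'.trans (sel_subset _ _)
  have sΦ : Φ ⊆ VU := hΦ.trans (sel_subset _ _)
  have dΘ : Disjoint Θ Xb := by
    rw [Finset.disjoint_left]
    intro v hv hv'
    exact hFDY v (hΘ hv) a₀ ha₀ ((mem_sel.1 (hXb hv')).2 a₀ ha₀)
  obtain ⟨GU, g1, g2, g3⟩ := one_pairs (hZ.trans hU) hZa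
  obtain ⟨GD, g1', g2', g3'⟩ := two_pairs ((hΘ.trans hFD).trans hD) hΘa (sXb.trans hD) hXba dΘ
  have h := hC GD GU Y Θ Φ 2 1 g1' g1 g2' g2 (by omega) hY ((hΘ.trans hFD).trans hD) hΘa
    (fun v hv => hFDY v (hΘ hv)) ((sΦ.trans hVU).trans hU) hΦa
    (fun v hv => (mem_sel.1 (hΦ hv)).2)
  rw [g3, g3'] at h
  have hgR : 2 * (t : ℝ) ≤ Y.card + Xb'.card + Xb.card + φ' + (κ + Φ.card) := by
    have : 2 * t ≤ Y.card + Xb'.card + Xb.card + φ' + (κ + Φ.card) := by omega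
    exact_mod_cast this
  have hτR : (τ : ℝ) + k = t := by exact_mod_cast hτt
  have hτ0 : (0 : ℝ) ≤ τ := Nat.cast_nonneg _
  have hk0 : (0 : ℝ) ≤ k := Nat.cast_nonneg _
  have hm' : (t : ℝ) ≤ 2 * Y.card := by exact_mod_cast hm
  have e1 : (Xb'.card : ℝ) ≤ Z.card := by
    rw [hZc]; exact_mod_cast card_le_W sXb' hXba'
  have e2 : (Z.card : ℝ) + φ' ≤ τ := by
    rw [hZc]
    have : W U₁ + φ' ≤ τ := by omega
    exact_mod_cast this
  have e3 : (τ : ℝ) ≤ Θ.card + Z.card := by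
    rw [hZc, hΘc]; exact_mod_cast hcon.le
  have h2 := hF t τ A.card Y.card Xb'.card Xb.card φ' (κ + Φ.card) Z.card Θ.card hτ0 (by linarith) hw
    hmw hm' (Nat.cast_nonneg _) (Nat.cast_nonneg _) (Nat.cast_nonneg _) (by positivity)
    (Nat.cast_nonneg _) hgR e1 e2 e3
  rw [hκ] at h2
  push_cast at h2
  nlinarith

end Pool.MP_54f573_pr.RGO
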