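import Pool.Agent.Work.MP_54f573_pr.Peel

set_option autoImplicit false
open Classical

namespace Pool.MP_54f573_pr.RGO

/-- `F` is a set of pairs of distinct elements covered by `M` antichains. -/
def Cov {α : Type*} [PartialOrder α] (M : ℕ) (F : Finset (α × α)) : Prop :=
  ∃ B : Fin M → Finset α, (∀ i, ACh (B i)) ∧ F ⊆ Finset.univ.biUnion (fun i => (B i).offDiag)

/-- Core statement (bounded height `h`, all parameters explicit). -/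
def CoreStatement : Prop :=
  ∀ (h m N₀ r t M : ℕ), AlignC h m N₀ → 0 < m → 0 < r → 0 < t → 4 * (t / r) + 12 ≤ M →
    ∀ (α : Type) [PartialOrder α] (S : Finset α), (∀ C ⊆ S, Ch C → C.card ≤ h) →
      (∀ F : Finset (α × α), Cov M F → F.card + (2 * r + 30) * t ≤ 2 * t ^ 2) →
      RevN (t + 8 * r * h + 2 + ((t / m + N₀) * 2 + (t / m + N₀) * 2))
        (fun v w : α => ¬ v ≤ w ∧ v ∈ S ∧ w ∈ S)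

/-! Inequalities needed (all variables real and nonnegative). -/

/-- S bound -/
def IneqS : Prop := ∀ t τ w m x x' φ φ' κ : ℝ, 0 ≤ τ → τ ≤ t → t ≤ w → 0 ≤ m → 2 * m ≤ t →
  0 ≤ x → 0 ≤ x' → 0 ≤ φ → 0 ≤ φ' → 0 ≤ κ → 2 * t ≤ m + x + x' + φ + φ' + κ →
  x + φ' ≤ τ → x' + φ ≤ τ → κ ≤ 2 * (t - τ) →
  2 * t ^ 2 ≤ w ^ 2 + (t ^ 2 - τ ^ 2) + 2 * m * (κ + φ + φ') + x ^ 2 + x' ^ 2 + φ ^ 2 + φ' ^ 2

/-- I bound -/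
def IneqI : Prop := ∀ t τ w m x x' n n' κ : ℝ, 0 ≤ τ → τ ≤ t → t ≤ w → m ≤ w → t ≤ 2 * m →
  0 ≤ x → 0 ≤ x' → 0 ≤ n → 0 ≤ n' → 0 ≤ κ → 2 * t ≤ m + x + x' + κ → τ ≤ n + n' →
  2 * t ^ 2 ≤ w ^ 2 + (t ^ 2 - τ ^ 2) + 2 * m * κ + x ^ 2 + x' ^ 2 + n ^ 2 + n' ^ 2

/-- F bound -/
def IneqF : Prop := ∀ t τ w m x x' φ' κ z f : ℝ, 0 ≤ τ → τ ≤ t → t ≤ w → m ≤ w → t ≤ 2 * m →
  0 ≤ x → 0 ≤ x' → 0 ≤ φ' → 0 ≤ κ → 0 ≤ f → 2 * t ≤ m + x + x' + φ' + κ → x ≤ z → z + φ' ≤ τ →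
  τ ≤ f + z →
  2 * t ^ 2 ≤ w ^ 2 + (t ^ 2 - τ ^ 2) + 2 * m * (κ + f) + z ^ 2 + f ^ 2 + x' ^ 2

end Pool.MP_54f573_pr.RGO
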