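import Pool.Agent.Work.MP_54f573_pr.State

set_option autoImplicit false
open Classical

namespace Pool.MP_54f573_pr.RGO

variable {α : Type*} [PartialOrder α]

/-- pairs between `Y` and `T`, both directions -/
noncomputable def YT (Y T : Finset α) : Finset (α × α) := Y ×ˢ T ∪ T ×ˢ Y

omit [PartialOrder α] in
theorem mem_YT {Y T : Finset α} {e : α × α} :
    e ∈ YT Y T ↔ (e.1 ∈ Y ∧ e.2 ∈ T) ∨ (e.1 ∈ T ∧ e.2 ∈ Y) := by
  simp [YT, Finset.mem_product]

omit [PartialOrder α] in
theorem YT_union (Y T T' : Finset α) : YT Y (T ∪ T') = YT Y T ∪ YT Y T' := by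
  ext e
  simp only [mem_YT, Finset.mem_union]
  tauto

/-- elements of `T` are incomparable to all elements of `Y` -/
def Par (Y T : Finset α) : Prop := ∀ v ∈ T, ∀ a ∈ Y, ¬ v < a ∧ ¬ a < v

theorem Cov.par {Y T : Finset α} (hY : ACh Y) (hT : ACh T) (hp : Par Y T)
    (hdis : Disjoint Y T) : Cov 1 (YT Y T) := by
  refine Cov.single (B := Y ∪ T) ?_ ?_
  · intro a ha b hb hab
    rw [Finset.mem_union] at ha hb
    rcases ha with ha | ha <;> rcases hb with hb | hb
    · exact hY a ha b hb hab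
    · exact (hp b hb a ha).2 hab
    · exact (hp a ha b hb).1 hab
    · exact hT a ha b hb hab
  · intro e he
    rw [mem_YT] at he
    rw [Finset.mem_offDiag, Finset.mem_union, Finset.mem_union]
    rcases he with ⟨h1, h2⟩ | ⟨h1, h2⟩
    · exact ⟨Or.inl h1, Or.inr h2, fun h => Finset.disjoint_left.1 hdis h1 (h ▸ h2)⟩
    · exact ⟨Or.inr h1, Or.inl h2, fun h => Finset.disjoint_left.1 hdis h2 (h ▸ h1)⟩

/-- The set of the `x i`, `i < k`, satisfying a condition. -/
noncomputable def imgS (x : ℕ → α) (k : ℕ) (p : ℕ → Prop) : Finset α := (sel (Finset.range k) p).image x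

omit [PartialOrder α] in
theorem mem_imgS {x : ℕ → α} {k : ℕ} {p : ℕ → Prop} {v : α} :
    v ∈ imgS x k p ↔ ∃ i < k, p i ∧ x i = v := by
  simp only [imgS, Finset.mem_image, mem_sel, Finset.mem_range, and_assoc]

omit [PartialOrder α] in
theorem card_imgS {x : ℕ → α} {k : ℕ} {p : ℕ → Prop}
    (hx : ∀ i < k, ∀ j < k, x i = x j → i = j) :
    (imgS x k p).card = (sel (Finset.range k) p).card := by
  refine Finset.card_image_of_injOn fun i hi j hj hij => ?_
  have hi' := Finset.mem_range.1 (mem_sel.1 (Finset.mem_coe.1 hi)).1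
  have hj' := Finset.mem_range.1 (mem_sel.1 (Finset.mem_coe.1 hj)).1
  exact hx i hi' j hj' hij

/-- The pairs between `Y` and the `x i` are covered by `J` antichains. -/
theorem Cov.blocks {Y : Finset α} (hY : ACh Y) (x : ℕ → α) (r : ℕ) (hr : 0 < r) (p : ℕ → Prop) :
    ∀ J : ℕ, (∀ j < J, ∀ i < r, ∀ i' < r, ¬ x (j * r + i) < x (j * r + i')) →
      (∀ i < J * r, x i ∉ Y) →
      (∀ i < J * r, p i → ∀ a ∈ Y, ¬ x i < a ∧ ¬ a < x i) →
      Cov J (YT Y (imgS x (J * r) p)) := by
  intro J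
  induction J with
  | zero =>
    intro _ _ _
    have : imgS x (0 * r) p = ∅ := by
      rw [Finset.eq_empty_iff_forall_notMem]
      intro v hv
      obtain ⟨i, hi, -⟩ := mem_imgS.1 hv
      omega
    rw [this]
    have h2 : YT Y (∅ : Finset α) = ∅ := by simp [YT]
    rw [h2]
    exact Cov.empty _
  | succ J ih =>
    intro hblk hxY hp
    have e1 : (J + 1) * r = J * r + r := by ring
    rw [e1] at hxY hp ⊢
    set T := imgS (fun i => x (J * r + i)) r (fun i => p (J * r + i)) with hT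
    have hsplit : imgS x (J * r + r) p = imgS x (J * r) p ∪ T := by
      ext v
      rw [Finset.mem_union, hT, mem_imgS, mem_imgS, mem_imgS]
      constructor
      · rintro ⟨i, hi, hpi, rfl⟩
        by_cases h : i < J * r
        · exact Or.inl ⟨i, h, hpi, rfl⟩
        · refine Or.inr ⟨i - J * r, by omega, ?_, ?_⟩
          · rwa [Nat.add_sub_cancel' (by omega)]
          · rw [Nat.add_sub_cancel' (by omega)]
      · rintro (⟨i, hi, hpi, rfl⟩ | ⟨i, hi, hpi, rfl⟩)
        · exact ⟨i, by omega, hpi, rfl⟩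
        · exact ⟨J * r + i, by omega, hpi, rfl⟩
    rw [hsplit, YT_union]
    refine (ih (fun j hj => hblk j (by omega)) (fun i hi => hxY i (by omega))
      (fun i hi => hp i (by omega))).union (Cov.par hY ?_ ?_ ?_)
    · intro a ha b hb hab
      rw [hT, mem_imgS] at ha hb
      obtain ⟨i, hi, -, rfl⟩ := ha
      obtain ⟨j, hj, -, rfl⟩ := hb
      exact hblk J (by omega) i hi j hj hab
    · intro v hv a ha
      rw [hT, mem_imgS] at hv
      obtain ⟨i, hi, hpi, rfl⟩ := hv
      exact hp (J * r + i) (by omega) hpi a ha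
    · rw [Finset.disjoint_left]
      intro v hv hvT
      rw [hT, mem_imgS] at hvT
      obtain ⟨i, hi, -, rfl⟩ := hvT
      exact hxY (J * r + i) (by omega) hv

omit [PartialOrder α] in
theorem card_YT {Y T : Finset α} (hdis : Disjoint Y T) : (YT Y T).card = 2 * (Y.card * T.card) := by
  rw [YT, Finset.card_union_of_disjoint, Finset.card_product, Finset.card_product]
  · ring
  · rw [Finset.disjoint_left]
    intro e he he'
    rw [Finset.mem_product] at he he'
    exact Finset.disjoint_left.1 hdis he.1 he'.1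

omit [PartialOrder α] in
theorem cast_offDiag (X : Finset α) : ((X.offDiag.card : ℕ) : ℝ) = (X.card : ℝ) ^ 2 - X.card := by
  rw [Finset.offDiag_card, Nat.cast_sub (Nat.le_mul_self _), Nat.cast_mul]
  ring

/-- Main cost inequality. -/
theorem cost_main {A D U : Finset α} (hA : ACh A) (hDA : ∀ v ∈ D, ∃ a ∈ A, v < a)
    (hUA : ∀ v ∈ U, ∃ a ∈ A, a < v) {t r J M : ℕ} {D' U' : Finset α} {x u : ℕ → α}
    {F0 : Finset (α × α)} (hs : St D U t r J D' U' x u F0)
    (hcost : ∀ F : Finset (α × α), Cov M F → F.card + (2 * r + 30) * t ≤ 2 * t ^ 2)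
    (GD GU : Finset (α × α)) (Y T : Finset α) (a b c : ℕ)
    (hGD : ∀ e ∈ GD, e.1 ∈ D' ∧ e.2 ∈ D') (hGU : ∀ e ∈ GU, e.1 ∈ U' ∧ e.2 ∈ U')
    (hGDc : Cov a GD) (hGUc : Cov b GU) (hY : Y ⊆ A) (hT : ∀ v ∈ T, v ∈ D ∨ v ∈ U)
    (hTc : Cov c (YT Y T)) (hM : 1 + 2 * J + a + b + c ≤ M) :
    (A.card : ℝ) ^ 2 - A.card + ((t : ℝ) ^ 2 - ((t - J * r : ℕ) : ℝ) ^ 2) + GD.card + GU.card +
      2 * (Y.card * T.card) + (r + 28) * t ≤ 2 * (t : ℝ) ^ 2 := by
  have nAD : ∀ v ∈ A, v ∉ D := by
    intro v hv hvD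
    obtain ⟨a, ha, hva⟩ := hDA v hvD
    exact hA v hv a ha hva
  have nAU : ∀ v ∈ A, v ∉ U := by
    intro v hv hvD
    obtain ⟨a, ha, hva⟩ := hUA v hvD
    exact hA a ha v hv hva
  have nDU : ∀ v ∈ D, v ∉ U := by
    intro v hv hvU
    obtain ⟨a, ha, hva⟩ := hDA v hv
    obtain ⟨b, hb, hbv⟩ := hUA v hvU
    exact hA b hb a ha (hbv.trans hva)
  have hYT : Disjoint Y T := by
    rw [Finset.disjoint_left]
    intro v hv hvT
    rcases hT v hvT with h | h
    · exact nAD v (hY hv) h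
    · exact nAU v (hY hv) h
  have hcov : Cov M ((((A.offDiag ∪ F0) ∪ GD) ∪ GU) ∪ YT Y T) := by
    refine Cov.mono ((((Cov.single hA (Finset.Subset.refl _)).union hs.cov).union hGDc).union
      hGUc |>.union hTc) ?_
    omega
  have h1 := hcost _ hcov
  have d1 : Disjoint A.offDiag F0 := by
    rw [Finset.disjoint_left]
    intro e he he'
    rw [Finset.mem_offDiag] at he
    rcases hs.F0D e he' with h | h
    · exact nAD _ he.1 h.1
    · exact nAU _ he.1 h.1
  have d2 : Disjoint (A.offDiag ∪ F0) GD := by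
    rw [Finset.disjoint_left]
    intro e he he'
    have h := hGD e he'
    rw [Finset.mem_union, Finset.mem_offDiag] at he
    rcases he with he | he
    · exact nAD _ he.1 (hs.subD h.1)
    · rcases hs.F0D e he with h' | h'
      · exact h'.2.2 h
      · exact nDU _ (hs.subD h.1) h'.1
  have d3 : Disjoint ((A.offDiag ∪ F0) ∪ GD) GU := by
    rw [Finset.disjoint_left]
    intro e he he'
    have h := hGU e he'
    rw [Finset.mem_union, Finset.mem_union, Finset.mem_offDiag] at he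
    rcases he with (he | he) | he
    · exact nAU _ he.1 (hs.subU h.1)
    · rcases hs.F0D e he with h' | h'
      · exact nDU _ h'.1 (hs.subU h.1)
      · exact h'.2.2 h
    · exact nDU _ (hs.subD (hGD e he).1) (hs.subU h.1)
  have d4 : Disjoint (((A.offDiag ∪ F0) ∪ GD) ∪ GU) (YT Y T) := by
    rw [Finset.disjoint_left]
    intro e he he'
    rw [mem_YT] at he'
    -- e has one coordinate in A and the other in D or U
    have key : (e.1 ∈ A ∧ (e.2 ∈ D ∨ e.2 ∈ U)) ∨ ((e.1 ∈ D ∨ e.1 ∈ U) ∧ e.2 ∈ A) := by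
      rcases he' with ⟨h1, h2⟩ | ⟨h1, h2⟩
      · exact Or.inl ⟨hY h1, hT _ h2⟩
      · exact Or.inr ⟨hT _ h1, hY h2⟩
    have hnot : ∀ X : Finset α, (∀ v ∈ A, v ∉ X) → ¬ (e.1 ∈ X ∧ e.2 ∈ X) := by
      intro X hX h
      rcases key with ⟨h1, -⟩ | ⟨-, h1⟩
      · exact hX _ h1 h.1
      · exact hX _ h1 h.2
    rw [Finset.mem_union, Finset.mem_union, Finset.mem_union, Finset.mem_offDiag] at he
    rcases he with ((he | he) | he) | he
    · rcases key with ⟨-, h1 | h1⟩ | ⟨h1 | h1, -⟩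
      · exact nAD _ he.2.1 h1
      · exact nAU _ he.2.1 h1
      · exact nAD _ he.1 h1
      · exact nAU _ he.1 h1
    · rcases hs.F0D e he with h | h
      · exact hnot D nAD ⟨h.1, h.2.1⟩
      · exact hnot U nAU ⟨h.1, h.2.1⟩
    · have h := hGD e he
      exact hnot D nAD ⟨hs.subD h.1, hs.subD h.2⟩
    · have h := hGU e he
      exact hnot U nAU ⟨hs.subU h.1, hs.subU h.2⟩
  rw [Finset.card_union_of_disjoint d4, Finset.card_union_of_disjoint d3,
    Finset.card_union_of_disjoint d2, Finset.card_union_of_disjoint d1, card_YT hYT] at h1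
  have h2 := hs.card
  have h3 := hs.Jr
  have h1' : ((A.offDiag.card : ℕ) : ℝ) + F0.card + GD.card + GU.card + 2 * (Y.card * T.card) +
      (2 * r + 30) * t ≤ 2 * (t : ℝ) ^ 2 := by exact_mod_cast h1
  have h2' : (t : ℝ) ^ 2 ≤ F0.card + J * (r ^ 2 + 2 * r) + ((t - J * r : ℕ) : ℝ) ^ 2 := by
    exact_mod_cast h2
  have h3' : (J : ℝ) * r ≤ t := by exact_mod_cast h3
  have h4 : (J : ℝ) * (r ^ 2 + 2 * r) ≤ t * (r + 2) := by
    have : (J : ℝ) * (r ^ 2 + 2 * r) = (J * r) * (r + 2) := by ring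
    rw [this]
    exact mul_le_mul_of_nonneg_right h3' (by positivity)
  rw [cast_offDiag] at h1'
  nlinarith

end Pool.MP_54f573_pr.RGO
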