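import Pool.Agent.Work.MP_54f573_pr.Cost

set_option autoImplicit false
open Classical

namespace Pool.MP_54f573_pr.RGO

variable {α : Type*} [PartialOrder α]

/-- The cost inequality in the form used in all cases. -/
def CostH (A D' U' : Finset α) (x u : ℕ → α) (t τ r k : ℕ) : Prop :=
  ∀ (GD GU : Finset (α × α)) (Y Φ Φ' : Finset α) (a b : ℕ),
    (∀ e ∈ GD, e.1 ∈ D' ∧ e.2 ∈ D') → (∀ e ∈ GU, e.1 ∈ U' ∧ e.2 ∈ U') →
    Cov a GD → Cov b GU → a + b ≤ 6 → Y ⊆ A →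
    Φ ⊆ D' → ACh Φ → (∀ v ∈ Φ, ∀ a ∈ Y, ¬ v < a) →
    Φ' ⊆ U' → ACh Φ' → (∀ v ∈ Φ', ∀ a ∈ Y, ¬ a < v) →
    (A.card : ℝ) ^ 2 - A.card + ((t : ℝ) ^ 2 - (τ : ℝ) ^ 2) + GD.card + GU.card +
      2 * (Y.card : ℝ) * ((sel (Finset.range k) (fun i => ∀ a ∈ Y, ¬ a < u i)).card +
        (sel (Finset.range k) (fun i => ∀ a ∈ Y, ¬ x i < a)).card + Φ.card + Φ'.card) +
      (r + 28) * t ≤ 2 * (t : ℝ) ^ 2

theorem cost_T {A D U : Finset α} (hA : ACh A) (hDA : ∀ v ∈ D, ∃ a ∈ A, v < a)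
    (hUA : ∀ v ∈ U, ∃ a ∈ A, a < v) {t r J M : ℕ} {D' U' : Finset α} {x u : ℕ → α}
    {F0 : Finset (α × α)} (hs : St D U t r J D' U' x u F0) (hr : 0 < r)
    (hcost : ∀ F : Finset (α × α), Cov M F → F.card + (2 * r + 30) * t ≤ 2 * t ^ 2)
    (hM : 4 * (t / r) + 12 ≤ M) :
    CostH A D' U' x u t (t - J * r) r (J * r) := by
  intro GD GU Y Φ Φ' a b hGD hGU hGDc hGUc hab hY hΦ hΦa hΦY hΦ' hΦa' hΦY'
  have hJ : J ≤ t / r := (Nat.le_div_iff_mul_le hr).2 hs.Jr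
  have nDA : ∀ v ∈ D, ∀ a ∈ A, ¬ a < v := by
    intro v hv a ha hav
    obtain ⟨b, hb, hvb⟩ := hDA v hv
    exact hA a ha b hb (hav.trans hvb)
  have nUA : ∀ v ∈ U, ∀ a ∈ A, ¬ v < a := by
    intro v hv a ha hav
    obtain ⟨b, hb, hvb⟩ := hUA v hv
    exact hA b hb a ha (hvb.trans hav)
  have nAD : ∀ v ∈ A, v ∉ D := by
    intro v hv hvD
    obtain ⟨a, ha, hva⟩ := hDA v hvD
    exact hA v hv a ha hva
  have nAU : ∀ v ∈ A, v ∉ U := by
    intro v hv hvD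
    obtain ⟨a, ha, hva⟩ := hUA v hvD
    exact hA a ha v hv hva
  have nDU : ∀ v ∈ D, v ∉ U := by
    intro v hv hvU
    obtain ⟨a, ha, hva⟩ := hDA v hv
    obtain ⟨b, hb, hbv⟩ := hUA v hvU
    exact hA b hb a ha (hbv.trans hva)
  have hYa : ACh Y := hA.subset hY
  set Tx := imgS x (J * r) (fun i => ∀ a ∈ Y, ¬ x i < a) with hTx
  set Tu := imgS u (J * r) (fun i => ∀ a ∈ Y, ¬ a < u i) with hTu
  have cTx : Cov J (YT Y Tx) := by
    refine Cov.blocks hYa x r hr _ J hs.blkx ?_ ?_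
    · exact fun i hi h => nAD _ (hY h) (hs.xD i hi).1
    · exact fun i hi hp a ha => ⟨hp a ha, nDA _ (hs.xD i hi).1 a (hY ha)⟩
  have cTu : Cov J (YT Y Tu) := by
    refine Cov.blocks hYa u r hr _ J hs.blku ?_ ?_
    · exact fun i hi h => nAU _ (hY h) (hs.uU i hi).1
    · exact fun i hi hp a ha => ⟨nUA _ (hs.uU i hi).1 a (hY ha), hp a ha⟩
  have cΦ : Cov 1 (YT Y Φ) := by
    refine Cov.par hYa hΦa (fun v hv a ha => ⟨hΦY v hv a ha, nDA v (hs.subD (hΦ hv)) a (hY ha)⟩) ?_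
    rw [Finset.disjoint_left]
    exact fun v hv hv' => nAD v (hY hv) (hs.subD (hΦ hv'))
  have cΦ' : Cov 1 (YT Y Φ') := by
    refine Cov.par hYa hΦa' (fun v hv a ha => ⟨nUA v (hs.subU (hΦ' hv)) a (hY ha), hΦY' v hv a ha⟩) ?_
    rw [Finset.disjoint_left]
    exact fun v hv hv' => nAU v (hY hv) (hs.subU (hΦ' hv'))
  have hT : ∀ v ∈ ((Tx ∪ Tu) ∪ Φ) ∪ Φ', v ∈ D ∨ v ∈ U := by
    intro v hv
    rw [Finset.mem_union, Finset.mem_union, Finset.mem_union] at hv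
    rcases hv with ((hv | hv) | hv) | hv
    · obtain ⟨i, hi, -, rfl⟩ := mem_imgS.1 hv
      exact Or.inl (hs.xD i hi).1
    · obtain ⟨i, hi, -, rfl⟩ := mem_imgS.1 hv
      exact Or.inr (hs.uU i hi).1
    · exact Or.inl (hs.subD (hΦ hv))
    · exact Or.inr (hs.subU (hΦ' hv))
  have hTc : Cov (J + J + 1 + 1) (YT Y (((Tx ∪ Tu) ∪ Φ) ∪ Φ')) := by
    rw [YT_union, YT_union, YT_union]
    exact ((cTx.union cTu).union cΦ).union cΦ'
  have hmain := cost_main hA hDA hUA hs hcost GD GU Y (((Tx ∪ Tu) ∪ Φ) ∪ Φ') a b (J + J + 1 + 1)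
    hGD hGU hGDc hGUc hY hT hTc (by omega)
  have d1 : Disjoint Tx Tu := by
    rw [Finset.disjoint_left]
    intro v hv hv'
    obtain ⟨i, hi, -, rfl⟩ := mem_imgS.1 hv
    obtain ⟨j, hj, -, hij⟩ := mem_imgS.1 hv'
    exact nDU _ (hs.xD i hi).1 (hij ▸ (hs.uU j hj).1)
  have d2 : Disjoint (Tx ∪ Tu) Φ := by
    rw [Finset.disjoint_left]
    intro v hv hv'
    rw [Finset.mem_union] at hv
    rcases hv with hv | hv
    · obtain ⟨i, hi, -, rfl⟩ := mem_imgS.1 hv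
      exact (hs.xD i hi).2 (hΦ hv')
    · obtain ⟨i, hi, -, rfl⟩ := mem_imgS.1 hv
      exact nDU _ (hs.subD (hΦ hv')) (hs.uU i hi).1
  have d3 : Disjoint ((Tx ∪ Tu) ∪ Φ) Φ' := by
    rw [Finset.disjoint_left]
    intro v hv hv'
    rw [Finset.mem_union, Finset.mem_union] at hv
    rcases hv with (hv | hv) | hv
    · obtain ⟨i, hi, -, rfl⟩ := mem_imgS.1 hv
      exact nDU _ (hs.xD i hi).1 (hs.subU (hΦ' hv'))
    · obtain ⟨i, hi, -, rfl⟩ := mem_imgS.1 hv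
      exact (hs.uU i hi).2 (hΦ' hv')
    · exact nDU _ (hs.subD (hΦ hv)) (hs.subU (hΦ' hv'))
  rw [Finset.card_union_of_disjoint d3, Finset.card_union_of_disjoint d2,
    Finset.card_union_of_disjoint d1, hTx, hTu, card_imgS hs.xinj, card_imgS hs.uinj] at hmain
  push_cast at hmain
  linarith

/-- two disjoint antichains -/
theorem two_pairs {D' X Z : Finset α} (hX : X ⊆ D') (hXa : ACh X) (hZ : Z ⊆ D') (hZa : ACh Z)
    (hdis : Disjoint X Z) :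
    ∃ G : Finset (α × α), (∀ e ∈ G, e.1 ∈ D' ∧ e.2 ∈ D') ∧ Cov 2 G ∧
      (G.card : ℝ) = (X.card : ℝ) ^ 2 - X.card + ((Z.card : ℝ) ^ 2 - Z.card) := by
  refine ⟨X.offDiag ∪ Z.offDiag, ?_, ?_, ?_⟩
  · intro e he
    rw [Finset.mem_union, Finset.mem_offDiag, Finset.mem_offDiag] at he
    rcases he with he | he
    · exact ⟨hX he.1, hX he.2.1⟩
    · exact ⟨hZ he.1, hZ he.2.1⟩
  · exact (Cov.single hXa (Finset.Subset.refl _)).union (Cov.single hZa (Finset.Subset.refl _))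
  · rw [Finset.card_union_of_disjoint]
    · push_cast
      rw [cast_offDiag, cast_offDiag]
    · rw [Finset.disjoint_left]
      intro e he he'
      rw [Finset.mem_offDiag] at he he'
      exact Finset.disjoint_left.1 hdis he.1 he'.1

/-- two antichains with intersection -/
theorem two_pairs' {D' X Z : Finset α} (hX : X ⊆ D') (hXa : ACh X) (hZ : Z ⊆ D') (hZa : ACh Z) :
    ∃ G : Finset (α × α), (∀ e ∈ G, e.1 ∈ D' ∧ e.2 ∈ D') ∧ Cov 2 G ∧
      (G.card : ℝ) = (X.card : ℝ) ^ 2 - X.card + ((Z.card : ℝ) ^ 2 - Z.card) -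
        (((X ∩ Z).card : ℝ) ^ 2 - (X ∩ Z).card) := by
  refine ⟨X.offDiag ∪ Z.offDiag, ?_, ?_, ?_⟩
  · intro e he
    rw [Finset.mem_union, Finset.mem_offDiag, Finset.mem_offDiag] at he
    rcases he with he | he
    · exact ⟨hX he.1, hX he.2.1⟩
    · exact ⟨hZ he.1, hZ he.2.1⟩
  · exact (Cov.single hXa (Finset.Subset.refl _)).union (Cov.single hZa (Finset.Subset.refl _))
  · have h1 := Finset.card_union_add_card_inter X.offDiag Z.offDiag
    have h2 : X.offDiag ∩ Z.offDiag = (X ∩ Z).offDiag := by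
      ext e
      simp only [Finset.mem_inter, Finset.mem_offDiag]
      tauto
    rw [h2] at h1
    have h3 : ((X.offDiag ∪ Z.offDiag).card : ℝ) + ((X ∩ Z).offDiag.card : ℕ) =
        (X.offDiag.card : ℕ) + (Z.offDiag.card : ℕ) := by exact_mod_cast h1
    rw [cast_offDiag, cast_offDiag, cast_offDiag] at h3
    linarith

theorem one_pairs {D' X : Finset α} (hX : X ⊆ D') (hXa : ACh X) :
    ∃ G : Finset (α × α), (∀ e ∈ G, e.1 ∈ D' ∧ e.2 ∈ D') ∧ Cov 1 G ∧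
      (G.card : ℝ) = (X.card : ℝ) ^ 2 - X.card := by
  refine ⟨X.offDiag, ?_, ?_, ?_⟩
  · intro e he
    rw [Finset.mem_offDiag] at he
    exact ⟨hX he.1, hX he.2.1⟩
  · exact Cov.single hXa (Finset.Subset.refl _)
  · rw [cast_offDiag]

end Pool.MP_54f573_pr.RGO
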