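import Mathlib

set_option autoImplicit false
open Classical

namespace Pool.MP_54f573_pr.RGO

variable {β : Type*}

/-- Filter with classical decidability. -/
noncomputable def sel {γ : Type*} (S : Finset γ) (p : γ → Prop) : Finset γ :=
  @Finset.filter γ p (Classical.decPred p) S

theorem mem_sel {γ : Type*} {S : Finset γ} {p : γ → Prop} {x : γ} : x ∈ sel S p ↔ x ∈ S ∧ p x := by
  unfold sel
  exact Finset.mem_filter

theorem sel_subset {γ : Type*} (S : Finset γ) (p : γ → Prop) : sel S p ⊆ S :=
  fun _ hx => (mem_sel.1 hx).1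

theorem sel_congr {γ : Type*} {S : Finset γ} {p q : γ → Prop} (h : ∀ x ∈ S, p x ↔ q x) :
    sel S p = sel S q := by
  ext x
  rw [mem_sel, mem_sel]
  exact ⟨fun hx => ⟨hx.1, (h x hx.1).1 hx.2⟩, fun hx => ⟨hx.1, (h x hx.1).2 hx.2⟩⟩

/-- Antichain for a relation `r` (used with strict orders). -/
def AC (r : β → β → Prop) (t : Finset β) : Prop := ∀ a ∈ t, ∀ b ∈ t, ¬ r a b

/-- Width of a finite set for the relation `r`. -/
noncomputable def wd (r : β → β → Prop) (s : Finset β) : ℕ :=
  (s.powerset.filter (fun t => AC r t)).sup Finset.card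

theorem AC.subset {r : β → β → Prop} {t t' : Finset β} (h : AC r t) (hs : t' ⊆ t) : AC r t' :=
  fun a ha b hb => h a (hs ha) b (hs hb)

theorem card_le_wd {r : β → β → Prop} {s t : Finset β} (hs : t ⊆ s) (h : AC r t) :
    t.card ≤ wd r s := by
  unfold wd
  exact Finset.le_sup (f := Finset.card) (by simp [hs, h])

theorem exists_wd (r : β → β → Prop) (s : Finset β) :
    ∃ t ⊆ s, AC r t ∧ t.card = wd r s := by
  unfold wd
  have hne : (s.powerset.filter (fun t => AC r t)).Nonempty :=
    ⟨∅, Finset.mem_filter.2 ⟨by simp, fun a ha => absurd ha (Finset.notMem_empty a)⟩⟩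
  obtain ⟨t, ht, hc⟩ := Finset.exists_mem_eq_sup _ hne Finset.card
  simp only [Finset.mem_filter, Finset.mem_powerset] at ht
  exact ⟨t, ht.1, ht.2, hc.symm⟩

theorem wd_le_iff {r : β → β → Prop} {s : Finset β} {n : ℕ} :
    wd r s ≤ n ↔ ∀ t ⊆ s, AC r t → t.card ≤ n := by
  constructor
  · intro h t ht hac
    exact (card_le_wd ht hac).trans h
  · intro h
    obtain ⟨t, ht, hac, hc⟩ := exists_wd r s
    rw [← hc]
    exact h t ht hac

theorem wd_mono {r : β → β → Prop} {s s' : Finset β} (h : s ⊆ s') : wd r s ≤ wd r s' :=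
  wd_le_iff.2 fun _ ht hac => card_le_wd (ht.trans h) hac

theorem wd_le_card {r : β → β → Prop} (s : Finset β) : wd r s ≤ s.card :=
  wd_le_iff.2 fun _ ht _ => Finset.card_le_card ht

/-- If `c` colours `s` by chains then an antichain has distinct colours. -/
theorem AC.injOn {r : β → β → Prop} {t : Finset β} (h : AC r t) {c : β → ℕ}
    (hc : ∀ a ∈ t, ∀ b ∈ t, c a = c b → a = b ∨ r a b ∨ r b a) :
    Set.InjOn c (t : Set β) := by
  intro a ha b hb hab
  rcases hc a ha b hb hab with h1 | h1 | h1
  · exact h1
  · exact absurd h1 (h a ha b hb)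
  · exact absurd h1 (h b hb a ha)

/-- Dilworth's theorem (Galvin's proof). -/
theorem dilworth (r : β → β → Prop) (htr : ∀ a b c, r a b → r b c → r a c) (hirr : ∀ a, ¬ r a a) :
    ∀ (N : ℕ) (s : Finset β), s.card ≤ N →
    ∃ c : β → ℕ, (∀ a ∈ s, c a < wd r s) ∧
      ∀ a ∈ s, ∀ b ∈ s, c a = c b → a = b ∨ r a b ∨ r b a := by
  intro N
  induction N with
  | zero =>
    intro s hs
    have : s = ∅ := by simpa using hs
    subst this
    exact ⟨fun _ => 0, by simp, by simp⟩
  | succ N ih =>
    intro s hs
    by_cases hse : s = ∅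
    · subst hse
      exact ⟨fun _ => 0, by simp, by simp⟩
    -- a maximal element
    have hmax : ∃ a ∈ s, ∀ b ∈ s, ¬ r a b := by
      by_contra hcon
      push Not at hcon
      -- well-foundedness on finite set
      have hwf : WellFounded (fun x y : {x // x ∈ s} => r y.1 x.1) := by
        have : IsTrans {x // x ∈ s} (fun x y => r y.1 x.1) :=
          ⟨fun a b c hab hbc => htr _ _ _ hbc hab⟩
        have : Std.Irrefl (fun x y : {x // x ∈ s} => r y.1 x.1) := ⟨fun a => hirr _⟩
        exact Finite.wellFounded_of_trans_of_irrefl _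
      obtain ⟨x, hx⟩ := Finset.nonempty_iff_ne_empty.2 hse
      obtain ⟨m, -, hm⟩ := hwf.has_min Set.univ ⟨⟨x, hx⟩, trivial⟩
      obtain ⟨b, hb, hrb⟩ := hcon m.1 m.2
      exact hm ⟨b, hb⟩ trivial hrb
    obtain ⟨a, has, hamax⟩ := hmax
    set s' := s.erase a with hs'
    have hs'c : s'.card ≤ N := by
      rw [hs', Finset.card_erase_of_mem has]; omega
    obtain ⟨c, hc1, hc2⟩ := ih s' hs'c
    set k := wd r s' with hk
    -- each k-antichain meets each colour class
    have hmeet : ∀ t ⊆ s', AC r t → t.card = k → ∀ i < k, ∃ y ∈ t, c y = i := by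
      intro t ht hac hcard i hi
      have hinj : Set.InjOn c (t : Set β) :=
        hac.injOn fun a ha b hb => hc2 a (ht ha) b (ht hb)
      have himg : t.image c ⊆ Finset.range k := by
        intro j hj
        simp only [Finset.mem_image] at hj
        obtain ⟨y, hy, rfl⟩ := hj
        exact Finset.mem_range.2 (hc1 y (ht hy))
      have hcard' : (t.image c).card = k := by
        rw [Finset.card_image_of_injOn hinj, hcard]
      have heq : t.image c = Finset.range k :=
        Finset.eq_of_subset_of_card_le himg (by simp [hcard'])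
      have : i ∈ t.image c := by rw [heq]; exact Finset.mem_range.2 hi
      simpa using this
    -- good elements: those belonging to a k-antichain
    let good : β → Prop := fun x => ∃ t ⊆ s', AC r t ∧ t.card = k ∧ x ∈ t
    have hx : ∀ i < k, ∃ x ∈ s', c x = i ∧ good x ∧ ∀ y ∈ s', c y = i → good y → ¬ r x y := by
      intro i hi
      obtain ⟨t, hts, htac, htc⟩ := exists_wd r s'
      obtain ⟨y, hyt, hyi⟩ := hmeet t hts htac htc i hi
      have hwf : WellFounded (fun x y : {x // x ∈ s'} => r y.1 x.1) := by
        have : IsTrans {x // x ∈ s'} (fun x y => r y.1 x.1) :=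
          ⟨fun a b c hab hbc => htr _ _ _ hbc hab⟩
        have : Std.Irrefl (fun x y : {x // x ∈ s'} => r y.1 x.1) := ⟨fun a => hirr _⟩
        exact Finite.wellFounded_of_trans_of_irrefl _
      obtain ⟨m, hmS, hm⟩ := hwf.has_min {x : {x // x ∈ s'} | c x.1 = i ∧ good x.1}
        ⟨⟨y, hts hyt⟩, hyi, t, hts, htac, htc, hyt⟩
      exact ⟨m.1, m.2, hmS.1, hmS.2, fun y hy hyi hyg h => hm ⟨y, hy⟩ ⟨hyi, hyg⟩ h⟩
    have : Nonempty β := ⟨a⟩
    choose! x hxs hxc hxg hxm using hx
    -- the x i form an antichain
    have hxac : ∀ i < k, ∀ j < k, ¬ r (x i) (x j) := by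
      intro i hi j hj hrij
      obtain ⟨t, hts, htac, htc, hxt⟩ := hxg j hj
      obtain ⟨y, hyt, hyi⟩ := hmeet t hts htac htc i hi
      have h1 := hxm i hi y (hts hyt) hyi ⟨t, hts, htac, htc, hyt⟩
      have h2 := hc2 (x i) (hxs i hi) y (hts hyt) (by rw [hxc i hi, hyi])
      rcases h2 with h2 | h2 | h2
      · exact htac y hyt (x j) hxt (h2 ▸ hrij)
      · exact h1 h2
      · exact htac y hyt (x j) hxt (htr _ _ _ h2 hrij)
    by_cases hcmp : ∃ i < k, r (x i) a
    · obtain ⟨i, hi, hia⟩ := hcmp
      -- K chain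
      set K := insert a (s'.filter (fun z => c z = i ∧ (z = x i ∨ r z (x i)))) with hK
      have hKs : K ⊆ s := by
        intro z hz
        rw [hK, Finset.mem_insert, Finset.mem_filter] at hz
        rcases hz with rfl | ⟨hz, -⟩
        · exact has
        · exact Finset.mem_of_mem_erase hz
      have hKc : (s \ K).card ≤ N := by
        have h1 : (s \ K) ⊆ s' := by
          intro z hz
          rw [Finset.mem_sdiff] at hz
          rw [hs', Finset.mem_erase]
          refine ⟨?_, hz.1⟩
          rintro rfl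
          exact hz.2 (by rw [hK]; exact Finset.mem_insert_self _ _)
        exact (Finset.card_le_card h1).trans hs'c
      have hwdK : wd r (s \ K) + 1 ≤ k := by
        by_contra hcon
        push Not at hcon
        obtain ⟨t, hts, htac, htc⟩ := exists_wd r (s \ K)
        have hts' : t ⊆ s' := by
          intro z hz
          have := hts hz
          rw [Finset.mem_sdiff] at this
          rw [hs', Finset.mem_erase]
          refine ⟨?_, this.1⟩
          rintro rfl
          exact this.2 (by rw [hK]; exact Finset.mem_insert_self _ _)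
        have hle : t.card ≤ k := card_le_wd hts' htac
        have heq : t.card = k := by omega
        obtain ⟨y, hyt, hyi⟩ := hmeet t hts' htac heq i hi
        have hyg : good y := ⟨t, hts', htac, heq, hyt⟩
        have hyK : y ∉ K := (Finset.mem_sdiff.1 (hts hyt)).2
        have h1 := hxm i hi y (hts' hyt) hyi hyg
        rcases hc2 (x i) (hxs i hi) y (hts' hyt) (by rw [hxc i hi, hyi]) with h2 | h2 | h2
        · apply hyK
          rw [hK, Finset.mem_insert, Finset.mem_filter]
          exact Or.inr ⟨hts' hyt, hyi, Or.inl h2.symm⟩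
        · exact h1 h2
        · apply hyK
          rw [hK, Finset.mem_insert, Finset.mem_filter]
          exact Or.inr ⟨hts' hyt, hyi, Or.inr h2⟩
      obtain ⟨c', hc'1, hc'2⟩ := ih (s \ K) hKc
      have hks : k ≤ wd r s := wd_mono (Finset.erase_subset _ _)
      refine ⟨fun z => if z ∈ K then k - 1 else c' z, ?_, ?_⟩
      · intro z hz
        simp only
        split_ifs with hzK
        · omega
        · have := hc'1 z (Finset.mem_sdiff.2 ⟨hz, hzK⟩)
          omega
      · intro u hu v hv huv
        simp only at huv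
        split_ifs at huv with h1 h2 h2
        · -- both in K
          rw [hK, Finset.mem_insert, Finset.mem_filter] at h1 h2
          rcases h1 with rfl | ⟨h1s, h1c, h1⟩
          · rcases h2 with rfl | ⟨h2s, h2c, h2⟩
            · left; rfl
            · right; right
              rcases h2 with rfl | h2
              · exact hia
              · exact htr _ _ _ h2 hia
          · rcases h2 with rfl | ⟨h2s, h2c, h2⟩
            · right; left
              rcases h1 with rfl | h1
              · exact hia
              · exact htr _ _ _ h1 hia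
            · exact hc2 u h1s v h2s (by rw [h1c, h2c])
        · have := hc'1 v (Finset.mem_sdiff.2 ⟨hv, h2⟩)
          omega
        · have := hc'1 u (Finset.mem_sdiff.2 ⟨hu, h1⟩)
          omega
        · exact hc'2 u (Finset.mem_sdiff.2 ⟨hu, h1⟩) v (Finset.mem_sdiff.2 ⟨hv, h2⟩) huv
    · push Not at hcmp
      -- A ∪ {a} is an antichain of size k+1
      have hk1 : k + 1 ≤ wd r s := by
        set t := insert a ((Finset.range k).image x) with ht
        have hinj : Set.InjOn x (Finset.range k : Set ℕ) := by
          intro i hi j hj hij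
          have hi' := Finset.mem_range.1 (Finset.mem_coe.1 hi)
          have hj' := Finset.mem_range.1 (Finset.mem_coe.1 hj)
          rw [← hxc i hi', ← hxc j hj', hij]
        have hacard : t.card = k + 1 := by
          rw [ht, Finset.card_insert_of_notMem, Finset.card_image_of_injOn hinj, Finset.card_range]
          intro hmem
          rw [Finset.mem_image] at hmem
          obtain ⟨i, hi, hxi⟩ := hmem
          have := hxs i (Finset.mem_range.1 hi)
          rw [hxi, hs'] at this
          exact Finset.notMem_erase a s this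
        rw [← hacard]
        apply card_le_wd
        · intro z hz
          rw [ht, Finset.mem_insert, Finset.mem_image] at hz
          rcases hz with rfl | ⟨i, hi, rfl⟩
          · exact has
          · exact Finset.mem_of_mem_erase (hxs i (Finset.mem_range.1 hi))
        · intro u hu v hv huv
          rw [ht, Finset.mem_insert, Finset.mem_image] at hu hv
          rcases hu with rfl | ⟨i, hi, rfl⟩
          · rcases hv with rfl | ⟨j, hj, rfl⟩
            · exact hirr _ huv
            · exact hamax _ (Finset.mem_of_mem_erase (hxs j (Finset.mem_range.1 hj))) huv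
          · rcases hv with rfl | ⟨j, hj, rfl⟩
            · exact hcmp i (Finset.mem_range.1 hi) huv
            · exact hxac i (Finset.mem_range.1 hi) j (Finset.mem_range.1 hj) huv
      refine ⟨fun z => if z = a then k else c z, ?_, ?_⟩
      · intro z hz
        simp only
        split_ifs with hza
        · omega
        · have := hc1 z (Finset.mem_erase.2 ⟨hza, hz⟩)
          omega
      · intro u hu v hv huv
        simp only at huv
        split_ifs at huv with h1 h2 h2
        · left; rw [h1, h2]
        · have := hc1 v (Finset.mem_erase.2 ⟨h2, hv⟩)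
          omega
        · have := hc1 u (Finset.mem_erase.2 ⟨h1, hu⟩)
          omega
        · exact hc2 u (Finset.mem_erase.2 ⟨h1, hu⟩) v (Finset.mem_erase.2 ⟨h2, hv⟩) huv

theorem dilworth' (r : β → β → Prop) (htr : ∀ a b c, r a b → r b c → r a c)
    (hirr : ∀ a, ¬ r a a) (s : Finset β) :
    ∃ c : β → ℕ, (∀ a ∈ s, c a < wd r s) ∧
      ∀ a ∈ s, ∀ b ∈ s, c a = c b → a = b ∨ r a b ∨ r b a :=
  dilworth r htr hirr s.card s le_rfl

/-- Dilworth's theorem, with the order axioms only required on the finite set. -/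
theorem dilworthOn (r : β → β → Prop) (s : Finset β)
    (htr : ∀ a ∈ s, ∀ b ∈ s, ∀ c ∈ s, r a b → r b c → r a c)
    (hirr : ∀ a ∈ s, ¬ r a a) :
    ∃ c : β → ℕ, (∀ a ∈ s, c a < wd r s) ∧
      ∀ a ∈ s, ∀ b ∈ s, c a = c b → a = b ∨ r a b ∨ r b a := by
  let r' : β → β → Prop := fun a b => a ∈ s ∧ b ∈ s ∧ r a b
  have hwd : wd r' s = wd r s := by
    apply le_antisymm
    · refine wd_le_iff.2 fun t ht hac => card_le_wd ht fun a ha b hb hab => ?_
      exact hac a ha b hb ⟨ht ha, ht hb, hab⟩
    · refine wd_le_iff.2 fun t ht hac => card_le_wd ht fun a ha b hb hab => ?_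
      exact hac a ha b hb hab.2.2
  obtain ⟨c, hc1, hc2⟩ := dilworth' r' (fun a b c hab hbc =>
    ⟨hab.1, hbc.2.1, htr a hab.1 b hab.2.1 c hbc.2.1 hab.2.2 hbc.2.2⟩)
    (fun a ha => hirr a ha.1 ha.2.2) s
  refine ⟨c, fun a ha => hwd ▸ hc1 a ha, fun a ha b hb hab => ?_⟩
  rcases hc2 a ha b hb hab with h | h | h
  · exact Or.inl h
  · exact Or.inr (Or.inl h.2.2)
  · exact Or.inr (Or.inr h.2.2)

theorem AC.flip {r : β → β → Prop} {t : Finset β} (h : AC r t) : AC (fun a b => r b a) t :=
  fun a ha b hb hab => h b hb a ha hab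

theorem wd_flip (r : β → β → Prop) (s : Finset β) : wd (fun a b => r b a) s = wd r s := by
  apply le_antisymm
  · exact wd_le_iff.2 fun t ht hac => card_le_wd ht hac.flip
  · exact wd_le_iff.2 fun t ht hac => card_le_wd ht hac.flip

theorem wd_empty (r : β → β → Prop) : wd r ∅ = 0 := by
  have := wd_le_card (r := r) (∅ : Finset β)
  simpa using this

/-- Width is subadditive. -/
theorem wd_union_le (r : β → β → Prop) (s s' : Finset β) : wd r (s ∪ s') ≤ wd r s + wd r s' := by
  refine wd_le_iff.2 fun t ht hac => ?_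
  have h1 : (t ∩ s).card ≤ wd r s :=
    card_le_wd Finset.inter_subset_right (hac.subset Finset.inter_subset_left)
  have h2 : (t ∩ s').card ≤ wd r s' :=
    card_le_wd Finset.inter_subset_right (hac.subset Finset.inter_subset_left)
  have h3 : t ⊆ (t ∩ s) ∪ (t ∩ s') := by
    intro a ha
    rcases Finset.mem_union.1 (ht ha) with h | h
    · exact Finset.mem_union_left _ (Finset.mem_inter.2 ⟨ha, h⟩)
    · exact Finset.mem_union_right _ (Finset.mem_inter.2 ⟨ha, h⟩)
  calc t.card ≤ ((t ∩ s) ∪ (t ∩ s')).card := Finset.card_le_card h3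
    _ ≤ (t ∩ s).card + (t ∩ s').card := Finset.card_union_le _ _
    _ ≤ _ := Nat.add_le_add h1 h2

/-- Supermodularity of the width on lower sets (relative to each other). -/
theorem wd_supermod {r : β → β → Prop} {I J : Finset β}
    (htr : ∀ a b c, r a b → r b c → r a c)
    (h1 : ∀ x ∈ I, ∀ y ∈ J, r x y → x ∈ J) (h2 : ∀ y ∈ J, ∀ x ∈ I, r y x → y ∈ I) :
    wd r I + wd r J ≤ wd r (I ∪ J) + wd r (I ∩ J) := by
  obtain ⟨X, hXI, hX, hXc⟩ := exists_wd r I
  obtain ⟨Y, hYJ, hY, hYc⟩ := exists_wd r J
  set Low := X.filter (fun x => ∃ y ∈ Y, x = y ∨ r x y) ∪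
    Y.filter (fun y => ∃ x ∈ X, y = x ∨ r y x) with hLow
  set High := X.filter (fun x => ∀ y ∈ Y, ¬ r x y) ∪
    Y.filter (fun y => ∀ x ∈ X, ¬ r y x) with hHigh
  have hLs : Low ⊆ I ∩ J := by
    intro v hv
    rw [hLow, Finset.mem_union, Finset.mem_filter, Finset.mem_filter] at hv
    rcases hv with ⟨hv, y, hy, h⟩ | ⟨hv, x, hx, h⟩
    · refine Finset.mem_inter.2 ⟨hXI hv, ?_⟩
      rcases h with rfl | h
      · exact hYJ hy
      · exact h1 v (hXI hv) y (hYJ hy) h
    · refine Finset.mem_inter.2 ⟨?_, hYJ hv⟩
      rcases h with rfl | h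
      · exact hXI hx
      · exact h2 v (hYJ hv) x (hXI hx) h
  have hHs : High ⊆ I ∪ J := by
    intro v hv
    rw [hHigh, Finset.mem_union, Finset.mem_filter, Finset.mem_filter] at hv
    rcases hv with ⟨hv, -⟩ | ⟨hv, -⟩
    · exact Finset.mem_union_left _ (hXI hv)
    · exact Finset.mem_union_right _ (hYJ hv)
  have hLac : AC r Low := by
    intro u hu v hv huv
    rw [hLow, Finset.mem_union, Finset.mem_filter, Finset.mem_filter] at hu hv
    rcases hu with ⟨hu, hu'⟩ | ⟨hu, hu'⟩
    · rcases hv with ⟨hv, hv'⟩ | ⟨hv, x, hx, hvx⟩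
      · exact hX u hu v hv huv
      · rcases hvx with rfl | hvx
        · exact hX u hu v hx huv
        · exact hX u hu x hx (htr _ _ _ huv hvx)
    · rcases hv with ⟨hv, y, hy, hvy⟩ | ⟨hv, hv'⟩
      · rcases hvy with rfl | hvy
        · exact hY u hu v hy huv
        · exact hY u hu y hy (htr _ _ _ huv hvy)
      · exact hY u hu v hv huv
  have hHac : AC r High := by
    intro u hu v hv huv
    rw [hHigh, Finset.mem_union, Finset.mem_filter, Finset.mem_filter] at hu hv
    rcases hu with ⟨hu, hu'⟩ | ⟨hu, hu'⟩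
    · rcases hv with ⟨hv, hv'⟩ | ⟨hv, hv'⟩
      · exact hX u hu v hv huv
      · exact hu' v hv huv
    · rcases hv with ⟨hv, hv'⟩ | ⟨hv, hv'⟩
      · exact hu' v hv huv
      · exact hY u hu v hv huv
  have hun : X ∪ Y ⊆ Low ∪ High := by
    intro v hv
    rw [Finset.mem_union] at hv ⊢
    rcases hv with hv | hv
    · by_cases h : ∃ y ∈ Y, v = y ∨ r v y
      · left
        rw [hLow, Finset.mem_union, Finset.mem_filter]
        exact Or.inl ⟨hv, h⟩
      · right
        rw [hHigh, Finset.mem_union, Finset.mem_filter]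
        push Not at h
        exact Or.inl ⟨hv, fun y hy => (h y hy).2⟩
    · by_cases h : ∃ x ∈ X, v = x ∨ r v x
      · left
        rw [hLow, Finset.mem_union, Finset.mem_filter, Finset.mem_filter]
        exact Or.inr ⟨hv, h⟩
      · right
        rw [hHigh, Finset.mem_union, Finset.mem_filter, Finset.mem_filter]
        push Not at h
        exact Or.inr ⟨hv, fun x hx => (h x hx).2⟩
  have hin : X ∩ Y ⊆ Low ∩ High := by
    intro v hv
    rw [Finset.mem_inter] at hv
    rw [Finset.mem_inter]
    constructor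
    · rw [hLow, Finset.mem_union, Finset.mem_filter]
      exact Or.inl ⟨hv.1, v, hv.2, Or.inl rfl⟩
    · rw [hHigh, Finset.mem_union, Finset.mem_filter]
      exact Or.inl ⟨hv.1, fun y hy => hY v hv.2 y hy⟩
  have e1 := Finset.card_union_add_card_inter X Y
  have e2 := Finset.card_union_add_card_inter Low High
  have e3 := Finset.card_le_card hun
  have e4 := Finset.card_le_card hin
  have e5 := card_le_wd hLs hLac
  have e6 := card_le_wd hHs hHac
  omega

end Pool.MP_54f573_pr.RGO
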