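import Pool.Agent.Work.MP_54f573_pr.Dilworth

set_option autoImplicit false
open Classical

namespace Pool.MP_54f573_pr.RGO

variable {α : Type*}

/-- Auxiliary type for the service theorem. -/
inductive Blk (ι α : Type*) : Type _
  | R (a : α) : Blk ι α
  | S (i : ι) (x : α) : Blk ι α
  | J (j : ℕ) : Blk ι α

/-- The service theorem. `R` is a set of elements to be assigned to blocks (`S i`, ordered by `r i`)
or to points `j ∈ J`; the Hall-type condition gives an assignment such that the elements assigned
to a block satisfy the Hall-type condition of the block alone. -/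
theorem service {ι : Type*} [Fintype ι] (R : Finset α) (S : ι → Finset α) (r : ι → α → α → Prop)
    (att : ι → α → α → Prop)
    (htr : ∀ i a b c, r i a b → r i b c → r i a c) (hirr : ∀ i a, ¬ r i a a)
    (hatt : ∀ i a x y, att i a x → r i x y → att i a y)
    (J : Finset ℕ) (attp : α → ℕ → Prop)
    (hcond : ∀ Z ⊆ R, Z.Nonempty →
      Z.card + ∑ i, wd (r i) (sel (S i) (fun x => ∀ a ∈ Z, ¬ att i a x)) +
        (sel J (fun j => ∀ a ∈ Z, ¬ attp a j)).card ≤ ∑ i, wd (r i) (S i) + J.card) :
    ∃ (β : α → Option ι) (ρ : α → ℕ),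
      (∀ i, ∀ Z ⊆ R, (∀ a ∈ Z, β a = some i) →
        Z.card + wd (r i) (sel (S i) (fun x => ∀ a ∈ Z, ¬ att i a x)) ≤ wd (r i) (S i)) ∧
      (∀ a ∈ R, β a = none → ρ a ∈ J ∧ attp a (ρ a)) ∧
      (∀ a ∈ R, ∀ b ∈ R, β a = none → β b = none → ρ a = ρ b → a = b) := by
  -- the big poset
  let rr : Blk ι α → Blk ι α → Prop := fun u v =>
    match u, v with
    | Blk.R a, Blk.S i x => att i a x
    | Blk.R a, Blk.J j => attp a j
    | Blk.S i x, Blk.S i' y => i = i' ∧ r i x y
    | _, _ => False
  have rtr : ∀ a b c, rr a b → rr b c → rr a c := by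
    rintro (a | ⟨i, x⟩ | j) (b | ⟨i', y⟩ | j') (c | ⟨i'', z⟩ | j'') h1 h2 <;>
      simp only [rr] at h1 h2 ⊢
    · obtain ⟨rfl, h2⟩ := h2
      exact hatt _ _ _ _ h1 h2
    · obtain ⟨rfl, h1⟩ := h1
      obtain ⟨rfl, h2⟩ := h2
      exact ⟨rfl, htr _ _ _ _ h1 h2⟩
  have rirr : ∀ a, ¬ rr a a := by
    rintro (a | ⟨i, x⟩ | j) h <;> simp only [rr] at h
    exact hirr _ _ h.2
  -- embeddings
  let eR : α → Blk ι α := Blk.R
  let eS : ι → α → Blk ι α := Blk.S
  let eJ : ℕ → Blk ι α := Blk.J
  have eRi : Function.Injective eR := fun x y h => by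
    simpa only [eR, Blk.R.injEq] using h
  have eSi : ∀ i, Function.Injective (eS i) := by
    intro i x y h
    simpa only [eS, Blk.S.injEq, true_and] using h
  have eJi : Function.Injective eJ := by
    intro x y h
    simpa only [eJ, Blk.J.injEq] using h
  let s : Finset (Blk ι α) := R.image eR ∪ (Finset.univ.biUnion fun i => (S i).image (eS i)) ∪ J.image eJ
  have memR : ∀ a, eR a ∈ s ↔ a ∈ R := by
    intro a
    simp [s, eR, eS, eJ]
  have memS : ∀ i x, eS i x ∈ s ↔ x ∈ S i := by
    intro i x
    simp [s, eR, eS, eJ]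
  have memJ : ∀ j, eJ j ∈ s ↔ j ∈ J := by
    intro j
    simp [s, eR, eS, eJ]
  set W : ℕ := ∑ i, wd (r i) (S i) + J.card with hW
  -- width bound
  have hwd : wd rr s ≤ W := by
    refine wd_le_iff.2 fun t ht hac => ?_
    set Z := R.filter (fun a => eR a ∈ t) with hZ
    set T : ι → Finset α := fun i => (S i).filter (fun x => eS i x ∈ t) with hT
    set K := J.filter (fun j => eJ j ∈ t) with hK
    have hsub : t ⊆ Z.image eR ∪ (Finset.univ.biUnion fun i => (T i).image (eS i)) ∪ K.image eJ := by
      rintro (a | ⟨i, x⟩ | j) hv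
      · have : a ∈ R := (memR a).1 (ht hv)
        apply Finset.mem_union_left; apply Finset.mem_union_left
        exact Finset.mem_image_of_mem _ (Finset.mem_filter.2 ⟨this, hv⟩)
      · have : x ∈ S i := (memS i x).1 (ht hv)
        apply Finset.mem_union_left; apply Finset.mem_union_right
        rw [Finset.mem_biUnion]
        exact ⟨i, Finset.mem_univ _, Finset.mem_image_of_mem _ (Finset.mem_filter.2 ⟨this, hv⟩)⟩
      · have : j ∈ J := (memJ j).1 (ht hv)
        apply Finset.mem_union_right
        exact Finset.mem_image_of_mem _ (Finset.mem_filter.2 ⟨this, hv⟩)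
    have hcard : t.card ≤ Z.card + ∑ i, (T i).card + K.card := by
      refine (Finset.card_le_card hsub).trans ?_
      refine (Finset.card_union_le _ _).trans ?_
      refine Nat.add_le_add ((Finset.card_union_le _ _).trans (Nat.add_le_add Finset.card_image_le ?_))
        Finset.card_image_le
      refine Finset.card_biUnion_le.trans ?_
      exact Finset.sum_le_sum fun i _ => Finset.card_image_le
    have hTac : ∀ i, AC (r i) (T i) := by
      intro i x hx y hy hxy
      exact hac _ (Finset.mem_filter.1 hx).2 _ (Finset.mem_filter.1 hy).2 ⟨rfl, hxy⟩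
    by_cases hZe : Z.Nonempty
    · have h1 : ∀ i, (T i).card ≤ wd (r i) (sel (S i) (fun x => ∀ a ∈ Z, ¬ att i a x)) := by
        intro i
        refine card_le_wd (fun x hx => ?_) (hTac i)
        rw [Finset.mem_filter] at hx
        refine mem_sel.2 ⟨hx.1, fun a ha hax => ?_⟩
        exact hac _ (Finset.mem_filter.1 ha).2 _ hx.2 hax
      have h2 : K.card ≤ (sel J (fun j => ∀ a ∈ Z, ¬ attp a j)).card := by
        refine Finset.card_le_card fun j hj => ?_
        rw [Finset.mem_filter] at hj
        refine mem_sel.2 ⟨hj.1, fun a ha hax => ?_⟩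
        exact hac _ (Finset.mem_filter.1 ha).2 _ hj.2 hax
      have h3 := hcond Z (Finset.filter_subset _ _) hZe
      have h4 := Finset.sum_le_sum (s := Finset.univ) fun i _ => h1 i
      omega
    · rw [Finset.not_nonempty_iff_eq_empty] at hZe
      have h1 : ∀ i, (T i).card ≤ wd (r i) (S i) := fun i =>
        card_le_wd (Finset.filter_subset _ _) (hTac i)
      have h2 : K.card ≤ J.card := Finset.card_filter_le _ _
      have h4 := Finset.sum_le_sum (s := Finset.univ) fun i _ => h1 i
      rw [hZe, Finset.card_empty] at hcard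
      omega
  obtain ⟨c, hc1, hc2⟩ := dilworth' rr rtr rirr s
  have hcW : ∀ v ∈ s, c v < W := fun v hv => (hc1 v hv).trans_le hwd
  -- colour sets
  let ColS : ι → Finset ℕ := fun i => (S i).image (fun x => c (eS i x))
  let ColJ : Finset ℕ := J.image (fun j => c (eJ j))
  have hColS : ∀ i, wd (r i) (S i) ≤ (ColS i).card := by
    intro i
    obtain ⟨t, hts, htac, htc⟩ := exists_wd (r i) (S i)
    rw [← htc]
    have hinj : Set.InjOn (fun x => c (eS i x)) (t : Set α) := by
      intro x hx y hy hxy
      rcases hc2 _ ((memS i x).2 (hts hx)) _ ((memS i y).2 (hts hy)) hxy with h | h | h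
      · exact eSi i h
      · exact absurd h.2 (htac x hx y hy)
      · exact absurd h.2 (htac y hy x hx)
    rw [← Finset.card_image_of_injOn hinj]
    exact Finset.card_le_card (Finset.image_subset_image hts)
  have hinjJ : Set.InjOn (fun j => c (eJ j)) (J : Set ℕ) := by
    intro x hx y hy hxy
    rcases hc2 _ ((memJ x).2 hx) _ ((memJ y).2 hy) hxy with h | h | h
    · exact eJi h
    · exact h.elim
    · exact h.elim
  have hColJ : ColJ.card = J.card := Finset.card_image_of_injOn hinjJ
  have hdisj : ∀ i j, i ≠ j → Disjoint (ColS i) (ColS j) := by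
    intro i j hij
    rw [Finset.disjoint_left]
    intro κ hi hj
    rw [Finset.mem_image] at hi hj
    obtain ⟨x, hx, rfl⟩ := hi
    obtain ⟨y, hy, hxy⟩ := hj
    rcases hc2 _ ((memS i x).2 hx) _ ((memS j y).2 hy) hxy.symm with h | h | h
    · simp only [eS, Blk.S.injEq] at h
      exact hij h.1
    · exact hij h.1
    · exact hij h.1.symm
  have hdisjJ : ∀ i, Disjoint (ColS i) ColJ := by
    intro i
    rw [Finset.disjoint_left]
    intro κ hi hj
    rw [Finset.mem_image] at hi hj
    obtain ⟨x, hx, rfl⟩ := hi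
    obtain ⟨y, hy, hxy⟩ := hj
    rcases hc2 _ ((memS i x).2 hx) _ ((memJ y).2 hy) hxy.symm with h | h | h
    · simp only [eS, eJ] at h
      exact absurd h (by simp)
    · exact h.elim
    · exact h.elim
  have hunion : (Finset.univ.biUnion ColS) ∪ ColJ ⊆ Finset.range W := by
    intro κ hκ
    rw [Finset.mem_union, Finset.mem_biUnion] at hκ
    rw [Finset.mem_range]
    rcases hκ with ⟨i, -, hκ⟩ | hκ
    · rw [Finset.mem_image] at hκ
      obtain ⟨x, hx, rfl⟩ := hκ
      exact hcW _ ((memS i x).2 hx)
    · rw [Finset.mem_image] at hκ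
      obtain ⟨x, hx, rfl⟩ := hκ
      exact hcW _ ((memJ x).2 hx)
  have hcU : ((Finset.univ.biUnion ColS) ∪ ColJ).card = ∑ i, (ColS i).card + J.card := by
    rw [Finset.card_union_of_disjoint, Finset.card_biUnion, hColJ]
    · intro i _ j _ hij
      exact hdisj i j hij
    · rw [Finset.disjoint_biUnion_left]
      intro i _
      exact hdisjJ i
  have hle : ((Finset.univ.biUnion ColS) ∪ ColJ).card ≤ W := by
    have := Finset.card_le_card hunion
    rwa [Finset.card_range] at this
  have hsum : ∑ i, wd (r i) (S i) ≤ ∑ i, (ColS i).card := Finset.sum_le_sum fun i _ => hColS i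
  have hcU' : ((Finset.univ.biUnion ColS) ∪ ColJ).card = W := by omega
  have hfull : (Finset.univ.biUnion ColS) ∪ ColJ = Finset.range W :=
    Finset.eq_of_subset_of_card_le hunion (by rw [Finset.card_range, hcU'])
  have hsumeq : ∑ i, wd (r i) (S i) = ∑ i, (ColS i).card := by omega
  have hColEq : ∀ i, (ColS i).card = wd (r i) (S i) := by
    intro i
    have := (Finset.sum_eq_sum_iff_of_le (s := Finset.univ) fun i _ => hColS i).1 hsumeq i
      (Finset.mem_univ i)
    exact this.symm
  -- the assignment
  let β : α → Option ι := fun a => if h : ∃ i, c (eR a) ∈ ColS i then some h.choose else none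
  let ρ : α → ℕ := fun a => if h : ∃ j ∈ J, c (eJ j) = c (eR a) then h.choose else 0
  have hβsome : ∀ a i, β a = some i → c (eR a) ∈ ColS i := by
    intro a i h
    simp only [β] at h
    split_ifs at h with h'
    have := h'.choose_spec
    rw [Option.some.injEq] at h
    rwa [h] at this
  have hρ : ∀ a ∈ R, β a = none → ρ a ∈ J ∧ c (eJ (ρ a)) = c (eR a) := by
    intro a ha hβ
    have h1 : ¬ ∃ i, c (eR a) ∈ ColS i := by
      intro h
      simp only [β] at hβ
      rw [dif_pos h] at hβ
      exact absurd hβ (by simp)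
    have h2 : c (eR a) ∈ (Finset.univ.biUnion ColS) ∪ ColJ := by
      rw [hfull, Finset.mem_range]
      exact hcW _ ((memR a).2 ha)
    rw [Finset.mem_union, Finset.mem_biUnion] at h2
    rcases h2 with ⟨i, -, h2⟩ | h2
    · exact absurd ⟨i, h2⟩ h1
    · rw [Finset.mem_image] at h2
      have h3 : ∃ j ∈ J, c (eJ j) = c (eR a) := h2
      have h4 := h3.choose_spec
      simp only [ρ]
      rw [dif_pos h3]
      exact h4
  refine ⟨β, ρ, ?_, ?_, ?_⟩
  · intro i Z hZ hZi
    obtain ⟨X, hXs, hXac, hXc⟩ := exists_wd (r i) (sel (S i) (fun x => ∀ a ∈ Z, ¬ att i a x))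
    rw [← hXc]
    -- Z ∪ X is an antichain with colours in ColS i
    have hsub : Z.image (fun a => c (eR a)) ∪ X.image (fun x => c (eS i x)) ⊆ ColS i := by
      intro κ hκ
      rw [Finset.mem_union, Finset.mem_image, Finset.mem_image] at hκ
      rcases hκ with ⟨a, ha, rfl⟩ | ⟨x, hx, rfl⟩
      · exact hβsome a i (hZi a ha)
      · exact Finset.mem_image_of_mem _ (mem_sel.1 (hXs hx)).1
    have hZinj : Set.InjOn (fun a => c (eR a)) (Z : Set α) := by
      intro a ha b hb hab
      have ha' := hZ ha
      have hb' := hZ hb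
      rcases hc2 _ ((memR a).2 ha') _ ((memR b).2 hb') hab with h | h | h
      · exact eRi h
      · exact h.elim
      · exact h.elim
    have hXinj : Set.InjOn (fun x => c (eS i x)) (X : Set α) := by
      intro x hx y hy hxy
      have hx' := (mem_sel.1 (hXs hx)).1
      have hy' := (mem_sel.1 (hXs hy)).1
      rcases hc2 _ ((memS i x).2 hx') _ ((memS i y).2 hy') hxy with h | h | h
      · exact eSi i h
      · exact absurd h.2 (hXac x hx y hy)
      · exact absurd h.2 (hXac y hy x hx)
    have hdis : Disjoint (Z.image (fun a => c (eR a))) (X.image (fun x => c (eS i x))) := by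
      rw [Finset.disjoint_left]
      intro κ h1 h2
      rw [Finset.mem_image] at h1 h2
      obtain ⟨a, ha, rfl⟩ := h1
      obtain ⟨x, hx, hxa⟩ := h2
      have ha' := hZ ha
      have hx' := mem_sel.1 (hXs hx)
      rcases hc2 _ ((memR a).2 ha') _ ((memS i x).2 hx'.1) hxa.symm with h | h | h
      · simp only [eR, eS] at h
        exact absurd h (by simp)
      · exact hx'.2 a ha h
      · exact h.elim
    calc Z.card + X.card
        = (Z.image (fun a => c (eR a))).card + (X.image (fun x => c (eS i x))).card := by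
          rw [Finset.card_image_of_injOn hZinj, Finset.card_image_of_injOn hXinj]
      _ = (Z.image (fun a => c (eR a)) ∪ X.image (fun x => c (eS i x))).card := by
          rw [Finset.card_union_of_disjoint hdis]
      _ ≤ (ColS i).card := Finset.card_le_card hsub
      _ = wd (r i) (S i) := hColEq i
  · intro a ha hβ
    obtain ⟨h1, h2⟩ := hρ a ha hβ
    refine ⟨h1, ?_⟩
    rcases hc2 _ ((memJ _).2 h1) _ ((memR a).2 ha) h2 with h | h | h
    · simp only [eR, eJ] at h
      exact absurd h (by simp)
    · exact h.elim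
    · exact h
  · intro a ha b hb hβa hβb hab
    obtain ⟨h1, h2⟩ := hρ a ha hβa
    obtain ⟨h3, h4⟩ := hρ b hb hβb
    have : c (eR a) = c (eR b) := by rw [← h2, ← h4, hab]
    rcases hc2 _ ((memR a).2 ha) _ ((memR b).2 hb) this with h | h | h
    · exact eRi h
    · exact h.elim
    · exact h.elim

end Pool.MP_54f573_pr.RGO
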