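import Pool.Agent.Work.MP_54f573_pr.Dilworth

set_option autoImplicit false
open Classical

namespace Pool.MP_54f573_pr.RGO

variable {α : Type*}

/-- Auxiliary type for the chain decomposition with attachments. -/
inductive PiT (α : Type*) : Type _
  | lo (b : α) : PiT α
  | mid (x : α) : PiT α
  | hi (a : α) : PiT α
  | mk1 (j : ℕ) : PiT α
  | mk2 (j : ℕ) : PiT α

/-- rank of a number in a finite set -/
noncomputable def rk (C : Finset ℕ) (κ : ℕ) : ℕ := (C.filter (fun i => i < κ)).card

theorem rk_lt {C : Finset ℕ} {κ : ℕ} (h : κ ∈ C) : rk C κ < C.card := by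
  refine Finset.card_lt_card ⟨Finset.filter_subset _ _, fun hcon => ?_⟩
  have := (Finset.mem_filter.1 (hcon h)).2
  exact lt_irrefl _ this

theorem rk_inj {C : Finset ℕ} {κ κ' : ℕ} (h : κ ∈ C) (h' : κ' ∈ C) (he : rk C κ = rk C κ') :
    κ = κ' := by
  rcases lt_trichotomy κ κ' with hl | hl | hl
  · exfalso
    have : rk C κ < rk C κ' := by
      refine Finset.card_lt_card ⟨fun i hi => ?_, fun hcon => ?_⟩
      · rw [Finset.mem_filter] at hi ⊢
        exact ⟨hi.1, hi.2.trans hl⟩
      · have := (Finset.mem_filter.1 (hcon (Finset.mem_filter.2 ⟨h, hl⟩))).2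
        exact lt_irrefl _ this
    omega
  · exact hl
  · exfalso
    have : rk C κ' < rk C κ := by
      refine Finset.card_lt_card ⟨fun i hi => ?_, fun hcon => ?_⟩
      · rw [Finset.mem_filter] at hi ⊢
        exact ⟨hi.1, hi.2.trans hl⟩
      · have := (Finset.mem_filter.1 (hcon (Finset.mem_filter.2 ⟨h', hl⟩))).2
        exact lt_irrefl _ this
    omega

/-- Chain decomposition of `D` with nested up-sets `P ⊆ N ⊆ D` and attachments at both ends. -/
theorem stepB (r : α → α → Prop) (htr : ∀ a b c, r a b → r b c → r a c) (hirr : ∀ a, ¬ r a a)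
    (D N P Sl Sh : Finset α) (hPN : P ⊆ N) (hND : N ⊆ D)
    (hPup : ∀ x ∈ P, ∀ y ∈ D, r x y → y ∈ P) (hNup : ∀ x ∈ N, ∀ y ∈ D, r x y → y ∈ N)
    (hLC : ∀ Z ⊆ Sl, Z.card + wd r (sel D (fun x => ∀ a ∈ Z, r x a)) ≤ wd r D)
    (hHC : ∀ Z ⊆ Sh, Z.card + wd r (sel P (fun x => ∀ a ∈ Z, ¬ r x a)) ≤ wd r P) :
    ∃ c cb ca : α → ℕ,
      (∀ x ∈ D, c x < wd r D) ∧ (∀ x ∈ N, c x < wd r N) ∧ (∀ x ∈ P, c x < wd r P) ∧
      (∀ x ∈ D, ∀ y ∈ D, c x = c y → x = y ∨ r x y ∨ r y x) ∧
      (∀ b ∈ Sl, cb b < wd r D) ∧ (∀ b ∈ Sl, ∀ b' ∈ Sl, cb b = cb b' → b = b') ∧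
      (∀ b ∈ Sl, ∀ x ∈ D, c x = cb b → ¬ r x b) ∧
      (∀ a ∈ Sh, ca a < wd r P) ∧ (∀ a ∈ Sh, ∀ a' ∈ Sh, ca a = ca a' → a = a') ∧
      (∀ a ∈ Sh, ∀ x ∈ D, c x = ca a → r x a) := by
  set z := wd r D with hz
  set n := wd r N with hn
  set p := wd r P with hp
  have hpn : p ≤ n := wd_mono hPN
  have hnz : n ≤ z := wd_mono hND
  let rr : PiT α → PiT α → Prop := fun u v =>
    match u, v with
    | PiT.lo b, PiT.mid x => ¬ r x b
    | PiT.lo _, PiT.hi _ => True
    | PiT.lo _, PiT.mk1 _ => True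
    | PiT.lo _, PiT.mk2 _ => True
    | PiT.mid x, PiT.mid y => r x y
    | PiT.mid x, PiT.hi a => x ∉ P ∨ r x a
    | PiT.mid x, PiT.mk1 _ => x ∉ N
    | PiT.mid x, PiT.mk2 _ => x ∉ P
    | _, _ => False
  let s : Finset (PiT α) := Sl.image PiT.lo ∪ D.image PiT.mid ∪ Sh.image PiT.hi ∪
    (Finset.range (z - n)).image PiT.mk1 ∪ (Finset.range (n - p)).image PiT.mk2
  have mlo : ∀ b, PiT.lo b ∈ s ↔ b ∈ Sl := by intro b; simp [s]
  have mmid : ∀ b, PiT.mid b ∈ s ↔ b ∈ D := by intro b; simp [s]
  have mhi : ∀ b, PiT.hi b ∈ s ↔ b ∈ Sh := by intro b; simp [s]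
  have mmk1 : ∀ j, (PiT.mk1 j : PiT α) ∈ s ↔ j < z - n := by intro b; simp [s]
  have mmk2 : ∀ j, (PiT.mk2 j : PiT α) ∈ s ↔ j < n - p := by intro b; simp [s]
  have rtr : ∀ a ∈ s, ∀ b ∈ s, ∀ c ∈ s, rr a b → rr b c → rr a c := by
    rintro (a | a | a | a | a) ha (b | b | b | b | b) hb (c | c | c | c | c) hc h1 h2 <;>
      simp only [rr] at h1 h2 ⊢
    · exact fun h => h1 (htr _ _ _ h2 h)
    · exact htr _ _ _ h1 h2
    · by_cases haP : a ∈ P
      · have hbP := hPup a haP b ((mmid b).1 hb) h1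
        rcases h2 with h2 | h2
        · exact absurd hbP h2
        · exact Or.inr (htr _ _ _ h1 h2)
      · exact Or.inl haP
    · exact fun haN => h2 (hNup a haN b ((mmid b).1 hb) h1)
    · exact fun haP => h2 (hPup a haP b ((mmid b).1 hb) h1)
  have rirr : ∀ a ∈ s, ¬ rr a a := by
    rintro (a | a | a | a | a) ha h <;> simp only [rr] at h
    exact hirr _ h
  have hwd : wd rr s ≤ z := by
    refine wd_le_iff.2 fun t ht hac => ?_
    set Zl := Sl.filter (fun b => PiT.lo b ∈ t) with hZl
    set X := D.filter (fun b => PiT.mid b ∈ t) with hX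
    set Zh := Sh.filter (fun b => PiT.hi b ∈ t) with hZh
    set M1 := (Finset.range (z - n)).filter (fun b => PiT.mk1 b ∈ t) with hM1
    set M2 := (Finset.range (n - p)).filter (fun b => PiT.mk2 b ∈ t) with hM2
    have hsub : t ⊆ Zl.image PiT.lo ∪ X.image PiT.mid ∪ Zh.image PiT.hi ∪
        M1.image PiT.mk1 ∪ M2.image PiT.mk2 := by
      rintro (a | a | a | a | a) ha
      · have := (mlo a).1 (ht ha)
        simp [hZl, this, ha]
      · have := (mmid a).1 (ht ha)
        simp [hX, this, ha]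
      · have := (mhi a).1 (ht ha)
        simp [hZh, this, ha]
      · have := (mmk1 a).1 (ht ha)
        simp [hM1, this, ha]
      · have := (mmk2 a).1 (ht ha)
        simp [hM2, this, ha]
    have hcard : t.card ≤ Zl.card + X.card + Zh.card + M1.card + M2.card := by
      refine (Finset.card_le_card hsub).trans ?_
      refine (Finset.card_union_le _ _).trans (Nat.add_le_add ?_ Finset.card_image_le)
      refine (Finset.card_union_le _ _).trans (Nat.add_le_add ?_ Finset.card_image_le)
      refine (Finset.card_union_le _ _).trans (Nat.add_le_add ?_ Finset.card_image_le)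
      exact (Finset.card_union_le _ _).trans (Nat.add_le_add Finset.card_image_le Finset.card_image_le)
    have hXac : AC r X := by
      intro x hx y hy hxy
      exact hac _ (Finset.mem_filter.1 hx).2 _ (Finset.mem_filter.1 hy).2 hxy
    have hM1c : M1.card ≤ z - n := (Finset.card_filter_le _ _).trans (by simp)
    have hM2c : M2.card ≤ n - p := (Finset.card_filter_le _ _).trans (by simp)
    by_cases hZle : Zl.Nonempty
    · obtain ⟨b, hb⟩ := hZle
      have hb2 := (Finset.mem_filter.1 hb).2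
      have e1 : Zh = ∅ := by
        rw [Finset.eq_empty_iff_forall_notMem]
        intro a ha
        exact hac _ hb2 _ (Finset.mem_filter.1 ha).2 trivial
      have e2 : M1 = ∅ := by
        rw [Finset.eq_empty_iff_forall_notMem]
        intro a ha
        exact hac _ hb2 _ (Finset.mem_filter.1 ha).2 trivial
      have e3 : M2 = ∅ := by
        rw [Finset.eq_empty_iff_forall_notMem]
        intro a ha
        exact hac _ hb2 _ (Finset.mem_filter.1 ha).2 trivial
      have e4 : X.card ≤ wd r (sel D (fun x => ∀ a ∈ Zl, r x a)) := by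
        refine card_le_wd (fun x hx => ?_) hXac
        have hx' := Finset.mem_filter.1 hx
        refine mem_sel.2 ⟨hx'.1, fun a ha => ?_⟩
        by_contra hcon
        exact hac _ (Finset.mem_filter.1 ha).2 _ hx'.2 hcon
      have e5 := hLC Zl (Finset.filter_subset _ _)
      rw [e1, e2, e3] at hcard
      simp only [Finset.card_empty] at hcard
      omega
    · rw [Finset.not_nonempty_iff_eq_empty] at hZle
      rw [hZle] at hcard
      simp only [Finset.card_empty] at hcard
      by_cases hZM : Zh.Nonempty ∨ M2.Nonempty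
      · have hXP : X ⊆ sel P (fun x => ∀ a ∈ Zh, ¬ r x a) := by
          intro x hx
          have hx' := Finset.mem_filter.1 hx
          refine mem_sel.2 ⟨?_, fun a ha hxa => ?_⟩
          · by_contra hcon
            rcases hZM with ⟨a, ha⟩ | ⟨a, ha⟩
            · exact hac _ hx'.2 _ (Finset.mem_filter.1 ha).2 (Or.inl hcon)
            · exact hac _ hx'.2 _ (Finset.mem_filter.1 ha).2 hcon
          · exact hac _ hx'.2 _ (Finset.mem_filter.1 ha).2 (Or.inr hxa)
        have e4 := card_le_wd hXP hXac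
        have e5 := hHC Zh (Finset.filter_subset _ _)
        omega
      · push Not at hZM
        have e1 : Zh = ∅ := hZM.1
        have e2 : M2 = ∅ := hZM.2
        rw [e1, e2] at hcard
        simp only [Finset.card_empty] at hcard
        by_cases hM : M1.Nonempty
        · have hXN : X ⊆ N := by
            intro x hx
            have hx' := Finset.mem_filter.1 hx
            by_contra hcon
            obtain ⟨a, ha⟩ := hM
            exact hac _ hx'.2 _ (Finset.mem_filter.1 ha).2 hcon
          have e4 := card_le_wd hXN hXac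
          omega
        · rw [Finset.not_nonempty_iff_eq_empty] at hM
          rw [hM] at hcard
          simp only [Finset.card_empty] at hcard
          have e4 : X.card ≤ z := card_le_wd (Finset.filter_subset _ _) hXac
          omega
  obtain ⟨c0, hc1, hc2⟩ := dilworthOn rr s rtr rirr
  have hcz : ∀ v ∈ s, c0 v < z := fun v hv => (hc1 v hv).trans_le hwd
  let C1 : Finset ℕ := (Finset.range (z - n)).image (fun j => c0 (PiT.mk1 j))
  let C2 : Finset ℕ := (Finset.range (n - p)).image (fun j => c0 (PiT.mk2 j))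
  let C3 : Finset ℕ := Finset.range z \ (C1 ∪ C2)
  have hC1c : C1.card = z - n := by
    rw [Finset.card_image_of_injOn, Finset.card_range]
    intro i hi j hj hij
    have hi' := Finset.mem_range.1 (Finset.mem_coe.1 hi)
    have hj' := Finset.mem_range.1 (Finset.mem_coe.1 hj)
    rcases hc2 _ ((mmk1 i).2 hi') _ ((mmk1 j).2 hj') hij with h | h | h
    · simpa using h
    · exact h.elim
    · exact h.elim
  have hC2c : C2.card = n - p := by
    rw [Finset.card_image_of_injOn, Finset.card_range]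
    intro i hi j hj hij
    have hi' := Finset.mem_range.1 (Finset.mem_coe.1 hi)
    have hj' := Finset.mem_range.1 (Finset.mem_coe.1 hj)
    rcases hc2 _ ((mmk2 i).2 hi') _ ((mmk2 j).2 hj') hij with h | h | h
    · simpa using h
    · exact h.elim
    · exact h.elim
  have hC12 : Disjoint C1 C2 := by
    rw [Finset.disjoint_left]
    intro κ h1 h2
    rw [Finset.mem_image] at h1 h2
    obtain ⟨i, hi, rfl⟩ := h1
    obtain ⟨j, hj, hij⟩ := h2
    rcases hc2 _ ((mmk2 j).2 (Finset.mem_range.1 hj)) _ ((mmk1 i).2 (Finset.mem_range.1 hi)) hij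
      with h | h | h
    · exact absurd h (by simp)
    · exact h.elim
    · exact h.elim
  have hC12s : C1 ∪ C2 ⊆ Finset.range z := by
    intro κ hκ
    rw [Finset.mem_union, Finset.mem_image, Finset.mem_image] at hκ
    rw [Finset.mem_range]
    rcases hκ with ⟨i, hi, rfl⟩ | ⟨i, hi, rfl⟩
    · exact hcz _ ((mmk1 i).2 (Finset.mem_range.1 hi))
    · exact hcz _ ((mmk2 i).2 (Finset.mem_range.1 hi))
  have hC3c : C3.card = p := by
    rw [Finset.card_sdiff_of_subset hC12s, Finset.card_union_of_disjoint hC12, hC1c, hC2c,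
      Finset.card_range]
    omega
  -- membership facts
  have memC3 : ∀ v ∈ s, c0 v ∉ C1 → c0 v ∉ C2 → c0 v ∈ C3 := by
    intro v hv h1 h2
    rw [Finset.mem_sdiff, Finset.mem_range, Finset.mem_union]
    exact ⟨hcz v hv, fun h => h.elim h1 h2⟩
  have nC1 : ∀ x ∈ N, c0 (PiT.mid x) ∉ C1 := by
    intro x hx hcon
    rw [Finset.mem_image] at hcon
    obtain ⟨i, hi, hij⟩ := hcon
    rcases hc2 _ ((mmk1 i).2 (Finset.mem_range.1 hi)) _ ((mmid x).2 (hND hx)) hij with h | h | h
    · exact absurd h (by simp)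
    · exact h.elim
    · exact h hx
  have nC2 : ∀ x ∈ P, c0 (PiT.mid x) ∉ C2 := by
    intro x hx hcon
    rw [Finset.mem_image] at hcon
    obtain ⟨i, hi, hij⟩ := hcon
    rcases hc2 _ ((mmk2 i).2 (Finset.mem_range.1 hi)) _ ((mmid x).2 (hND (hPN hx))) hij
      with h | h | h
    · exact absurd h (by simp)
    · exact h.elim
    · exact h hx
  have hiC3 : ∀ a ∈ Sh, c0 (PiT.hi a) ∈ C3 := by
    intro a ha
    refine memC3 _ ((mhi a).2 ha) ?_ ?_
    · intro hcon
      rw [Finset.mem_image] at hcon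
      obtain ⟨i, hi, hij⟩ := hcon
      rcases hc2 _ ((mmk1 i).2 (Finset.mem_range.1 hi)) _ ((mhi a).2 ha) hij with h | h | h
      · exact absurd h (by simp)
      · exact h.elim
      · exact h.elim
    · intro hcon
      rw [Finset.mem_image] at hcon
      obtain ⟨i, hi, hij⟩ := hcon
      rcases hc2 _ ((mmk2 i).2 (Finset.mem_range.1 hi)) _ ((mhi a).2 ha) hij with h | h | h
      · exact absurd h (by simp)
      · exact h.elim
      · exact h.elim
  have pC3 : ∀ x ∈ P, c0 (PiT.mid x) ∈ C3 := fun x hx =>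
    memC3 _ ((mmid x).2 (hND (hPN hx))) (nC1 x (hPN hx)) (nC2 x hx)
  -- every colour of C3 is used by P
  have useP : ∀ κ ∈ C3, ∃ x ∈ P, c0 (PiT.mid x) = κ := by
    obtain ⟨t, hts, htac, htc⟩ := exists_wd r P
    have hinj : Set.InjOn (fun x => c0 (PiT.mid x)) (t : Set α) := by
      intro x hx y hy hxy
      rcases hc2 _ ((mmid x).2 (hND (hPN (hts hx)))) _ ((mmid y).2 (hND (hPN (hts hy)))) hxy
        with h | h | h
      · simpa using h
      · exact absurd h (htac x hx y hy)
      · exact absurd h (htac y hy x hx)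
    have himg : t.image (fun x => c0 (PiT.mid x)) = C3 := by
      apply Finset.eq_of_subset_of_card_le
      · intro κ hκ
        rw [Finset.mem_image] at hκ
        obtain ⟨x, hx, rfl⟩ := hκ
        exact pC3 x (hts hx)
      · rw [hC3c, Finset.card_image_of_injOn hinj, htc]
    intro κ hκ
    rw [← himg, Finset.mem_image] at hκ
    obtain ⟨x, hx, hxκ⟩ := hκ
    exact ⟨x, hts hx, hxκ⟩
  -- the final recolouring
  let e : ℕ → ℕ := fun κ => if κ ∈ C1 then n + rk C1 κ else if κ ∈ C2 then p + rk C2 κ else rk C3 κ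
  have e1 : ∀ κ ∈ C1, e κ = n + rk C1 κ := fun κ h => if_pos h
  have e2 : ∀ κ ∈ C2, e κ = p + rk C2 κ := fun κ h => by
    have : κ ∉ C1 := fun h' => (Finset.disjoint_left.1 hC12) h' h
    simp only [e]; rw [if_neg this, if_pos h]
  have e3 : ∀ κ ∈ C3, e κ = rk C3 κ := fun κ h => by
    have h' := (Finset.mem_sdiff.1 h).2
    rw [Finset.mem_union, not_or] at h'
    simp only [e]; rw [if_neg h'.1, if_neg h'.2]
  have b1 : ∀ κ ∈ C1, n ≤ e κ ∧ e κ < z := fun κ h => by
    have := rk_lt h; rw [e1 κ h]; omega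
  have b2 : ∀ κ ∈ C2, p ≤ e κ ∧ e κ < n := fun κ h => by
    have := rk_lt h; rw [e2 κ h]; omega
  have b3 : ∀ κ ∈ C3, e κ < p := fun κ h => by
    have := rk_lt h; rw [e3 κ h]; omega
  have htri : ∀ κ < z, κ ∈ C1 ∨ κ ∈ C2 ∨ κ ∈ C3 := by
    intro κ hκ
    by_cases h1 : κ ∈ C1
    · exact Or.inl h1
    by_cases h2 : κ ∈ C2
    · exact Or.inr (Or.inl h2)
    · refine Or.inr (Or.inr ?_)
      rw [Finset.mem_sdiff, Finset.mem_range, Finset.mem_union]
      exact ⟨hκ, fun h => h.elim h1 h2⟩
  have einj : ∀ κ < z, ∀ κ' < z, e κ = e κ' → κ = κ' := by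
    intro κ hκ κ' hκ' h
    rcases htri κ hκ with h1 | h1 | h1 <;> rcases htri κ' hκ' with h2 | h2 | h2
    · rw [e1 κ h1, e1 κ' h2] at h
      exact rk_inj h1 h2 (by omega)
    · have := b1 κ h1; have := b2 κ' h2; omega
    · have := b1 κ h1; have := b3 κ' h2; omega
    · have := b2 κ h1; have := b1 κ' h2; omega
    · rw [e2 κ h1, e2 κ' h2] at h
      exact rk_inj h1 h2 (by omega)
    · have := b2 κ h1; have := b3 κ' h2; omega
    · have := b3 κ h1; have := b1 κ' h2; omega
    · have := b3 κ h1; have := b2 κ' h2; omega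
    · rw [e3 κ h1, e3 κ' h2] at h
      exact rk_inj h1 h2 h
  have elt : ∀ κ < z, e κ < z := by
    intro κ hκ
    rcases htri κ hκ with h1 | h1 | h1
    · exact (b1 κ h1).2
    · have := b2 κ h1; omega
    · have := b3 κ h1; omega
  refine ⟨fun x => e (c0 (PiT.mid x)), fun b => e (c0 (PiT.lo b)), fun a => e (c0 (PiT.hi a)),
    ?_, ?_, ?_, ?_, ?_, ?_, ?_, ?_, ?_, ?_⟩
  · intro x hx
    exact elt _ (hcz _ ((mmid x).2 hx))
  · intro x hx
    rcases htri _ (hcz _ ((mmid x).2 (hND hx))) with h1 | h1 | h1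
    · exact absurd h1 (nC1 x hx)
    · exact (b2 _ h1).2
    · exact (b3 _ h1).trans_le hpn
  · intro x hx
    exact b3 _ (pC3 x hx)
  · intro x hx y hy hxy
    have := einj _ (hcz _ ((mmid x).2 hx)) _ (hcz _ ((mmid y).2 hy)) hxy
    rcases hc2 _ ((mmid x).2 hx) _ ((mmid y).2 hy) this with h | h | h
    · left; simpa using h
    · exact Or.inr (Or.inl h)
    · exact Or.inr (Or.inr h)
  · intro b hb
    exact elt _ (hcz _ ((mlo b).2 hb))
  · intro b hb b' hb' hbb
    have := einj _ (hcz _ ((mlo b).2 hb)) _ (hcz _ ((mlo b').2 hb')) hbb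
    rcases hc2 _ ((mlo b).2 hb) _ ((mlo b').2 hb') this with h | h | h
    · simpa using h
    · exact h.elim
    · exact h.elim
  · intro b hb x hx hxb
    have := einj _ (hcz _ ((mmid x).2 hx)) _ (hcz _ ((mlo b).2 hb)) hxb
    rcases hc2 _ ((mmid x).2 hx) _ ((mlo b).2 hb) this with h | h | h
    · exact absurd h (by simp)
    · exact h.elim
    · exact h
  · intro a ha
    exact b3 _ (hiC3 a ha)
  · intro b hb b' hb' hbb
    have := einj _ (hcz _ ((mhi b).2 hb)) _ (hcz _ ((mhi b').2 hb')) hbb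
    rcases hc2 _ ((mhi b).2 hb) _ ((mhi b').2 hb') this with h | h | h
    · simpa using h
    · exact h.elim
    · exact h.elim
  · intro a ha x hx hxa
    have h0 := einj _ (hcz _ ((mmid x).2 hx)) _ (hcz _ ((mhi a).2 ha)) hxa
    have hrel : x ∉ P ∨ r x a := by
      rcases hc2 _ ((mmid x).2 hx) _ ((mhi a).2 ha) h0 with h | h | h
      · exact absurd h (by simp)
      · exact h
      · exact h.elim
    rcases hrel with hxP | h
    · obtain ⟨x', hx'P, hx'⟩ := useP _ (hiC3 a ha)
      have hx'a : r x' a := by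
        rcases hc2 _ ((mmid x').2 (hND (hPN hx'P))) _ ((mhi a).2 ha) hx' with h | h | h
        · exact absurd h (by simp)
        · rcases h with h | h
          · exact absurd hx'P h
          · exact h
        · exact h.elim
      rcases hc2 _ ((mmid x).2 hx) _ ((mmid x').2 (hND (hPN hx'P))) (h0.trans hx'.symm)
        with h | h | h
      · exfalso
        apply hxP
        have : x = x' := by simpa using h
        rw [this]; exact hx'P
      · exact htr _ _ _ h hx'a
      · exact absurd (hPup x' hx'P x hx h) hxP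
    · exact h

end Pool.MP_54f573_pr.RGO
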