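import Pool.Agent.Work.MP_54f573_pr.SlotsRev
import Pool.Agent.Work.MP_54f573_pr.Service
import Pool.Agent.Work.MP_54f573_pr.StepB

set_option autoImplicit false
open Classical

namespace Pool.MP_54f573_pr.RGO

variable {α : Type*} [PartialOrder α]

/-- width of a finite set of a poset -/
noncomputable def W (S : Finset α) : ℕ := wd (fun a b : α => a < b) S

/-- The alignment constant for height `h` and group size `m`. -/
def AlignC (h m N₀ : ℕ) : Prop :=
  ∀ (n : ℕ) (X Y : Finset ℕ) (col : ℕ → ℕ → ℕ),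
      X.card = n → Y.card = n → (∀ i ∈ X, ∀ j ∈ Y, col i j < (h + 1) * (h + 1)) →
      ∃ π g : ℕ → ℕ, Set.BijOn π (X : Set ℕ) (Y : Set ℕ) ∧ (∀ i ∈ X, g i < n / m + N₀) ∧
        ∀ i ∈ X, ∀ j ∈ X, g i = g j → col i (π j) = col i (π i) ∧ col i (π j) = col j (π j)

/-- The final construction. -/
theorem final_construction (h m N₀ : ℕ) (hN₀ : AlignC h m N₀)
    (A D U R Y : Finset α) (hA : AC (fun a b : α => a < b) A)
    (hDA : ∀ v ∈ D, ∃ a ∈ A, v < a) (hUA : ∀ v ∈ U, ∃ a ∈ A, a < v)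
    (hRA : ∀ a ∈ A, a ∈ R ∨ a ∈ Y) (hR : R ⊆ A) (hY : Y ⊆ A) (hRY : ∀ a ∈ R, a ∉ Y)
    (k : ℕ) (x u : ℕ → α) (hx : ∀ i < k, ∃ a ∈ A, x i < a) (hu : ∀ i < k, ∃ a ∈ A, a < u i)
    (hxu : ∀ i < k, ¬ x i ≤ u i)
    (P N Q N' : Finset α) (hPN : P ⊆ N) (hND : N ⊆ D) (hQN : Q ⊆ N') (hNU : N' ⊆ U)
    (hPup : ∀ v ∈ P, ∀ w ∈ D, v < w → w ∈ P) (hNup : ∀ v ∈ N, ∀ w ∈ D, v < w → w ∈ N)
    (hQdn : ∀ v ∈ Q, ∀ w ∈ U, w < v → w ∈ Q) (hNdn : ∀ v ∈ N', ∀ w ∈ U, w < v → w ∈ N')
    (hK : ∀ v ∈ D, ∀ w ∈ U, ¬ v ≤ w → v ∈ P ∨ w ∈ Q)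
    (hYN : ∀ v ∈ D, ∀ y ∈ Y, ¬ v ≤ y → v ∈ N) (hYN' : ∀ w ∈ U, ∀ y ∈ Y, ¬ y ≤ w → w ∈ N')
    (τ : ℕ) (hPτ : W P + W U ≤ τ) (hQτ : W Q + W D ≤ τ) (hNτ : W N + W N' ≤ τ)
    (hDh : ∀ C ⊆ D, Ch C → C.card ≤ h) (hUh : ∀ C ⊆ U, Ch C → C.card ≤ h)
    (hserv : ∀ Z ⊆ R, Z.Nonempty →
      Z.card + W (sel D (fun v => ∀ a ∈ Z, v < a)) + W (sel U (fun v => ∀ a ∈ Z, a < v)) +
        W (sel P (fun v => ∀ a ∈ Z, ¬ v < a)) + W (sel Q (fun v => ∀ a ∈ Z, ¬ a < v)) +
        (sel (Finset.range k) (fun i => ∀ a ∈ Z, ¬ a < u i)).card +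
        (sel (Finset.range k) (fun i => ∀ a ∈ Z, ¬ x i < a)).card ≤ 2 * τ + 2 * k) :
    RevN (τ + k + 2 + ((τ / m + N₀) * 2 + (τ / m + N₀) * 2)) (fun v w => ¬ v ≤ w ∧
      (v ∈ A ∨ v ∈ D ∨ v ∈ U ∨ (∃ i < k, v = x i) ∨ (∃ i < k, v = u i)) ∧
      (w ∈ A ∨ w ∈ D ∨ w ∈ U ∨ (∃ i < k, w = x i) ∨ (∃ i < k, w = u i))) := by
  have ltle : ∀ v ∈ D, ∀ a ∈ A, v ≤ a → v < a := by
    intro v hv a ha hva
    refine lt_of_le_of_ne hva ?_
    rintro rfl
    obtain ⟨b, hb, hvb⟩ := hDA v hv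
    exact hA v ha b hb hvb
  have ltle' : ∀ v ∈ U, ∀ a ∈ A, a ≤ v → a < v := by
    intro v hv a ha hva
    refine lt_of_le_of_ne hva ?_
    rintro rfl
    obtain ⟨b, hb, hvb⟩ := hUA a hv
    exact hA b hb a ha hvb
  set z := W D with hz
  set y := W U with hy
  set p := W P with hp
  set q := W Q with hq
  have hflip : ∀ S : Finset α, wd (fun a b : α => b < a) S = W S := fun S => wd_flip _ S
  have hpn : p ≤ W N := wd_mono hPN
  have hnz : W N ≤ z := wd_mono hND
  have hqn : q ≤ W N' := wd_mono hQN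
  have hny : W N' ≤ y := wd_mono hNU
  set f : ℕ := 2 * τ - (z + y + p + q) with hf
  have arith : ∀ a b c d e g1 g2 cc : ℕ, a + b + c + d + e + g1 + g2 ≤ 2 * τ + 2 * k →
      cc ≤ g1 + g2 → a + (b + c + d + e) + cc ≤ z + y + p + q + (2 * k + f) := by
    intro a b c d e g1 g2 cc h1 h2
    omega
  -- service
  let S : Fin 4 → Finset α := ![D, U, P, Q]
  let r : Fin 4 → α → α → Prop :=
    ![fun a b => a < b, fun a b => b < a, fun a b => b < a, fun a b => a < b]
  let att : Fin 4 → α → α → Prop :=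
    ![fun a v => ¬ v < a, fun a v => ¬ a < v, fun a v => v < a, fun a v => a < v]
  let attp : α → ℕ → Prop := fun a j =>
    (j < k ∧ a < u j) ∨ (k ≤ j ∧ j < 2 * k ∧ x (j - k) < a) ∨ 2 * k ≤ j
  have E0 : ∀ Z : Finset α, sel (S 0) (fun v => ∀ a ∈ Z, ¬ att 0 a v) =
      sel D (fun v => ∀ a ∈ Z, v < a) := by
    intro Z
    ext v
    rw [mem_sel, mem_sel]
    exact ⟨fun h => ⟨h.1, fun a ha => not_not.1 (h.2 a ha)⟩,
      fun h => ⟨h.1, fun a ha => not_not.2 (h.2 a ha)⟩⟩
  have E1 : ∀ Z : Finset α, sel (S 1) (fun v => ∀ a ∈ Z, ¬ att 1 a v) =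
      sel U (fun v => ∀ a ∈ Z, a < v) := by
    intro Z
    ext v
    rw [mem_sel, mem_sel]
    exact ⟨fun h => ⟨h.1, fun a ha => not_not.1 (h.2 a ha)⟩,
      fun h => ⟨h.1, fun a ha => not_not.2 (h.2 a ha)⟩⟩
  have E2 : ∀ Z : Finset α, sel (S 2) (fun v => ∀ a ∈ Z, ¬ att 2 a v) =
      sel P (fun v => ∀ a ∈ Z, ¬ v < a) := fun Z => rfl
  have E3 : ∀ Z : Finset α, sel (S 3) (fun v => ∀ a ∈ Z, ¬ att 3 a v) =
      sel Q (fun v => ∀ a ∈ Z, ¬ a < v) := fun Z => rfl
  obtain ⟨β, ρ, hβ1, hβ2, hβ3⟩ := service R S r att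
    (by
      intro i a b c h1 h2
      fin_cases i
      · exact lt_trans (α := α) h1 h2
      · exact lt_trans (α := α) h2 h1
      · exact lt_trans (α := α) h2 h1
      · exact lt_trans (α := α) h1 h2)
    (by
      intro i a h1
      fin_cases i
      · exact lt_irrefl (α := α) a h1
      · exact lt_irrefl (α := α) a h1
      · exact lt_irrefl (α := α) a h1
      · exact lt_irrefl (α := α) a h1)
    (by
      intro i a v w h1 h2
      fin_cases i
      · exact fun h3 : w < a => h1 (lt_trans (α := α) h2 h3)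
      · exact fun h3 : a < w => h1 (lt_trans (α := α) h3 h2)
      · exact lt_trans (α := α) h2 h1
      · exact lt_trans (α := α) h1 h2)
    (Finset.range (2 * k + f)) attp
    (by
      intro Z hZ hZne
      have h1 := hserv Z hZ hZne
      have e0 : wd (r 0) (sel (S 0) (fun v => ∀ a ∈ Z, ¬ att 0 a v)) =
          W (sel D (fun v => ∀ a ∈ Z, v < a)) := by
        rw [E0]; rfl
      have e1 : wd (r 1) (sel (S 1) (fun v => ∀ a ∈ Z, ¬ att 1 a v)) =
          W (sel U (fun v => ∀ a ∈ Z, a < v)) := by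
        rw [E1]; exact hflip _
      have e2 : wd (r 2) (sel (S 2) (fun v => ∀ a ∈ Z, ¬ att 2 a v)) =
          W (sel P (fun v => ∀ a ∈ Z, ¬ v < a)) := by
        rw [E2]; exact hflip _
      have e3 : wd (r 3) (sel (S 3) (fun v => ∀ a ∈ Z, ¬ att 3 a v)) =
          W (sel Q (fun v => ∀ a ∈ Z, ¬ a < v)) := by
        rw [E3]; rfl
      have e4 : wd (r 0) (S 0) = z := rfl
      have e5 : wd (r 1) (S 1) = y := hflip _
      have e6 : wd (r 2) (S 2) = p := hflip _
      have e7 : wd (r 3) (S 3) = q := rfl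
      rw [Fin.sum_univ_four, Fin.sum_univ_four, e0, e1, e2, e3, e4, e5, e6, e7, Finset.card_range]
      have hc : (sel (Finset.range (2 * k + f)) (fun j => ∀ a ∈ Z, ¬ attp a j)).card ≤
          (sel (Finset.range k) (fun i => ∀ a ∈ Z, ¬ a < u i)).card +
          (sel (Finset.range k) (fun i => ∀ a ∈ Z, ¬ x i < a)).card := by
        have hsub : sel (Finset.range (2 * k + f)) (fun j => ∀ a ∈ Z, ¬ attp a j) ⊆
            (sel (Finset.range k) (fun i => ∀ a ∈ Z, ¬ a < u i)) ∪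
            (sel (Finset.range k) (fun i => ∀ a ∈ Z, ¬ x i < a)).image (fun i => k + i) := by
          intro j hj
          rw [mem_sel] at hj
          obtain ⟨-, hj⟩ := hj
          obtain ⟨a₀, ha₀⟩ := hZne
          have hj2 : j < 2 * k := by
            by_contra hcon
            exact hj a₀ ha₀ (Or.inr (Or.inr (by omega)))
          rw [Finset.mem_union]
          by_cases hjk : j < k
          · left
            rw [mem_sel, Finset.mem_range]
            exact ⟨hjk, fun a ha haj => hj a ha (Or.inl ⟨hjk, haj⟩)⟩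
          · right
            rw [Finset.mem_image]
            refine ⟨j - k, ?_, by omega⟩
            rw [mem_sel, Finset.mem_range]
            exact ⟨by omega, fun a ha haj => hj a ha (Or.inr (Or.inl ⟨by omega, hj2, haj⟩))⟩
        refine (Finset.card_le_card hsub).trans ((Finset.card_union_le _ _).trans ?_)
        exact Nat.add_le_add_left Finset.card_image_le _
      exact arith _ _ _ _ _ _ _ _ h1 hc)
  -- step B for D
  have hLC : ∀ Z ⊆ sel R (fun a => β a = some 0),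
      Z.card + wd (fun a b : α => a < b) (sel D (fun v => ∀ a ∈ Z, v < a)) ≤
        wd (fun a b : α => a < b) D := by
    intro Z hZ
    have h1 := hβ1 0 Z (fun a ha => (mem_sel.1 (hZ ha)).1) (fun a ha => (mem_sel.1 (hZ ha)).2)
    rw [E0] at h1
    exact h1
  have hHC : ∀ Z ⊆ sel R (fun a => β a = some 2),
      Z.card + wd (fun a b : α => a < b) (sel P (fun v => ∀ a ∈ Z, ¬ v < a)) ≤
        wd (fun a b : α => a < b) P := by
    intro Z hZ
    have h1 := hβ1 2 Z (fun a ha => (mem_sel.1 (hZ ha)).1) (fun a ha => (mem_sel.1 (hZ ha)).2)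
    rw [E2] at h1
    change Z.card + wd (fun a b : α => b < a) (sel P (fun v => ∀ a ∈ Z, ¬ v < a)) ≤
      wd (fun a b : α => b < a) P at h1
    rw [hflip, hflip] at h1
    exact h1
  obtain ⟨c, cb, ca, hc1, hc2, hc3, hc4, hc5, hc6, hc7, hc8, hc9, hc10⟩ :=
    stepB (fun a b : α => a < b) (fun a b c => lt_trans) (fun a => lt_irrefl a) D N P _ _ hPN hND
      hPup hNup hLC hHC
  -- step B for U
  have hLC' : ∀ Z ⊆ sel R (fun a => β a = some 1),
      Z.card + wd (fun a b : α => b < a) (sel U (fun v => ∀ a ∈ Z, a < v)) ≤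
        wd (fun a b : α => b < a) U := by
    intro Z hZ
    have h1 := hβ1 1 Z (fun a ha => (mem_sel.1 (hZ ha)).1) (fun a ha => (mem_sel.1 (hZ ha)).2)
    rw [E1] at h1
    exact h1
  have hHC' : ∀ Z ⊆ sel R (fun a => β a = some 3),
      Z.card + wd (fun a b : α => b < a) (sel Q (fun v => ∀ a ∈ Z, ¬ a < v)) ≤
        wd (fun a b : α => b < a) Q := by
    intro Z hZ
    have h1 := hβ1 3 Z (fun a ha => (mem_sel.1 (hZ ha)).1) (fun a ha => (mem_sel.1 (hZ ha)).2)
    rw [E3] at h1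
    change Z.card + wd (fun a b : α => a < b) (sel Q (fun v => ∀ a ∈ Z, ¬ a < v)) ≤
      wd (fun a b : α => a < b) Q at h1
    rw [hflip, hflip]
    exact h1
  obtain ⟨c', cb', ca', hd1, hd2, hd3, hd4, hd5, hd6, hd7, hd8, hd9, hd10⟩ :=
    stepB (fun a b : α => b < a) (fun a b c h1 h2 => lt_trans h2 h1) (fun a => lt_irrefl a)
      U N' Q _ _ hQN hNU hQdn hNdn hLC' hHC'
  rw [hflip] at hd1 hd2 hd3 hd5 hd8
  change ∀ x ∈ D, c x < z at hc1
  change ∀ x ∈ N, c x < W N at hc2
  change ∀ x ∈ P, c x < p at hc3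
  change ∀ b ∈ _, cb b < z at hc5
  change ∀ a ∈ _, ca a < p at hc8
  -- kinds and indices
  let f1 : ℕ := τ - z - q
  let kd : α → ℕ := fun a =>
    if β a = some 0 then 0 else if β a = some 2 then 1 else if β a = some 1 then 1 else
    if β a = some 3 then 0 else
    if ρ a < k then 2 else if ρ a < 2 * k then 3 else if ρ a < 2 * k + f1 then 0 else 1
  let ix : α → ℕ := fun a =>
    if β a = some 0 then cb a else if β a = some 2 then ca a else
    if β a = some 1 then τ - 1 - cb' a else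
    if β a = some 3 then τ - 1 - ca' a else
    if ρ a < k then ρ a else if ρ a < 2 * k then ρ a - k else
    if ρ a < 2 * k + f1 then z + (ρ a - 2 * k) else p + (ρ a - 2 * k - f1)
  have opt : ∀ a, β a = some 0 ∨ β a = some 2 ∨ β a = some 1 ∨ β a = some 3 ∨ β a = none := by
    intro a
    rcases hβa : β a with _ | i
    · simp
    · fin_cases i <;> simp
  have n20 : (some (2 : Fin 4) = some 0) = False := by simp
  have n10 : (some (1 : Fin 4) = some 0) = False := by simp
  have n12 : (some (1 : Fin 4) = some 2) = False := by simp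
  have n30 : (some (3 : Fin 4) = some 0) = False := by simp
  have n32 : (some (3 : Fin 4) = some 2) = False := by simp
  have n31 : (some (3 : Fin 4) = some 1) = False := by simp
  -- characterisation
  have char : ∀ a ∈ R,
      (β a = some 0 ∧ kd a = 0 ∧ ix a = cb a ∧ ix a < z) ∨
      (β a = some 2 ∧ kd a = 1 ∧ ix a = ca a ∧ ix a < p) ∨
      (β a = some 1 ∧ kd a = 1 ∧ ix a = τ - 1 - cb' a ∧ cb' a < y) ∨
      (β a = some 3 ∧ kd a = 0 ∧ ix a = τ - 1 - ca' a ∧ ca' a < q) ∨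
      (β a = none ∧ kd a = 2 ∧ ix a = ρ a ∧ ρ a < k ∧ a < u (ρ a)) ∨
      (β a = none ∧ kd a = 3 ∧ ix a = ρ a - k ∧ k ≤ ρ a ∧ ρ a < 2 * k ∧ x (ρ a - k) < a) ∨
      (β a = none ∧ kd a = 0 ∧ ix a = z + (ρ a - 2 * k) ∧ 2 * k ≤ ρ a ∧ ρ a < 2 * k + f1) ∨
      (β a = none ∧ kd a = 1 ∧ ix a = p + (ρ a - 2 * k - f1) ∧ 2 * k + f1 ≤ ρ a ∧
        ρ a < 2 * k + f) := by
    intro a ha
    rcases opt a with hb | hb | hb | hb | hb
    · left
      have e1 : ix a = cb a := by simp only [ix]; rw [if_pos hb]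
      refine ⟨hb, by simp only [kd]; rw [if_pos hb], e1, ?_⟩
      rw [e1]; exact hc5 a (mem_sel.2 ⟨ha, hb⟩)
    · right; left
      have e1 : ix a = ca a := by simp only [ix, hb, n20, if_true, if_false]
      refine ⟨hb, by simp only [kd, hb, n20, if_true, if_false], e1, ?_⟩
      rw [e1]; exact hc8 a (mem_sel.2 ⟨ha, hb⟩)
    · right; right; left
      exact ⟨hb, by simp only [kd, hb, n10, n12, if_true, if_false],
        by simp only [ix, hb, n10, n12, if_true, if_false],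
        hd5 a (mem_sel.2 ⟨ha, hb⟩)⟩
    · right; right; right; left
      exact ⟨hb, by simp only [kd, hb, n30, n32, n31, if_true, if_false],
        by simp only [ix, hb, n30, n32, n31, if_true, if_false],
        hd8 a (mem_sel.2 ⟨ha, hb⟩)⟩
    · right; right; right; right
      obtain ⟨hJ, hp'⟩ := hβ2 a ha hb
      rw [Finset.mem_range] at hJ
      by_cases h1 : ρ a < k
      · left
        refine ⟨hb, ?_, ?_, h1, ?_⟩
        · simp [kd, hb, h1]
        · simp [ix, hb, h1]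
        · rcases hp' with ⟨-, h2⟩ | ⟨h2, -⟩ | h2
          · exact h2
          · omega
          · omega
      · by_cases h2 : ρ a < 2 * k
        · right; left
          refine ⟨hb, ?_, ?_, by omega, h2, ?_⟩
          · simp [kd, hb, h1, h2]
          · simp [ix, hb, h1, h2]
          · rcases hp' with ⟨h3, -⟩ | ⟨-, -, h3⟩ | h3
            · omega
            · exact h3
            · omega
        · by_cases h3 : ρ a < 2 * k + f1
          · right; right; left
            refine ⟨hb, ?_, ?_, by omega, h3⟩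
            · simp [kd, hb, h1, h2, h3]
            · simp [ix, hb, h1, h2, h3]
          · right; right; right
            refine ⟨hb, ?_, ?_, by omega, hJ⟩
            · simp [kd, hb, h1, h2, h3]
            · simp [ix, hb, h1, h2, h3]
  have hf1 : f1 + z + q = τ := by simp only [f1]; omega
  have hff : f + (z + y + p + q) = 2 * τ := by omega
  refine slots_rev h m N₀ hN₀ A D U R Y hA hDA hUA hRA hR hY hRY k x u hx hu hxu P N Q N' hK hYN
    hYN' τ p q (W N) hpn (by omega) (by omega) c (fun v => τ - 1 - c' v) kd ix ?_ ?_ hDh hUh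
    ?_ ?_ hc3 hc2 ?_ ?_ ?_ ?_ ?_ ?_ ?_ ?_ ?_ ?_
  · intro v hv w hw hvw
    rcases hc4 v hv w hw hvw with h1 | h1 | h1
    · exact Or.inl h1.le
    · exact Or.inl h1.le
    · exact Or.inr h1.le
  · intro v hv w hw hvw
    have h1 := hd1 v hv
    have h2 := hd1 w hw
    rcases hd4 v hv w hw (by omega) with h1 | h1 | h1
    · exact Or.inl h1.le
    · exact Or.inr h1.le
    · exact Or.inl h1.le
  · intro v hv
    have := hc1 v hv
    omega
  · intro v hv
    have := hd1 v hv
    omega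
  · intro v hv
    have := hd3 v hv
    show τ - q ≤ τ - 1 - c' v
    omega
  · intro v hv
    have := hd2 v hv
    show W N ≤ τ - 1 - c' v
    omega
  · intro a ha
    rcases char a ha with h1 | h1 | h1 | h1 | h1 | h1 | h1 | h1
    · left; omega
    · right; left; omega
    · right; left; omega
    · left; omega
    · right; right; left; omega
    · right; right; right; omega
    · left; omega
    · right; left; omega
  · intro a ha b hb hkab hiab
    rcases char a ha with h1 | h1 | h1 | h1 | h1 | h1 | h1 | h1 <;>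
    rcases char b hb with h2 | h2 | h2 | h2 | h2 | h2 | h2 | h2 <;>
    first
    | (exfalso; omega)
    | exact hc6 a (mem_sel.2 ⟨ha, h1.1⟩) b (mem_sel.2 ⟨hb, h2.1⟩) (by omega)
    | exact hc9 a (mem_sel.2 ⟨ha, h1.1⟩) b (mem_sel.2 ⟨hb, h2.1⟩) (by omega)
    | exact hd6 a (mem_sel.2 ⟨ha, h1.1⟩) b (mem_sel.2 ⟨hb, h2.1⟩) (by omega)
    | exact hd9 a (mem_sel.2 ⟨ha, h1.1⟩) b (mem_sel.2 ⟨hb, h2.1⟩) (by omega)
    | exact hβ3 a ha b hb h1.1 h2.1 (by omega)
  · -- h0
    intro a ha hk v hv hva hle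
    rcases char a ha with h1 | h1 | h1 | h1 | h1 | h1 | h1 | h1
    · exact hc7 a (mem_sel.2 ⟨ha, h1.1⟩) v hv (by omega) (ltle v hv a (hR ha) hle)
    · omega
    · omega
    · have := hc1 v hv; omega
    · omega
    · omega
    · have := hc1 v hv; omega
    · omega
  · -- h0'
    intro a ha hk hqi v hv hva
    have hv1 := hd1 v hv
    rcases char a ha with h1 | h1 | h1 | h1 | h1 | h1 | h1 | h1
    · omega
    · omega
    · omega
    · exact (hd10 a (mem_sel.2 ⟨ha, h1.1⟩) v hv (by omega)).le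
    · omega
    · omega
    · omega
    · omega
  · -- h1
    intro a ha hk v hv hva hle
    have hv1 := hd1 v hv
    rcases char a ha with h1 | h1 | h1 | h1 | h1 | h1 | h1 | h1
    · omega
    · omega
    · exact hd7 a (mem_sel.2 ⟨ha, h1.1⟩) v hv (by omega) (ltle' v hv a (hR ha) hle)
    · omega
    · omega
    · omega
    · omega
    · omega
  · -- h1'
    intro a ha hk hpi v hv hva
    rcases char a ha with h1 | h1 | h1 | h1 | h1 | h1 | h1 | h1
    · omega
    · exact (hc10 a (mem_sel.2 ⟨ha, h1.1⟩) v hv (by omega)).le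
    · omega
    · omega
    · omega
    · omega
    · omega
    · omega
  · -- h2
    intro a ha hk
    rcases char a ha with h1 | h1 | h1 | h1 | h1 | h1 | h1 | h1
    · omega
    · omega
    · omega
    · omega
    · rw [h1.2.2.1]; exact h1.2.2.2.2.le
    · omega
    · omega
    · omega
  · intro a ha hk
    rcases char a ha with h1 | h1 | h1 | h1 | h1 | h1 | h1 | h1
    · omega
    · omega
    · omega
    · omega
    · omega
    · rw [h1.2.2.1]; exact h1.2.2.2.2.2.le
    · omega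
    · omega

end Pool.MP_54f573_pr.RGO
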