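import Pool.Agent.Work.MP_54f573_pr.FC

set_option autoImplicit false
open Classical

namespace Pool.MP_54f573_pr.RGO

variable {α : Type*} [PartialOrder α]

/-- antichain -/
def ACh (X : Finset α) : Prop := AC (fun a b : α => a < b) X

/-- A matching of incomparable pairs between `X` and `X'`. -/
def IsMt (X X' : Finset α) (M : Finset (α × α)) : Prop :=
  (∀ e ∈ M, e.1 ∈ X ∧ e.2 ∈ X' ∧ ¬ e.1 ≤ e.2) ∧
  (∀ e ∈ M, ∀ e' ∈ M, e.1 = e'.1 → e = e') ∧ (∀ e ∈ M, ∀ e' ∈ M, e.2 = e'.2 → e = e')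

/-- Matching free condition. -/
def MF (D U : Finset α) (τ r : ℕ) : Prop :=
  ∀ X ⊆ D, ∀ X' ⊆ U, ACh X → ACh X' → τ ≤ X.card + X'.card → ∀ M, IsMt X X' M → M.card < r

theorem MF.subset {D U D' U' : Finset α} {τ r : ℕ} (h : MF D U τ r) (hD : D' ⊆ D) (hU : U' ⊆ U) :
    MF D' U' τ r :=
  fun X hX X' hX' h1 h2 h3 M hM => h X (hX.trans hD) X' (hX'.trans hU) h1 h2 h3 M hM

theorem W_chain (S : Finset α) : ∃ c : α → ℕ, (∀ a ∈ S, c a < W S) ∧
    ∀ a ∈ S, ∀ b ∈ S, c a = c b → a = b ∨ a < b ∨ b < a :=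
  dilworth' (fun a b : α => a < b) (fun _ _ _ h1 h2 => lt_trans h1 h2) (fun a => lt_irrefl a) S

theorem exists_W (S : Finset α) : ∃ X ⊆ S, ACh X ∧ X.card = W S := exists_wd _ S

theorem card_le_W {S X : Finset α} (h : X ⊆ S) (hX : ACh X) : X.card ≤ W S := card_le_wd h hX

theorem W_mono {S S' : Finset α} (h : S ⊆ S') : W S ≤ W S' := wd_mono h

theorem W_union_le (S S' : Finset α) : W (S ∪ S') ≤ W S + W S' := wd_union_le _ S S'

/-- A maximum antichain meets every colour of a minimum chain colouring. -/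
theorem max_antichain_colors {S X : Finset α} (hX : X ⊆ S) (hXa : ACh X) (hXc : X.card = W S)
    {c : α → ℕ} (hc : ∀ a ∈ S, c a < W S)
    (hc2 : ∀ a ∈ S, ∀ b ∈ S, c a = c b → a = b ∨ a < b ∨ b < a) :
    ∀ v ∈ S, ∃ x ∈ X, c x = c v := by
  have hinj : Set.InjOn c (X : Set α) := hXa.injOn fun a ha b hb => hc2 a (hX ha) b (hX hb)
  have himg : X.image c = Finset.range (W S) := by
    apply Finset.eq_of_subset_of_card_le
    · intro κ hκ
      rw [Finset.mem_image] at hκ
      obtain ⟨x, hx, rfl⟩ := hκ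
      exact Finset.mem_range.2 (hc x (hX hx))
    · rw [Finset.card_range, Finset.card_image_of_injOn hinj, hXc]
  intro v hv
  have : c v ∈ X.image c := by rw [himg]; exact Finset.mem_range.2 (hc v hv)
  rw [Finset.mem_image] at this
  exact this

/-- Elements of a set are comparable to a maximum antichain. -/
theorem max_antichain_comparable {S X : Finset α} (hX : X ⊆ S) (hXa : ACh X) (hXc : X.card = W S) :
    ∀ v ∈ S, (∃ x ∈ X, v ≤ x) ∨ (∃ x ∈ X, x < v) := by
  intro v hv
  by_contra hcon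
  push Not at hcon
  obtain ⟨h1, h2⟩ := hcon
  have hvX : v ∉ X := fun h => h1 v h le_rfl
  have hac : ACh (insert v X) := by
    intro a ha b hb hab
    rw [Finset.mem_insert] at ha hb
    rcases ha with rfl | ha <;> rcases hb with rfl | hb
    · exact lt_irrefl _ hab
    · exact h1 b hb hab.le
    · exact h2 a ha hab
    · exact hXa a ha b hb hab
  have h3 : (insert v X).card ≤ W S :=
    card_le_W (Finset.insert_subset hv hX) hac
  rw [Finset.card_insert_of_notMem hvX] at h3
  omega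

theorem color_width {S V Del : Finset α} {c : α → ℕ}
    (hc2 : ∀ a ∈ S, ∀ b ∈ S, c a = c b → a = b ∨ a < b ∨ b < a)
    (hDS : Del ⊆ S) (hD : ∀ v ∈ Del, ∃ a ∈ V, c v = c a) : W Del ≤ V.card := by
  refine wd_le_iff.2 fun t ht hac => ?_
  have hinj : Set.InjOn c (t : Set α) :=
    hac.injOn fun a ha b hb => hc2 a (hDS (ht ha)) b (hDS (ht hb))
  rw [← Finset.card_image_of_injOn hinj]
  refine (Finset.card_le_card ?_).trans (Finset.card_image_le (s := V) (f := c))
  intro κ hκ
  rw [Finset.mem_image] at hκ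
  obtain ⟨v, hv, rfl⟩ := hκ
  obtain ⟨a, ha, hva⟩ := hD v (ht hv)
  rw [hva]
  exact Finset.mem_image_of_mem _ ha

/-- One peeling step. -/
theorem peel_step {D U : Finset α} {τ r : ℕ} (hMF : MF D U τ r) {S S' X X' : Finset α}
    (hS : S ⊆ D) (hS' : S' ⊆ U) (hX : X ⊆ S) (hXa : ACh X) (hXc : X.card = W S)
    (hX' : X' ⊆ S') (hXa' : ACh X') (hXc' : X'.card = W S') (hτ : τ ≤ W S + W S') :
    ∃ Del : Finset α, W Del ≤ 2 * r ∧ ∀ v ∈ S, ∀ w ∈ S', v ∉ Del → w ∉ Del →
      (∃ x ∈ X, v ≤ x) → (∃ x ∈ X', x ≤ w) → v ≤ w := by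
  -- maximum matching
  have hne : ((X ×ˢ X').powerset.filter (fun M => IsMt X X' M)).Nonempty := by
    refine ⟨∅, Finset.mem_filter.2 ⟨Finset.empty_mem_powerset _, ?_, ?_, ?_⟩⟩
    · intro e he; exact absurd he (Finset.notMem_empty _)
    · intro e he; exact absurd he (Finset.notMem_empty _)
    · intro e he; exact absurd he (Finset.notMem_empty _)
  obtain ⟨M, hM, hMmax⟩ := Finset.exists_max_image _ Finset.card hne
  rw [Finset.mem_filter, Finset.mem_powerset] at hM
  obtain ⟨hMs, hMt⟩ := hM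
  have hMr : M.card < r :=
    hMF X (hX.trans hS) X' (hX'.trans hS') hXa hXa' (by omega) M hMt
  obtain ⟨c, hc1, hc2⟩ := W_chain S
  obtain ⟨c', hc1', hc2'⟩ := W_chain S'
  set Va := M.image Prod.fst with hVa
  set Vb := M.image Prod.snd with hVb
  set DD := S.filter (fun v => ∃ a ∈ Va, c v = c a) with hDD
  set DU := S'.filter (fun v => ∃ a ∈ Vb, c' v = c' a) with hDU
  have w1 : W DD ≤ Va.card := color_width hc2 (Finset.filter_subset _ _)
    (fun v hv => (Finset.mem_filter.1 hv).2)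
  have w2 : W DU ≤ Vb.card := color_width hc2' (Finset.filter_subset _ _)
    (fun v hv => (Finset.mem_filter.1 hv).2)
  have w3 : Va.card ≤ M.card := Finset.card_image_le
  have w4 : Vb.card ≤ M.card := Finset.card_image_le
  refine ⟨DD ∪ DU, ?_, ?_⟩
  · have := W_union_le DD DU
    omega
  · intro v hv w hw hvDel hwDel hvX hwX
    obtain ⟨xa, hxa, hca⟩ := max_antichain_colors hX hXa hXc hc1 hc2 v hv
    obtain ⟨xb, hxb, hcb⟩ := max_antichain_colors hX' hXa' hXc' hc1' hc2' w hw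
    have h1 : v ≤ xa := by
      rcases hc2 xa (hX hxa) v hv hca with h | h | h
      · exact h.ge
      · exfalso
        obtain ⟨x, hx, hvx⟩ := hvX
        exact hXa xa hxa x hx (h.trans_le hvx)
      · exact h.le
    have h2 : xb ≤ w := by
      rcases hc2' xb (hX' hxb) w hw hcb with h | h | h
      · exact h.le
      · exact h.le
      · exfalso
        obtain ⟨x, hx, hxw⟩ := hwX
        exact hXa' x hx xb hxb (hxw.trans_lt h)
    have h3 : xa ∉ Va := fun h => hvDel (Finset.mem_union_left _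
      (Finset.mem_filter.2 ⟨hv, xa, h, hca.symm⟩))
    have h4 : xb ∉ Vb := fun h => hwDel (Finset.mem_union_right _
      (Finset.mem_filter.2 ⟨hw, xb, h, hcb.symm⟩))
    by_contra hcon
    have h5 : ¬ xa ≤ xb := fun h => hcon (h1.trans (h.trans h2))
    have h6 : (xa, xb) ∉ M := fun h => h3 (Finset.mem_image.2 ⟨_, h, rfl⟩)
    have h7 : IsMt X X' (insert (xa, xb) M) := by
      refine ⟨?_, ?_, ?_⟩
      · intro e he
        rw [Finset.mem_insert] at he
        rcases he with rfl | he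
        · exact ⟨hxa, hxb, h5⟩
        · exact hMt.1 e he
      · intro e he e' he' hee
        rw [Finset.mem_insert] at he he'
        rcases he with rfl | he <;> rcases he' with rfl | he'
        · rfl
        · exact absurd (Finset.mem_image.2 ⟨e', he', hee.symm⟩) h3
        · exact absurd (Finset.mem_image.2 ⟨e, he, hee⟩) h3
        · exact hMt.2.1 e he e' he' hee
      · intro e he e' he' hee
        rw [Finset.mem_insert] at he he'
        rcases he with rfl | he <;> rcases he' with rfl | he'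
        · rfl
        · exact absurd (Finset.mem_image.2 ⟨e', he', hee.symm⟩) h4
        · exact absurd (Finset.mem_image.2 ⟨e, he, hee⟩) h4
        · exact hMt.2.2 e he e' he' hee
    have h8 := hMmax (insert (xa, xb) M) (Finset.mem_filter.2 ⟨Finset.mem_powerset.2 (by
      intro e he
      rw [Finset.mem_insert] at he
      rcases he with rfl | he
      · exact Finset.mem_product.2 ⟨hxa, hxb⟩
      · exact hMs he), h7⟩)
    rw [Finset.card_insert_of_notMem h6] at h8
    omega

/-- Minimal element of a nonempty chain. -/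
theorem Ch.exists_min {C : Finset α} (hC : Ch C) (hne : C.Nonempty) : ∃ e ∈ C, ∀ v ∈ C, e ≤ v := by
  obtain ⟨e, he, hmin⟩ := C.exists_minimal hne
  refine ⟨e, he, fun v hv => ?_⟩
  rcases hC e he v hv with h | h
  · exact h
  · exact hmin hv h

theorem Ch.exists_max {C : Finset α} (hC : Ch C) (hne : C.Nonempty) : ∃ e ∈ C, ∀ v ∈ C, v ≤ e := by
  obtain ⟨e, he, hmax⟩ := C.exists_maximal hne
  refine ⟨e, he, fun v hv => ?_⟩
  rcases hC e he v hv with h | h
  · exact hmax hv h
  · exact h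

/-- Peeling on the lower side. -/
theorem peelD {D U : Finset α} {τ r : ℕ} (hMF : MF D U τ r) {N N' FD FU X' : Finset α}
    (hND : N ⊆ D)
    (hFDup : ∀ v ∈ FD, ∀ w ∈ D, v < w → w ∈ FD)
    (hK : ∀ v ∈ D, ∀ w ∈ U, ¬ v ≤ w → (v ∈ N ∧ w ∈ N') ∨ v ∈ FD ∨ w ∈ FU)
    (hX' : X' ⊆ U) (hXa' : ACh X') (hXc' : X'.card = W U)
    (hF : W FD + W U ≤ τ) :
    ∀ (j : ℕ) (S Del₀ : Finset α), FD ⊆ S → S ⊆ N → (∀ v ∈ S, ∀ w ∈ D, v < w → w ∈ S) →
      (∀ C ⊆ S \ FD, Ch C → C.card ≤ j) →
      (∀ v ∈ D, ∀ w ∈ U, v ∉ Del₀ → w ∉ Del₀ → ¬ v ≤ w →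
        v ∈ S ∨ w ∈ FU ∨ (w ∈ N' ∧ ∀ x ∈ X', ¬ x ≤ w)) →
      ∃ P Del : Finset α, FD ⊆ P ∧ P ⊆ N ∧ (∀ v ∈ P, ∀ w ∈ D, v < w → w ∈ P) ∧
        W P + W U ≤ τ ∧ W Del ≤ W Del₀ + 2 * r * j ∧ Del₀ ⊆ Del ∧
        (∀ v ∈ D, ∀ w ∈ U, v ∉ Del → w ∉ Del → ¬ v ≤ w →
          v ∈ P ∨ w ∈ FU ∨ (w ∈ N' ∧ ∀ x ∈ X', ¬ x ≤ w)) := by
  intro j
  induction j with
  | zero =>
    intro S Del₀ hFS hSN hSup hh hcov
    have hSF : S = FD := by
      apply Finset.Subset.antisymm _ hFS
      intro v hv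
      by_contra hvF
      have := hh {v} (Finset.singleton_subset_iff.2 (Finset.mem_sdiff.2 ⟨hv, hvF⟩))
        (Ch.card_le_one (by simp))
      simp at this
    subst hSF
    exact ⟨S, Del₀, hFS, hSN, hSup, hF, by omega, Finset.Subset.refl _, hcov⟩
  | succ j ih =>
    intro S Del₀ hFS hSN hSup hh hcov
    by_cases hle : W S + W U ≤ τ
    · exact ⟨S, Del₀, hFS, hSN, hSup, hle, by omega, Finset.Subset.refl _, hcov⟩
    obtain ⟨X, hXS, hXa, hXc⟩ := exists_W S
    obtain ⟨Del₁, hD1, hD2⟩ := peel_step hMF (hSN.trans hND) (Finset.Subset.refl U) hXS hXa hXc hX'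
      hXa' hXc' (by omega)
    set S₁ := FD ∪ S.filter (fun v => ¬ ∃ x ∈ X, v ≤ x) with hS₁
    have hS₁S : S₁ ⊆ S := Finset.union_subset hFS (Finset.filter_subset _ _)
    obtain ⟨P, Del, h1, h2, h3, h4, h5, h6, h7⟩ := ih S₁ (Del₀ ∪ Del₁) Finset.subset_union_left
      (hS₁S.trans hSN) (by
        intro v hv w hw hvw
        rw [hS₁, Finset.mem_union] at hv ⊢
        rcases hv with hv | hv
        · exact Or.inl (hFDup v hv w hw hvw)
        · rw [Finset.mem_filter] at hv
          refine Or.inr (Finset.mem_filter.2 ⟨hSup v hv.1 w hw hvw, ?_⟩)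
          rintro ⟨x, hx, hwx⟩
          exact hv.2 ⟨x, hx, hvw.le.trans hwx⟩) (by
        intro C hC hCch
        by_cases hCe : C.Nonempty
        · obtain ⟨e, he, hmin⟩ := hCch.exists_min hCe
          have he' := Finset.mem_sdiff.1 (hC he)
          have heS : e ∈ S.filter (fun v => ¬ ∃ x ∈ X, v ≤ x) := by
            rcases Finset.mem_union.1 he'.1 with h | h
            · exact absurd h he'.2
            · exact h
          rw [Finset.mem_filter] at heS
          rcases max_antichain_comparable hXS hXa hXc e heS.1 with h | ⟨x, hx, hxe⟩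
          · exact absurd h heS.2
          have hxC : x ∉ C := fun h => absurd (hmin x h) (not_le_of_gt hxe)
          have hxF : x ∉ FD := fun h => he'.2 (hFDup x h e (hND (hSN heS.1)) hxe)
          have := hh (insert x C) (by
            intro v hv
            rw [Finset.mem_insert] at hv
            rcases hv with rfl | hv
            · exact Finset.mem_sdiff.2 ⟨hXS hx, hxF⟩
            · have := Finset.mem_sdiff.1 (hC hv)
              exact Finset.mem_sdiff.2 ⟨hS₁S this.1, this.2⟩) (by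
            intro a ha b hb
            rw [Finset.mem_insert] at ha hb
            rcases ha with rfl | ha <;> rcases hb with rfl | hb
            · exact Or.inl le_rfl
            · exact Or.inl (hxe.le.trans (hmin b hb))
            · exact Or.inr (hxe.le.trans (hmin a ha))
            · exact hCch a ha b hb)
          rw [Finset.card_insert_of_notMem hxC] at this
          omega
        · rw [Finset.not_nonempty_iff_eq_empty] at hCe
          rw [hCe]; simp) (by
        intro v hv w hw hvD hwD hvw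
        rw [Finset.mem_union, not_or] at hvD hwD
        rcases hcov v hv w hw hvD.1 hwD.1 hvw with h | h | h
        · by_cases hvF : v ∈ FD
          · exact Or.inl (Finset.mem_union_left _ hvF)
          by_cases hvX : ∃ x ∈ X, v ≤ x
          · have hwX : ¬ ∃ x ∈ X', x ≤ w := fun hwX => hvw (hD2 v h w hw hvD.2 hwD.2 hvX hwX)
            push Not at hwX
            rcases hK v hv w hw hvw with h' | h' | h'
            · exact Or.inr (Or.inr ⟨h'.2, hwX⟩)
            · exact absurd h' hvF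
            · exact Or.inr (Or.inl h')
          · exact Or.inl (Finset.mem_union_right _ (Finset.mem_filter.2 ⟨h, hvX⟩))
        · exact Or.inr (Or.inl h)
        · exact Or.inr (Or.inr h))
    refine ⟨P, Del, h1, h2, h3, h4, ?_, Finset.subset_union_left.trans h6, h7⟩
    have := W_union_le Del₀ Del₁
    have e : 2 * r * (j + 1) = 2 * r * j + 2 * r := by ring
    omega

/-- Peeling on the upper side. -/
theorem peelU {D U : Finset α} {τ r : ℕ} (hMF : MF D U τ r) {N N' FD FU X : Finset α}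
    (hNU : N' ⊆ U)
    (hFUdn : ∀ v ∈ FU, ∀ w ∈ U, w < v → w ∈ FU)
    (hK : ∀ v ∈ D, ∀ w ∈ U, ¬ v ≤ w → (v ∈ N ∧ w ∈ N') ∨ v ∈ FD ∨ w ∈ FU)
    (hX : X ⊆ D) (hXa : ACh X) (hXc : X.card = W D)
    (hF : W FU + W D ≤ τ) :
    ∀ (j : ℕ) (S Del₀ : Finset α), FU ⊆ S → S ⊆ N' → (∀ v ∈ S, ∀ w ∈ U, w < v → w ∈ S) →
      (∀ C ⊆ S \ FU, Ch C → C.card ≤ j) →
      (∀ v ∈ D, ∀ w ∈ U, v ∉ Del₀ → w ∉ Del₀ → ¬ v ≤ w →
        w ∈ S ∨ v ∈ FD ∨ (v ∈ N ∧ ∀ x ∈ X, ¬ v ≤ x)) →
      ∃ Q Del : Finset α, FU ⊆ Q ∧ Q ⊆ N' ∧ (∀ v ∈ Q, ∀ w ∈ U, w < v → w ∈ Q) ∧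
        W Q + W D ≤ τ ∧ W Del ≤ W Del₀ + 2 * r * j ∧ Del₀ ⊆ Del ∧
        (∀ v ∈ D, ∀ w ∈ U, v ∉ Del → w ∉ Del → ¬ v ≤ w →
          w ∈ Q ∨ v ∈ FD ∨ (v ∈ N ∧ ∀ x ∈ X, ¬ v ≤ x)) := by
  intro j
  induction j with
  | zero =>
    intro S Del₀ hFS hSN hSup hh hcov
    have hSF : S = FU := by
      apply Finset.Subset.antisymm _ hFS
      intro v hv
      by_contra hvF
      have := hh {v} (Finset.singleton_subset_iff.2 (Finset.mem_sdiff.2 ⟨hv, hvF⟩))
        (Ch.card_le_one (by simp))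
      simp at this
    subst hSF
    exact ⟨S, Del₀, hFS, hSN, hSup, hF, by omega, Finset.Subset.refl _, hcov⟩
  | succ j ih =>
    intro S Del₀ hFS hSN hSup hh hcov
    by_cases hle : W S + W D ≤ τ
    · exact ⟨S, Del₀, hFS, hSN, hSup, hle, by omega, Finset.Subset.refl _, hcov⟩
    obtain ⟨X', hXS', hXa', hXc'⟩ := exists_W S
    obtain ⟨Del₁, hD1, hD2⟩ := peel_step hMF (Finset.Subset.refl D) (hSN.trans hNU) hX hXa hXc hXS'
      hXa' hXc' (by omega)
    set S₁ := FU ∪ S.filter (fun v => ¬ ∃ x ∈ X', x ≤ v) with hS₁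
    have hS₁S : S₁ ⊆ S := Finset.union_subset hFS (Finset.filter_subset _ _)
    obtain ⟨P, Del, h1, h2, h3, h4, h5, h6, h7⟩ := ih S₁ (Del₀ ∪ Del₁) Finset.subset_union_left
      (hS₁S.trans hSN) (by
        intro v hv w hw hvw
        rw [hS₁, Finset.mem_union] at hv ⊢
        rcases hv with hv | hv
        · exact Or.inl (hFUdn v hv w hw hvw)
        · rw [Finset.mem_filter] at hv
          refine Or.inr (Finset.mem_filter.2 ⟨hSup v hv.1 w hw hvw, ?_⟩)
          rintro ⟨x, hx, hwx⟩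
          exact hv.2 ⟨x, hx, hwx.trans hvw.le⟩) (by
        intro C hC hCch
        by_cases hCe : C.Nonempty
        · obtain ⟨e, he, hmax⟩ := hCch.exists_max hCe
          have he' := Finset.mem_sdiff.1 (hC he)
          have heS : e ∈ S.filter (fun v => ¬ ∃ x ∈ X', x ≤ v) := by
            rcases Finset.mem_union.1 he'.1 with h | h
            · exact absurd h he'.2
            · exact h
          rw [Finset.mem_filter] at heS
          have : ∃ x ∈ X', e < x := by
            rcases max_antichain_comparable hXS' hXa' hXc' e heS.1 with ⟨x, hx, hex⟩ | ⟨x, hx, hxe⟩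
            · refine ⟨x, hx, lt_of_le_of_ne hex ?_⟩
              rintro rfl
              exact heS.2 ⟨e, hx, le_rfl⟩
            · exact absurd ⟨x, hx, hxe.le⟩ heS.2
          obtain ⟨x, hx, hxe⟩ := this
          have hxC : x ∉ C := fun h => absurd (hmax x h) (not_le_of_gt hxe)
          have hxF : x ∉ FU := fun h => he'.2 (hFUdn x h e (hNU (hSN heS.1)) hxe)
          have := hh (insert x C) (by
            intro v hv
            rw [Finset.mem_insert] at hv
            rcases hv with rfl | hv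
            · exact Finset.mem_sdiff.2 ⟨hXS' hx, hxF⟩
            · have := Finset.mem_sdiff.1 (hC hv)
              exact Finset.mem_sdiff.2 ⟨hS₁S this.1, this.2⟩) (by
            intro a ha b hb
            rw [Finset.mem_insert] at ha hb
            rcases ha with rfl | ha <;> rcases hb with rfl | hb
            · exact Or.inl le_rfl
            · exact Or.inr ((hmax b hb).trans hxe.le)
            · exact Or.inl ((hmax a ha).trans hxe.le)
            · exact hCch a ha b hb)
          rw [Finset.card_insert_of_notMem hxC] at this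
          omega
        · rw [Finset.not_nonempty_iff_eq_empty] at hCe
          rw [hCe]; simp) (by
        intro v hv w hw hvD hwD hvw
        rw [Finset.mem_union, not_or] at hvD hwD
        rcases hcov v hv w hw hvD.1 hwD.1 hvw with h | h | h
        · by_cases hwF : w ∈ FU
          · exact Or.inl (Finset.mem_union_left _ hwF)
          by_cases hwX : ∃ x ∈ X', x ≤ w
          · have hvX : ¬ ∃ x ∈ X, v ≤ x := fun hvX => hvw (hD2 v hv w h hvD.2 hwD.2 hvX hwX)
            push Not at hvX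
            rcases hK v hv w hw hvw with h' | h' | h'
            · exact Or.inr (Or.inr ⟨h'.1, hvX⟩)
            · exact Or.inr (Or.inl h')
            · exact absurd h' hwF
          · exact Or.inl (Finset.mem_union_right _ (Finset.mem_filter.2 ⟨h, hwX⟩))
        · exact Or.inr (Or.inl h)
        · exact Or.inr (Or.inr h))
    refine ⟨P, Del, h1, h2, h3, h4, ?_, Finset.subset_union_left.trans h6, h7⟩
    have := W_union_le Del₀ Del₁
    have e : 2 * r * (j + 1) = 2 * r * j + 2 * r := by ring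
    omega

/-- The set appearing in the failing condition (upper side). -/
noncomputable def Q1 (N' FU X' : Finset α) : Finset α := FU ∪ sel N' (fun w => ∀ x ∈ X', ¬ x ≤ w)

/-- The set appearing in the failing condition (lower side). -/
noncomputable def P2 (N FD X : Finset α) : Finset α := FD ∪ sel N (fun v => ∀ x ∈ X, ¬ v ≤ x)

theorem peel {D U : Finset α} {τ r h : ℕ} (hMF : MF D U τ r) {N N' FD FU X X' : Finset α}
    (hND : N ⊆ D) (hNup : ∀ v ∈ N, ∀ w ∈ D, v < w → w ∈ N)
    (hNU : N' ⊆ U) (hNdn : ∀ v ∈ N', ∀ w ∈ U, w < v → w ∈ N')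
    (hFDN : FD ⊆ N) (hFDup : ∀ v ∈ FD, ∀ w ∈ D, v < w → w ∈ FD)
    (hFUN : FU ⊆ N') (hFUdn : ∀ v ∈ FU, ∀ w ∈ U, w < v → w ∈ FU)
    (hK : ∀ v ∈ D, ∀ w ∈ U, ¬ v ≤ w → (v ∈ N ∧ w ∈ N') ∨ v ∈ FD ∨ w ∈ FU)
    (hX : X ⊆ D) (hXa : ACh X) (hXc : X.card = W D)
    (hX' : X' ⊆ U) (hXa' : ACh X') (hXc' : X'.card = W U)
    (hDh : ∀ C ⊆ D, Ch C → C.card ≤ h) (hUh : ∀ C ⊆ U, Ch C → C.card ≤ h)
    (hFD : W FD + W U ≤ τ) (hFU : W FU + W D ≤ τ)
    (hor : W (Q1 N' FU X') + W D ≤ τ ∨ W (P2 N FD X) + W U ≤ τ) :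
    ∃ P Q Del : Finset α, FD ⊆ P ∧ P ⊆ N ∧ (∀ v ∈ P, ∀ w ∈ D, v < w → w ∈ P) ∧
      FU ⊆ Q ∧ Q ⊆ N' ∧ (∀ v ∈ Q, ∀ w ∈ U, w < v → w ∈ Q) ∧
      W P + W U ≤ τ ∧ W Q + W D ≤ τ ∧ W Del ≤ 2 * r * h ∧
      (∀ v ∈ D, ∀ w ∈ U, v ∉ Del → w ∉ Del → ¬ v ≤ w → v ∈ P ∨ w ∈ Q) := by
  have hW0 : W (∅ : Finset α) = 0 := wd_empty _
  rcases hor with hor | hor
  · obtain ⟨P, Del, h1, h2, h3, h4, h5, -, h7⟩ := peelD hMF hND hFDup hK hX' hXa' hXc' hFD h N ∅
      hFDN (Finset.Subset.refl _) hNup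
      (fun C hC hCh => hDh C (fun v hv => hND (Finset.mem_sdiff.1 (hC hv)).1) hCh)
      (by
        intro v hv w hw _ _ hvw
        rcases hK v hv w hw hvw with h | h | h
        · exact Or.inl h.1
        · exact Or.inl (hFDN h)
        · exact Or.inr (Or.inl h))
    refine ⟨P, Q1 N' FU X', Del, h1, h2, h3, Finset.subset_union_left, ?_, ?_, h4, hor,
      by omega, ?_⟩
    · exact Finset.union_subset hFUN (sel_subset _ _)
    · intro v hv w hw hwv
      rw [Q1, Finset.mem_union] at hv ⊢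
      rcases hv with hv | hv
      · exact Or.inl (hFUdn v hv w hw hwv)
      · rw [mem_sel] at hv
        exact Or.inr (mem_sel.2 ⟨hNdn v hv.1 w hw hwv, fun x hx hxw =>
          hv.2 x hx (hxw.trans hwv.le)⟩)
    · intro v hv w hw hvD hwD hvw
      rcases h7 v hv w hw hvD hwD hvw with h | h | h
      · exact Or.inl h
      · exact Or.inr (Finset.mem_union_left _ h)
      · exact Or.inr (Finset.mem_union_right _ (mem_sel.2 h))
  · obtain ⟨Q, Del, h1, h2, h3, h4, h5, -, h7⟩ := peelU hMF hNU hFUdn hK hX hXa hXc hFU h N' ∅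
      hFUN (Finset.Subset.refl _) hNdn
      (fun C hC hCh => hUh C (fun v hv => hNU (Finset.mem_sdiff.1 (hC hv)).1) hCh)
      (by
        intro v hv w hw _ _ hvw
        rcases hK v hv w hw hvw with h | h | h
        · exact Or.inl h.2
        · exact Or.inr (Or.inl h)
        · exact Or.inl (hFUN h))
    refine ⟨P2 N FD X, Q, Del, Finset.subset_union_left, ?_, ?_, h1, h2, h3, hor, h4,
      by omega, ?_⟩
    · exact Finset.union_subset hFDN (sel_subset _ _)
    · intro v hv w hw hwv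
      rw [P2, Finset.mem_union] at hv ⊢
      rcases hv with hv | hv
      · exact Or.inl (hFDup v hv w hw hwv)
      · rw [mem_sel] at hv
        exact Or.inr (mem_sel.2 ⟨hNup v hv.1 w hw hwv, fun x hx hxw =>
          hv.2 x hx (hwv.le.trans hxw)⟩)
    · intro v hv w hw hvD hwD hvw
      rcases h7 v hv w hw hvD hwD hvw with h | h | h
      · exact Or.inr h
      · exact Or.inl (Finset.mem_union_left _ h)
      · exact Or.inl (Finset.mem_union_right _ (mem_sel.2 h))

end Pool.MP_54f573_pr.RGO
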