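import Pool.Agent.Work.MP_54f573_pr.RandomProb

set_option autoImplicit false

open Finset

namespace Pool.MP_54f573_pr.RGO

section defs

/-- the potential edges -/
def SS (n : ℕ) : Finset (Fin n × Fin n) := univ.filter fun e => e.1 < e.2

/-- potential edges from `x` to `(x, y]` -/
def UpF {n : ℕ} (x y : Fin n) : Finset (Fin n × Fin n) :=
  univ.filter fun e => e.1 < e.2 ∧ e.1 = x ∧ e.2 ≤ y

/-- potential edges from `[x, y)` to `y` -/
def DnF {n : ℕ} (x y : Fin n) : Finset (Fin n × Fin n) :=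
  univ.filter fun e => e.1 < e.2 ∧ e.2 = y ∧ x ≤ e.1

variable {n : ℕ}

lemma mem_SS (e : Fin n × Fin n) : e ∈ SS n ↔ e.1 < e.2 := by simp [SS]

lemma mem_UpF (x y : Fin n) (e : Fin n × Fin n) : e ∈ UpF x y ↔ e.1 < e.2 ∧ e.1 = x ∧ e.2 ≤ y := by
  simp [UpF]

lemma mem_DnF (x y : Fin n) (e : Fin n × Fin n) : e ∈ DnF x y ↔ e.1 < e.2 ∧ e.2 = y ∧ x ≤ e.1 := by
  simp [DnF]

lemma UpF_sub (x y : Fin n) : UpF x y ⊆ SS n := fun e he =>
  (mem_SS e).2 ((mem_UpF x y e).1 he).1

lemma DnF_sub (x y : Fin n) : DnF x y ⊆ SS n := fun e he =>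
  (mem_SS e).2 ((mem_DnF x y e).1 he).1

lemma card_UpF (x y : Fin n) : (UpF x y).card = y.val - x.val := by
  have h : UpF x y = (Finset.Ioc x y).image (fun u => (x, u)) := by
    ext ⟨a, b⟩
    rw [mem_UpF, mem_image]
    constructor
    · rintro ⟨h1, h2, h3⟩
      dsimp only at h1 h2 h3
      subst h2
      exact ⟨b, Finset.mem_Ioc.2 ⟨h1, h3⟩, rfl⟩
    · rintro ⟨u, hu, hu'⟩
      rw [Finset.mem_Ioc] at hu
      rw [Prod.mk.injEq] at hu'
      obtain ⟨rfl, rfl⟩ := hu'
      exact ⟨hu.1, rfl, hu.2⟩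
  rw [h, card_image_of_injective _ (fun a b hab => (Prod.mk.inj hab).2), Fin.card_Ioc]

lemma card_DnF (x y : Fin n) : (DnF x y).card = y.val - x.val := by
  have h : DnF x y = (Finset.Ico x y).image (fun u => (u, y)) := by
    ext ⟨a, b⟩
    rw [mem_DnF, mem_image]
    constructor
    · rintro ⟨h1, h2, h3⟩
      dsimp only at h1 h2 h3
      subst h2
      exact ⟨a, Finset.mem_Ico.2 ⟨h3, h1⟩, rfl⟩
    · rintro ⟨u, hu, hu'⟩
      rw [Finset.mem_Ico] at hu
      rw [Prod.mk.injEq] at hu'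
      obtain ⟨rfl, rfl⟩ := hu'
      exact ⟨hu.2, rfl, hu.1⟩
  rw [h, card_image_of_injective _ (fun a b hab => (Prod.mk.inj hab).1), Fin.card_Ico]

/-- local post of radius `m` -/
def LocalPost (m : ℕ) (v : Fin n) (E : Finset (Fin n × Fin n)) : Prop :=
  (∀ x : Fin n, x < v → v.val ≤ x.val + m → E ∩ UpF x v ≠ ∅) ∧
  (∀ y : Fin n, v < y → y.val ≤ v.val + m → E ∩ DnF v y ≠ ∅)

/-- the box of radius `m` around `v` -/
def Box (m : ℕ) (v : Fin n) : Finset (Fin n × Fin n) :=
  univ.filter fun e => e.1 < e.2 ∧ v.val ≤ e.1.val + m ∧ e.2.val ≤ v.val + m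

lemma mem_Box (m : ℕ) (v : Fin n) (e : Fin n × Fin n) :
    e ∈ Box m v ↔ e.1 < e.2 ∧ v.val ≤ e.1.val + m ∧ e.2.val ≤ v.val + m := by simp [Box]

lemma Box_sub (m : ℕ) (v : Fin n) : Box m v ⊆ SS n := fun e he =>
  (mem_SS e).2 ((mem_Box m v e).1 he).1

lemma localPost_inter (m : ℕ) (v : Fin n) (E : Finset (Fin n × Fin n)) :
    LocalPost m v (E ∩ Box m v) ↔ LocalPost m v E := by
  have h1 : ∀ x : Fin n, x < v → v.val ≤ x.val + m → E ∩ Box m v ∩ UpF x v = E ∩ UpF x v := by
    intro x hx hxm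
    have h0 : UpF x v ⊆ Box m v := by
      intro e he
      rw [mem_UpF] at he
      rw [mem_Box]
      obtain ⟨h1, h2, h3⟩ := he
      have h4 : e.2.val ≤ v.val := h3
      refine ⟨h1, ?_, ?_⟩
      · rw [h2]; exact hxm
      · omega
    rw [inter_assoc, inter_eq_right.2 h0]
  have h2 : ∀ y : Fin n, v < y → y.val ≤ v.val + m → E ∩ Box m v ∩ DnF v y = E ∩ DnF v y := by
    intro y hy hym
    have h0 : DnF v y ⊆ Box m v := by
      intro e he
      rw [mem_DnF] at he
      rw [mem_Box]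
      obtain ⟨h1, h2, h3⟩ := he
      have h4 : v.val ≤ e.1.val := h3
      refine ⟨h1, ?_, ?_⟩
      · omega
      · rw [h2]; exact hym
    rw [inter_assoc, inter_eq_right.2 h0]
  unfold LocalPost
  constructor
  · rintro ⟨h3, h4⟩
    exact ⟨fun x hx hxm => by rw [← h1 x hx hxm]; exact h3 x hx hxm,
      fun y hy hym => by rw [← h2 y hy hym]; exact h4 y hy hym⟩
  · rintro ⟨h3, h4⟩
    exact ⟨fun x hx hxm => by rw [h1 x hx hxm]; exact h3 x hx hxm,
      fun y hy hym => by rw [h2 y hy hym]; exact h4 y hy hym⟩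

end defs

section probs

variable {n : ℕ}

/-- distance -/
def dst (v x : Fin n) : ℕ := (v.val - x.val) + (x.val - v.val)

theorem pr_localPost {p c : ℝ} (h0 : 0 < p) (h1 : p < 1)
    (hc0 : 0 < c) (hc : ∀ J : Finset ℕ, (∀ t ∈ J, 1 ≤ t) → c ≤ ∏ t ∈ J, (1 - (1 - p) ^ t))
    (m : ℕ) (v : Fin n) : c * c ≤ Pr p (SS n) (LocalPost m v) := by
  classical
  let J : Finset (Fin n) := univ.filter fun x => x ≠ v ∧ v.val ≤ x.val + m ∧ x.val ≤ v.val + m
  let T : Fin n → Finset (Fin n × Fin n) := fun x => if x < v then UpF x v else DnF v x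
  have hfam := Pr_family p J T (fun _ E => E ≠ ∅) (SS n)
    (fun x _ => by
      simp only [T]
      split_ifs
      · exact UpF_sub x v
      · exact DnF_sub v x)
    (fun x hx y hy hxy => by
      have hx' := (mem_filter.1 hx).2
      have hy' := (mem_filter.1 hy).2
      rw [Finset.disjoint_left]
      intro e he he'
      simp only [T] at he he'
      split_ifs at he he' with h2 h3 h3
      · rw [mem_UpF] at he he'
        exact hxy (he.2.1.symm.trans he'.2.1)
      · rw [mem_UpF] at he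
        rw [mem_DnF] at he'
        have := he'.2.2
        rw [he.2.1] at this
        exact absurd h2 (not_lt.2 this)
      · rw [mem_UpF] at he'
        rw [mem_DnF] at he
        have := he.2.2
        rw [he'.2.1] at this
        exact absurd h3 (not_lt.2 this)
      · rw [mem_DnF] at he he'
        exact hxy (he.2.1.symm.trans he'.2.1))
  have hle : Pr p (SS n) (fun E => ∀ x ∈ J, E ∩ T x ≠ ∅) ≤ Pr p (SS n) (LocalPost m v) := by
    refine Pr_mono h0.le h1.le fun E _ hE => ⟨fun x hx hxm => ?_, fun y hy hym => ?_⟩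
    · have := hE x (mem_filter.2 ⟨mem_univ _, hx.ne, hxm, by have : x.val < v.val := hx; omega⟩)
      simpa only [T, if_pos hx] using this
    · have := hE y (mem_filter.2 ⟨mem_univ _, hy.ne', by have : v.val < y.val := hy; omega, hym⟩)
      simpa only [T, if_neg (not_lt.2 hy.le)] using this
  refine le_trans ?_ hle
  rw [hfam]
  -- split the product
  rw [← Finset.prod_filter_mul_prod_filter_not J (fun x => x < v)]
  have hA : c ≤ ∏ x ∈ J.filter (fun x => x < v), Pr p (T x) (fun E => E ≠ ∅) := by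
    have e : ∏ x ∈ J.filter (fun x => x < v), Pr p (T x) (fun E => E ≠ ∅)
        = ∏ t ∈ (J.filter (fun x => x < v)).image (fun x => v.val - x.val),
          (1 - (1 - p) ^ t) := by
      rw [Finset.prod_image]
      · refine Finset.prod_congr rfl fun x hx => ?_
        rw [mem_filter] at hx
        simp only [T, if_pos hx.2]
        rw [Pr_nonempty, card_UpF]
      · intro a ha b hb hab
        have h3 : a.val < v.val := (mem_filter.1 (Finset.mem_coe.1 ha)).2
        have h4 : b.val < v.val := (mem_filter.1 (Finset.mem_coe.1 hb)).2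
        simp only at hab
        apply Fin.ext
        omega
    rw [e]
    apply hc
    intro t ht
    rw [mem_image] at ht
    obtain ⟨x, hx, rfl⟩ := ht
    have h3 : x.val < v.val := (mem_filter.1 hx).2
    omega
  have hB : c ≤ ∏ x ∈ J.filter (fun x => ¬ x < v), Pr p (T x) (fun E => E ≠ ∅) := by
    have e : ∏ x ∈ J.filter (fun x => ¬ x < v), Pr p (T x) (fun E => E ≠ ∅)
        = ∏ t ∈ (J.filter (fun x => ¬ x < v)).image (fun x => x.val - v.val),
          (1 - (1 - p) ^ t) := by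
      rw [Finset.prod_image]
      · refine Finset.prod_congr rfl fun x hx => ?_
        rw [mem_filter] at hx
        simp only [T, if_neg hx.2]
        rw [Pr_nonempty, card_DnF]
      · intro a ha b hb hab
        have h3 : v.val ≤ a.val := not_lt.1 (mem_filter.1 (Finset.mem_coe.1 ha)).2
        have h4 : v.val ≤ b.val := not_lt.1 (mem_filter.1 (Finset.mem_coe.1 hb)).2
        simp only at hab
        apply Fin.ext
        omega
    rw [e]
    apply hc
    intro t ht
    rw [mem_image] at ht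
    obtain ⟨x, hx, rfl⟩ := ht
    rw [mem_filter] at hx
    have h3 : v.val ≤ x.val := not_lt.1 hx.2
    have h4 : x ≠ v := (mem_filter.1 hx.1).2.1
    have h5 : x.val ≠ v.val := fun h => h4 (Fin.ext h)
    omega
  exact mul_le_mul hA hB hc0.le (hc0.le.trans hA)

theorem pr_noPost {p c : ℝ} (h0 : 0 < p) (h1 : p < 1)
    (hc0 : 0 < c) (hc : ∀ J : Finset ℕ, (∀ t ∈ J, 1 ≤ t) → c ≤ ∏ t ∈ J, (1 - (1 - p) ^ t))
    (m : ℕ) (C : Finset (Fin n))
    (hC : ∀ v ∈ C, ∀ w ∈ C, v < w → v.val + 2 * m < w.val) :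
    Pr p (SS n) (fun E => ∀ v ∈ C, ¬ LocalPost m v E) ≤ (1 - c * c) ^ C.card := by
  classical
  have h2 : Pr p (SS n) (fun E => ∀ v ∈ C, ¬ LocalPost m v E)
      = Pr p (SS n) (fun E => ∀ v ∈ C, ¬ LocalPost m v (E ∩ Box m v)) :=
    Pr_congr fun E _ => by simp only [localPost_inter]
  rw [h2, Pr_family p C (Box m) (fun v E => ¬ LocalPost m v E) (SS n) (fun v _ => Box_sub m v)]
  · rw [← Finset.prod_const]
    refine Finset.prod_le_prod (fun v _ => Pr_nonneg h0.le h1.le _ _) fun v _ => ?_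
    have h3 := Pr_compl p (Box m v) (LocalPost m v)
    have h4 : Pr p (Box m v) (LocalPost m v) = Pr p (SS n) (LocalPost m v) := by
      rw [← Pr_restrict p (Box_sub m v) (LocalPost m v)]
      exact Pr_congr fun E _ => localPost_inter m v E
    have h5 := pr_localPost h0 h1 hc0 hc m v
    rw [h4] at h3
    linarith
  · intro v hv w hw hvw
    rw [Finset.disjoint_left]
    intro e he he'
    rw [mem_Box] at he he'
    have hlt : e.1.val < e.2.val := he.1
    rcases lt_or_gt_of_ne hvw with h | h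
    · have := hC v hv w hw h
      omega
    · have := hC w hw v hv h
      omega

/-- every vertex is joined to one of the next `m` and one of the previous `m` vertices -/
def Step (m : ℕ) (E : Finset (Fin n × Fin n)) : Prop :=
  ∀ x y : Fin n, y.val = x.val + m → E ∩ UpF x y ≠ ∅ ∧ E ∩ DnF x y ≠ ∅

theorem pr_step {p : ℝ} (h0 : 0 < p) (h1 : p < 1) (m : ℕ) :
    Pr p (SS n) (fun E => ¬ Step m E) ≤ n * (2 * (1 - p) ^ m) := by
  classical
  have h2 : Pr p (SS n) (fun E => ¬ Step m E) ≤ Pr p (SS n) (fun E => ∃ x ∈ (univ : Finset (Fin n)),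
      ∃ y : Fin n, y.val = x.val + m ∧ (E ∩ UpF x y = ∅ ∨ E ∩ DnF x y = ∅)) := by
    refine Pr_mono h0.le h1.le fun E _ hE => ?_
    unfold Step at hE
    push Not at hE
    obtain ⟨x, y, hxy, h⟩ := hE
    refine ⟨x, mem_univ x, y, hxy, ?_⟩
    by_cases h3 : E ∩ UpF x y = ∅
    · exact Or.inl h3
    · exact Or.inr (h (Finset.nonempty_iff_ne_empty.2 h3))
  refine h2.trans ((Pr_exists_le h0.le h1.le _ _ _).trans ?_)
  have h3 : ∀ x ∈ (univ : Finset (Fin n)), Pr p (SS n) (fun E => ∃ y : Fin n, y.val = x.val + m ∧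
      (E ∩ UpF x y = ∅ ∨ E ∩ DnF x y = ∅)) ≤ 2 * (1 - p) ^ m := by
    intro x _
    have hq : 0 ≤ (1 - p) ^ m := pow_nonneg (by linarith) m
    by_cases hx : x.val + m < n
    · have h4 : Pr p (SS n) (fun E => ∃ y : Fin n, y.val = x.val + m ∧
          (E ∩ UpF x y = ∅ ∨ E ∩ DnF x y = ∅)) ≤ Pr p (SS n) (fun E =>
          E ∩ UpF x ⟨x.val + m, hx⟩ = ∅ ∨ E ∩ DnF x ⟨x.val + m, hx⟩ = ∅) := by
        refine Pr_mono h0.le h1.le ?_
        rintro E - ⟨y, hy, h⟩
        have : y = ⟨x.val + m, hx⟩ := Fin.ext hy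
        rwa [this] at h
      refine h4.trans ((Pr_or_le h0.le h1.le _ _ _).trans ?_)
      rw [Pr_avoid p (UpF_sub _ _), Pr_avoid p (DnF_sub _ _), card_UpF, card_DnF]
      simp only [Nat.add_sub_cancel_left]
      linarith
    · have h4 : Pr p (SS n) (fun E => ∃ y : Fin n, y.val = x.val + m ∧
          (E ∩ UpF x y = ∅ ∨ E ∩ DnF x y = ∅)) = 0 := by
        unfold Pr
        refine Finset.sum_eq_zero fun E _ => ?_
        rw [ind_neg, mul_zero]
        rintro ⟨y, hy, -⟩
        exact hx (hy ▸ y.2)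
      rw [h4]
      positivity
  refine (Finset.sum_le_sum h3).trans ?_
  simp

end probs

section posts

variable {n : ℕ}

/-- a post: comparable to everything -/
def IsPost (E : Finset (Fin n × Fin n)) (v : Fin n) : Prop :=
  (∀ x, x < v → ∃ u, x < u ∧ u ≤ v ∧ (x, u) ∈ E) ∧ (∀ y, v < y → ∃ u, v ≤ u ∧ u < y ∧ (u, y) ∈ E)

lemma isPost_of {m : ℕ} {E : Finset (Fin n × Fin n)} (hS : Step m E) {v : Fin n}
    (hv : LocalPost m v E) : IsPost E v := by
  constructor
  · intro x hx
    by_cases hxm : v.val ≤ x.val + m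
    · obtain ⟨e, he⟩ := Finset.nonempty_iff_ne_empty.2 (hv.1 x hx hxm)
      rw [mem_inter, mem_UpF] at he
      obtain ⟨heE, h1, h2, h3⟩ := he
      refine ⟨e.2, h2 ▸ h1, h3, ?_⟩
      rw [← h2]; exact heE
    · have hlt : x.val + m < n := by have := v.2; omega
      obtain ⟨e, he⟩ := Finset.nonempty_iff_ne_empty.2 (hS x ⟨x.val + m, hlt⟩ rfl).1
      rw [mem_inter, mem_UpF] at he
      obtain ⟨heE, h1, h2, h3⟩ := he
      refine ⟨e.2, h2 ▸ h1, ?_, ?_⟩
      · have h4 : e.2.val ≤ x.val + m := h3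
        have : e.2.val ≤ v.val := by omega
        exact this
      · rw [← h2]; exact heE
  · intro y hy
    by_cases hym : y.val ≤ v.val + m
    · obtain ⟨e, he⟩ := Finset.nonempty_iff_ne_empty.2 (hv.2 y hy hym)
      rw [mem_inter, mem_DnF] at he
      obtain ⟨heE, h1, h2, h3⟩ := he
      refine ⟨e.1, h3, h2 ▸ h1, ?_⟩
      rw [← h2]; exact heE
    · have hlt : y.val - m < n := by have := y.2; omega
      obtain ⟨e, he⟩ := Finset.nonempty_iff_ne_empty.2 (hS ⟨y.val - m, hlt⟩ y (by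
        simp only; omega)).2
      rw [mem_inter, mem_DnF] at he
      obtain ⟨heE, h1, h2, h3⟩ := he
      refine ⟨e.1, ?_, h2 ▸ h1, ?_⟩
      · have h4 : y.val - m ≤ e.1.val := h3
        have : v.val ≤ e.1.val := by omega
        exact this
      · rw [← h2]; exact heE

/-- reachability -/
def Reach (E : Finset (Fin n × Fin n)) : Fin n → Fin n → Prop :=
  Relation.ReflTransGen fun a b => (a, b) ∈ E

lemma IsPost.reach_up {E : Finset (Fin n × Fin n)} {v : Fin n} (hv : IsPost E v) :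
    ∀ x : Fin n, x ≤ v → Reach E x v := by
  suffices H : ∀ (d : ℕ) (x : Fin n), x ≤ v → v.val - x.val = d → Reach E x v from
    fun x hx => H _ x hx rfl
  intro d
  induction d using Nat.strong_induction_on with
  | _ d ih =>
  intro x hx hd
  rcases hx.eq_or_lt with rfl | hlt
  · exact Relation.ReflTransGen.refl
  · obtain ⟨u, h1, h2, h3⟩ := hv.1 x hlt
    have h4 : x.val < u.val := h1
    have h5 : u.val ≤ v.val := h2
    exact Relation.ReflTransGen.head h3 (ih (v.val - u.val) (by omega) u h2 rfl)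

lemma IsPost.reach_dn {E : Finset (Fin n × Fin n)} {v : Fin n} (hv : IsPost E v) :
    ∀ y : Fin n, v ≤ y → Reach E v y := by
  suffices H : ∀ (d : ℕ) (y : Fin n), v ≤ y → y.val - v.val = d → Reach E v y from
    fun y hy => H _ y hy rfl
  intro d
  induction d using Nat.strong_induction_on with
  | _ d ih =>
  intro y hy hd
  rcases hy.eq_or_lt with rfl | hlt
  · exact Relation.ReflTransGen.refl
  · obtain ⟨u, h1, h2, h3⟩ := hv.2 y hlt
    have h4 : u.val < y.val := h2
    have h5 : v.val ≤ u.val := h1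
    exact Relation.ReflTransGen.tail (ih (u.val - v.val) (by omega) u h1 rfl) h3

lemma reach_le {E : Finset (Fin n × Fin n)} (hE : E ⊆ SS n) {x y : Fin n} (h : Reach E x y) :
    x ≤ y := by
  induction h with
  | refl => exact le_rfl
  | tail _ h ih => exact ih.trans ((mem_SS _).1 (hE h)).le

end posts

end Pool.MP_54f573_pr.RGO
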