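import Mathlib

set_option autoImplicit false

open Finset

namespace Pool.MP_54f573_pr.RGO

section ind

/-- indicator of a proposition -/
noncomputable def ind (P : Prop) : ℝ := by
  classical
  exact if P then 1 else 0

lemma ind_pos {P : Prop} (h : P) : ind P = 1 := by
  unfold ind; exact if_pos h

lemma ind_neg {P : Prop} (h : ¬ P) : ind P = 0 := by
  unfold ind; exact if_neg h

lemma ind_nonneg (P : Prop) : 0 ≤ ind P := by
  by_cases h : P
  · rw [ind_pos h]; norm_num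
  · rw [ind_neg h]

lemma ind_mono {P Q : Prop} (h : P → Q) : ind P ≤ ind Q := by
  by_cases hP : P
  · rw [ind_pos hP, ind_pos (h hP)]
  · rw [ind_neg hP]; exact ind_nonneg Q

lemma ind_and (P Q : Prop) : ind (P ∧ Q) = ind P * ind Q := by
  by_cases hP : P
  · by_cases hQ : Q
    · rw [ind_pos ⟨hP, hQ⟩, ind_pos hP, ind_pos hQ, mul_one]
    · rw [ind_neg (fun h => hQ h.2), ind_neg hQ, mul_zero]
  · rw [ind_neg (fun h => hP h.1), ind_neg hP, zero_mul]

lemma ind_not (P : Prop) : ind P + ind (¬ P) = 1 := by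
  by_cases hP : P
  · rw [ind_pos hP, ind_neg (not_not.2 hP), add_zero]
  · rw [ind_neg hP, ind_pos hP, zero_add]

lemma ind_or_le (P Q : Prop) : ind (P ∨ Q) ≤ ind P + ind Q := by
  by_cases hP : P
  · rw [ind_pos (Or.inl hP), ind_pos hP]
    linarith [ind_nonneg Q]
  · by_cases hQ : Q
    · rw [ind_pos (Or.inr hQ), ind_pos hQ]
      linarith [ind_nonneg P]
    · rw [ind_neg (by tauto), ind_neg hP, ind_neg hQ, add_zero]

end ind

section prob

variable {ι : Type}

/-- weight of the random subset `E` of `S` -/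
noncomputable def wt (p : ℝ) (S E : Finset ι) : ℝ := p ^ E.card * (1 - p) ^ (S.card - E.card)

/-- probability of the event `A` for the random subset of `S` -/
noncomputable def Pr (p : ℝ) (S : Finset ι) (A : Finset ι → Prop) : ℝ :=
  ∑ E ∈ S.powerset, wt p S E * ind (A E)

lemma wt_nonneg {p : ℝ} (h0 : 0 ≤ p) (h1 : p ≤ 1) (S E : Finset ι) : 0 ≤ wt p S E := by
  have : 0 ≤ 1 - p := by linarith
  unfold wt
  positivity

lemma sum_wt (p : ℝ) (S : Finset ι) : ∑ E ∈ S.powerset, wt p S E = 1 := by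
  unfold wt
  rw [Finset.sum_pow_mul_eq_add_pow]
  simp

lemma Pr_true (p : ℝ) (S : Finset ι) : Pr p S (fun _ => True) = 1 := by
  unfold Pr
  simp only [ind_pos trivial, mul_one, sum_wt]

lemma Pr_nonneg {p : ℝ} (h0 : 0 ≤ p) (h1 : p ≤ 1) (S : Finset ι) (A : Finset ι → Prop) :
    0 ≤ Pr p S A := Finset.sum_nonneg fun _ _ => mul_nonneg (wt_nonneg h0 h1 _ _) (ind_nonneg _)

lemma Pr_mono {p : ℝ} (h0 : 0 ≤ p) (h1 : p ≤ 1) {S : Finset ι} {A B : Finset ι → Prop}
    (h : ∀ E ⊆ S, A E → B E) : Pr p S A ≤ Pr p S B := by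
  unfold Pr
  refine Finset.sum_le_sum fun E hE => ?_
  exact mul_le_mul_of_nonneg_left (ind_mono (h E (mem_powerset.1 hE))) (wt_nonneg h0 h1 _ _)

lemma Pr_congr {p : ℝ} {S : Finset ι} {A B : Finset ι → Prop}
    (h : ∀ E ⊆ S, (A E ↔ B E)) : Pr p S A = Pr p S B := by
  unfold Pr
  refine Finset.sum_congr rfl fun E hE => ?_
  rw [propext (h E (mem_powerset.1 hE))]

lemma Pr_compl (p : ℝ) (S : Finset ι) (A : Finset ι → Prop) :
    Pr p S A + Pr p S (fun E => ¬ A E) = 1 := by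
  rw [← sum_wt p S]
  unfold Pr
  rw [← Finset.sum_add_distrib]
  refine Finset.sum_congr rfl fun E _ => ?_
  rw [← mul_add, ind_not, mul_one]

lemma Pr_le_one {p : ℝ} (h0 : 0 ≤ p) (h1 : p ≤ 1) (S : Finset ι) (A : Finset ι → Prop) :
    Pr p S A ≤ 1 := by
  rw [← Pr_true p S]
  exact Pr_mono h0 h1 fun _ _ _ => trivial

lemma Pr_or_le {p : ℝ} (h0 : 0 ≤ p) (h1 : p ≤ 1) (S : Finset ι) (A B : Finset ι → Prop) :
    Pr p S (fun E => A E ∨ B E) ≤ Pr p S A + Pr p S B := by
  unfold Pr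
  rw [← Finset.sum_add_distrib]
  refine Finset.sum_le_sum fun E _ => ?_
  rw [← mul_add]
  exact mul_le_mul_of_nonneg_left (ind_or_le _ _) (wt_nonneg h0 h1 _ _)

lemma Pr_exists_le {p : ℝ} (h0 : 0 ≤ p) (h1 : p ≤ 1) {κ : Type} (S : Finset ι) (J : Finset κ)
    (A : κ → Finset ι → Prop) :
    Pr p S (fun E => ∃ j ∈ J, A j E) ≤ ∑ j ∈ J, Pr p S (A j) := by
  classical
  induction J using Finset.induction_on with
  | empty =>
    rw [Finset.sum_empty]
    unfold Pr
    refine (Finset.sum_eq_zero fun E _ => ?_).le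
    rw [ind_neg (by simp), mul_zero]
  | insert j J hj ih =>
    rw [Finset.sum_insert hj]
    refine le_trans ?_ (add_le_add le_rfl ih)
    refine le_trans (Pr_mono h0 h1 ?_) (Pr_or_le h0 h1 S (A j) (fun E => ∃ j ∈ J, A j E))
    rintro E - ⟨i, hi, hA⟩
    rcases Finset.mem_insert.1 hi with rfl | hi
    · exact Or.inl hA
    · exact Or.inr ⟨i, hi, hA⟩

variable [DecidableEq ι]

/-- product rule -/
lemma Pr_mul (p : ℝ) {S₁ S₂ : Finset ι} (hd : Disjoint S₁ S₂) (A B : Finset ι → Prop) :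
    Pr p (S₁ ∪ S₂) (fun E => A (E ∩ S₁) ∧ B (E ∩ S₂)) = Pr p S₁ A * Pr p S₂ B := by
  unfold Pr
  rw [Finset.sum_mul_sum, ← Finset.sum_product']
  refine Finset.sum_bij' (fun E _ => (E ∩ S₁, E ∩ S₂)) (fun z _ => z.1 ∪ z.2) ?_ ?_ ?_ ?_ ?_
  · intro E hE
    rw [mem_product, mem_powerset, mem_powerset]
    exact ⟨inter_subset_right, inter_subset_right⟩
  · rintro ⟨E₁, E₂⟩ hz
    rw [mem_product, mem_powerset, mem_powerset] at hz
    rw [mem_powerset]
    exact union_subset_union hz.1 hz.2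
  · intro E hE
    rw [mem_powerset] at hE
    simp only
    rw [← inter_union_distrib_left, inter_eq_left.2 hE]
  · rintro ⟨E₁, E₂⟩ hz
    rw [mem_product, mem_powerset, mem_powerset] at hz
    have e1 : (E₁ ∪ E₂) ∩ S₁ = E₁ := by
      rw [union_inter_distrib_right, inter_eq_left.2 hz.1,
        disjoint_iff_inter_eq_empty.1 (hd.symm.mono_left hz.2), union_empty]
    have e2 : (E₁ ∪ E₂) ∩ S₂ = E₂ := by
      rw [union_inter_distrib_right, inter_eq_left.2 hz.2,
        disjoint_iff_inter_eq_empty.1 (hd.mono_left hz.1), empty_union]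
    simp only [e1, e2]
  · intro E hE
    rw [mem_powerset] at hE
    unfold wt
    rw [ind_and]
    have c1 : E.card = (E ∩ S₁).card + (E ∩ S₂).card := by
      rw [← card_union_of_disjoint (hd.mono inter_subset_right inter_subset_right),
        ← inter_union_distrib_left, inter_eq_left.2 hE]
    have c2 : (S₁ ∪ S₂).card = S₁.card + S₂.card := card_union_of_disjoint hd
    have c3 : (E ∩ S₁).card ≤ S₁.card := card_le_card inter_subset_right
    have c4 : (E ∩ S₂).card ≤ S₂.card := card_le_card inter_subset_right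
    have c5 : (S₁ ∪ S₂).card - E.card = (S₁.card - (E ∩ S₁).card) + (S₂.card - (E ∩ S₂).card) := by
      omega
    rw [c5, c1, pow_add, pow_add]
    ring

lemma Pr_restrict (p : ℝ) {S S₁ : Finset ι} (h : S₁ ⊆ S) (A : Finset ι → Prop) :
    Pr p S (fun E => A (E ∩ S₁)) = Pr p S₁ A := by
  have h1 := Pr_mul p (disjoint_sdiff (s := S₁) (t := S)) A (fun _ => True)
  rw [Pr_true, mul_one, union_sdiff_of_subset h] at h1
  rw [← h1]
  exact Pr_congr fun E _ => by simp

/-- independence of a family of events with disjoint supports -/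
lemma Pr_family (p : ℝ) {κ : Type} (J : Finset κ) (T : κ → Finset ι)
    (A : κ → Finset ι → Prop) : ∀ S : Finset ι, (∀ j ∈ J, T j ⊆ S) →
      (∀ i ∈ J, ∀ j ∈ J, i ≠ j → Disjoint (T i) (T j)) →
      Pr p S (fun E => ∀ j ∈ J, A j (E ∩ T j)) = ∏ j ∈ J, Pr p (T j) (A j) := by
  classical
  induction J using Finset.induction_on with
  | empty =>
    intro S _ _
    rw [Finset.prod_empty, ← Pr_true p S]
    exact Pr_congr fun E _ => by simp
  | insert j J hj ih =>
    intro S hS hd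
    rw [Finset.prod_insert hj]
    have hjS : T j ⊆ S := hS j (mem_insert_self j J)
    have h1 := Pr_mul p (disjoint_sdiff (s := T j) (t := S)) (A j)
      (fun E => ∀ i ∈ J, A i (E ∩ T i))
    rw [union_sdiff_of_subset hjS] at h1
    have h2 : ∀ i ∈ J, T i ⊆ S \ T j := by
      intro i hi
      rw [subset_sdiff]
      refine ⟨hS i (mem_insert_of_mem hi), ?_⟩
      exact hd i (mem_insert_of_mem hi) j (mem_insert_self j J) (fun h => hj (h ▸ hi))
    rw [← ih (S \ T j) h2 (fun a ha b hb hab =>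
      hd a (mem_insert_of_mem ha) b (mem_insert_of_mem hb) hab), ← h1]
    refine Pr_congr fun E hE => ?_
    rw [forall_mem_insert]
    refine and_congr_right fun _ => ?_
    refine forall₂_congr fun i hi => ?_
    have h3 : E ∩ (S \ T j) ∩ T i = E ∩ T i := by
      rw [inter_assoc, inter_eq_right.2 (h2 i hi)]
    rw [h3]

omit [DecidableEq ι] in
lemma Pr_empty (p : ℝ) (F : Finset ι) : Pr p F (fun E => E = ∅) = (1 - p) ^ F.card := by
  unfold Pr
  rw [Finset.sum_eq_single (∅ : Finset ι)]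
  · rw [ind_pos rfl]
    simp [wt]
  · intro E _ hE
    rw [ind_neg hE, mul_zero]
  · intro h
    exact absurd (empty_mem_powerset F) h

omit [DecidableEq ι] in
lemma Pr_nonempty (p : ℝ) (F : Finset ι) : Pr p F (fun E => E ≠ ∅) = 1 - (1 - p) ^ F.card := by
  have := Pr_compl p F (fun E => E = ∅)
  rw [Pr_empty] at this
  linarith

/-- probability that no edge of `F` is present -/
lemma Pr_avoid (p : ℝ) {S F : Finset ι} (h : F ⊆ S) :
    Pr p S (fun E => E ∩ F = ∅) = (1 - p) ^ F.card := by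
  rw [Pr_restrict p h (fun E => E = ∅), Pr_empty]

end prob

section product

/-- `1 - ∑ a ≤ ∏ (1 - a)` -/
lemma one_sub_sum_le_prod {κ : Type} (J : Finset κ) (a : κ → ℝ) (h0 : ∀ j ∈ J, 0 ≤ a j)
    (h1 : ∀ j ∈ J, a j ≤ 1) : 1 - ∑ j ∈ J, a j ≤ ∏ j ∈ J, (1 - a j) := by
  classical
  induction J using Finset.induction_on with
  | empty => simp
  | insert j J hj ih =>
    rw [sum_insert hj, prod_insert hj]
    have ih' := ih (fun i hi => h0 i (mem_insert_of_mem hi)) (fun i hi => h1 i (mem_insert_of_mem hi))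
    have h2 := h0 j (mem_insert_self j J)
    have h3 := h1 j (mem_insert_self j J)
    have h4 : 0 ≤ ∑ i ∈ J, a i := sum_nonneg fun i hi => h0 i (mem_insert_of_mem hi)
    have h5 : (1 - a j) * (1 - ∑ i ∈ J, a i) ≤ (1 - a j) * ∏ i ∈ J, (1 - a i) :=
      mul_le_mul_of_nonneg_left ih' (by linarith)
    nlinarith

/-- a product of factors in `[0,1]` over a larger set is smaller -/
lemma prod_le_of_subset {κ : Type} {J K : Finset κ} (h : J ⊆ K) (a : κ → ℝ)
    (h0 : ∀ j ∈ K, 0 ≤ a j) (h1 : ∀ j ∈ K, a j ≤ 1) : ∏ j ∈ K, a j ≤ ∏ j ∈ J, a j := by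
  classical
  rw [← Finset.prod_sdiff h]
  have h2 : ∏ j ∈ K \ J, a j ≤ 1 := Finset.prod_le_one (fun j hj => h0 j (mem_sdiff.1 hj).1)
    (fun j hj => h1 j (mem_sdiff.1 hj).1)
  have h3 : 0 ≤ ∏ j ∈ J, a j := Finset.prod_nonneg fun j hj => h0 j (h hj)
  nlinarith

/-- the infinite product `∏ (1 - q^t)` is positive -/
lemma exists_c0 {q : ℝ} (hq0 : 0 < q) (hq1 : q < 1) :
    ∃ c : ℝ, 0 < c ∧ c < 1 ∧ ∀ J : Finset ℕ, (∀ t ∈ J, 1 ≤ t) → c ≤ ∏ t ∈ J, (1 - q ^ t) := by
  obtain ⟨N, hN⟩ : ∃ N : ℕ, q ^ N / (1 - q) ≤ 1 / 2 := by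
    have h1 : Filter.Tendsto (fun n : ℕ => q ^ n) Filter.atTop (nhds 0) :=
      tendsto_pow_atTop_nhds_zero_of_lt_one hq0.le hq1
    have h2 : (0 : ℝ) < (1 - q) / 2 := by linarith
    obtain ⟨N, hN⟩ := (h1.eventually_lt_const h2).exists
    refine ⟨N, ?_⟩
    rw [div_le_iff₀ (by linarith)]
    linarith
  have hfac : ∀ t : ℕ, 1 ≤ t → 0 < 1 - q ^ t := by
    intro t ht
    have : q ^ t < 1 := pow_lt_one₀ hq0.le hq1 (by omega)
    linarith
  have hfac1 : ∀ t : ℕ, 1 - q ^ t ≤ 1 := fun t => by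
    have : 0 < q ^ t := by positivity
    linarith
  have hpos : 0 < ∏ t ∈ Finset.Icc 1 N, (1 - q ^ t) :=
      Finset.prod_pos fun t ht => hfac t (Finset.mem_Icc.1 ht).1
  have hle : ∏ t ∈ Finset.Icc 1 N, (1 - q ^ t) ≤ 1 :=
    Finset.prod_le_one (fun t ht => (hfac t (Finset.mem_Icc.1 ht).1).le) (fun t _ => hfac1 t)
  refine ⟨(∏ t ∈ Finset.Icc 1 N, (1 - q ^ t)) * (1 / 2), by positivity, by linarith, ?_⟩
  intro J hJ
  rw [← Finset.prod_filter_mul_prod_filter_not J (fun t => t ≤ N)]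
  have hA : ∏ t ∈ Finset.Icc 1 N, (1 - q ^ t) ≤ ∏ t ∈ J.filter (fun t => t ≤ N), (1 - q ^ t) := by
    refine prod_le_of_subset ?_ _ (fun t ht => (hfac t (Finset.mem_Icc.1 ht).1).le)
      (fun t _ => hfac1 t)
    intro t ht
    rw [mem_filter] at ht
    exact Finset.mem_Icc.2 ⟨hJ t ht.1, ht.2⟩
  have hB : (1 / 2 : ℝ) ≤ ∏ t ∈ J.filter (fun t => ¬ t ≤ N), (1 - q ^ t) := by
    refine le_trans ?_ (one_sub_sum_le_prod _ (fun t => q ^ t) (fun t _ => by positivity)
      (fun t _ => pow_le_one₀ hq0.le hq1.le))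
    have hs : Summable fun t : ℕ => q ^ t := summable_geometric_of_lt_one hq0.le hq1
    have h1 : ∑ t ∈ J.filter (fun t => ¬ t ≤ N), q ^ t ≤ q ^ N / (1 - q) := by
      have h2 : ∑ t ∈ J.filter (fun t => ¬ t ≤ N), q ^ t
          = ∑ t ∈ (J.filter (fun t => ¬ t ≤ N)).image (fun t => t - N), q ^ (t + N) := by
        rw [Finset.sum_image]
        · refine Finset.sum_congr rfl fun t ht => ?_
          have := (mem_filter.1 ht).2
          congr 1
          omega
        · intro a ha b hb hab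
          have h3 := (mem_filter.1 (Finset.mem_coe.1 ha)).2
          have h4 := (mem_filter.1 (Finset.mem_coe.1 hb)).2
          simp only at hab
          omega
      rw [h2]
      simp only [pow_add, ← Finset.sum_mul]
      have h5 := hs.sum_le_tsum ((J.filter (fun t => ¬ t ≤ N)).image (fun t => t - N))
        (fun t _ => by positivity)
      rw [tsum_geometric_of_lt_one hq0.le hq1] at h5
      calc _ ≤ (1 - q)⁻¹ * q ^ N := mul_le_mul_of_nonneg_right h5 (by positivity)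
        _ = q ^ N / (1 - q) := by rw [div_eq_mul_inv, mul_comm]
    linarith
  have hA0 : 0 ≤ ∏ t ∈ J.filter (fun t => t ≤ N), (1 - q ^ t) :=
    Finset.prod_nonneg fun t ht => (hfac t (hJ t (Finset.mem_filter.1 ht).1)).le
  exact mul_le_mul hA hB (by norm_num) hA0

end product

end Pool.MP_54f573_pr.RGO
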