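import Pool.Agent.Work.MP_54f573_pr.Defs
import Pool.Agent.Work.MP_54f573_pr.Dilworth

set_option autoImplicit false
open Classical

namespace Pool.MP_54f573_pr.RGO

variable {α : Type*} [PartialOrder α]

theorem RevN.mono {k : ℕ} {R R' : α → α → Prop} (h : RevN k R') (hR : ∀ x y, R x y → R' x y) :
    RevN k R := by
  obtain ⟨f, hf, hr⟩ := h
  exact ⟨f, hf, fun x y hxy => hr x y (hR x y hxy)⟩

theorem RevN.or {k l : ℕ} {R R' : α → α → Prop} (h : RevN k R) (h' : RevN l R') :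
    RevN (k + l) (fun x y => R x y ∨ R' x y) := by
  obtain ⟨f, hf, hr⟩ := h
  obtain ⟨f', hf', hr'⟩ := h'
  refine ⟨Fin.append f f', ?_, ?_⟩
  · intro i
    refine Fin.addCases (fun i => ?_) (fun i => ?_) i
    · rw [Fin.append_left]; exact hf i
    · rw [Fin.append_right]; exact hf' i
  · rintro x y (hxy | hxy)
    · obtain ⟨i, hi⟩ := hr x y hxy
      exact ⟨Fin.castAdd l i, by rw [Fin.append_left]; exact hi⟩
    · obtain ⟨i, hi⟩ := hr' x y hxy
      exact ⟨Fin.natAdd k i, by rw [Fin.append_right]; exact hi⟩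

theorem RevN.false (k : ℕ) : RevN k (fun _ _ : α => False) :=
  ⟨fun _ _ => 0, fun _ => monotone_const, fun _ _ h => h.elim⟩

theorem RevN.le {k l : ℕ} {R : α → α → Prop} (h : RevN k R) (hkl : k ≤ l) : RevN l R := by
  have h1 := h.or (RevN.false (α := α) (l - k))
  rw [Nat.add_sub_cancel' hkl] at h1
  exact h1.mono fun x y hxy => Or.inl hxy

theorem RevN.one {R : α → α → Prop} (f : α → ℤ) (hf : Monotone f)
    (h : ∀ x y, R x y → f y < f x) : RevN 1 R :=
  ⟨fun _ => f, fun _ => hf, fun x y hxy => ⟨0, h x y hxy⟩⟩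

theorem RevN.biUnion {k : ℕ} (n : ℕ) (R : ℕ → α → α → Prop) (h : ∀ i < n, RevN k (R i)) :
    RevN (n * k) (fun x y => ∃ i < n, R i x y) := by
  induction n with
  | zero =>
    refine (RevN.false _).mono ?_
    rintro x y ⟨i, hi, -⟩
    omega
  | succ n ih =>
    have h1 := (ih fun i hi => h i (by omega)).or (h n (by omega))
    rw [Nat.succ_mul]
    refine h1.mono ?_
    rintro x y ⟨i, hi, hxy⟩
    by_cases hin : i = n
    · subst hin; exact Or.inr hxy
    · exact Or.inl ⟨i, by omega, hxy⟩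

/-- `C` is a chain. -/
def Ch (C : Finset α) : Prop := ∀ a ∈ C, ∀ b ∈ C, a ≤ b ∨ b ≤ a

theorem Ch.subset {C C' : Finset α} (h : Ch C) (hs : C' ⊆ C) : Ch C' :=
  fun a ha b hb => h a (hs ha) b (hs hb)

theorem Ch.card_le_one {C : Finset α} (h : C.card ≤ 1) : Ch C := by
  intro a ha b hb
  rw [Finset.card_le_one.1 h a ha b hb]
  exact Or.inl le_rfl

/-- The slot map. -/
theorem slot_map (Up : α → Prop) (hUp : ∀ x y, x ≤ y → Up x → Up y)
    (C G E F : Finset α) (hC : Ch C) (hG : Ch G) (hE : Ch E) (hF : Ch F)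
    (hCG : ∀ c ∈ C, ∀ g ∈ G, ¬ c ≤ g) (hFE : ∀ x ∈ F, ∀ e ∈ E, ¬ x ≤ e)
    (hCu : ∀ c ∈ C, ¬ Up c) (hGu : ∀ g ∈ G, ¬ Up g) (hEu : ∀ e ∈ E, Up e)
    (hFu : ∀ x ∈ F, Up x) :
    ∃ f : α → ℤ, Monotone f ∧ (∀ c ∈ C, ∀ v, ¬ Up v → ¬ c ≤ v → f v < f c) ∧
      (∀ g ∈ G, ∀ v, ¬ v ≤ g → f g < f v) ∧
      (∀ e ∈ E, ∀ v, Up v → ¬ v ≤ e → f e < f v) ∧
      (∀ x ∈ F, ∀ v, ¬ x ≤ v → f v < f x) := by
  let nC : α → ℕ := fun v => (C.filter (fun c => c ≤ v)).card
  let nG : α → ℕ := fun v => (G.filter (fun g => ¬ v ≤ g)).card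
  let nE : α → ℕ := fun v => (E.filter (fun e => ¬ v ≤ e)).card
  let nF : α → ℕ := fun v => (F.filter (fun x => x ≤ v)).card
  have mC : ∀ v w, v ≤ w → nC v ≤ nC w := fun v w h =>
    Finset.card_le_card fun c hc => by
      rw [Finset.mem_filter] at hc ⊢; exact ⟨hc.1, hc.2.trans h⟩
  have mF : ∀ v w, v ≤ w → nF v ≤ nF w := fun v w h =>
    Finset.card_le_card fun c hc => by
      rw [Finset.mem_filter] at hc ⊢; exact ⟨hc.1, hc.2.trans h⟩
  have mG : ∀ v w, v ≤ w → nG v ≤ nG w := fun v w h =>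
    Finset.card_le_card fun c hc => by
      rw [Finset.mem_filter] at hc ⊢; exact ⟨hc.1, fun h' => hc.2 (h.trans h')⟩
  have mE : ∀ v w, v ≤ w → nE v ≤ nE w := fun v w h =>
    Finset.card_le_card fun c hc => by
      rw [Finset.mem_filter] at hc ⊢; exact ⟨hc.1, fun h' => hc.2 (h.trans h')⟩
  have bC : ∀ v, nC v ≤ C.card := fun v => Finset.card_filter_le _ _
  have bG : ∀ v, nG v ≤ G.card := fun v => Finset.card_filter_le _ _
  have sC : ∀ c ∈ C, ∀ v, ¬ c ≤ v → nC v < nC c := by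
    intro c hc v hcv
    refine Finset.card_lt_card ⟨fun d hd => ?_, fun hcon => ?_⟩
    · rw [Finset.mem_filter] at hd ⊢
      rcases hC d hd.1 c hc with h | h
      · exact ⟨hd.1, h⟩
      · exact absurd (h.trans hd.2) hcv
    · have := hcon (Finset.mem_filter.2 ⟨hc, le_rfl⟩)
      exact hcv (Finset.mem_filter.1 this).2
  have sF : ∀ c ∈ F, ∀ v, ¬ c ≤ v → nF v < nF c := by
    intro c hc v hcv
    refine Finset.card_lt_card ⟨fun d hd => ?_, fun hcon => ?_⟩
    · rw [Finset.mem_filter] at hd ⊢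
      rcases hF d hd.1 c hc with h | h
      · exact ⟨hd.1, h⟩
      · exact absurd (h.trans hd.2) hcv
    · have := hcon (Finset.mem_filter.2 ⟨hc, le_rfl⟩)
      exact hcv (Finset.mem_filter.1 this).2
  have sG : ∀ g ∈ G, ∀ v, ¬ v ≤ g → nG g < nG v := by
    intro g hg v hgv
    refine Finset.card_lt_card ⟨fun d hd => ?_, fun hcon => ?_⟩
    · rw [Finset.mem_filter] at hd ⊢
      refine ⟨hd.1, fun h => ?_⟩
      rcases hG d hd.1 g hg with h' | h'
      · exact hgv (h.trans h')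
      · exact hd.2 h'
    · have := hcon (Finset.mem_filter.2 ⟨hg, hgv⟩)
      exact (Finset.mem_filter.1 this).2 le_rfl
  have sE : ∀ g ∈ E, ∀ v, ¬ v ≤ g → nE g < nE v := by
    intro g hg v hgv
    refine Finset.card_lt_card ⟨fun d hd => ?_, fun hcon => ?_⟩
    · rw [Finset.mem_filter] at hd ⊢
      refine ⟨hd.1, fun h => ?_⟩
      rcases hE d hd.1 g hg with h' | h'
      · exact hgv (h.trans h')
      · exact hd.2 h'
    · have := hcon (Finset.mem_filter.2 ⟨hg, hgv⟩)
      exact (Finset.mem_filter.1 this).2 le_rfl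
  let f : α → ℤ := fun v =>
    if Up v then (C.card : ℤ) + G.card + 1 + nE v + nF v else (nC v : ℤ) + nG v
  have fUp : ∀ v, Up v → f v = (C.card : ℤ) + G.card + 1 + nE v + nF v := fun v h => if_pos h
  have fDn : ∀ v, ¬ Up v → f v = (nC v : ℤ) + nG v := fun v h => if_neg h
  refine ⟨f, ?_, ?_, ?_, ?_, ?_⟩
  · intro v w hvw
    by_cases hv : Up v
    · have hw := hUp v w hvw hv
      rw [fUp v hv, fUp w hw]
      have := mE v w hvw; have := mF v w hvw
      omega
    · by_cases hw : Up w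
      · rw [fDn v hv, fUp w hw]
        have := bC v; have := bG v
        omega
      · rw [fDn v hv, fDn w hw]
        have := mC v w hvw; have := mG v w hvw
        omega
  · intro c hc v hv hcv
    rw [fDn v hv, fDn c (hCu c hc)]
    have h1 := sC c hc v hcv
    have h2 : nG c = G.card := by
      change (G.filter (fun g => ¬ c ≤ g)).card = G.card
      rw [Finset.filter_true_of_mem (fun g hg => hCG c hc g hg)]
    have := bG v
    omega
  · intro g hg v hvg
    have h0 : nC g = 0 := by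
      change (C.filter (fun c => c ≤ g)).card = 0
      rw [Finset.filter_false_of_mem (fun c hc => hCG c hc g hg)]; rfl
    rw [fDn g (hGu g hg)]
    by_cases hv : Up v
    · rw [fUp v hv]
      have := bG g
      omega
    · rw [fDn v hv]
      have := sG g hg v hvg
      omega
  · intro e he v hv hve
    have h0 : nF e = 0 := by
      change (F.filter (fun c => c ≤ e)).card = 0
      rw [Finset.filter_false_of_mem (fun c hc => hFE c hc e he)]; rfl
    rw [fUp e (hEu e he), fUp v hv]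
    have := sE e he v hve
    omega
  · intro x hx v hxv
    rw [fUp x (hFu x hx)]
    have h2 : nE x = E.card := by
      change (E.filter (fun e => ¬ x ≤ e)).card = E.card
      rw [Finset.filter_true_of_mem (fun e he => hFE x hx e he)]
    have h3 : nE v ≤ E.card := Finset.card_filter_le _ _
    by_cases hv : Up v
    · rw [fUp v hv]
      have := sF x hx v hxv
      omega
    · rw [fDn v hv]
      have := bC v; have := bG v
      omega

/-- Slot lemma in `RevN` form. -/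
theorem RevN.slot (Up : α → Prop) (hUp : ∀ x y, x ≤ y → Up x → Up y)
    (C G E F : Finset α) (hC : Ch C) (hG : Ch G) (hE : Ch E) (hF : Ch F)
    (hCG : ∀ c ∈ C, ∀ g ∈ G, ¬ c ≤ g) (hFE : ∀ x ∈ F, ∀ e ∈ E, ¬ x ≤ e)
    (hCu : ∀ c ∈ C, ¬ Up c) (hGu : ∀ g ∈ G, ¬ Up g) (hEu : ∀ e ∈ E, Up e)
    (hFu : ∀ x ∈ F, Up x) :
    RevN 1 (fun x y => ¬ x ≤ y ∧ ((x ∈ C ∧ ¬ Up y) ∨ y ∈ G ∨ (y ∈ E ∧ Up x) ∨ x ∈ F)) := by
  obtain ⟨f, hf, h1, h2, h3, h4⟩ := slot_map Up hUp C G E F hC hG hE hF hCG hFE hCu hGu hEu hFu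
  refine RevN.one f hf ?_
  rintro x y ⟨hxy, ⟨hx, hy⟩ | hy | ⟨hy, hx⟩ | hx⟩
  · exact h1 x hx y hy hxy
  · exact h2 y hy x hxy
  · exact h3 y hy x hx hxy
  · exact h4 x hx y hxy

/-- Two chains, one placed high and one placed low. -/
theorem RevN.two_chain (F G : Finset α) (hF : Ch F) (hG : Ch G)
    (hFG : ∀ x ∈ F, ∀ g ∈ G, ¬ x ≤ g) :
    RevN 1 (fun x y => ¬ x ≤ y ∧ (x ∈ F ∨ y ∈ G)) := by
  refine (RevN.slot (fun _ => False) (fun _ _ _ h => h) F G ∅ ∅ hF hG ?_ ?_ hFG ?_ ?_ ?_ ?_ ?_).mono ?_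
  · intro a ha; exact absurd ha (Finset.notMem_empty a)
  · intro a ha; exact absurd ha (Finset.notMem_empty a)
  · intro a ha; exact absurd ha (Finset.notMem_empty a)
  · intro c hc h; exact h
  · intro c hc h; exact h
  · intro a ha; exact absurd ha (Finset.notMem_empty a)
  · intro a ha; exact absurd ha (Finset.notMem_empty a)
  · rintro x y ⟨hxy, hx | hy⟩
    · exact ⟨hxy, Or.inl ⟨hx, fun h => h⟩⟩
    · exact ⟨hxy, Or.inr (Or.inl hy)⟩

/-- Indicator map of an up-closed predicate. -/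
theorem RevN.ind (Up : α → Prop) (hUp : ∀ x y, x ≤ y → Up x → Up y) :
    RevN 1 (fun x y => Up x ∧ ¬ Up y) := by
  refine RevN.one (fun v => if Up v then 1 else 0) ?_ ?_
  · intro v w hvw
    by_cases hv : Up v
    · simp [hv, hUp v w hvw hv]
    · by_cases hw : Up w <;> simp [hv, hw]
  · rintro x y ⟨hx, hy⟩
    simp [hx, hy]

/-- The set `W` is handled by `2 * wd W` maps. -/
theorem RevN.width (W : Finset α) :
    RevN (wd (fun a b : α => a < b) W * 2) (fun x y => ¬ x ≤ y ∧ (x ∈ W ∨ y ∈ W)) := by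
  obtain ⟨c, hc1, hc2⟩ := dilworth' (fun a b : α => a < b) (fun a b c => lt_trans)
    (fun a => lt_irrefl a) W
  refine (RevN.biUnion (k := 2) (wd (fun a b : α => a < b) W)
    (fun i x y => (¬ x ≤ y ∧ (x ∈ W.filter (fun v => c v = i) ∨ y ∈ (∅ : Finset α))) ∨
      (¬ x ≤ y ∧ (x ∈ (∅ : Finset α) ∨ y ∈ W.filter (fun v => c v = i)))) ?_).mono ?_
  · intro i _
    have hch : Ch (W.filter (fun v => c v = i)) := by
      intro a ha b hb
      rw [Finset.mem_filter] at ha hb
      rcases hc2 a ha.1 b hb.1 (by rw [ha.2, hb.2]) with h | h | h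
      · exact Or.inl h.le
      · exact Or.inl h.le
      · exact Or.inr h.le
    have he : Ch (∅ : Finset α) := fun a ha => absurd ha (Finset.notMem_empty a)
    exact (RevN.two_chain _ ∅ hch he (fun x _ g hg => absurd hg (Finset.notMem_empty g))).or
      (RevN.two_chain ∅ _ he hch (fun x hx => absurd hx (Finset.notMem_empty x)))
  · rintro x y ⟨hxy, hx | hy⟩
    · exact ⟨c x, hc1 x hx, Or.inl ⟨hxy, Or.inl (Finset.mem_filter.2 ⟨hx, rfl⟩)⟩⟩
    · exact ⟨c y, hc1 y hy, Or.inr ⟨hxy, Or.inr (Finset.mem_filter.2 ⟨hy, rfl⟩)⟩⟩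

/-- Level maps: reverse everything that goes down a level with respect to the antichain `A`, and
all pairs inside `A`. -/
theorem RevN.levels (A : Finset α) (hA : AC (fun a b : α => a < b) A) :
    RevN 2 (fun x y => (x ∈ A ∧ y ∈ A ∧ x ≠ y) ∨ (x ∈ A ∧ ∃ a ∈ A, y < a) ∨
      ((∃ a ∈ A, a < x) ∧ (y ∈ A ∨ ∃ a ∈ A, y < a))) := by
  -- an injection on A
  have e : A ≃ Fin A.card := A.equivFin
  let g : α → ℤ := fun v => if h : v ∈ A then ((e ⟨v, h⟩ : Fin A.card) : ℤ) else 0
  have hg0 : ∀ v, 0 ≤ g v := by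
    intro v
    by_cases h : v ∈ A
    · simp [g, h]
    · simp [g, h]
  have hg1 : ∀ v ∈ A, g v < A.card := by
    intro v h
    simp [g, h]
  have hginj : ∀ v ∈ A, ∀ w ∈ A, g v = g w → v = w := by
    intro v hv w hw hvw
    simp only [g, hv, hw, dif_pos] at hvw
    have := e.injective (Fin.ext (by exact_mod_cast hvw))
    exact congrArg Subtype.val this
  let N : ℤ := A.card
  let F : (α → ℤ) → α → ℤ := fun h v =>
    if ∃ a ∈ A, a < v then 2 * N + 2 else if v ∈ A then h v + 1 else 0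
  have hFm : ∀ h : α → ℤ, (∀ v ∈ A, 0 ≤ h v ∧ h v ≤ N) → Monotone (F h) := by
    intro h hh v w hvw
    simp only [F]
    by_cases h1 : ∃ a ∈ A, a < v
    · have h2 : ∃ a ∈ A, a < w := by
        obtain ⟨a, ha, hav⟩ := h1
        exact ⟨a, ha, hav.trans_le hvw⟩
      simp [h1, h2]
    · by_cases h2 : ∃ a ∈ A, a < w
      · rw [if_neg h1, if_pos h2]
        by_cases hv : v ∈ A
        · rw [if_pos hv]
          have := (hh v hv).2
          have hN : 0 ≤ N := by simp [N]
          linarith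
        · rw [if_neg hv]
          have hN : 0 ≤ N := by simp [N]
          linarith
      · rw [if_neg h1, if_neg h2]
        by_cases hv : v ∈ A
        · by_cases hw : w ∈ A
          · have : v = w := by
              by_contra hne
              exact hA v hv w hw (lt_of_le_of_ne hvw hne)
            subst this
            rfl
          · exfalso
            apply h2
            refine ⟨v, hv, lt_of_le_of_ne hvw ?_⟩
            rintro rfl
            exact hw hv
        · rw [if_neg hv]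
          by_cases hw : w ∈ A
          · rw [if_pos hw]
            have := (hh w hw).1
            linarith
          · rw [if_neg hw]
  have hA1 : ∀ v ∈ A, ¬ ∃ a ∈ A, a < v := by
    rintro v hv ⟨a, ha, hav⟩
    exact hA a ha v hv hav
  have hD1 : ∀ v, (∃ a ∈ A, v < a) → ¬ (∃ a ∈ A, a < v) ∧ v ∉ A := by
    rintro v ⟨a, ha, hva⟩
    refine ⟨?_, fun hv => hA v hv a ha hva⟩
    rintro ⟨b, hb, hbv⟩
    exact hA b hb a ha (hbv.trans hva)
  have hN : 0 ≤ N := by simp [N]
  -- first map g, second map N - g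
  have hlev : ∀ h : α → ℤ, (∀ v ∈ A, 0 ≤ h v ∧ h v ≤ N) → ∀ x y,
      ((x ∈ A ∧ ∃ a ∈ A, y < a) ∨ ((∃ a ∈ A, a < x) ∧ (y ∈ A ∨ ∃ a ∈ A, y < a))) →
      F h y < F h x := by
    rintro h hh x y (⟨hx, hy⟩ | ⟨hx, hy | hy⟩)
    · obtain ⟨h1, h2⟩ := hD1 y hy
      simp only [F]
      rw [if_neg h1, if_neg h2, if_neg (hA1 x hx), if_pos hx]
      have := (hh x hx).1
      linarith
    · simp only [F]
      rw [if_pos hx, if_neg (hA1 y hy), if_pos hy]
      have := (hh y hy).2
      linarith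
    · obtain ⟨h1, h2⟩ := hD1 y hy
      simp only [F]
      rw [if_pos hx, if_neg h1, if_neg h2]
      linarith
  have hbg : ∀ v ∈ A, 0 ≤ g v ∧ g v ≤ N := fun v hv => ⟨hg0 v, (hg1 v hv).le⟩
  have hbg' : ∀ v ∈ A, 0 ≤ N - g v ∧ N - g v ≤ N := fun v hv =>
    ⟨by have := hg1 v hv; simp only [N]; linarith, by have := hg0 v; linarith⟩
  have r1 : RevN 1 (fun x y => F g y < F g x) := RevN.one (F g) (hFm g hbg) (fun _ _ h => h)
  have r2 : RevN 1 (fun x y => F (fun v => N - g v) y < F (fun v => N - g v) x) :=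
    RevN.one _ (hFm _ hbg') (fun _ _ h => h)
  refine (r1.or r2).mono ?_
  rintro x y (⟨hx, hy, hxy⟩ | h)
  · have hne : g x ≠ g y := fun h => hxy (hginj x hx y hy h)
    simp only [F]
    rw [if_neg (hA1 x hx), if_neg (hA1 y hy), if_pos hx, if_pos hy]
    rcases lt_or_gt_of_ne hne with h | h
    · right
      rw [if_neg (hA1 x hx), if_neg (hA1 y hy), if_pos hx, if_pos hy]
      linarith
    · left; linarith
  · left
    exact hlev g hbg x y h

end Pool.MP_54f573_pr.RGO
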