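import Pool.Agent.Work.MP_54f573_pr.Rev
import Pool.Agent.Work.MP_54f573_pr.Align

set_option autoImplicit false
open Classical

namespace Pool.MP_54f573_pr.RGO

variable {α : Type*} [PartialOrder α]

/-- The lower part at index `i`: chain of `D`. -/
noncomputable def Cs (D : Finset α) (cD : α → ℕ) (i : ℕ) : Finset α := D.filter (fun x => cD x = i)

/-- Elements of `R` of kind `κ` and index `i`. -/
noncomputable def As (R : Finset α) (kd ix : α → ℕ) (κ i : ℕ) : Finset α :=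
  R.filter (fun a => kd a = κ ∧ ix a = i)

omit [PartialOrder α] in
theorem mem_Cs {D : Finset α} {cD : α → ℕ} {i : ℕ} {x : α} : x ∈ Cs D cD i ↔ x ∈ D ∧ cD x = i := by
  simp [Cs]

omit [PartialOrder α] in
theorem mem_As {R : Finset α} {kd ix : α → ℕ} {κ i : ℕ} {a : α} :
    a ∈ As R kd ix κ i ↔ a ∈ R ∧ kd a = κ ∧ ix a = i := by
  simp [As]

/-- Thin pairs of one class can be handled by few maps. -/
theorem thin_class (h m N₀ : ℕ)
    (hN₀ : ∀ (n : ℕ) (X Y : Finset ℕ) (col : ℕ → ℕ → ℕ),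
      X.card = n → Y.card = n → (∀ i ∈ X, ∀ j ∈ Y, col i j < (h + 1) * (h + 1)) →
      ∃ π g : ℕ → ℕ, Set.BijOn π (X : Set ℕ) (Y : Set ℕ) ∧ (∀ i ∈ X, g i < n / m + N₀) ∧
        ∀ i ∈ X, ∀ j ∈ X, g i = g j → col i (π j) = col i (π i) ∧ col i (π j) = col j (π j))
    (D U R : Finset α) (cD cU kd ix : α → ℕ)
    (hD : ∀ x ∈ D, ∀ y ∈ D, cD x = cD y → x ≤ y ∨ y ≤ x)
    (hU : ∀ x ∈ U, ∀ y ∈ U, cU x = cU y → x ≤ y ∨ y ≤ x)
    (hDh : ∀ C ⊆ D, Ch C → C.card ≤ h) (hUh : ∀ C ⊆ U, Ch C → C.card ≤ h)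
    (hinj : ∀ a ∈ R, ∀ b ∈ R, kd a = kd b → ix a = ix b → a = b)
    (X : Finset ℕ) :
    ∃ π : ℕ → ℕ, Set.BijOn π (X : Set ℕ) (X : Set ℕ) ∧
      RevN ((X.card / m + N₀) * 2) (fun v w => ¬ v ≤ w ∧ ∃ i ∈ X,
        (v ∈ Cs D cD i ∧ w ∈ As R kd ix 1 (π i)) ∨ (v ∈ As R kd ix 0 i ∧ w ∈ Cs U cU (π i))) := by
  have chC : ∀ i, Ch (Cs D cD i) := by
    intro i a ha b hb
    rw [mem_Cs] at ha hb
    exact hD a ha.1 b hb.1 (by rw [ha.2, hb.2])
  have chE : ∀ i, Ch (Cs U cU i) := by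
    intro i a ha b hb
    rw [mem_Cs] at ha hb
    exact hU a ha.1 b hb.1 (by rw [ha.2, hb.2])
  let θ : ℕ → ℕ → ℕ := fun i j => ((Cs D cD i).filter (fun c => ∃ a ∈ As R kd ix 1 j, c ≤ a)).card
  let η : ℕ → ℕ → ℕ := fun i j => ((Cs U cU j).filter (fun e => ∃ b ∈ As R kd ix 0 i, b ≤ e)).card
  have hθ : ∀ i j, θ i j ≤ h := fun i j =>
    (Finset.card_filter_le _ _).trans (hDh _ (Finset.filter_subset _ _) (chC i))
  have hη : ∀ i j, η i j ≤ h := fun i j =>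
    (Finset.card_filter_le _ _).trans (hUh _ (Finset.filter_subset _ _) (chE j))
  have hcol : ∀ i ∈ X, ∀ j ∈ X, θ i j * (h + 1) + η i j < (h + 1) * (h + 1) := by
    intro i _ j _
    have h1 := hθ i j
    have h2 := hη i j
    nlinarith
  obtain ⟨π, g, hπ, hg, hgood⟩ := hN₀ X.card X X (fun i j => θ i j * (h + 1) + η i j) rfl rfl hcol
  have hgood' : ∀ i ∈ X, ∀ j ∈ X, g i = g j → θ i (π j) = θ i (π i) ∧ η i (π j) = η j (π j) := by
    intro i hi j hj hij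
    obtain ⟨h1, h2⟩ := hgood i hi j hj hij
    have key : ∀ a b c d : ℕ, b ≤ h → d ≤ h → a * (h + 1) + b = c * (h + 1) + d → a = c ∧ b = d := by
      intro a b c d hb hd he
      have e1 : (a * (h + 1) + b) / (h + 1) = a := by
        rw [mul_comm, Nat.mul_add_div (by omega), Nat.div_eq_of_lt (by omega)]; simp
      have e2 : (c * (h + 1) + d) / (h + 1) = c := by
        rw [mul_comm, Nat.mul_add_div (by omega), Nat.div_eq_of_lt (by omega)]; simp
      have e3 : a = c := by rw [← e1, ← e2, he]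
      subst e3
      exact ⟨rfl, by omega⟩
    exact ⟨(key _ _ _ _ (hη _ _) (hη _ _) h1).1, (key _ _ _ _ (hη _ _) (hη _ _) h2).2⟩
  refine ⟨π, hπ, ?_⟩
  have hone : ∀ κ i, ∀ a ∈ As R kd ix κ i, ∀ b ∈ As R kd ix κ i, a = b := by
    intro κ i a ha b hb
    rw [mem_As] at ha hb
    exact hinj a ha.1 b hb.1 (by rw [ha.2.1, hb.2.1]) (by rw [ha.2.2, hb.2.2])
  -- the maps
  refine (RevN.biUnion (k := 2) (X.card / m + N₀) (fun κ v w =>
    ((∃ i ∈ X, g i = κ ∧ ∃ c ∈ Cs D cD i, ∃ a ∈ As R kd ix 1 (π i), ¬ c ≤ a ∧ c ≤ v) ∧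
      ¬ (∃ i ∈ X, g i = κ ∧ ∃ c ∈ Cs D cD i, ∃ a ∈ As R kd ix 1 (π i), ¬ c ≤ a ∧ c ≤ w)) ∨
    ((∃ i ∈ X, g i = κ ∧ ∃ b ∈ As R kd ix 0 i, b ≤ v) ∧
      ¬ (∃ i ∈ X, g i = κ ∧ ∃ b ∈ As R kd ix 0 i, b ≤ w))) ?_).mono ?_
  · intro κ _
    refine (RevN.ind _ ?_).or (RevN.ind _ ?_)
    · rintro x y hxy ⟨i, hi, hgi, c, hc, a, ha, hca, hcx⟩
      exact ⟨i, hi, hgi, c, hc, a, ha, hca, hcx.trans hxy⟩
    · rintro x y hxy ⟨i, hi, hgi, b, hb, hbx⟩
      exact ⟨i, hi, hgi, b, hb, hbx.trans hxy⟩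
  · rintro v w ⟨hvw, i, hi, ⟨hv, hw⟩ | ⟨hv, hw⟩⟩
    · refine ⟨g i, hg i hi, Or.inl ⟨⟨i, hi, rfl, v, hv, w, hw, hvw, le_rfl⟩, ?_⟩⟩
      rintro ⟨i', hi', hgi', c, hc, a, ha, hca, hcw⟩
      have h1 := (hgood' i' hi' i hi hgi').1
      have : θ i' (π i') < θ i' (π i) := by
        refine Finset.card_lt_card ⟨fun d hd => ?_, fun hcon => ?_⟩
        · rw [Finset.mem_filter] at hd ⊢
          obtain ⟨hd, a', ha', hda'⟩ := hd
          refine ⟨hd, w, hw, ?_⟩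
          have : a' = a := hone _ _ a' ha' a ha
          subst this
          rcases chC i' d hd c hc with h | h
          · exact h.trans hcw
          · exact absurd (h.trans hda') hca
        · have := hcon (Finset.mem_filter.2 ⟨hc, w, hw, hcw⟩)
          rw [Finset.mem_filter] at this
          obtain ⟨-, a', ha', hca'⟩ := this
          have : a' = a := hone _ _ a' ha' a ha
          subst this
          exact hca hca'
      omega
    · refine ⟨g i, hg i hi, Or.inr ⟨⟨i, hi, rfl, v, hv, le_rfl⟩, ?_⟩⟩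
      rintro ⟨i', hi', hgi', b, hb, hbw⟩
      have h1 := (hgood' i' hi' i hi hgi').2
      have : η i (π i) < η i' (π i) := by
        refine Finset.card_lt_card ⟨fun d hd => ?_, fun hcon => ?_⟩
        · rw [Finset.mem_filter] at hd ⊢
          obtain ⟨hd, b', hb', hdb'⟩ := hd
          have : b' = v := hone _ _ b' hb' v hv
          subst this
          refine ⟨hd, b, hb, ?_⟩
          rcases chE (π i) d hd w hw with h | h
          · exact absurd (hdb'.trans h) hvw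
          · exact hbw.trans h
        · have := hcon (Finset.mem_filter.2 ⟨hw, b, hb, hbw⟩)
          rw [Finset.mem_filter] at this
          obtain ⟨-, b', hb', hb'w⟩ := this
          have : b' = v := hone _ _ b' hb' v hv
          subst this
          exact hvw hb'w
      omega

end Pool.MP_54f573_pr.RGO
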