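import Pool.Agent.Work.MP_54f573_pr.Slots

set_option autoImplicit false
open Classical

namespace Pool.MP_54f573_pr.RGO

variable {α : Type*} [PartialOrder α]

theorem slots_rev (h m N₀ : ℕ)
    (hN₀ : ∀ (n : ℕ) (X Y : Finset ℕ) (col : ℕ → ℕ → ℕ),
      X.card = n → Y.card = n → (∀ i ∈ X, ∀ j ∈ Y, col i j < (h + 1) * (h + 1)) →
      ∃ π g : ℕ → ℕ, Set.BijOn π (X : Set ℕ) (Y : Set ℕ) ∧ (∀ i ∈ X, g i < n / m + N₀) ∧
        ∀ i ∈ X, ∀ j ∈ X, g i = g j → col i (π j) = col i (π i) ∧ col i (π j) = col j (π j))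
    (A D U R Y : Finset α) (hA : AC (fun a b : α => a < b) A)
    (hDA : ∀ v ∈ D, ∃ a ∈ A, v < a) (hUA : ∀ v ∈ U, ∃ a ∈ A, a < v)
    (hRA : ∀ a ∈ A, a ∈ R ∨ a ∈ Y) (hR : R ⊆ A) (_hY : Y ⊆ A) (hRY : ∀ a ∈ R, a ∉ Y)
    (k : ℕ) (x u : ℕ → α) (hx : ∀ i < k, ∃ a ∈ A, x i < a) (hu : ∀ i < k, ∃ a ∈ A, a < u i)
    (hxu : ∀ i < k, ¬ x i ≤ u i)
    (P N Q N' : Finset α)
    (hK : ∀ v ∈ D, ∀ w ∈ U, ¬ v ≤ w → v ∈ P ∨ w ∈ Q)
    (hYN : ∀ v ∈ D, ∀ y ∈ Y, ¬ v ≤ y → v ∈ N) (hYN' : ∀ w ∈ U, ∀ y ∈ Y, ¬ y ≤ w → w ∈ N')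
    (τ p q n : ℕ) (hpn : p ≤ n) (hnq : n ≤ τ - q) (hqτ : q ≤ τ)
    (cD cU kd ix : α → ℕ)
    (hD : ∀ x ∈ D, ∀ y ∈ D, cD x = cD y → x ≤ y ∨ y ≤ x)
    (hU : ∀ x ∈ U, ∀ y ∈ U, cU x = cU y → x ≤ y ∨ y ≤ x)
    (hDh : ∀ C ⊆ D, Ch C → C.card ≤ h) (hUh : ∀ C ⊆ U, Ch C → C.card ≤ h)
    (hcD : ∀ v ∈ D, cD v < τ - q) (hcU : ∀ v ∈ U, p ≤ cU v ∧ cU v < τ)
    (hcP : ∀ v ∈ P, cD v < p) (hcN : ∀ v ∈ N, cD v < n)
    (hcQ : ∀ v ∈ Q, τ - q ≤ cU v) (hcN' : ∀ v ∈ N', n ≤ cU v)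
    (hkd : ∀ a ∈ R, (kd a = 0 ∧ ix a < τ) ∨ (kd a = 1 ∧ ix a < τ) ∨ (kd a = 2 ∧ ix a < k) ∨
      (kd a = 3 ∧ ix a < k))
    (hinj : ∀ a ∈ R, ∀ b ∈ R, kd a = kd b → ix a = ix b → a = b)
    (h0 : ∀ a ∈ R, kd a = 0 → ∀ v ∈ D, cD v = ix a → ¬ v ≤ a)
    (h0' : ∀ a ∈ R, kd a = 0 → τ - q ≤ ix a → ∀ v ∈ U, cU v = ix a → a ≤ v)
    (h1 : ∀ a ∈ R, kd a = 1 → ∀ v ∈ U, cU v = ix a → ¬ a ≤ v)
    (h1' : ∀ a ∈ R, kd a = 1 → ix a < p → ∀ v ∈ D, cD v = ix a → v ≤ a)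
    (h2 : ∀ a ∈ R, kd a = 2 → a ≤ u (ix a)) (h3 : ∀ a ∈ R, kd a = 3 → x (ix a) ≤ a) :
    RevN (τ + k + 2 + ((τ / m + N₀) * 2 + (τ / m + N₀) * 2)) (fun v w => ¬ v ≤ w ∧
      (v ∈ A ∨ v ∈ D ∨ v ∈ U ∨ (∃ i < k, v = x i) ∨ (∃ i < k, v = u i)) ∧
      (w ∈ A ∨ w ∈ D ∨ w ∈ U ∨ (∃ i < k, w = x i) ∨ (∃ i < k, w = u i))) := by
  -- alignment in the two classes
  obtain ⟨π₁, hπ₁, hthin₁⟩ := thin_class h m N₀ hN₀ D U R cD cU kd ix hD hU hDh hUh hinj
    (Finset.Ico p n)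
  obtain ⟨π₂, hπ₂, hthin₂⟩ := thin_class h m N₀ hN₀ D U R cD cU kd ix hD hU hDh hUh hinj
    (Finset.Ico n (τ - q))
  let π : ℕ → ℕ := fun i => if i < n then π₁ i else π₂ i
  have hπ1 : ∀ i, p ≤ i → i < n → p ≤ π i ∧ π i < n := by
    intro i hi1 hi2
    have := hπ₁.mapsTo (Finset.mem_coe.2 (Finset.mem_Ico.2 ⟨hi1, hi2⟩))
    have := Finset.mem_Ico.1 (Finset.mem_coe.1 this)
    simp only [π]; rw [if_pos hi2]; exact this
  have hπ2 : ∀ i, n ≤ i → i < τ - q → n ≤ π i ∧ π i < τ - q := by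
    intro i hi1 hi2
    have := hπ₂.mapsTo (Finset.mem_coe.2 (Finset.mem_Ico.2 ⟨hi1, hi2⟩))
    have := Finset.mem_Ico.1 (Finset.mem_coe.1 this)
    simp only [π]; rw [if_neg (by omega)]; exact this
  have hsurj : ∀ j, p ≤ j → j < τ - q → ∃ i, p ≤ i ∧ i < τ - q ∧ π i = j ∧ (i < n ↔ j < n) := by
    intro j hj1 hj2
    by_cases hjn : j < n
    · obtain ⟨i, hi, hij⟩ := hπ₁.surjOn (Finset.mem_coe.2 (Finset.mem_Ico.2 ⟨hj1, hjn⟩))
      have hi' := Finset.mem_Ico.1 (Finset.mem_coe.1 hi)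
      refine ⟨i, hi'.1, by omega, ?_, by omega⟩
      simp only [π]; rw [if_pos hi'.2]; exact hij
    · obtain ⟨i, hi, hij⟩ := hπ₂.surjOn
        (Finset.mem_coe.2 (Finset.mem_Ico.2 ⟨not_lt.1 hjn, hj2⟩))
      have hi' := Finset.mem_Ico.1 (Finset.mem_coe.1 hi)
      refine ⟨i, by omega, hi'.2, ?_, by omega⟩
      simp only [π]; rw [if_neg (by omega)]; exact hij
  -- lower half members of `A` in slot i
  let low : ℕ → α → Prop := fun i a =>
    (a ∈ R ∧ ((kd a = 1 ∧ ix a ≠ π i) ∨ (kd a = 0 ∧ ix a = i) ∨ kd a = 3)) ∨ (a ∈ Y ∧ i < n)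
  let Up : ℕ → α → Prop := fun i v =>
    (∃ w ∈ U, w ≤ v) ∨ (∃ j < k, u j ≤ v) ∨ (∃ a ∈ A, a ≤ v ∧ ¬ low i a)
  have hUp : ∀ i v w, v ≤ w → Up i v → Up i w := by
    rintro i v w hvw (⟨b, hb, hbv⟩ | ⟨j, hj, hjv⟩ | ⟨a, ha, hav, hl⟩)
    · exact Or.inl ⟨b, hb, hbv.trans hvw⟩
    · exact Or.inr (Or.inl ⟨j, hj, hjv.trans hvw⟩)
    · exact Or.inr (Or.inr ⟨a, ha, hav.trans hvw, hl⟩)
  -- basic separation facts
  have hAA : ∀ a ∈ A, ∀ b ∈ A, a ≤ b → a = b := by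
    intro a ha b hb hab
    by_contra hne
    exact hA a ha b hb (lt_of_le_of_ne hab hne)
  have nUpD : ∀ i v, (∃ a ∈ A, v < a) → ¬ Up i v := by
    rintro i v ⟨a, ha, hva⟩ (⟨b, hb, hbv⟩ | ⟨j, hj, hjv⟩ | ⟨b, hb, hbv, hl⟩)
    · obtain ⟨c, hc, hcb⟩ := hUA b hb
      exact hA c hc a ha (hcb.trans_le (hbv.trans hva.le))
    · obtain ⟨c, hc, hcb⟩ := hu j hj
      exact hA c hc a ha (hcb.trans_le (hjv.trans hva.le))
    · exact hA b hb a ha (hbv.trans_lt hva)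
  have UpU : ∀ i, ∀ v ∈ U, Up i v := fun i v hv => Or.inl ⟨v, hv, le_rfl⟩
  have Upu : ∀ i, ∀ j < k, Up i (u j) := fun i j hj => Or.inr (Or.inl ⟨j, hj, le_rfl⟩)
  have nUpA : ∀ i, ∀ a ∈ A, low i a → ¬ Up i a := by
    rintro i a ha hl (⟨b, hb, hbv⟩ | ⟨j, hj, hjv⟩ | ⟨b, hb, hbv, hl'⟩)
    · obtain ⟨c, hc, hcb⟩ := hUA b hb
      exact hA c hc a ha (hcb.trans_le hbv)
    · obtain ⟨c, hc, hcb⟩ := hu j hj
      exact hA c hc a ha (hcb.trans_le hjv)
    · have := hAA b hb a ha hbv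
      subst this
      exact hl' hl
  have UpA : ∀ i, ∀ a ∈ A, ¬ low i a → Up i a := fun i a ha hl => Or.inr (Or.inr ⟨a, ha, le_rfl, hl⟩)
  -- chains
  have chC : ∀ i, Ch (Cs D cD i) := by
    intro i a ha b hb
    rw [mem_Cs] at ha hb
    exact hD a ha.1 b hb.1 (by rw [ha.2, hb.2])
  have chE : ∀ i, Ch (Cs U cU i) := by
    intro i a ha b hb
    rw [mem_Cs] at ha hb
    exact hU a ha.1 b hb.1 (by rw [ha.2, hb.2])
  have hone : ∀ κ i, ∀ a ∈ As R kd ix κ i, ∀ b ∈ As R kd ix κ i, a = b := by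
    intro κ i a ha b hb
    rw [mem_As] at ha hb
    exact hinj a ha.1 b hb.1 (by rw [ha.2.1, hb.2.1]) (by rw [ha.2.2, hb.2.2])
  have chA : ∀ κ i, Ch (As R kd ix κ i) := fun κ i a ha b hb => by
    rw [hone κ i a ha b hb]; exact Or.inl le_rfl
  have hDAle : ∀ v ∈ D, ∀ a ∈ A, ¬ a ≤ v := by
    intro v hv a ha hav
    obtain ⟨b, hb, hvb⟩ := hDA v hv
    exact hA a ha b hb (hav.trans_lt hvb)
  have hUAle : ∀ v ∈ U, ∀ a ∈ A, ¬ v ≤ a := by
    intro v hv a ha hav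
    obtain ⟨b, hb, hvb⟩ := hUA v hv
    exact hA b hb a ha (hvb.trans_le hav)
  -- slots
  have hslots : ∀ i < τ, RevN 1 (fun v w => ¬ v ≤ w ∧
      ((i < p ∧ (v ∈ Cs D cD i ∨ v ∈ As R kd ix 1 i ∨ w ∈ As R kd ix 0 i)) ∨
       (τ - q ≤ i ∧ (v ∈ As R kd ix 1 i ∨ w ∈ As R kd ix 0 i ∨ w ∈ Cs U cU i)) ∨
       (p ≤ i ∧ i < τ - q ∧ ((v ∈ Cs D cD i ∧ ¬ Up i w) ∨ w ∈ As R kd ix 0 i ∨
          (w ∈ Cs U cU (π i) ∧ Up i v) ∨ v ∈ As R kd ix 1 (π i))))) := by
    intro i hi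
    by_cases hip : i < p
    · -- P-slot
      refine (RevN.two_chain (Cs D cD i ∪ As R kd ix 1 i) (As R kd ix 0 i) ?_ (chA 0 i) ?_).mono ?_
      · intro a ha b hb
        rw [Finset.mem_union] at ha hb
        rcases ha with ha | ha <;> rcases hb with hb | hb
        · exact chC i a ha b hb
        · rw [mem_Cs] at ha; rw [mem_As] at hb
          exact Or.inl (h1' b hb.1 hb.2.1 (by omega) a ha.1 (by rw [ha.2, hb.2.2]))
        · rw [mem_As] at ha; rw [mem_Cs] at hb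
          exact Or.inr (h1' a ha.1 ha.2.1 (by omega) b hb.1 (by rw [ha.2.2, hb.2]))
        · exact chA 1 i a ha b hb
      · intro a ha g hg
        rw [Finset.mem_union] at ha
        rw [mem_As] at hg
        rcases ha with ha | ha
        · rw [mem_Cs] at ha
          exact h0 g hg.1 hg.2.1 a ha.1 (by rw [ha.2, hg.2.2])
        · rw [mem_As] at ha
          intro hag
          have := hAA a (hR ha.1) g (hR hg.1) hag
          subst this
          have h5 := ha.2.1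
          have h6 := hg.2.1
          omega
      · rintro v w ⟨hvw, ⟨-, hv | hv | hv⟩ | ⟨hc, -⟩ | ⟨hc, -⟩⟩
        · exact ⟨hvw, Or.inl (Finset.mem_union_left _ hv)⟩
        · exact ⟨hvw, Or.inl (Finset.mem_union_right _ hv)⟩
        · exact ⟨hvw, Or.inr hv⟩
        · omega
        · omega
    · by_cases hiq : τ - q ≤ i
      · refine (RevN.two_chain (As R kd ix 1 i) (As R kd ix 0 i ∪ Cs U cU i) (chA 1 i) ?_ ?_).mono ?_
        · intro a ha b hb
          rw [Finset.mem_union] at ha hb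
          rcases ha with ha | ha <;> rcases hb with hb | hb
          · exact chA 0 i a ha b hb
          · rw [mem_As] at ha; rw [mem_Cs] at hb
            exact Or.inl (h0' a ha.1 ha.2.1 (by omega) b hb.1 (by rw [ha.2.2, hb.2]))
          · rw [mem_Cs] at ha; rw [mem_As] at hb
            exact Or.inr (h0' b hb.1 hb.2.1 (by omega) a ha.1 (by rw [ha.2, hb.2.2]))
          · exact chE i a ha b hb
        · intro a ha g hg
          rw [Finset.mem_union] at hg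
          rw [mem_As] at ha
          rcases hg with hg | hg
          · rw [mem_As] at hg
            intro hag
            have := hAA a (hR ha.1) g (hR hg.1) hag
            subst this
            have h5 := ha.2.1
            have h6 := hg.2.1
            omega
          · rw [mem_Cs] at hg
            exact h1 a ha.1 ha.2.1 g hg.1 (by rw [ha.2.2, hg.2])
        · rintro v w ⟨hvw, ⟨hc, -⟩ | ⟨-, hv | hv | hv⟩ | ⟨-, hc, -⟩⟩
          · omega
          · exact ⟨hvw, Or.inl hv⟩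
          · exact ⟨hvw, Or.inr (Finset.mem_union_left _ hv)⟩
          · exact ⟨hvw, Or.inr (Finset.mem_union_right _ hv)⟩
          · omega
      · -- plain slot
        refine (RevN.slot (Up i) (hUp i) (Cs D cD i) (As R kd ix 0 i) (Cs U cU (π i))
          (As R kd ix 1 (π i)) (chC i) (chA 0 i) (chE _) (chA 1 _) ?_ ?_ ?_ ?_ ?_ ?_).mono ?_
        · intro c hc g hg
          rw [mem_Cs] at hc; rw [mem_As] at hg
          exact h0 g hg.1 hg.2.1 c hc.1 (by rw [hc.2, hg.2.2])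
        · intro a ha e he
          rw [mem_As] at ha; rw [mem_Cs] at he
          exact h1 a ha.1 ha.2.1 e he.1 (by rw [ha.2.2, he.2])
        · intro c hc
          rw [mem_Cs] at hc
          exact nUpD i c (hDA c hc.1)
        · intro g hg
          rw [mem_As] at hg
          exact nUpA i g (hR hg.1) (Or.inl ⟨hg.1, Or.inr (Or.inl hg.2)⟩)
        · intro e he
          rw [mem_Cs] at he
          exact UpU i e he.1
        · intro a ha
          rw [mem_As] at ha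
          refine UpA i a (hR ha.1) ?_
          rintro (⟨-, ⟨-, h5⟩ | ⟨h5, -⟩ | h5⟩ | ⟨h5, -⟩)
          · exact h5 ha.2.2
          · omega
          · omega
          · exact hRY a ha.1 h5
        · rintro v w ⟨hvw, ⟨hc, -⟩ | ⟨hc, -⟩ | ⟨-, -, hv⟩⟩
          · omega
          · omega
          · exact ⟨hvw, hv⟩
  -- singles
  have hsing : ∀ i < k, RevN 1 (fun v w => ¬ v ≤ w ∧
      (v = x i ∨ v ∈ As R kd ix 3 i ∨ w = u i ∨ w ∈ As R kd ix 2 i)) := by
    intro i hi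
    refine (RevN.two_chain (insert (x i) (As R kd ix 3 i)) (insert (u i) (As R kd ix 2 i))
      ?_ ?_ ?_).mono ?_
    · intro a ha b hb
      rw [Finset.mem_insert] at ha hb
      rcases ha with rfl | ha <;> rcases hb with rfl | hb
      · exact Or.inl le_rfl
      · rw [mem_As] at hb
        left; have := h3 b hb.1 hb.2.1; rwa [hb.2.2] at this
      · rw [mem_As] at ha
        right; have := h3 a ha.1 ha.2.1; rwa [ha.2.2] at this
      · exact chA 3 i a ha b hb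
    · intro a ha b hb
      rw [Finset.mem_insert] at ha hb
      rcases ha with rfl | ha <;> rcases hb with rfl | hb
      · exact Or.inl le_rfl
      · rw [mem_As] at hb
        right; have := h2 b hb.1 hb.2.1; rwa [hb.2.2] at this
      · rw [mem_As] at ha
        left; have := h2 a ha.1 ha.2.1; rwa [ha.2.2] at this
      · exact chA 2 i a ha b hb
    · intro a ha g hg
      rw [Finset.mem_insert] at ha hg
      have hxa : x i ≤ a := by
        rcases ha with rfl | ha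
        · exact le_rfl
        · rw [mem_As] at ha
          have := h3 a ha.1 ha.2.1; rwa [ha.2.2] at this
      have hgu : g ≤ u i := by
        rcases hg with rfl | hg
        · exact le_rfl
        · rw [mem_As] at hg
          have := h2 g hg.1 hg.2.1; rwa [hg.2.2] at this
      exact fun hag => hxu i hi (hxa.trans (hag.trans hgu))
    · rintro v w ⟨hvw, rfl | hv | rfl | hv⟩
      · exact ⟨hvw, Or.inl (Finset.mem_insert_self _ _)⟩
      · exact ⟨hvw, Or.inl (Finset.mem_insert_of_mem hv)⟩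
      · exact ⟨hvw, Or.inr (Finset.mem_insert_self _ _)⟩
      · exact ⟨hvw, Or.inr (Finset.mem_insert_of_mem hv)⟩
  -- assemble
  have hS := RevN.biUnion (k := 1) τ _ hslots
  have hM := RevN.biUnion (k := 1) k _ hsing
  have hL := RevN.levels A hA
  have hc1 : (Finset.Ico p n).card / m + N₀ ≤ τ / m + N₀ := by
    rw [Nat.card_Ico]
    exact Nat.add_le_add_right (Nat.div_le_div_right (by omega)) _
  have hc2 : (Finset.Ico n (τ - q)).card / m + N₀ ≤ τ / m + N₀ := by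
    rw [Nat.card_Ico]
    exact Nat.add_le_add_right (Nat.div_le_div_right (by omega)) _
  have hT := (hthin₁.le (Nat.mul_le_mul_right 2 hc1)).or (hthin₂.le (Nat.mul_le_mul_right 2 hc2))
  rw [Nat.mul_one] at hS hM
  refine (((hS.or hM).or hL).or hT).mono ?_
  rintro v w ⟨hvw, hv, hw⟩
  -- helper: thin pairs
  have hthin : ∀ i, p ≤ i → i < τ - q →
      ((v ∈ Cs D cD i ∧ w ∈ As R kd ix 1 (π i)) ∨ (v ∈ As R kd ix 0 i ∧ w ∈ Cs U cU (π i))) →
      ((¬ v ≤ w ∧ ∃ i ∈ Finset.Ico p n, (v ∈ Cs D cD i ∧ w ∈ As R kd ix 1 (π₁ i)) ∨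
          (v ∈ As R kd ix 0 i ∧ w ∈ Cs U cU (π₁ i))) ∨
        (¬ v ≤ w ∧ ∃ i ∈ Finset.Ico n (τ - q), (v ∈ Cs D cD i ∧ w ∈ As R kd ix 1 (π₂ i)) ∨
          (v ∈ As R kd ix 0 i ∧ w ∈ Cs U cU (π₂ i)))) := by
    intro i hi1 hi2 hh
    by_cases hin : i < n
    · left
      refine ⟨hvw, i, Finset.mem_Ico.2 ⟨hi1, hin⟩, ?_⟩
      have e : π i = π₁ i := if_pos hin
      rwa [e] at hh
    · right
      refine ⟨hvw, i, Finset.mem_Ico.2 ⟨by omega, hi2⟩, ?_⟩
      have e : π i = π₂ i := if_neg hin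
      rwa [e] at hh
  rcases hw with hw | hw | hw | ⟨j, hj, rfl⟩ | ⟨j, hj, rfl⟩
  · -- w ∈ A
    rcases hv with hv | hv | hv | ⟨i, hi, rfl⟩ | ⟨i, hi, rfl⟩
    · -- A, A
      left; right; left
      exact ⟨hv, hw, fun h => hvw h.le⟩
    · -- D, A
      set i := cD v with hi
      have hiτ := hcD v hv
      have hvC : v ∈ Cs D cD i := mem_Cs.2 ⟨hv, rfl⟩
      by_cases hip : i < p
      · left; left; left
        exact ⟨i, by omega, hvw, Or.inl ⟨hip, Or.inl hvC⟩⟩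
      rcases hRA w hw with hwR | hwY
      · rcases hkd w hwR with ⟨h5, h6⟩ | ⟨h5, h6⟩ | ⟨h5, h6⟩ | ⟨h5, h6⟩
        · -- low served in slot ix w
          left; left; left
          have hwb : w ∈ As R kd ix 0 (ix w) := mem_As.2 ⟨hwR, h5, rfl⟩
          refine ⟨ix w, h6, hvw, ?_⟩
          by_cases h7 : ix w < p
          · exact Or.inl ⟨h7, Or.inr (Or.inr hwb)⟩
          · by_cases h8 : τ - q ≤ ix w
            · exact Or.inr (Or.inl ⟨h8, Or.inr (Or.inl hwb)⟩)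
            · exact Or.inr (Or.inr ⟨by omega, by omega, Or.inr (Or.inl hwb)⟩)
        · by_cases h7 : ix w = π i
          · right
            exact hthin i (by omega) hiτ (Or.inl ⟨hvC, mem_As.2 ⟨hwR, h5, h7⟩⟩)
          · left; left; left
            exact ⟨i, by omega, hvw, Or.inr (Or.inr ⟨by omega, hiτ,
              Or.inl ⟨hvC, nUpA i w hw (Or.inl ⟨hwR, Or.inl ⟨h5, h7⟩⟩)⟩⟩)⟩
        · left; left; right
          exact ⟨ix w, h6, hvw, Or.inr (Or.inr (Or.inr (mem_As.2 ⟨hwR, h5, rfl⟩)))⟩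
        · left; left; left
          exact ⟨i, by omega, hvw, Or.inr (Or.inr ⟨by omega, hiτ,
            Or.inl ⟨hvC, nUpA i w hw (Or.inl ⟨hwR, Or.inr (Or.inr h5)⟩)⟩⟩)⟩
      · have hvN := hYN v hv w hwY hvw
        have hin := hcN v hvN
        left; left; left
        exact ⟨i, by omega, hvw, Or.inr (Or.inr ⟨by omega, hiτ,
          Or.inl ⟨hvC, nUpA i w hw (Or.inr ⟨hwY, hin⟩)⟩⟩)⟩
    · -- U, A
      left; right; right; right
      exact ⟨hUA v hv, Or.inl hw⟩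
    · left; left; right
      exact ⟨i, hi, hvw, Or.inl rfl⟩
    · left; right; right; right
      exact ⟨hu i hi, Or.inl hw⟩
  · -- w ∈ D
    rcases hv with hv | hv | hv | ⟨i, hi, rfl⟩ | ⟨i, hi, rfl⟩
    · left; right; right; left
      exact ⟨hv, hDA w hw⟩
    · set i := cD v with hi
      have hiτ := hcD v hv
      have hvC : v ∈ Cs D cD i := mem_Cs.2 ⟨hv, rfl⟩
      left; left; left
      by_cases hip : i < p
      · exact ⟨i, by omega, hvw, Or.inl ⟨hip, Or.inl hvC⟩⟩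
      · exact ⟨i, by omega, hvw, Or.inr (Or.inr ⟨by omega, hiτ,
          Or.inl ⟨hvC, nUpD i w (hDA w hw)⟩⟩)⟩
    · left; right; right; right
      exact ⟨hUA v hv, Or.inr (hDA w hw)⟩
    · left; left; right
      exact ⟨i, hi, hvw, Or.inl rfl⟩
    · left; right; right; right
      exact ⟨hu i hi, Or.inr (hDA w hw)⟩
  · -- w ∈ U
    have hwj := hcU w hw
    set j := cU w with hj
    have hwE : w ∈ Cs U cU j := mem_Cs.2 ⟨hw, rfl⟩
    by_cases hjq : τ - q ≤ j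
    · left; left; left
      exact ⟨j, hwj.2, hvw, Or.inr (Or.inl ⟨hjq, Or.inr (Or.inr hwE)⟩)⟩
    obtain ⟨i, hi1, hi2, hi3, hi4⟩ := hsurj j hwj.1 (by omega)
    have hwE' : w ∈ Cs U cU (π i) := by rw [hi3]; exact hwE
    rcases hv with hv | hv | hv | ⟨i', hi', rfl⟩ | ⟨i', hi', rfl⟩
    · -- A, U
      rcases hRA v hv with hvR | hvY
      · rcases hkd v hvR with ⟨h5, h6⟩ | ⟨h5, h6⟩ | ⟨h5, h6⟩ | ⟨h5, h6⟩
        · by_cases h7 : ix v = i
          · right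
            exact hthin i hi1 hi2 (Or.inr ⟨mem_As.2 ⟨hvR, h5, h7⟩, hwE'⟩)
          · left; left; left
            refine ⟨i, by omega, hvw, Or.inr (Or.inr ⟨hi1, hi2, Or.inr (Or.inr (Or.inl
              ⟨hwE', UpA i v hv ?_⟩))⟩)⟩
            rintro (⟨-, ⟨h8, -⟩ | ⟨-, h8⟩ | h8⟩ | ⟨h8, -⟩)
            · omega
            · exact h7 h8
            · omega
            · exact hRY v hvR h8
        · -- high served in slot with upper index ix v
          left; left; left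
          have hva : v ∈ As R kd ix 1 (ix v) := mem_As.2 ⟨hvR, h5, rfl⟩
          by_cases h7 : ix v < p
          · exact ⟨ix v, h6, hvw, Or.inl ⟨h7, Or.inr (Or.inl hva)⟩⟩
          · by_cases h8 : τ - q ≤ ix v
            · exact ⟨ix v, h6, hvw, Or.inr (Or.inl ⟨h8, Or.inl hva⟩)⟩
            · obtain ⟨i', hi1', hi2', hi3', hi4'⟩ := hsurj (ix v) (by omega) (by omega)
              refine ⟨i', by omega, hvw, Or.inr (Or.inr ⟨hi1', hi2', Or.inr (Or.inr (Or.inr ?_))⟩)⟩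
              rw [hi3']; exact hva
        · left; left; left
          refine ⟨i, by omega, hvw, Or.inr (Or.inr ⟨hi1, hi2, Or.inr (Or.inr (Or.inl
            ⟨hwE', UpA i v hv ?_⟩))⟩)⟩
          rintro (⟨-, ⟨h8, -⟩ | ⟨h8, -⟩ | h8⟩ | ⟨h8, -⟩)
          · omega
          · omega
          · omega
          · exact hRY v hvR h8
        · left; left; right
          exact ⟨ix v, h6, hvw, Or.inr (Or.inl (mem_As.2 ⟨hvR, h5, rfl⟩))⟩
      · have hwN' := hYN' w hw v hvY hvw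
        have hjn := hcN' w hwN'
        left; left; left
        refine ⟨i, by omega, hvw, Or.inr (Or.inr ⟨hi1, hi2, Or.inr (Or.inr (Or.inl
          ⟨hwE', UpA i v hv ?_⟩))⟩)⟩
        rintro (⟨h8, -⟩ | ⟨-, h8⟩)
        · exact hRY v h8 hvY
        · omega
    · -- D, U
      have hvD := hcD v hv
      rcases hK v hv w hw hvw with h5 | h5
      · left; left; left
        have := hcP v h5
        exact ⟨cD v, by omega, hvw, Or.inl ⟨this, Or.inl (mem_Cs.2 ⟨hv, rfl⟩)⟩⟩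
      · have := hcQ w h5
        omega
    · left; left; left
      exact ⟨i, by omega, hvw, Or.inr (Or.inr ⟨hi1, hi2, Or.inr (Or.inr (Or.inl
        ⟨hwE', UpU i v hv⟩))⟩)⟩
    · left; left; right
      exact ⟨i', hi', hvw, Or.inl rfl⟩
    · left; left; left
      exact ⟨i, by omega, hvw, Or.inr (Or.inr ⟨hi1, hi2, Or.inr (Or.inr (Or.inl
        ⟨hwE', Upu i i' hi'⟩))⟩)⟩
  · -- w = x j
    rcases hv with hv | hv | hv | ⟨i, hi, rfl⟩ | ⟨i, hi, rfl⟩
    · left; right; right; left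
      exact ⟨hv, hx j hj⟩
    · set i := cD v with hi
      have hiτ := hcD v hv
      have hvC : v ∈ Cs D cD i := mem_Cs.2 ⟨hv, rfl⟩
      left; left; left
      by_cases hip : i < p
      · exact ⟨i, by omega, hvw, Or.inl ⟨hip, Or.inl hvC⟩⟩
      · exact ⟨i, by omega, hvw, Or.inr (Or.inr ⟨by omega, hiτ,
          Or.inl ⟨hvC, nUpD i (x j) (hx j hj)⟩⟩)⟩
    · left; right; right; right
      exact ⟨hUA v hv, Or.inr (hx j hj)⟩
    · left; left; right
      exact ⟨i, hi, hvw, Or.inl rfl⟩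
    · left; right; right; right
      exact ⟨hu i hi, Or.inr (hx j hj)⟩
  · -- w = u j
    left; left; right
    exact ⟨j, hj, hvw, Or.inr (Or.inr (Or.inl rfl))⟩

end Pool.MP_54f573_pr.RGO
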