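import Pool.Agent.Work.MP_54f573_pr.Core

set_option autoImplicit false
open Classical

namespace Pool.MP_54f573_pr.RGO

variable {α : Type*} [PartialOrder α]

theorem Cov.subset {M : ℕ} {F F' : Finset (α × α)} (h : Cov M F) (hF : F' ⊆ F) : Cov M F' := by
  obtain ⟨B, hB, hFB⟩ := h
  exact ⟨B, hB, hF.trans hFB⟩

theorem Cov.union {M M' : ℕ} {F F' : Finset (α × α)} (h : Cov M F) (h' : Cov M' F') :
    Cov (M + M') (F ∪ F') := by
  obtain ⟨B, hB, hFB⟩ := h
  obtain ⟨B', hB', hFB'⟩ := h'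
  refine ⟨Fin.append B B', ?_, ?_⟩
  · intro i
    refine Fin.addCases (fun i => ?_) (fun i => ?_) i
    · rw [Fin.append_left]; exact hB i
    · rw [Fin.append_right]; exact hB' i
  · intro e he
    rw [Finset.mem_union] at he
    rw [Finset.mem_biUnion]
    rcases he with he | he
    · obtain ⟨i, -, hi⟩ := Finset.mem_biUnion.1 (hFB he)
      exact ⟨Fin.castAdd M' i, Finset.mem_univ _, by rw [Fin.append_left]; exact hi⟩
    · obtain ⟨i, -, hi⟩ := Finset.mem_biUnion.1 (hFB' he)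
      exact ⟨Fin.natAdd M i, Finset.mem_univ _, by rw [Fin.append_right]; exact hi⟩

theorem Cov.empty (M : ℕ) : Cov M (∅ : Finset (α × α)) :=
  ⟨fun _ => ∅, fun _ a ha => absurd ha (Finset.notMem_empty a), Finset.empty_subset _⟩

theorem Cov.mono {M M' : ℕ} {F : Finset (α × α)} (h : Cov M F) (hM : M ≤ M') : Cov M' F := by
  have h1 := h.union (Cov.empty (α := α) (M' - M))
  rw [Nat.add_sub_cancel' hM, Finset.union_empty] at h1
  exact h1

theorem Cov.single {B : Finset α} (hB : ACh B) {F : Finset (α × α)} (hF : F ⊆ B.offDiag) :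
    Cov 1 F := by
  refine ⟨fun _ => B, fun _ => hB, hF.trans ?_⟩
  intro e he
  exact Finset.mem_biUnion.2 ⟨0, Finset.mem_univ _, he⟩

theorem Cov.ne {M : ℕ} {F : Finset (α × α)} (h : Cov M F) : ∀ e ∈ F, e.1 ≠ e.2 := by
  obtain ⟨B, hB, hFB⟩ := h
  intro e he
  obtain ⟨i, -, hi⟩ := Finset.mem_biUnion.1 (hFB he)
  exact (Finset.mem_offDiag.1 hi).2.2

/-- enumerate a finite set -/
theorem enum {γ : Type*} (s : Finset γ) (n : ℕ) (hs : s.card = n) (g₀ : γ) :
    ∃ g : ℕ → γ, (∀ i < n, g i ∈ s) ∧ (∀ i < n, ∀ j < n, g i = g j → i = j) ∧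
      ∀ e ∈ s, ∃ i < n, g i = e := by
  let e := s.equivFinOfCardEq hs
  refine ⟨fun i => if h : i < n then (e.symm ⟨i, h⟩ : γ) else g₀, ?_, ?_, ?_⟩
  · intro i hi
    simp only [hi, dif_pos]
    exact (e.symm ⟨i, hi⟩).2
  · intro i hi j hj hij
    simp only [hi, hj, dif_pos] at hij
    have := e.symm.injective (Subtype.ext hij)
    simpa using this
  · intro v hv
    refine ⟨e ⟨v, hv⟩, (e ⟨v, hv⟩).2, ?_⟩
    simp

/-- State after `J` macro-steps. -/
structure St (D U : Finset α) (t r J : ℕ) (D' U' : Finset α) (x u : ℕ → α)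
    (F0 : Finset (α × α)) : Prop where
  subD : D' ⊆ D
  subU : U' ⊆ U
  covD : ∀ v ∈ D, v ∈ D' ∨ ∃ i < J * r, v = x i
  covU : ∀ v ∈ U, v ∈ U' ∨ ∃ i < J * r, v = u i
  xD : ∀ i < J * r, x i ∈ D ∧ x i ∉ D'
  uU : ∀ i < J * r, u i ∈ U ∧ u i ∉ U'
  xu : ∀ i < J * r, ¬ x i ≤ u i
  xinj : ∀ i < J * r, ∀ j < J * r, x i = x j → i = j
  uinj : ∀ i < J * r, ∀ j < J * r, u i = u j → i = j
  blkx : ∀ j < J, ∀ i < r, ∀ i' < r, ¬ x (j * r + i) < x (j * r + i')
  blku : ∀ j < J, ∀ i < r, ∀ i' < r, ¬ u (j * r + i) < u (j * r + i')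
  cov : Cov (2 * J) F0
  F0D : ∀ e ∈ F0, (e.1 ∈ D ∧ e.2 ∈ D ∧ ¬ (e.1 ∈ D' ∧ e.2 ∈ D')) ∨
    (e.1 ∈ U ∧ e.2 ∈ U ∧ ¬ (e.1 ∈ U' ∧ e.2 ∈ U'))
  card : t ^ 2 ≤ F0.card + J * (r ^ 2 + 2 * r) + (t - J * r) ^ 2
  Jr : J * r ≤ t

omit [PartialOrder α] in
theorem card_gain (X V : Finset α) (r : ℕ) (hV : V ⊆ X) (hVr : V.card = r) :
    ∃ a', X.card = r + a' ∧ (X.offDiag \ (X \ V).offDiag).card + r = r ^ 2 + 2 * r * a' := by
  have h1 : r ≤ X.card := by rw [← hVr]; exact Finset.card_le_card hV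
  obtain ⟨a', ha'⟩ := Nat.exists_eq_add_of_le h1
  refine ⟨a', ha', ?_⟩
  have h2 : (X \ V).card = a' := by
    rw [Finset.card_sdiff_of_subset hV, hVr, ha']; omega
  have h3 : (X \ V).offDiag ⊆ X.offDiag := Finset.offDiag_mono Finset.sdiff_subset
  rw [Finset.card_sdiff_of_subset h3, Finset.offDiag_card, Finset.offDiag_card, h2, ha']
  have e1 : (r + a') * (r + a') = r ^ 2 + 2 * r * a' + a' * a' := by ring
  have e2 : a' ≤ a' * a' := Nat.le_mul_self a'
  have e3 : r ≤ r ^ 2 := by rw [pow_two]; exact Nat.le_mul_self r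
  omega

theorem St.init (D U : Finset α) (t r : ℕ) (x u : ℕ → α) :
    St D U t r 0 D U x u ∅ where
  subD := Finset.Subset.refl _
  subU := Finset.Subset.refl _
  covD := fun v hv => Or.inl hv
  covU := fun v hv => Or.inl hv
  xD := fun i hi => by omega
  uU := fun i hi => by omega
  xu := fun i hi => by omega
  xinj := fun i hi => by omega
  uinj := fun i hi => by omega
  blkx := fun j hj => by omega
  blku := fun j hj => by omega
  cov := Cov.empty _
  F0D := fun e he => absurd he (Finset.notMem_empty _)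
  card := by simp
  Jr := by simp

theorem St.step {D U : Finset α} (hdis : Disjoint D U) {t r J : ℕ} {D' U' : Finset α}
    {x u : ℕ → α} {F0 : Finset (α × α)}
    (hs : St D U t r J D' U' x u F0) (hMF : ¬ MF D' U' (t - J * r) r) (hr : 0 < r)
    (hJ : (J + 1) * r ≤ t) :
    ∃ D'' U'' x' u' F0', St D U t r (J + 1) D'' U'' x' u' F0' := by
  unfold MF at hMF
  push Not at hMF
  obtain ⟨X, hX, X', hX', hXa, hXa', hXX, M, hM, hMr⟩ := hMF
  obtain ⟨M', hM', hM'c⟩ := Finset.exists_subset_card_eq hMr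
  have hMt : IsMt X X' M' :=
    ⟨fun e he => hM.1 e (hM' he), fun e he e' he' => hM.2.1 e (hM' he) e' (hM' he'),
      fun e he e' he' => hM.2.2 e (hM' he) e' (hM' he')⟩
  obtain ⟨e₀, he₀⟩ : M'.Nonempty := Finset.card_pos.1 (by omega)
  obtain ⟨g, hg1, hg2, hg3⟩ := enum M' r hM'c e₀
  set V := M'.image Prod.fst with hV
  set V' := M'.image Prod.snd with hV'
  have hVc : V.card = r := by
    rw [hV, Finset.card_image_of_injOn, hM'c]
    exact fun e he e' he' h => hMt.2.1 e he e' he' h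
  have hVc' : V'.card = r := by
    rw [hV', Finset.card_image_of_injOn, hM'c]
    exact fun e he e' he' h => hMt.2.2 e he e' he' h
  have hVX : V ⊆ X := by
    intro v hv
    rw [hV, Finset.mem_image] at hv
    obtain ⟨e, he, rfl⟩ := hv
    exact (hMt.1 e he).1
  have hVX' : V' ⊆ X' := by
    intro v hv
    rw [hV', Finset.mem_image] at hv
    obtain ⟨e, he, rfl⟩ := hv
    exact (hMt.1 e he).2.1
  have gV : ∀ i < r, (g i).1 ∈ V := fun i hi => Finset.mem_image.2 ⟨g i, hg1 i hi, rfl⟩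
  have gV' : ∀ i < r, (g i).2 ∈ V' := fun i hi => Finset.mem_image.2 ⟨g i, hg1 i hi, rfl⟩
  let x' : ℕ → α := fun i => if i < J * r then x i else (g (i - J * r)).1
  let u' : ℕ → α := fun i => if i < J * r then u i else (g (i - J * r)).2
  have x'1 : ∀ i, i < J * r → x' i = x i := fun i hi => if_pos hi
  have x'2 : ∀ i, ¬ i < J * r → x' i = (g (i - J * r)).1 := fun i hi => if_neg hi
  have u'1 : ∀ i, i < J * r → u' i = u i := fun i hi => if_pos hi
  have u'2 : ∀ i, ¬ i < J * r → u' i = (g (i - J * r)).2 := fun i hi => if_neg hi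
  have hJ1 : (J + 1) * r = J * r + r := by ring
  rw [hJ1] at hJ
  set G1 := X.offDiag \ (X \ V).offDiag with hG1
  set G2 := X'.offDiag \ (X' \ V').offDiag with hG2
  have hG1D : ∀ e ∈ G1, e.1 ∈ D' ∧ e.2 ∈ D' ∧ ¬ (e.1 ∈ D' \ V ∧ e.2 ∈ D' \ V) := by
    intro e he
    rw [hG1, Finset.mem_sdiff, Finset.mem_offDiag] at he
    refine ⟨hX he.1.1, hX he.1.2.1, fun h => he.2 (Finset.mem_offDiag.2 ⟨?_, ?_, he.1.2.2⟩)⟩
    · exact Finset.mem_sdiff.2 ⟨he.1.1, (Finset.mem_sdiff.1 h.1).2⟩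
    · exact Finset.mem_sdiff.2 ⟨he.1.2.1, (Finset.mem_sdiff.1 h.2).2⟩
  have hG2D : ∀ e ∈ G2, e.1 ∈ U' ∧ e.2 ∈ U' ∧ ¬ (e.1 ∈ U' \ V' ∧ e.2 ∈ U' \ V') := by
    intro e he
    rw [hG2, Finset.mem_sdiff, Finset.mem_offDiag] at he
    refine ⟨hX' he.1.1, hX' he.1.2.1, fun h => he.2 (Finset.mem_offDiag.2 ⟨?_, ?_, he.1.2.2⟩)⟩
    · exact Finset.mem_sdiff.2 ⟨he.1.1, (Finset.mem_sdiff.1 h.1).2⟩
    · exact Finset.mem_sdiff.2 ⟨he.1.2.1, (Finset.mem_sdiff.1 h.2).2⟩
  have hDU : ∀ v, v ∈ D → v ∉ U := fun v h1 h2 => Finset.disjoint_left.1 hdis h1 h2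
  refine ⟨D' \ V, U' \ V', x', u', (F0 ∪ G1) ∪ G2, ?_⟩
  refine ⟨?_, ?_, ?_, ?_, ?_, ?_, ?_, ?_, ?_, ?_, ?_, ?_, ?_, ?_, ?_⟩
  · exact Finset.sdiff_subset.trans hs.subD
  · exact Finset.sdiff_subset.trans hs.subU
  · intro v hv
    rcases hs.covD v hv with h | ⟨i, hi, rfl⟩
    · by_cases hvV : v ∈ V
      · right
        rw [hV, Finset.mem_image] at hvV
        obtain ⟨e, he, rfl⟩ := hvV
        obtain ⟨i, hi, hie⟩ := hg3 e he
        refine ⟨J * r + i, by omega, ?_⟩
        rw [x'2 _ (by omega), Nat.add_sub_cancel_left, hie]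
      · exact Or.inl (Finset.mem_sdiff.2 ⟨h, hvV⟩)
    · exact Or.inr ⟨i, by omega, (x'1 i hi).symm⟩
  · intro v hv
    rcases hs.covU v hv with h | ⟨i, hi, rfl⟩
    · by_cases hvV : v ∈ V'
      · right
        rw [hV', Finset.mem_image] at hvV
        obtain ⟨e, he, rfl⟩ := hvV
        obtain ⟨i, hi, hie⟩ := hg3 e he
        refine ⟨J * r + i, by omega, ?_⟩
        rw [u'2 _ (by omega), Nat.add_sub_cancel_left, hie]
      · exact Or.inl (Finset.mem_sdiff.2 ⟨h, hvV⟩)
    · exact Or.inr ⟨i, by omega, (u'1 i hi).symm⟩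
  · intro i hi
    by_cases h : i < J * r
    · rw [x'1 i h]
      exact ⟨(hs.xD i h).1, fun hc => (hs.xD i h).2 (Finset.mem_sdiff.1 hc).1⟩
    · rw [x'2 i h]
      have := gV (i - J * r) (by omega)
      exact ⟨hs.subD (hX (hVX this)), fun hc => (Finset.mem_sdiff.1 hc).2 this⟩
  · intro i hi
    by_cases h : i < J * r
    · rw [u'1 i h]
      exact ⟨(hs.uU i h).1, fun hc => (hs.uU i h).2 (Finset.mem_sdiff.1 hc).1⟩
    · rw [u'2 i h]
      have := gV' (i - J * r) (by omega)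
      exact ⟨hs.subU (hX' (hVX' this)), fun hc => (Finset.mem_sdiff.1 hc).2 this⟩
  · intro i hi
    by_cases h : i < J * r
    · rw [x'1 i h, u'1 i h]; exact hs.xu i h
    · rw [x'2 i h, u'2 i h]
      exact (hMt.1 _ (hg1 (i - J * r) (by omega))).2.2
  · intro i hi j hj hij
    by_cases h : i < J * r <;> by_cases h' : j < J * r
    · rw [x'1 i h, x'1 j h'] at hij; exact hs.xinj i h j h' hij
    · rw [x'1 i h, x'2 j h'] at hij
      have := hX (hVX (gV (j - J * r) (by omega)))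
      rw [← hij] at this
      exact absurd this (hs.xD i h).2
    · rw [x'2 i h, x'1 j h'] at hij
      have := hX (hVX (gV (i - J * r) (by omega)))
      rw [hij] at this
      exact absurd this (hs.xD j h').2
    · rw [x'2 i h, x'2 j h'] at hij
      have := hg2 _ (by omega) _ (by omega)
        (hMt.2.1 _ (hg1 (i - J * r) (by omega)) _ (hg1 (j - J * r) (by omega)) hij)
      omega
  · intro i hi j hj hij
    by_cases h : i < J * r <;> by_cases h' : j < J * r
    · rw [u'1 i h, u'1 j h'] at hij; exact hs.uinj i h j h' hij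
    · rw [u'1 i h, u'2 j h'] at hij
      have := hX' (hVX' (gV' (j - J * r) (by omega)))
      rw [← hij] at this
      exact absurd this (hs.uU i h).2
    · rw [u'2 i h, u'1 j h'] at hij
      have := hX' (hVX' (gV' (i - J * r) (by omega)))
      rw [hij] at this
      exact absurd this (hs.uU j h').2
    · rw [u'2 i h, u'2 j h'] at hij
      have := hg2 _ (by omega) _ (by omega)
        (hMt.2.2 _ (hg1 (i - J * r) (by omega)) _ (hg1 (j - J * r) (by omega)) hij)
      omega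
  · intro j hj i hi i' hi'
    by_cases hjJ : j = J
    · subst hjJ
      rw [x'2 _ (by omega), x'2 _ (by omega), Nat.add_sub_cancel_left, Nat.add_sub_cancel_left]
      exact hXa _ (hVX (gV i hi)) _ (hVX (gV i' hi'))
    · have hlt : j * r + r ≤ J * r := by
        have : (j + 1) * r ≤ J * r := Nat.mul_le_mul_right r (by omega)
        linarith
      rw [x'1 _ (by omega), x'1 _ (by omega)]
      exact hs.blkx j (by omega) i hi i' hi'
  · intro j hj i hi i' hi'
    by_cases hjJ : j = J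
    · subst hjJ
      rw [u'2 _ (by omega), u'2 _ (by omega), Nat.add_sub_cancel_left, Nat.add_sub_cancel_left]
      exact hXa' _ (hVX' (gV' i hi)) _ (hVX' (gV' i' hi'))
    · have hlt : j * r + r ≤ J * r := by
        have : (j + 1) * r ≤ J * r := Nat.mul_le_mul_right r (by omega)
        linarith
      rw [u'1 _ (by omega), u'1 _ (by omega)]
      exact hs.blku j (by omega) i hi i' hi'
  · have h1 := (hs.cov.union (Cov.single hXa (F := G1) Finset.sdiff_subset)).union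
      (Cov.single hXa' (F := G2) Finset.sdiff_subset)
    exact h1.mono (by omega)
  · intro e he
    rw [Finset.mem_union, Finset.mem_union] at he
    rcases he with (he | he) | he
    · rcases hs.F0D e he with h | h
      · exact Or.inl ⟨h.1, h.2.1, fun hc => h.2.2
          ⟨(Finset.mem_sdiff.1 hc.1).1, (Finset.mem_sdiff.1 hc.2).1⟩⟩
      · exact Or.inr ⟨h.1, h.2.1, fun hc => h.2.2
          ⟨(Finset.mem_sdiff.1 hc.1).1, (Finset.mem_sdiff.1 hc.2).1⟩⟩
    · have h := hG1D e he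
      exact Or.inl ⟨hs.subD h.1, hs.subD h.2.1, h.2.2⟩
    · have h := hG2D e he
      exact Or.inr ⟨hs.subU h.1, hs.subU h.2.1, h.2.2⟩
  · -- cardinality
    have hd1 : Disjoint F0 G1 := by
      rw [Finset.disjoint_left]
      intro e he he1
      have h := hG1D e he1
      rcases hs.F0D e he with h' | h'
      · exact h'.2.2 ⟨h.1, h.2.1⟩
      · exact hDU _ (hs.subD h.1) h'.1
    have hd2 : Disjoint (F0 ∪ G1) G2 := by
      rw [Finset.disjoint_left]
      intro e he he1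
      have h := hG2D e he1
      rw [Finset.mem_union] at he
      rcases he with he | he
      · rcases hs.F0D e he with h' | h'
        · exact hDU _ h'.1 (hs.subU h.1)
        · exact h'.2.2 ⟨h.1, h.2.1⟩
      · exact hDU _ (hs.subD (hG1D e he).1) (hs.subU h.1)
    rw [Finset.card_union_of_disjoint hd2, Finset.card_union_of_disjoint hd1]
    obtain ⟨a', ha', hca⟩ := card_gain X V r hVX hVc
    obtain ⟨b', hb', hcb⟩ := card_gain X' V' r hVX' hVc'
    obtain ⟨τ', hτ'⟩ := Nat.exists_eq_add_of_le hJ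
    have e1 : t - (J + 1) * r = τ' := by rw [hJ1]; omega
    have e2 : t - J * r = r + τ' := by omega
    have h3 := hs.card
    rw [e2] at h3 hXX
    rw [e1]
    have h4 : τ' ≤ a' + b' + r := by omega
    have h5 : 2 * r * τ' ≤ 2 * r * (a' + b' + r) := Nat.mul_le_mul_left _ h4
    have e3 : 2 * r * (a' + b' + r) = 2 * r * a' + 2 * r * b' + 2 * r ^ 2 := by ring
    have e4 : (r + τ') ^ 2 = r ^ 2 + 2 * r * τ' + τ' ^ 2 := by ring
    have e5 : (J + 1) * (r ^ 2 + 2 * r) = J * (r ^ 2 + 2 * r) + (r ^ 2 + 2 * r) := by ring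
    rw [e4] at h3
    rw [e5]
    have hG1' : G1.card + r = r ^ 2 + 2 * r * a' := hca
    have hG2' : G2.card + r = r ^ 2 + 2 * r * b' := hcb
    omega
  · rw [hJ1]; exact hJ

/-- Either some state satisfies the matching free condition, or we get to the end. -/
theorem St.exists {D U : Finset α} (hdis : Disjoint D U) (t r : ℕ) (hr : 0 < r) (x₀ : α) :
    ∀ J, J * r ≤ t → (∃ J' ≤ J, ∃ D' U' x u F0, St D U t r J' D' U' x u F0 ∧
        MF D' U' (t - J' * r) r) ∨ (∃ D' U' x u F0, St D U t r J D' U' x u F0) := by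
  intro J
  induction J with
  | zero =>
    intro _
    exact Or.inr ⟨D, U, fun _ => x₀, fun _ => x₀, ∅, St.init D U t r _ _⟩
  | succ J ih =>
    intro hJ
    rcases ih (le_trans (Nat.mul_le_mul_right r (Nat.le_succ J)) hJ) with
      ⟨J', hJ', h⟩ | ⟨D', U', x, u, F0, hs⟩
    · exact Or.inl ⟨J', by omega, h⟩
    · by_cases hMF : MF D' U' (t - J * r) r
      · exact Or.inl ⟨J, by omega, D', U', x, u, F0, hs, hMF⟩
      · exact Or.inr (hs.step hdis hMF hr hJ)

end Pool.MP_54f573_pr.RGO
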